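import Mathlib
import Pool.Agent.Lib.MP_2ab09f_lc.Model

/-!
Randomized id consensus: the intermediate adversary, and algorithms with local coins.
-/

open MeasureTheory
open scoped ENNReal

namespace Pool.Agent.Lib.MP_2ab09f_lc

/-- What the adversary sees of a step: processor `p` has read register `r` and found the value `v`;
`p` has written to register `r` (the value is not seen); `p` has already output `u`. -/
inductive Ev (n : ℕ) where
  | read (p : Fin n) (r v : ℕ)
  | write (p : Fin n) (r : ℕ)
  | out (p : Fin n) (u : ℕ)

/-- The event of the step of `p` in the configuration `κ`. -/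
def event {n : ℕ} (P : Fin n → Prog) (κ : Conf (Fin n)) (p : Fin n) : Ev n :=
  match P p (κ.hist p) with
  | .read r => .read p r (κ.mem r)
  | .write r _ => .write p r
  | .out u => .out p u

/-- An adversary: the next processor as a function of the events so far. -/
abbrev Adv (n : ℕ) : Type := List (Ev n) → Fin n

/-- The configuration and the events after `t` steps against the adversary `σ`. -/
def play {n : ℕ} (P : Fin n → Prog) (σ : Adv n) : ℕ → Conf (Fin n) × List (Ev n)
  | 0 => (⟨fun _ => 0, fun _ => []⟩, [])
  | t + 1 => (step P (play P σ t).1 (σ (play P σ t).2),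
      (play P σ t).2 ++ [event P (play P σ t).1 (σ (play P σ t).2)])

/-- The algorithm for `n` processors in which every processor runs the program `prog` with its id
and its own coins. -/
def Alg.ofLocal {Ω : Type*} [MeasurableSpace Ω] (n : ℕ) (prog : ℕ → Ω → Prog)
    (hm : ∀ i h a, MeasurableSet {ω | prog i ω h = a}) : Alg n (Fin n → Ω) where
  prog p i ω := prog i (ω p)
  meas p i h a := by
    have h1 : Measurable fun ω : Fin n → Ω => ω p := measurable_pi_apply p
    exact h1 (hm i h a)

/-- The expected number of steps that processor `p` takes against the adversary `σ`. -/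
noncomputable def Alg.expStepsAdv {n : ℕ} {Ω : Type*} [MeasurableSpace Ω] (A : Alg n Ω)
    (μ : Measure Ω) (u : Fin n → ℕ) (σ : Adv n) (p : Fin n) : ℝ≥0∞ :=
  ∫⁻ ω, ⨆ t, (((play (A.at u ω) σ t).1.hist p).length : ℝ≥0∞) ∂μ

/-- Wait-freedom against the adversary `σ`: almost surely every processor that is scheduled
infinitely often outputs. -/
def Alg.WaitFreeAdv {n : ℕ} {Ω : Type*} [MeasurableSpace Ω] (A : Alg n Ω) (μ : Measure Ω)
    (u : Fin n → ℕ) (σ : Adv n) : Prop :=
  ∀ᵐ ω ∂μ, ∀ p, (∀ T, ∃ t ≥ T, σ (play (A.at u ω) σ t).2 = p) →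
    ∃ t a, Outputs (A.at u ω) (play (A.at u ω) σ t).1 p a

end Pool.Agent.Lib.MP_2ab09f_lc
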