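import Mathlib

/-!
# Randomized id consensus in O(sqrt (log n)) expected steps: the algorithm

`c` is the parameter (about `sqrt (log2 n)`), `n <= 2 ^ (c * c)`.

The algorithm works in epochs `e = 0, 1, 2, ...`; each epoch uses its own registers.
Registers (all initially `0`):
* `F e i`  : the array of contents, `i <= c + 3`;
* `Z e j`  : the anchor register of index `j`;
* `X e j r b`, `W e j r` : round `r` of the binary consensus of index `j` (sides `b = true`: stop
  with the content that passed, `b = false`: go on);
* `C e o k` : the hidden coins of the owner `o`;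
* `D e`, `V e` : decision and overflow registers;
* `T` : a trash register.
A content is `cont o x` (`o` = id of its owner, `x` = preference of the owner), it is not `0`.
-/

namespace Pool.Agent.Lib.MP_2ab09f_lc.SQ

/-- The registers. -/
inductive Reg where
  | F (e i : ℕ)
  | Z (e j : ℕ)
  | X (e j r : ℕ) (b : Bool)
  | W (e j r : ℕ)
  | C (e o k : ℕ)
  | D (e : ℕ)
  | V (e : ℕ)
  | T
  deriving DecidableEq

/-- What a processor does next. -/
inductive AAct where
  | read (r : Reg)
  | write (r : Reg) (v : ℕ)
  | out (u : ℕ)
  deriving DecidableEq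

/-- The phases of the local program (see `act` and `nxt`). `j` = index, `i` = position in `F`,
`r` = round, `b` = side, `v` = content. -/
inductive Ph where
  | coin (k : ℕ)
  | rd (a : ℕ) (f : Bool)
  | wr (a : ℕ)
  | top (j i : ℕ)
  | nx (j i v : ℕ)
  | z (j i v : ℕ)
  | zw (j i v : ℕ)
  | c1 (j i v : ℕ)
  | c2 (j i v : ℕ)
  | pX (j i r : ℕ) (b : Bool) (v : ℕ)
  | pY (j i r : ℕ) (b : Bool) (v : ℕ)
  | pW (j i r : ℕ) (b : Bool) (v : ℕ)
  | pR (j i r : ℕ) (b : Bool) (v : ℕ)
  | pV (j i r : ℕ) (b : Bool) (v : ℕ)
  | pC (j i r : ℕ) (b : Bool) (v : ℕ)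
  | fd (v : ℕ)
  | fr (v : ℕ)
  | ow
  | od
  | done (u : ℕ)
  deriving DecidableEq

/-- Local state: epoch `e`, preference `x`, number `k` of steps since the coins of this epoch were
written, number `q` of completed rounds in this epoch, phase. -/
structure LS where
  e : ℕ
  x : ℕ
  k : ℕ
  q : ℕ
  ph : Ph
  deriving DecidableEq

/-- Values of a coin: a uniform element of this finite type. -/
abbrev Cn (c : ℕ) : Type := Fin (2 ^ (c * c)) × Fin (2 ^ (c + 6))

/-- `hit`: with probability `2 ^ (- c * (c - a))` the write attempt of level `a` goes to `F`. -/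
def hit (c a : ℕ) (y : Cn c) : Bool := decide (y.1.val < 2 ^ (c * a))

/-- The position in `F`: `0` with probability `15/16`, `i` with probability `2 ^ (- i - 4)` for
`1 <= i < c + 3`, and `c + 3` with the rest `2 ^ (- c - 6)`. -/
def pos (c : ℕ) (y : Cn c) : ℕ := (c + 3) - Nat.size y.2.val

/-- A fair bit. -/
def bit (c : ℕ) (y : Cn c) : ℕ := y.2.val % 2

/-- The content of owner `o` with preference `x`. -/
def cont (o x : ℕ) : ℕ := Nat.pair o x + 1
/-- The owner of a content. -/
def own (v : ℕ) : ℕ := (Nat.unpair (v - 1)).1
/-- The preference in a content. -/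
def val (v : ℕ) : ℕ := (Nat.unpair (v - 1)).2

/-- Bound for the number of relevant writes (bad event 3). -/
def X3 (c : ℕ) : ℕ := 16 * (28 + 2 * (c + 3))
/-- Bound for the number of indices. -/
def JJ (c : ℕ) : ℕ := X3 c + (c + 3) + 1
/-- Bound for the number of bad coins (bad event 4). -/
def X4 (c : ℕ) : ℕ := 16 * JJ c
/-- The budget of an epoch. -/
def S0 (c : ℕ) : ℕ := 3 * c + 14 * JJ c + 4 * X4 c + 10

/-- The name of the coin that a processor uses in the state `s` (bit coins have even second
component, location coins odd; the value for the other phases is not used). -/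
def nm (s : LS) : ℕ × ℕ :=
  match s.ph with
  | .coin k => (s.e, 2 * k)
  | .wr a => (s.e, 2 * a + 1)
  | _ => (0, 0)

/-- The next action of the processor with id `o` in the state `s`, when the coin is `y`. -/
def act (c o : ℕ) (y : Cn c) (s : LS) : AAct :=
  match s.ph with
  | .coin k => .write (.C s.e o k) (bit c y + 1)
  | .rd _ _ => .read (.F s.e 0)
  | .wr a => if hit c a y then .write (.F s.e (pos c y)) (cont o s.x) else .write .T 1
  | .top _ i => .read (.F s.e i)
  | .nx _ i _ => .read (.F s.e (i + 1))
  | .z j _ _ => .read (.Z s.e j)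
  | .zw j _ v => .write (.Z s.e j) v
  | .c1 _ i _ => .read (.F s.e (i + 1))
  | .c2 _ i _ => .read (.F s.e i)
  | .pX j _ r b v => .write (.X s.e j r b) (if b then v else 1)
  | .pY j _ r b _ => .read (.X s.e j r (!b))
  | .pW j _ r b _ => .write (.W s.e j r) (b.toNat + 1)
  | .pR j _ r b _ => .read (.X s.e j r (!b))
  | .pV j _ r _ _ => .read (.W s.e j r)
  | .pC j _ r _ v => .read (.C s.e (own v) (2 * r + j % 2))
  | .fd v => .write (.D s.e) v
  | .fr _ => .read (.V s.e)
  | .ow => .write (.V s.e) 1
  | .od => .read (.D s.e)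
  | .done u => .out u

/-- A step of the main part of an epoch: the counter `k` goes up; when the budget is used the
processor goes to the overflow phase `ow`. -/
def cap (c : ℕ) (s : LS) (q : ℕ) (ph : Ph) : LS :=
  if S0 c ≤ s.k + 1 then ⟨s.e, s.x, s.k + 1, q, .ow⟩ else ⟨s.e, s.x, s.k + 1, q, ph⟩

/-- The beginning of the next epoch, with preference `x`. -/
def newE (s : LS) (x : ℕ) : LS := ⟨s.e + 1, x, 0, 0, .coin 0⟩

/-- The next local state, when the coin is `y` and the response is `a` (`0` for a write). -/
def nxt (c : ℕ) (y : Cn c) (s : LS) (a : ℕ) : LS :=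
  match s.ph with
  | .coin k => if k + 1 < 2 * S0 c then { s with ph := .coin (k + 1) }
      else { s with ph := .rd 0 false }
  | .rd l f => cap c s s.q (if a = 0 then (if f then .rd l true else .wr l) else .nx 0 0 a)
  | .wr l => cap c s s.q (.rd (l + 1) (hit c l y))
  | .top j i => cap c s s.q (.nx j i a)
  | .nx j i v => cap c s s.q (if a = 0 then .z j i v else .nx j (i + 1) a)
  | .z j i v => cap c s s.q
      (if a = 0 then .zw j i v else if a = v then .c1 j i v else .pX j i 0 false 0)
  | .zw j i v => cap c s s.q (.c1 j i v)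
  | .c1 j i v => cap c s s.q (if a = 0 then .c2 j i v else .pX j i 0 false 0)
  | .c2 j i v => cap c s s.q (if a = v then .pX j i 0 true v else .pX j i 0 false 0)
  | .pX j i r b v => cap c s s.q (.pY j i r b v)
  | .pY j i r b v => cap c s s.q
      (if a = 0 then .pW j i r b v else .pV j i r b (if b then v else a))
  | .pW j i r b v => cap c s s.q (.pR j i r b v)
  | .pR j i r b v => cap c s (s.q + 1)
      (if a = 0 then (if b then .fd v else .top (j + 1) i) else .pX j i (r + 1) b v)
  | .pV j i r b v =>
      if a = 0 then cap c s s.q (.pC j i r b v)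
      else if a = 2 then cap c s (s.q + 1) (.pX j i (r + 1) true v)
      else cap c s (s.q + 1) (.pX j i (r + 1) false 0)
  | .pC j i r _ v => cap c s (s.q + 1)
      (if a = 2 then .pX j i (r + 1) true v else .pX j i (r + 1) false 0)
  | .fd v => { s with ph := .fr v }
  | .fr v => if a = 0 then { s with ph := .done (val v) } else newE s (val v)
  | .ow => { s with ph := .od }
  | .od => if a = 0 then newE s s.x else newE s (val a)
  | .done _ => s

/-- The initial state of the processor with id `o`. -/
def init (o : ℕ) : LS := ⟨0, o, 0, 0, .coin 0⟩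

/-- Ghost variables (they only serve the analysis), for every epoch `e`:
`b1 e`: the first write to `F e` did not go to position `0`;
`N e`: number of writes to a position `i < c + 3` of `F e` while position `i + 1` was empty;
`B e`, `G e`: number of bad / good fresh readings of coins, `Bj e j`, `Gj e j`: the same at index
`j`; `sk e j r`: the side of the first processor that saw no conflict in round `r` of index `j`;
`rv e o k`: somebody has read the coin register `C e o k`. -/
structure Gh where
  b1 : ℕ → Bool
  N : ℕ → ℕ
  B : ℕ → ℕ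
  G : ℕ → ℕ
  Bj : ℕ → ℕ → ℕ
  Gj : ℕ → ℕ → ℕ
  sk : ℕ → ℕ → ℕ → Option Bool
  rv : ℕ → ℕ → ℕ → Bool

/-- Configurations. -/
structure CF (n : ℕ) where
  mem : Reg → ℕ
  loc : Fin n → LS
  gh : Gh

/-- The response to an action. -/
def respOf (mem : Reg → ℕ) : AAct → ℕ
  | .read r => mem r
  | .write _ _ => 0
  | .out _ => 0

/-- The memory after an action. -/
def memOf (mem : Reg → ℕ) : AAct → Reg → ℕ
  | .write r v => Function.update mem r v
  | _ => mem

/-- No content has been written to `F e` yet. -/
def emptyF (c : ℕ) (mem : Reg → ℕ) (e : ℕ) : Prop := ∀ i ≤ c + 3, mem (.F e i) = 0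

instance (c : ℕ) (mem : Reg → ℕ) (e : ℕ) : Decidable (emptyF c mem e) := by
  unfold emptyF; infer_instance

/-- A fresh reading of a coin with the value `a` (`a = 2`: side `true`) is bad if the side of those
who saw no conflict is the other one. -/
def isBad (g : Gh) (e j r a : ℕ) : Bool :=
  match g.sk e j r with
  | none => false
  | some b => b != decide (a = 2)

/-- The update of the ghost variables: processor in state `s`, coin `y`, response `a`, memory
before the step `mem`. -/
def ghOf (c : ℕ) (mem : Reg → ℕ) (g : Gh) (y : Cn c) (s : LS) (a : ℕ) : Gh :=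
  match s.ph with
  | .wr l => if hit c l y then
      { g with
        b1 := if emptyF c mem s.e ∧ pos c y ≠ 0 then Function.update g.b1 s.e true else g.b1
        N := if pos c y < c + 3 ∧ mem (.F s.e (pos c y + 1)) = 0 then
            Function.update g.N s.e (g.N s.e + 1) else g.N }
      else g
  | .pY j _ r b _ => if a = 0 ∧ g.sk s.e j r = none then
      { g with sk := fun e' j' r' => if e' = s.e ∧ j' = j ∧ r' = r then some b else g.sk e' j' r' }
      else g
  | .pC j _ r _ v => if g.rv s.e (own v) (2 * r + j % 2) = true then g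
      else
      { g with
        rv := fun e' o' k' => if e' = s.e ∧ o' = own v ∧ k' = 2 * r + j % 2 then true
          else g.rv e' o' k'
        B := if isBad g s.e j r a then Function.update g.B s.e (g.B s.e + 1) else g.B
        G := if isBad g s.e j r a then g.G else Function.update g.G s.e (g.G s.e + 1)
        Bj := if isBad g s.e j r a then
            fun e' j' => if e' = s.e ∧ j' = j then g.Bj s.e j + 1 else g.Bj e' j' else g.Bj
        Gj := if isBad g s.e j r a then g.Gj
            else fun e' j' => if e' = s.e ∧ j' = j then g.Gj s.e j + 1 else g.Gj e' j' }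
  | _ => g

/-- The processor `p` takes a step, its coin being `y`. -/
def stepY (c : ℕ) {n : ℕ} (u : Fin n → ℕ) (κ : CF n) (p : Fin n) (y : Cn c) : CF n :=
  let s := κ.loc p
  let A := act c (u p) y s
  let a := respOf κ.mem A
  ⟨memOf κ.mem A, Function.update κ.loc p (nxt c y s a), ghOf c κ.mem κ.gh y s a⟩

/-- The initial configuration. -/
def initC {n : ℕ} (u : Fin n → ℕ) : CF n :=
  ⟨fun _ => 0, fun p => init (u p), ⟨fun _ => false, fun _ => 0, fun _ => 0, fun _ => 0,
    fun _ _ => 0, fun _ _ => 0, fun _ _ _ => none, fun _ _ _ => false⟩⟩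

/-- The coins of `n` processors. -/
abbrev Coins (c n : ℕ) : Type := Fin n → ℕ × ℕ → Cn c

/-- The processor `p` takes a step, the coins being `ω`. -/
def stepC (c : ℕ) {n : ℕ} (u : Fin n → ℕ) (ω : Coins c n) (κ : CF n) (p : Fin n) : CF n :=
  stepY c u κ p (ω p (nm (κ.loc p)))

/-- A run: ids, coins and a schedule. -/
structure Run (c n : ℕ) where
  u : Fin n → ℕ
  hu : Function.Injective u
  ω : Coins c n
  s : ℕ → Fin n

variable {c n : ℕ}

/-- The configuration after `t` steps. -/
def Run.cf (R : Run c n) : ℕ → CF n
  | 0 => initC R.u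
  | t + 1 => stepC c R.u R.ω (R.cf t) (R.s t)

/-- Memory at time `t`. -/
def Run.mem (R : Run c n) (t : ℕ) : Reg → ℕ := (R.cf t).mem
/-- Local state at time `t`. -/
def Run.loc (R : Run c n) (t : ℕ) (p : Fin n) : LS := (R.cf t).loc p
/-- Ghost variables at time `t`. -/
def Run.gh (R : Run c n) (t : ℕ) : Gh := (R.cf t).gh
/-- The state of the acting processor at time `t`. -/
def Run.st (R : Run c n) (t : ℕ) : LS := R.loc t (R.s t)
/-- The coin of step `t`. -/
def Run.y (R : Run c n) (t : ℕ) : Cn c := R.ω (R.s t) (nm (R.st t))
/-- The action of step `t`. -/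
def Run.act (R : Run c n) (t : ℕ) : AAct := SQ.act c (R.u (R.s t)) (R.y t) (R.st t)
/-- The response of step `t`. -/
def Run.rs (R : Run c n) (t : ℕ) : ℕ := respOf (R.mem t) (R.act t)

end Pool.Agent.Lib.MP_2ab09f_lc.SQ
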