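import Mathlib
import Pool.Agent.Lib.MP_2ab09f_lcS.Defs

/-!
Basic facts on runs, provenance of local states and of register contents, inversion of the
actions and of the local transition function.
-/

namespace Pool.Agent.Lib.MP_2ab09f_lc.SQ

variable {c n : ℕ}

namespace Run

variable (R : Run c n)

theorem loc_zero (p : Fin n) : R.loc 0 p = init (R.u p) := rfl

theorem mem_zero (r : Reg) : R.mem 0 r = 0 := rfl

theorem loc_succ_self (t : ℕ) : R.loc (t + 1) (R.s t) = nxt c (R.y t) (R.st t) (R.rs t) := by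
  show (stepC c R.u R.ω (R.cf t) (R.s t)).loc (R.s t) = _
  unfold stepC stepY
  simp only [Function.update_self]
  rfl

theorem loc_succ_ne (t : ℕ) {p : Fin n} (h : p ≠ R.s t) : R.loc (t + 1) p = R.loc t p := by
  show (stepC c R.u R.ω (R.cf t) (R.s t)).loc p = _
  unfold stepC stepY
  simp only [Function.update_of_ne h]
  rfl

theorem mem_succ (t : ℕ) : R.mem (t + 1) = memOf (R.mem t) (R.act t) := rfl

theorem gh_succ (t : ℕ) :
    R.gh (t + 1) = ghOf c (R.mem t) (R.gh t) (R.y t) (R.st t) (R.rs t) := rfl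

theorem mem_succ_write {t : ℕ} {r : Reg} {v : ℕ} (h : R.act t = .write r v) :
    R.mem (t + 1) r = v := by
  rw [mem_succ, h]
  simp [memOf]

theorem mem_succ_ne {t : ℕ} {r : Reg} (h : ∀ v, R.act t ≠ .write r v) :
    R.mem (t + 1) r = R.mem t r := by
  rw [mem_succ]
  cases hA : R.act t with
  | read r' => rfl
  | out u => rfl
  | write r' v =>
    have hr : r ≠ r' := by
      rintro rfl
      exact h v hA
    simp [memOf, Function.update_of_ne hr]

/-- Induction principle for local invariants. -/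
theorem inv_ind (P : ℕ → Fin n → LS → Prop) (h0 : ∀ p, P 0 p (init (R.u p)))
    (hm : ∀ t p, P t p (R.loc t p) → P (t + 1) p (R.loc t p))
    (hs : ∀ t, P t (R.s t) (R.st t) → P (t + 1) (R.s t) (nxt c (R.y t) (R.st t) (R.rs t))) :
    ∀ t p, P t p (R.loc t p) := by
  intro t
  induction t with
  | zero => intro p; exact h0 p
  | succ t ih =>
    intro p
    by_cases hp : p = R.s t
    · subst hp
      rw [loc_succ_self]
      exact hs t (ih _)
    · rw [loc_succ_ne R t hp]
      exact hm t p (ih p)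

/-- The last time at which a property of the local state of `p` was switched on. -/
theorem prov (Q : LS → Prop) {t : ℕ} {p : Fin n} (h0 : ¬ Q (init (R.u p))) (h : Q (R.loc t p)) :
    ∃ τ < t, R.s τ = p ∧ ¬ Q (R.loc τ p) ∧ ∀ τ', τ < τ' → τ' ≤ t → Q (R.loc τ' p) := by
  induction t with
  | zero => exact absurd h h0
  | succ t ih =>
    by_cases hq : Q (R.loc t p)
    · obtain ⟨τ, h1, h2, h3, h4⟩ := ih hq
      refine ⟨τ, by omega, h2, h3, ?_⟩
      intro τ' ha hb
      rcases Nat.lt_or_ge t τ' with hc | hc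
      · have : τ' = t + 1 := by omega
        rw [this]; exact h
      · exact h4 τ' ha hc
    · refine ⟨t, by omega, ?_, hq, ?_⟩
      · by_contra hne
        rw [loc_succ_ne R t (fun hh => hne hh.symm)] at h
        exact hq h
      · intro τ' ha hb
        have : τ' = t + 1 := by omega
        rw [this]; exact h

/-- The last change of the local state of `p` before time `t`. -/
theorem last {t : ℕ} {p : Fin n} (h : R.loc t p ≠ init (R.u p)) :
    ∃ τ < t, R.s τ = p ∧ R.loc τ p ≠ R.loc t p ∧
      nxt c (R.y τ) (R.st τ) (R.rs τ) = R.loc t p ∧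
      ∀ τ', τ < τ' → τ' ≤ t → R.loc τ' p = R.loc t p := by
  obtain ⟨τ, h1, h2, h3, h4⟩ := R.prov (fun s => s = R.loc t p) (t := t) (p := p)
    (fun hh => h hh.symm) rfl
  refine ⟨τ, h1, h2, h3, ?_, h4⟩
  have := h4 (τ + 1) (by omega) (by omega)
  subst h2
  rw [loc_succ_self] at this
  exact this

/-- Provenance of a register content. -/
theorem mprov {t : ℕ} {r : Reg} {v : ℕ} (h : R.mem t r = v) (hv : v ≠ 0) :
    ∃ τ < t, R.act τ = .write r v ∧ ∀ τ', τ < τ' → τ' ≤ t → R.mem τ' r = v := by
  induction t with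
  | zero => exact absurd (h.symm.trans (R.mem_zero r)) hv
  | succ t ih =>
    by_cases hw : ∃ w, R.act t = .write r w
    · obtain ⟨w, hw⟩ := hw
      have hwv : w = v := by rw [← h, R.mem_succ_write hw]
      subst hwv
      refine ⟨t, by omega, hw, ?_⟩
      intro τ' ha hb
      have : τ' = t + 1 := by omega
      rw [this]; exact h
    · have hw' : ∀ v, R.act t ≠ .write r v := fun w hh => hw ⟨w, hh⟩
      rw [R.mem_succ_ne hw'] at h
      obtain ⟨τ, h1, h2, h3⟩ := ih h
      refine ⟨τ, by omega, h2, ?_⟩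
      intro τ' ha hb
      rcases Nat.lt_or_ge t τ' with hc | hc
      · have : τ' = t + 1 := by omega
        rw [this, R.mem_succ_ne hw']; exact h
      · exact h3 τ' ha hc

/-! ### Inversion of the writes -/

theorem act_F {t e i v : ℕ} (h : R.act t = .write (.F e i) v) :
    ∃ l, (R.st t).ph = .wr l ∧ (R.st t).e = e ∧ hit c l (R.y t) = true ∧ pos c (R.y t) = i ∧
      v = cont (R.u (R.s t)) (R.st t).x := by
  unfold Run.act SQ.act at h
  cases hp : (R.st t).ph <;> rw [hp] at h <;> simp at h
  split_ifs at h with hh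
  · simp at h
    exact ⟨_, rfl, h.1.1, hh, h.1.2, h.2.symm⟩
  · simp at h

theorem act_Z {t e j v : ℕ} (h : R.act t = .write (.Z e j) v) :
    ∃ i, (R.st t).ph = .zw j i v ∧ (R.st t).e = e := by
  unfold Run.act SQ.act at h
  cases hp : (R.st t).ph <;> rw [hp] at h <;> simp at h
  · split_ifs at h with hh <;> simp at h
  · obtain ⟨⟨h1, h2⟩, h3⟩ := h
    subst h2 h3
    exact ⟨_, rfl, h1⟩

theorem act_X {t e j r v : ℕ} {b : Bool} (h : R.act t = .write (.X e j r b) v) :
    ∃ i v', (R.st t).ph = .pX j i r b v' ∧ (R.st t).e = e ∧ v = if b then v' else 1 := by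
  unfold Run.act SQ.act at h
  cases hp : (R.st t).ph <;> rw [hp] at h <;> simp at h
  · split_ifs at h with hh <;> simp at h
  · obtain ⟨⟨h1, h2, h3, h4⟩, h5⟩ := h
    subst h2 h3 h4
    exact ⟨_, _, rfl, h1, h5.symm⟩

theorem act_W {t e j r v : ℕ} (h : R.act t = .write (.W e j r) v) :
    ∃ i b v', (R.st t).ph = .pW j i r b v' ∧ (R.st t).e = e ∧ v = b.toNat + 1 := by
  unfold Run.act SQ.act at h
  cases hp : (R.st t).ph <;> rw [hp] at h <;> simp at h
  · split_ifs at h with hh <;> simp at h
  · obtain ⟨⟨h1, h2, h3⟩, h4⟩ := h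
    subst h2 h3
    exact ⟨_, _, _, rfl, h1, h4.symm⟩

theorem act_C {t e o k v : ℕ} (h : R.act t = .write (.C e o k) v) :
    (R.st t).ph = .coin k ∧ (R.st t).e = e ∧ o = R.u (R.s t) ∧ v = bit c (R.y t) + 1 := by
  unfold Run.act SQ.act at h
  cases hp : (R.st t).ph <;> rw [hp] at h <;> simp at h
  · obtain ⟨⟨h1, h2, h3⟩, h4⟩ := h
    subst h3
    exact ⟨rfl, h1, h2.symm, h4.symm⟩
  · split_ifs at h with hh <;> simp at h

theorem act_D {t e v : ℕ} (h : R.act t = .write (.D e) v) :
    (R.st t).ph = .fd v ∧ (R.st t).e = e := by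
  unfold Run.act SQ.act at h
  cases hp : (R.st t).ph <;> rw [hp] at h <;> simp at h
  · split_ifs at h with hh <;> simp at h
  · obtain ⟨h1, h2⟩ := h
    subst h2
    exact ⟨rfl, h1⟩

theorem act_V {t e v : ℕ} (h : R.act t = .write (.V e) v) :
    (R.st t).ph = .ow ∧ (R.st t).e = e ∧ v = 1 := by
  unfold Run.act SQ.act at h
  cases hp : (R.st t).ph <;> rw [hp] at h <;> simp at h
  · split_ifs at h with hh <;> simp at h
  · exact ⟨rfl, h.1, h.2.symm⟩

theorem act_T {t v : ℕ} (h : R.act t = .write .T v) :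
    ∃ l, (R.st t).ph = .wr l ∧ hit c l (R.y t) = false ∧ v = 1 := by
  unfold Run.act SQ.act at h
  cases hp : (R.st t).ph <;> rw [hp] at h <;> simp at h
  split_ifs at h with hh
  · simp at h
  · simp at h
    exact ⟨_, rfl, by simpa using hh, h.symm⟩

/-! ### The responses -/

/-- The response is the content of the register that is read. -/
theorem rs_read {t : ℕ} {r : Reg} (h : R.act t = .read r) : R.rs t = R.mem t r := by
  unfold Run.rs; rw [h]; rfl

end Run

/-! ### Inversion of the local transition function -/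

section pre

variable {y : Cn c} {s : LS} {a : ℕ}

theorem cap_ph {q : ℕ} {ph φ : Ph} (h : (cap c s q ph).ph = φ) (hφ : φ ≠ .ow) :
    ph = φ ∧ s.k + 1 < S0 c := by
  unfold cap at h
  split_ifs at h with hh
  · exact absurd h.symm hφ
  · exact ⟨h, by omega⟩

theorem cap_e (q : ℕ) (ph : Ph) : (cap c s q ph).e = s.e := by unfold cap; split_ifs <;> rfl
theorem cap_x (q : ℕ) (ph : Ph) : (cap c s q ph).x = s.x := by unfold cap; split_ifs <;> rfl
theorem cap_k (q : ℕ) (ph : Ph) : (cap c s q ph).k = s.k + 1 := by unfold cap; split_ifs <;> rfl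
theorem cap_q (q : ℕ) (ph : Ph) : (cap c s q ph).q = q := by unfold cap; split_ifs <;> rfl

/-- The epoch does not go down and goes up by at most one; the preference changes only with the
epoch, and a new epoch begins with the phase `coin 0`. -/
theorem nxt_e : ((nxt c y s a).e = s.e ∧ (nxt c y s a).x = s.x) ∨
    ((nxt c y s a).e = s.e + 1 ∧ (nxt c y s a).ph = .coin 0 ∧ (nxt c y s a).k = 0 ∧
      (nxt c y s a).q = 0 ∧
      ((∃ v, s.ph = .fr v ∧ a ≠ 0 ∧ (nxt c y s a).x = val v) ∨
        (s.ph = .od ∧ a = 0 ∧ (nxt c y s a).x = s.x) ∨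
        (s.ph = .od ∧ a ≠ 0 ∧ (nxt c y s a).x = val a))) := by
  unfold nxt
  cases hp : s.ph <;> dsimp only
  case fr v => split_ifs with h <;> simp [newE, h]
  case od => split_ifs with h <;> simp [newE, h]
  case coin k => split_ifs <;> simp
  case pV j i r b v => split_ifs <;> simp [cap_e, cap_x]
  all_goals simp [cap_e, cap_x]

end pre

end Pool.Agent.Lib.MP_2ab09f_lc.SQ
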