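import Mathlib
import Pool.Agent.Lib.MP_2ab09f_lcS.Basic

/-!
Inversion of the local transition function: from which phase can the phase `φ` be reached?
-/

namespace Pool.Agent.Lib.MP_2ab09f_lc.SQ

variable {c n : ℕ} {y : Cn c} {s : LS} {a : ℕ}

theorem pre_coin {k : ℕ} (h : (nxt c y s a).ph = .coin k) :
    (∃ k', k = k' + 1 ∧ s.ph = .coin k' ∧ k < 2 * S0 c) ∨
    (k = 0 ∧ (nxt c y s a).e = s.e + 1 ∧ (s.ph = .od ∨ ∃ v, s.ph = .fr v ∧ a ≠ 0)) := by
  unfold nxt at h ⊢
  cases hp : s.ph <;> rw [hp] at h <;> dsimp only at h ⊢ <;> (try unfold cap at *) <;> (try unfold newE at *) <;>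
    (try split_ifs at h ⊢) <;> simp_all

theorem pre_rd {l : ℕ} {f : Bool} (h : (nxt c y s a).ph = .rd l f) :
    (l = 0 ∧ f = false ∧ ∃ k, s.ph = .coin k ∧ 2 * S0 c ≤ k + 1) ∨
    (∃ l', l = l' + 1 ∧ s.ph = .wr l' ∧ f = hit c l' y) ∨
    (f = true ∧ s.ph = .rd l true ∧ a = 0) := by
  unfold nxt at h
  cases hp : s.ph <;> rw [hp] at h <;> dsimp only at h ⊢ <;> (try unfold cap at *) <;> (try unfold newE at *) <;>
    (try split_ifs at h) <;> simp_all

theorem pre_wr {l : ℕ} (h : (nxt c y s a).ph = .wr l) : s.ph = .rd l false ∧ a = 0 := by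
  unfold nxt at h
  cases hp : s.ph <;> rw [hp] at h <;> dsimp only at h ⊢ <;> (try unfold cap at *) <;> (try unfold newE at *) <;>
    (try split_ifs at h) <;> simp_all

theorem pre_top {j i : ℕ} (h : (nxt c y s a).ph = .top j i) :
    ∃ j' r v, j = j' + 1 ∧ s.ph = .pR j' i r false v ∧ a = 0 := by
  unfold nxt at h
  cases hp : s.ph <;> rw [hp] at h <;> dsimp only at h ⊢ <;> (try unfold cap at *) <;> (try unfold newE at *) <;>
    (try split_ifs at h) <;> simp_all

theorem pre_nx {j i v : ℕ} (h : (nxt c y s a).ph = .nx j i v) :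
    (∃ l f, s.ph = .rd l f ∧ j = 0 ∧ i = 0 ∧ v = a ∧ a ≠ 0) ∨ (s.ph = .top j i ∧ v = a) ∨
    (∃ i' v', i = i' + 1 ∧ s.ph = .nx j i' v' ∧ a ≠ 0 ∧ v = a) := by
  unfold nxt at h
  cases hp : s.ph <;> rw [hp] at h <;> dsimp only at h ⊢ <;> (try unfold cap at *) <;> (try unfold newE at *) <;>
    (try split_ifs at h) <;> simp_all <;> omega

theorem pre_z {j i v : ℕ} (h : (nxt c y s a).ph = .z j i v) : s.ph = .nx j i v ∧ a = 0 := by
  unfold nxt at h
  cases hp : s.ph <;> rw [hp] at h <;> dsimp only at h ⊢ <;> (try unfold cap at *) <;> (try unfold newE at *) <;>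
    (try split_ifs at h) <;> simp_all

theorem pre_zw {j i v : ℕ} (h : (nxt c y s a).ph = .zw j i v) : s.ph = .z j i v ∧ a = 0 := by
  unfold nxt at h
  cases hp : s.ph <;> rw [hp] at h <;> dsimp only at h ⊢ <;> (try unfold cap at *) <;> (try unfold newE at *) <;>
    (try split_ifs at h) <;> simp_all

theorem pre_c1 {j i v : ℕ} (h : (nxt c y s a).ph = .c1 j i v) :
    (s.ph = .z j i v ∧ a = v ∧ a ≠ 0) ∨ s.ph = .zw j i v := by
  unfold nxt at h
  cases hp : s.ph <;> rw [hp] at h <;> dsimp only at h ⊢ <;> (try unfold cap at *) <;> (try unfold newE at *) <;>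
    (try split_ifs at h) <;> simp_all

theorem pre_c2 {j i v : ℕ} (h : (nxt c y s a).ph = .c2 j i v) : s.ph = .c1 j i v ∧ a = 0 := by
  unfold nxt at h
  cases hp : s.ph <;> rw [hp] at h <;> dsimp only at h ⊢ <;> (try unfold cap at *) <;> (try unfold newE at *) <;>
    (try split_ifs at h) <;> simp_all

theorem pre_pX {j i r v : ℕ} {b : Bool} (h : (nxt c y s a).ph = .pX j i r b v) :
    (r = 0 ∧ b = true ∧ s.ph = .c2 j i v ∧ a = v) ∨
    (r = 0 ∧ b = false ∧ v = 0 ∧ ((∃ v', s.ph = .z j i v' ∧ a ≠ 0 ∧ a ≠ v') ∨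
      (∃ v', s.ph = .c1 j i v' ∧ a ≠ 0) ∨ (∃ v', s.ph = .c2 j i v' ∧ a ≠ v'))) ∨
    (∃ r', r = r' + 1 ∧ ((s.ph = .pR j i r' b v ∧ a ≠ 0) ∨
      (∃ b', s.ph = .pV j i r' b' v ∧ a = 2 ∧ b = true) ∨
      (∃ b' v', s.ph = .pV j i r' b' v' ∧ a ≠ 0 ∧ a ≠ 2 ∧ b = false ∧ v = 0) ∨
      (∃ b', s.ph = .pC j i r' b' v ∧ a = 2 ∧ b = true) ∨
      (∃ b' v', s.ph = .pC j i r' b' v' ∧ a ≠ 2 ∧ b = false ∧ v = 0))) := by
  unfold nxt at h
  cases hp : s.ph <;> rw [hp] at h <;> dsimp only at h ⊢ <;> (try unfold cap at *) <;> (try unfold newE at *) <;>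
    (try split_ifs at h) <;> simp_all <;> omega

theorem pre_pY {j i r v : ℕ} {b : Bool} (h : (nxt c y s a).ph = .pY j i r b v) :
    s.ph = .pX j i r b v := by
  unfold nxt at h
  cases hp : s.ph <;> rw [hp] at h <;> dsimp only at h ⊢ <;> (try unfold cap at *) <;> (try unfold newE at *) <;>
    (try split_ifs at h) <;> simp_all

theorem pre_pW {j i r v : ℕ} {b : Bool} (h : (nxt c y s a).ph = .pW j i r b v) :
    s.ph = .pY j i r b v ∧ a = 0 := by
  unfold nxt at h
  cases hp : s.ph <;> rw [hp] at h <;> dsimp only at h ⊢ <;> (try unfold cap at *) <;> (try unfold newE at *) <;>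
    (try split_ifs at h) <;> simp_all

theorem pre_pR {j i r v : ℕ} {b : Bool} (h : (nxt c y s a).ph = .pR j i r b v) :
    s.ph = .pW j i r b v := by
  unfold nxt at h
  cases hp : s.ph <;> rw [hp] at h <;> dsimp only at h ⊢ <;> (try unfold cap at *) <;> (try unfold newE at *) <;>
    (try split_ifs at h) <;> simp_all

theorem pre_pV {j i r v : ℕ} {b : Bool} (h : (nxt c y s a).ph = .pV j i r b v) :
    ∃ v', s.ph = .pY j i r b v' ∧ a ≠ 0 ∧ v = if b then v' else a := by
  unfold nxt at h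
  cases hp : s.ph <;> rw [hp] at h <;> dsimp only at h ⊢ <;> (try unfold cap at *) <;> (try unfold newE at *) <;>
    (try split_ifs at h) <;> simp_all

theorem pre_pC {j i r v : ℕ} {b : Bool} (h : (nxt c y s a).ph = .pC j i r b v) :
    s.ph = .pV j i r b v ∧ a = 0 := by
  unfold nxt at h
  cases hp : s.ph <;> rw [hp] at h <;> dsimp only at h ⊢ <;> (try unfold cap at *) <;> (try unfold newE at *) <;>
    (try split_ifs at h) <;> simp_all

theorem pre_fd {v : ℕ} (h : (nxt c y s a).ph = .fd v) :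
    ∃ j i r, s.ph = .pR j i r true v ∧ a = 0 := by
  unfold nxt at h
  cases hp : s.ph <;> rw [hp] at h <;> dsimp only at h ⊢ <;> (try unfold cap at *) <;> (try unfold newE at *) <;>
    (try split_ifs at h) <;> simp_all

theorem pre_fr {v : ℕ} (h : (nxt c y s a).ph = .fr v) : s.ph = .fd v := by
  unfold nxt at h
  cases hp : s.ph <;> rw [hp] at h <;> dsimp only at h ⊢ <;> (try unfold cap at *) <;> (try unfold newE at *) <;>
    (try split_ifs at h) <;> simp_all

theorem pre_od (h : (nxt c y s a).ph = .od) : s.ph = .ow := by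
  unfold nxt at h
  cases hp : s.ph <;> rw [hp] at h <;> dsimp only at h ⊢ <;> (try unfold cap at *) <;> (try unfold newE at *) <;>
    (try split_ifs at h) <;> simp_all

theorem pre_done {u : ℕ} (h : (nxt c y s a).ph = .done u) :
    (∃ v, s.ph = .fr v ∧ a = 0 ∧ u = val v) ∨ s.ph = .done u := by
  unfold nxt at h
  cases hp : s.ph <;> rw [hp] at h <;> dsimp only at h ⊢ <;> (try unfold cap at *) <;> (try unfold newE at *) <;>
    (try split_ifs at h) <;> simp_all

/-- The phase is one of those that count for the budget. -/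
def Ph.main : Ph → Bool
  | .rd _ _ => true
  | .wr _ => true
  | .top _ _ => true
  | .nx _ _ _ => true
  | .z _ _ _ => true
  | .zw _ _ _ => true
  | .c1 _ _ _ => true
  | .c2 _ _ _ => true
  | .pX _ _ _ _ _ => true
  | .pY _ _ _ _ _ => true
  | .pW _ _ _ _ _ => true
  | .pR _ _ _ _ _ => true
  | .pV _ _ _ _ _ => true
  | .pC _ _ _ _ _ => true
  | _ => false

theorem pre_ow (h : (nxt c y s a).ph = .ow) : s.ph.main = true ∧ S0 c ≤ s.k + 1 := by
  unfold nxt at h
  cases hp : s.ph <;> rw [hp] at h <;> dsimp only at h ⊢ <;> (try unfold cap at *) <;> (try unfold newE at *) <;>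
    (try split_ifs at h) <;> simp_all [Ph.main]

/-- In a main phase the counter is below the budget. -/
theorem nxt_main (h : (nxt c y s a).ph.main = true) :
    (nxt c y s a).k < S0 c ∨ (nxt c y s a).ph = .rd 0 false := by
  unfold nxt at h ⊢
  cases hp : s.ph <;> rw [hp] at h <;> dsimp only at h ⊢ <;> (try unfold cap at *) <;> (try unfold newE at *) <;>
    (try split_ifs at h ⊢) <;> simp_all [Ph.main]

/-- The counter `k` and the number of rounds `q`. -/
theorem nxt_k (h : (nxt c y s a).ph.main = true) :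
    ((nxt c y s a).k = s.k + 1 ∧ s.ph.main = true) ∨
      (∃ k, s.ph = .coin k ∧ (nxt c y s a).k = s.k ∧ (nxt c y s a).q = s.q ∧
        (nxt c y s a).ph = .rd 0 false) := by
  unfold nxt at h ⊢
  cases hp : s.ph <;> rw [hp] at h <;> dsimp only at h ⊢ <;> (try unfold cap at *) <;> (try unfold newE at *) <;>
    (try split_ifs at h ⊢) <;> simp_all [Ph.main]

/-- The number of rounds grows by one at the end of a round (`pR`, `pV`, `pC`) only. -/
theorem nxt_q (h : (nxt c y s a).ph.main = true) :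
    (nxt c y s a).q = s.q ∨ ((nxt c y s a).q = s.q + 1 ∧
      ((∃ j i r v, s.ph = .pR j i r false v ∧ a = 0 ∧ (nxt c y s a).ph = .top (j + 1) i) ∨
        (∃ j i r b v b' v', (nxt c y s a).ph = .pX j i (r + 1) b v ∧
          (s.ph = .pR j i r b' v' ∨ s.ph = .pV j i r b' v' ∨ s.ph = .pC j i r b' v')))) := by
  unfold nxt at h ⊢
  cases hp : s.ph <;> rw [hp] at h <;> dsimp only at h ⊢ <;> (try unfold cap at *) <;> (try unfold newE at *) <;>
    (try split_ifs at h ⊢) <;> simp_all [Ph.main]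

end Pool.Agent.Lib.MP_2ab09f_lc.SQ
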