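import Mathlib
import Pool.Agent.Lib.MP_2ab09f_lcS.Pre

/-!
Registers keep being nonempty; positions and contents.
-/

namespace Pool.Agent.Lib.MP_2ab09f_lc.SQ

variable {c n : ℕ}

/-- The index of a phase. -/
def Ph.idx? : Ph → Option ℕ
  | .top j _ => some j
  | .nx j _ _ => some j
  | .z j _ _ => some j
  | .zw j _ _ => some j
  | .c1 j _ _ => some j
  | .c2 j _ _ => some j
  | .pX j _ _ _ _ => some j
  | .pY j _ _ _ _ => some j
  | .pW j _ _ _ _ => some j
  | .pR j _ _ _ _ => some j
  | .pV j _ _ _ _ => some j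
  | .pC j _ _ _ _ => some j
  | _ => none

/-- The position of a phase. -/
def Ph.pos? : Ph → Option ℕ
  | .top _ i => some i
  | .nx _ i _ => some i
  | .z _ i _ => some i
  | .zw _ i _ => some i
  | .c1 _ i _ => some i
  | .c2 _ i _ => some i
  | .pX _ i _ _ _ => some i
  | .pY _ i _ _ _ => some i
  | .pW _ i _ _ _ => some i
  | .pR _ i _ _ _ => some i
  | .pV _ i _ _ _ => some i
  | .pC _ i _ _ _ => some i
  | _ => none

/-- The content known in a phase. -/
def Ph.ct? : Ph → Option ℕ
  | .nx _ _ v => some v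
  | .z _ _ v => some v
  | .zw _ _ v => some v
  | .c1 _ _ v => some v
  | .c2 _ _ v => some v
  | .pX _ _ _ b v => if b then some v else none
  | .pY _ _ _ b v => if b then some v else none
  | .pW _ _ _ b v => if b then some v else none
  | .pR _ _ _ b v => if b then some v else none
  | .pV _ _ _ _ v => some v
  | .pC _ _ _ _ v => some v
  | .fd v => some v
  | .fr v => some v
  | _ => none

/-- The phase belongs to round `r` of index `j`, side `b`. -/
def Ph.inR (φ : Ph) (j r : ℕ) (b : Bool) : Prop :=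
  ∃ i v, φ = .pX j i r b v ∨ φ = .pY j i r b v ∨ φ = .pW j i r b v ∨ φ = .pR j i r b v ∨
    φ = .pV j i r b v ∨ φ = .pC j i r b v

theorem cont_ne (o x : ℕ) : cont o x ≠ 0 := Nat.succ_ne_zero _

theorem own_cont (o x : ℕ) : own (cont o x) = o := by simp [own, cont]

theorem val_cont (o x : ℕ) : val (cont o x) = x := by simp [val, cont]

/-- The position goes up or stays the same while the processor has a position. -/
theorem nxt_pos {y : Cn c} {s : LS} {a i : ℕ} (h : (nxt c y s a).ph.pos? = some i) :
    (nxt c y s a).e = s.e ∧ (s.ph.pos? = some i ∨ (i = 0 ∧ ∃ l f, s.ph = .rd l f ∧ a ≠ 0) ∨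
      (∃ j i' v, i = i' + 1 ∧ s.ph = .nx j i' v ∧ a ≠ 0)) := by
  unfold nxt at h ⊢
  cases hp : s.ph <;> rw [hp] at h <;> dsimp only at h ⊢ <;> (try unfold cap at *) <;>
    (try unfold newE at *) <;> (try split_ifs at h ⊢) <;> simp_all [Ph.pos?]

/-- Where the content of a phase comes from. -/
theorem nxt_ct {y : Cn c} {s : LS} {a v : ℕ} (h : (nxt c y s a).ph.ct? = some v) :
    (nxt c y s a).e = s.e ∧ (s.ph.ct? = some v ∨ (∃ l f, s.ph = .rd l f ∧ a ≠ 0 ∧ v = a) ∨
      (∃ j i, s.ph = .top j i ∧ v = a) ∨ (∃ j i v', s.ph = .nx j i v' ∧ a ≠ 0 ∧ v = a) ∨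
      (∃ j i r v', s.ph = .pY j i r false v' ∧ a ≠ 0 ∧ v = a)) := by
  unfold nxt at h ⊢
  cases hp : s.ph <;> rw [hp] at h <;> dsimp only at h ⊢ <;> (try unfold cap at *) <;>
    (try unfold newE at *) <;> (try split_ifs at h ⊢) <;> simp_all [Ph.ct?]

namespace Run

variable (R : Run c n)

theorem memF_mono {t t' : ℕ} {e i : ℕ} (h : t ≤ t') (h0 : R.mem t (.F e i) ≠ 0) :
    R.mem t' (.F e i) ≠ 0 := by
  induction t', h using Nat.le_induction with
  | base => exact h0
  | succ t' _ ih =>
    by_cases hw : ∃ w, R.act t' = .write (.F e i) w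
    · obtain ⟨w, hw⟩ := hw
      obtain ⟨_, _, _, _, _, hv⟩ := R.act_F hw
      rw [R.mem_succ_write hw, hv]
      exact cont_ne _ _
    · rw [R.mem_succ_ne fun w hh => hw ⟨w, hh⟩]
      exact ih

/-- Contiguity: all positions up to the position of a processor are nonempty. -/
theorem pos_ne : ∀ (t : ℕ) (p : Fin n), ∀ i, (R.loc t p).ph.pos? = some i →
    ∀ i' ≤ i, R.mem t (.F (R.loc t p).e i') ≠ 0 := by
  refine R.inv_ind (fun t _ s => ∀ i, s.ph.pos? = some i → ∀ i' ≤ i, R.mem t (.F s.e i') ≠ 0)
    ?_ ?_ ?_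
  · intro p i h
    simp [init, Ph.pos?] at h
  · intro t p h i hi i' hi'
    exact R.memF_mono (Nat.le_succ t) (h i hi i' hi')
  · intro t h i hi i' hi'
    obtain ⟨he, h1⟩ := nxt_pos hi
    rw [he]
    rcases h1 with h1 | ⟨rfl, l, f, hp, ha⟩ | ⟨j, i0, v, rfl, hp, ha⟩
    · exact R.memF_mono (Nat.le_succ t) (h i h1 i' hi')
    · have hact : R.act t = .read (.F (R.st t).e 0) := by
        unfold Run.act SQ.act; rw [hp]
      rw [R.rs_read hact] at ha
      have : i' = 0 := by omega
      subst this
      exact R.memF_mono (Nat.le_succ t) ha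
    · have hact : R.act t = .read (.F (R.st t).e (i0 + 1)) := by
        unfold Run.act SQ.act; rw [hp]
      rw [R.rs_read hact] at ha
      rcases Nat.lt_or_ge i0 i' with hc | hc
      · have : i' = i0 + 1 := by omega
        subst this
        exact R.memF_mono (Nat.le_succ t) ha
      · exact R.memF_mono (Nat.le_succ t) (h i0 (by rw [hp]; rfl) i' hc)

/-- The content known in a phase is not `0`, and register `X _ _ _ true` has a nonzero value. -/
theorem ct_ne_aux : ∀ t : ℕ, (∀ p v, (R.loc t p).ph.ct? = some v → v ≠ 0) ∧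
    (∀ r, ∀ t' ≤ t, R.mem t' r ≠ 0 → R.mem t r ≠ 0) := by
  intro t
  induction t with
  | zero =>
    refine ⟨fun p v h => ?_, fun r t' ht' h => ?_⟩
    · simp [R.loc_zero, init, Ph.ct?] at h
    · have : t' = 0 := by omega
      rw [this] at h
      exact h
  | succ t ih =>
    obtain ⟨ih1, ih2⟩ := ih
    have hw : ∀ r v, R.act t = .write r v → v ≠ 0 := by
      intro r v h
      cases r with
      | F e i => obtain ⟨_, _, _, _, _, hv⟩ := R.act_F h; rw [hv]; exact cont_ne _ _
      | Z e j =>
        obtain ⟨i, h1, _⟩ := R.act_Z h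
        exact ih1 (R.s t) v (by show (R.st t).ph.ct? = _; rw [h1]; rfl)
      | X e j r b =>
        obtain ⟨i, v', h1, _, h2⟩ := R.act_X h
        cases b with
        | false => rw [h2]; simp
        | true =>
          rw [h2]
          exact ih1 (R.s t) v' (by show (R.st t).ph.ct? = _; rw [h1]; rfl)
      | W e j r => obtain ⟨_, _, _, _, _, hv⟩ := R.act_W h; omega
      | C e o k => obtain ⟨_, _, _, hv⟩ := R.act_C h; omega
      | D e =>
        obtain ⟨h1, _⟩ := R.act_D h
        exact ih1 (R.s t) v (by show (R.st t).ph.ct? = _; rw [h1]; rfl)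
      | V e => obtain ⟨_, _, hv⟩ := R.act_V h; omega
      | T => obtain ⟨_, _, _, hv⟩ := R.act_T h; omega
    constructor
    · intro p v h
      by_cases hp : p = R.s t
      · subst hp
        rw [R.loc_succ_self] at h
        obtain ⟨_, h1⟩ := nxt_ct h
        rcases h1 with h1 | ⟨_, _, _, ha, hv⟩ | ⟨j, i, hph, hv⟩ | ⟨_, _, _, _, ha, hv⟩ |
          ⟨_, _, _, _, _, ha, hv⟩
        · exact ih1 _ _ h1
        · rw [hv]; exact ha
        · have hact : R.act t = .read (.F (R.st t).e i) := by
            unfold Run.act SQ.act; rw [hph]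
          rw [hv, R.rs_read hact]
          refine R.pos_ne t (R.s t) i ?_ i (le_refl _)
          show (R.st t).ph.pos? = _
          rw [hph]; rfl
        · rw [hv]; exact ha
        · rw [hv]; exact ha
      · rw [R.loc_succ_ne _ hp] at h
        exact ih1 p v h
    · intro r t' ht' h
      rcases Nat.lt_or_ge t t' with hc | hc
      · have : t' = t + 1 := by omega
        rw [this] at h
        exact h
      · by_cases hww : ∃ w, R.act t = .write r w
        · obtain ⟨w, hww⟩ := hww
          rw [R.mem_succ_write hww]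
          exact hw r w hww
        · rw [R.mem_succ_ne fun w hh => hww ⟨w, hh⟩]
          exact ih2 r t' hc h

theorem ct_ne {t : ℕ} {p : Fin n} {v : ℕ} (h : (R.loc t p).ph.ct? = some v) : v ≠ 0 :=
  (R.ct_ne_aux t).1 p v h

/-- Persistence: a nonempty register stays nonempty. -/
theorem mem_mono {t t' : ℕ} {r : Reg} (h : t ≤ t') (h0 : R.mem t r ≠ 0) : R.mem t' r ≠ 0 :=
  (R.ct_ne_aux t').2 r t h h0

theorem mem_zero_of {t t' : ℕ} {r : Reg} (h : t ≤ t') (h0 : R.mem t' r = 0) : R.mem t r = 0 := by
  by_contra hne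
  exact R.mem_mono h hne h0

theorem e_mono {t t' : ℕ} (h : t ≤ t') (p : Fin n) : (R.loc t p).e ≤ (R.loc t' p).e := by
  induction t', h using Nat.le_induction with
  | base => exact le_refl _
  | succ t' _ ih =>
    refine ih.trans ?_
    by_cases hp : p = R.s t'
    · subst hp
      rw [R.loc_succ_self]
      have h := nxt_e (c := c) (y := R.y t') (s := R.st t') (a := R.rs t')
      rcases h with h | h
      · exact h.1.ge
      · show (R.st t').e ≤ _
        omega
    · rw [R.loc_succ_ne _ hp]

/-- The preference is constant during an epoch. -/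
theorem x_const {t t' : ℕ} {p : Fin n} (he : (R.loc t p).e = (R.loc t' p).e) :
    (R.loc t p).x = (R.loc t' p).x := by
  wlog h : t ≤ t' generalizing t t' with H
  · exact (H he.symm (by omega)).symm
  induction t', h using Nat.le_induction with
  | base => rfl
  | succ t' ht ih =>
    have h1 : (R.loc t p).e ≤ (R.loc t' p).e := R.e_mono ht p
    by_cases hp : p = R.s t'
    · subst hp
      rw [R.loc_succ_self] at he ⊢
      have h := nxt_e (c := c) (y := R.y t') (s := R.st t') (a := R.rs t')
      rcases h with h | h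
      · rw [h.2]
        exact ih (he.trans h.1)
      · exfalso
        have h2 : (R.st t').e = (R.loc t' (R.s t')).e := rfl
        omega
    · rw [R.loc_succ_ne _ hp] at he ⊢
      exact ih he

end Run

end Pool.Agent.Lib.MP_2ab09f_lc.SQ
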