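import Mathlib

import Pool.Agent.Lib.MP_2ab09f_lcS.Pers

/-!
JOB Val. Contents: every content is written to `F` only once; all contents in registers and states
come from `F`; the coin registers of the owner of a content are filled.
-/

namespace Pool.Agent.Lib.MP_2ab09f_lc.SQ

variable {c n : ℕ}

/-- The processor has left the loop of write attempts of the epoch or has written to `F`. -/
def Ph.past : Ph → Bool
  | .coin _ => false
  | .rd _ f => f
  | .wr _ => false
  | _ => true

/-- Once past, always past in the same epoch. (Cases of `s.ph`.) -/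
theorem nxt_past {y : Cn c} {s : LS} {a : ℕ} (h : s.ph.past = true)
    (he : (nxt c y s a).e = s.e) : (nxt c y s a).ph.past = true := by
  unfold nxt at he ⊢
  cases hp : s.ph <;> rw [hp] at h <;> dsimp only at he ⊢ <;> (try unfold cap at *) <;>
    (try unfold newE at *) <;> (try split_ifs at he ⊢) <;> simp_all [Ph.past]

namespace Run

variable (R : Run c n)

/-- `v` has been written to position `i` of `F e` before time `t`. -/
def Wr (t e i v : ℕ) : Prop := ∃ τ < t, R.act τ = .write (.F e i) v

theorem Wr_mono {t t' e i v : ℕ} (h : t ≤ t') (h0 : R.Wr t e i v) : R.Wr t' e i v := by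
  obtain ⟨τ, h1, h2⟩ := h0
  exact ⟨τ, lt_of_lt_of_le h1 h, h2⟩

/-- Once past, always past in the same epoch, for the processors of a run. -/
theorem past_mono {t t' : ℕ} {p : Fin n} (h : t ≤ t') (h0 : (R.loc t p).ph.past = true)
    (he : (R.loc t' p).e = (R.loc t p).e) : (R.loc t' p).ph.past = true := by
  induction t', h using Nat.le_induction with
  | base => exact h0
  | succ t' ht ih =>
    have h1 : (R.loc t p).e ≤ (R.loc t' p).e := R.e_mono ht p
    have h2 : (R.loc t' p).e ≤ (R.loc (t' + 1) p).e := R.e_mono (Nat.le_succ t') p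
    have h3 : (R.loc t' p).e = (R.loc t p).e := by omega
    have h4 := ih h3
    by_cases hp : p = R.s t'
    · subst hp
      have h5 : (R.loc (t' + 1) (R.s t')).e = (R.loc t' (R.s t')).e := by omega
      rw [R.loc_succ_self] at h5 ⊢
      exact nxt_past h4 h5
    · rw [R.loc_succ_ne _ hp]
      exact h4

theorem F_once_aux {τ τ' e i i' v v' : ℕ} (h : R.act τ = .write (.F e i) v)
    (h' : R.act τ' = .write (.F e i') v') (hs : R.s τ = R.s τ') : ¬ τ < τ' := by
  intro hlt
  obtain ⟨l, h1, h2, h3, _, _⟩ := R.act_F h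
  obtain ⟨l', h1', h2', _, _, _⟩ := R.act_F h'
  have hst' : R.st τ' = R.loc τ' (R.s τ) := by unfold Run.st; rw [hs]
  have he2 : (R.loc (τ + 1) (R.s τ)).e = e := by
    have a1 := R.e_mono (Nat.le_succ τ) (R.s τ)
    have a2 := R.e_mono (show τ + 1 ≤ τ' by omega) (R.s τ)
    have a3 : (R.loc τ (R.s τ)).e = e := h2
    have a4 : (R.loc τ' (R.s τ)).e = e := by rw [← hst']; exact h2'
    have a5 : τ.succ = τ + 1 := rfl
    rw [a5] at a1
    omega
  have hp1 : (R.loc (τ + 1) (R.s τ)).ph.past = true := by
    rw [R.loc_succ_self]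
    unfold nxt
    rw [h1]
    dsimp only
    rw [h3]
    unfold cap
    split_ifs <;> rfl
  have hp2 := R.past_mono (show τ + 1 ≤ τ' by omega) hp1 (by
    rw [he2, ← hst']; exact h2')
  rw [← hst', h1'] at hp2
  simp [Ph.past] at hp2

/-- A processor writes to `F` at most once in an epoch: after the write (phase `wr l` with `hit`) its
next phase is `rd (l + 1) true` or `ow`, both `past`; by `nxt_past` and `e_mono` it is `past` at all
later times in this epoch; `wr` is not `past`. -/
theorem F_once {τ τ' e i i' v v' : ℕ} (h : R.act τ = .write (.F e i) v)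
    (h' : R.act τ' = .write (.F e i') v') (hs : R.s τ = R.s τ') : τ = τ' := by
  have h1 := R.F_once_aux h h' hs
  have h2 := R.F_once_aux h' h hs.symm
  omega

/-- The same content is not written twice: `act_F`, `own_cont` (the owner id is in the content),
injectivity of `R.u`, `F_once`. -/
theorem F_unique {τ τ' e i i' v : ℕ} (h : R.act τ = .write (.F e i) v)
    (h' : R.act τ' = .write (.F e i') v) : τ = τ' ∧ i = i' := by
  obtain ⟨_, _, _, _, _, hv⟩ := R.act_F h
  obtain ⟨_, _, _, _, _, hv'⟩ := R.act_F h'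
  have hs : R.s τ = R.s τ' := by
    apply R.hu
    have h1 : own v = R.u (R.s τ) := by rw [hv, own_cont]
    have h2 : own v = R.u (R.s τ') := by rw [hv', own_cont]
    rw [← h1, h2]
  have ht := R.F_once h h' hs
  refine ⟨ht, ?_⟩
  rw [← ht, h] at h'
  simp only [AAct.write.injEq, Reg.F.injEq] at h'
  exact h'.1.2

/-- Two contents of the same epoch with the same owner are equal (`F_once`). -/
theorem own_inj {t t' e i i' v v' : ℕ} (h : R.Wr t e i v) (h' : R.Wr t' e i' v')
    (ho : own v = own v') : v = v' := by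
  obtain ⟨τ, _, h⟩ := h
  obtain ⟨τ', _, h'⟩ := h'
  obtain ⟨_, _, _, _, _, hv⟩ := R.act_F h
  obtain ⟨_, _, _, _, _, hv'⟩ := R.act_F h'
  have hs : R.s τ = R.s τ' := by
    apply R.hu
    have h1 : own v = R.u (R.s τ) := by rw [hv, own_cont]
    have h2 : own v' = R.u (R.s τ') := by rw [hv', own_cont]
    rw [← h1, ho, h2]
  have ht := R.F_once h h' hs
  rw [← ht, h] at h'
  simp only [AAct.write.injEq] at h'
  exact h'.2

/-- From `mprov`. -/
theorem Fmem_wr {t e i v : ℕ} (h : R.mem t (.F e i) = v) (hv : v ≠ 0) : R.Wr t e i v := by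
  obtain ⟨τ, h1, h2, _⟩ := R.mprov h hv
  exact ⟨τ, h1, h2⟩

/-- A content that is in `F` at two times is there in between: by `mprov` at `t1` and `t2` and
`F_unique` the last writes are the same step. -/
theorem F_const {t1 t t2 e i i' v : ℕ} (hv : v ≠ 0) (h1 : R.mem t1 (.F e i) = v)
    (h2 : R.mem t2 (.F e i') = v) (ht1 : t1 ≤ t) (ht2 : t ≤ t2) :
    i = i' ∧ R.mem t (.F e i) = v := by
  obtain ⟨τ1, a1, b1, _⟩ := R.mprov h1 hv
  obtain ⟨τ2, _, b2, c2⟩ := R.mprov h2 hv
  obtain ⟨ht, hi⟩ := R.F_unique b1 b2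
  refine ⟨hi, ?_⟩
  rw [hi]
  exact c2 t (by omega) ht2

/-- All contents known to processors or in `Z`, `X _ _ _ true`, `D` have been written to `F` of the
same epoch. Proof: simultaneous induction on `t` (`nxt_ct` for the states, `act_Z`, `act_X`,
`act_D`, `mem_succ_write`, `mem_succ_ne` for the registers; the responses in `nxt_ct` are contents of
`F` (`Fmem_wr`), or of `X _ _ _ true` (case `pY` with side `false`, the register read is
`X e j r (!false)`)). -/
theorem wr_all : ∀ t : ℕ,
    (∀ p v, (R.loc t p).ph.ct? = some v → ∃ i, R.Wr t (R.loc t p).e i v) ∧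
    (∀ e j v, R.mem t (.Z e j) = v → v ≠ 0 → ∃ i, R.Wr t e i v) ∧
    (∀ e j r v, R.mem t (.X e j r true) = v → v ≠ 0 → ∃ i, R.Wr t e i v) ∧
    (∀ e v, R.mem t (.D e) = v → v ≠ 0 → ∃ i, R.Wr t e i v) := by
  intro t
  induction t with
  | zero =>
    refine ⟨?_, ?_, ?_, ?_⟩
    · intro p v h
      simp [R.loc_zero, init, Ph.ct?] at h
    · intro e j v h hv
      exact absurd (h.symm.trans (R.mem_zero _)) hv
    · intro e j r v h hv
      exact absurd (h.symm.trans (R.mem_zero _)) hv
    · intro e v h hv
      exact absurd (h.symm.trans (R.mem_zero _)) hv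
  | succ t ih =>
    obtain ⟨ih1, ih2, ih3, ih4⟩ := ih
    have hm : ∀ {e v : ℕ}, (∃ i, R.Wr t e i v) → ∃ i, R.Wr (t + 1) e i v := by
      rintro e v ⟨i, hi⟩
      exact ⟨i, R.Wr_mono (Nat.le_succ t) hi⟩
    refine ⟨?_, ?_, ?_, ?_⟩
    · intro p v h
      by_cases hp : p = R.s t
      · subst hp
        rw [R.loc_succ_self] at h ⊢
        obtain ⟨he, h1⟩ := nxt_ct h
        rw [he]
        apply hm
        rcases h1 with h1 | ⟨l, f, hph, ha, hv⟩ | ⟨j, i, hph, hv⟩ | ⟨j, i, v', hph, ha, hv⟩ |
          ⟨j, i, r, v', hph, ha, hv⟩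
        · exact ih1 (R.s t) v h1
        · have hact : R.act t = .read (.F (R.st t).e 0) := by
            unfold Run.act SQ.act; rw [hph]
          rw [R.rs_read hact] at ha hv
          exact ⟨0, R.Fmem_wr hv.symm (by rw [hv]; exact ha)⟩
        · have hact : R.act t = .read (.F (R.st t).e i) := by
            unfold Run.act SQ.act; rw [hph]
          rw [R.rs_read hact] at hv
          refine ⟨i, R.Fmem_wr hv.symm ?_⟩
          rw [hv]
          refine R.pos_ne t (R.s t) i ?_ i (le_refl _)
          show (R.st t).ph.pos? = _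
          rw [hph]; rfl
        · have hact : R.act t = .read (.F (R.st t).e (i + 1)) := by
            unfold Run.act SQ.act; rw [hph]
          rw [R.rs_read hact] at ha hv
          exact ⟨i + 1, R.Fmem_wr hv.symm (by rw [hv]; exact ha)⟩
        · have hact : R.act t = .read (.X (R.st t).e j r true) := by
            unfold Run.act SQ.act; rw [hph]; rfl
          rw [R.rs_read hact] at ha hv
          exact ih3 _ j r v hv.symm (by rw [hv]; exact ha)
      · rw [R.loc_succ_ne _ hp] at h ⊢
        exact hm (ih1 p v h)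
    · intro e j v h hv
      by_cases hw : ∃ w, R.act t = .write (.Z e j) w
      · obtain ⟨w, hw⟩ := hw
        rw [R.mem_succ_write hw] at h
        subst h
        obtain ⟨i, hph, he⟩ := R.act_Z hw
        have := ih1 (R.s t) w (by show (R.st t).ph.ct? = _; rw [hph]; rfl)
        rw [← he]
        exact hm this
      · rw [R.mem_succ_ne fun w hh => hw ⟨w, hh⟩] at h
        exact hm (ih2 e j v h hv)
    · intro e j r v h hv
      by_cases hw : ∃ w, R.act t = .write (.X e j r true) w
      · obtain ⟨w, hw⟩ := hw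
        rw [R.mem_succ_write hw] at h
        subst h
        obtain ⟨i, v', hph, he, hv'⟩ := R.act_X hw
        have hv'' : w = v' := hv'
        subst hv''
        have := ih1 (R.s t) w (by show (R.st t).ph.ct? = _; rw [hph]; rfl)
        rw [← he]
        exact hm this
      · rw [R.mem_succ_ne fun w hh => hw ⟨w, hh⟩] at h
        exact hm (ih3 e j r v h hv)
    · intro e v h hv
      by_cases hw : ∃ w, R.act t = .write (.D e) w
      · obtain ⟨w, hw⟩ := hw
        rw [R.mem_succ_write hw] at h
        subst h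
        obtain ⟨hph, he⟩ := R.act_D hw
        have := ih1 (R.s t) w (by show (R.st t).ph.ct? = _; rw [hph]; rfl)
        rw [← he]
        exact hm this
      · rw [R.mem_succ_ne fun w hh => hw ⟨w, hh⟩] at h
        exact hm (ih4 e v h hv)

theorem ct_wr {t : ℕ} {p : Fin n} {v : ℕ} (h : (R.loc t p).ph.ct? = some v) :
    ∃ i, R.Wr t (R.loc t p).e i v := (R.wr_all t).1 p v h

/-- A content is `cont (id of q) (preference of q)` for a processor `q` in this epoch. -/
theorem Wr_cont {t e i v : ℕ} (h : R.Wr t e i v) :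
    ∃ q τ, τ < t ∧ (R.loc τ q).e = e ∧ v = cont (R.u q) (R.loc τ q).x := by
  obtain ⟨τ, h1, h⟩ := h
  obtain ⟨_, _, he, _, _, hv⟩ := R.act_F h
  exact ⟨R.s τ, τ, h1, he, hv⟩

/-- A processor which is in epoch `e` and not in a phase `coin` (or in a later epoch) has filled its
coin registers of epoch `e`. Proof: induction on `t` of: for all `p`, `e`, `k < 2 * S0 c`, if
`e < (loc t p).e`, or `e = (loc t p).e` and (`ph` is not `coin _`, or `ph = coin k0` with `k < k0`)
then `mem t (C e (u p) k) ≠ 0`. -/
theorem coin_filled {t : ℕ} {p : Fin n} {e k : ℕ} (hk : k < 2 * S0 c)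
    (h : e < (R.loc t p).e ∨ (e = (R.loc t p).e ∧ ∀ k0, (R.loc t p).ph ≠ .coin k0)) :
    R.mem t (.C e (R.u p) k) ≠ 0 := by
  have key : ∀ (t : ℕ) (p : Fin n), ∀ e k, k < 2 * S0 c →
      (e < (R.loc t p).e ∨ (e = (R.loc t p).e ∧ ∀ k0, (R.loc t p).ph = .coin k0 → k < k0)) →
      R.mem t (.C e (R.u p) k) ≠ 0 := by
    refine R.inv_ind (fun t p s => ∀ e k, k < 2 * S0 c →
      (e < s.e ∨ (e = s.e ∧ ∀ k0, s.ph = .coin k0 → k < k0)) →
      R.mem t (.C e (R.u p) k) ≠ 0) ?_ ?_ ?_
    · intro p e k hk h
      rcases h with h | ⟨_, h⟩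
      · exact absurd h (Nat.not_lt_zero _)
      · exact absurd (h 0 rfl) (Nat.not_lt_zero _)
    · intro t p h e k hk h1
      exact R.mem_mono (Nat.le_succ t) (h e k hk h1)
    · intro t ih e k hk h1
      rcases nxt_e (c := c) (y := R.y t) (s := R.st t) (a := R.rs t) with ⟨he, _⟩ | ⟨he, hph, _⟩
      · rw [he] at h1
        rcases h1 with h1 | ⟨h1, h2⟩
        · exact R.mem_mono (Nat.le_succ t) (ih e k hk (Or.inl h1))
        · by_cases hc : ∃ k', (R.st t).ph = .coin k'
          · obtain ⟨k', hc⟩ := hc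
            have hact : R.act t = .write (.C (R.st t).e (R.u (R.s t)) k') (bit c (R.y t) + 1) := by
              unfold Run.act SQ.act; rw [hc]
            have hk' : k ≤ k' := by
              by_cases hlt : k' + 1 < 2 * S0 c
              · have : k < k' + 1 := by
                  apply h2 (k' + 1)
                  unfold nxt
                  rw [hc]
                  simp [hlt]
                omega
              · omega
            rcases Nat.lt_or_ge k k' with hlt | hge
            · refine R.mem_mono (Nat.le_succ t) (ih e k hk (Or.inr ⟨h1, ?_⟩))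
              intro k0 hk0
              have : k0 = k' := by
                rw [hc] at hk0
                simpa using hk0.symm
              omega
            · have hkk : k = k' := le_antisymm hk' hge
              rw [hkk, h1, R.mem_succ_write hact]
              exact Nat.succ_ne_zero _
          · refine R.mem_mono (Nat.le_succ t) (ih e k hk (Or.inr ⟨h1, ?_⟩))
            intro k0 hk0
            exact absurd ⟨k0, hk0⟩ hc
      · rw [he] at h1
        rcases h1 with h1 | ⟨h1, h2⟩
        · rcases Nat.lt_or_ge e (R.st t).e with hlt | hge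
          · exact R.mem_mono (Nat.le_succ t) (ih e k hk (Or.inl hlt))
          · refine R.mem_mono (Nat.le_succ t) (ih e k hk (Or.inr ⟨by omega, ?_⟩))
            intro k0 hk0
            exfalso
            rcases pre_coin hph with ⟨k', h3, _⟩ | ⟨_, _, h3 | ⟨v, h3, _⟩⟩
            · omega
            · rw [h3] at hk0; simp at hk0
            · rw [h3] at hk0; simp at hk0
        · exact absurd (h2 0 hph) (Nat.not_lt_zero _)
  apply key t p e k hk
  rcases h with h | ⟨h1, h2⟩
  · exact Or.inl h
  · exact Or.inr ⟨h1, fun k0 hk0 => absurd hk0 (h2 k0)⟩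

/-- The value in a coin register. `mprov` and `act_C`. -/
theorem C_val {t e o k : ℕ} (h : R.mem t (.C e o k) ≠ 0) :
    ∃ q, R.u q = o ∧ R.mem t (.C e o k) = bit c (R.ω q (e, 2 * k)) + 1 := by
  obtain ⟨τ, _, hact, _⟩ := R.mprov rfl h
  obtain ⟨hph, he, ho, hv⟩ := R.act_C hact
  refine ⟨R.s τ, ho.symm, ?_⟩
  have hnm : nm (R.st τ) = (e, 2 * k) := by
    unfold nm; rw [hph, he]
  rw [hv]
  unfold Run.y
  rw [hnm]

/-- From `coin_filled` (the owner was in the phase `wr` when it wrote its content) and `C_val`. -/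
theorem coin_reg {t e i v k : ℕ} (h : R.Wr t e i v) (hk : k < 2 * S0 c) :
    ∃ q, R.u q = own v ∧ R.mem t (.C e (own v) k) = bit c (R.ω q (e, 2 * k)) + 1 := by
  obtain ⟨τ, hτ, hact⟩ := h
  obtain ⟨l, hph, he, _, _, hv⟩ := R.act_F hact
  have ho : own v = R.u (R.s τ) := by rw [hv, own_cont]
  apply R.C_val
  rw [ho]
  refine R.mem_mono hτ.le (R.coin_filled hk (Or.inr ⟨he.symm, ?_⟩))
  intro k0 hk0
  have hk0' : (R.st τ).ph = .coin k0 := hk0
  rw [hph] at hk0'
  simp at hk0'

/-- In a phase of round `r` we have `r ≤ k` (every round takes a step of the main part) and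
`k < S0 c` (`nxt_main`). Induction. -/
theorem rnd_lt {t : ℕ} {p : Fin n} {j r : ℕ} {b : Bool} (h : (R.loc t p).ph.inR j r b) :
    r ≤ (R.loc t p).k ∧ (R.loc t p).k < S0 c := by
  revert j r b
  refine R.inv_ind (fun _ _ s => ∀ {j r : ℕ} {b : Bool}, s.ph.inR j r b → r ≤ s.k ∧ s.k < S0 c)
    ?_ ?_ ?_ t p
  · intro p j r b h
    obtain ⟨i, v, h⟩ := h
    simp [init] at h
  · intro t p h
    exact h
  · intro t ih j r b h
    have hmain : (nxt c (R.y t) (R.st t) (R.rs t)).ph.main = true := by
      obtain ⟨i, v, h⟩ := h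
      rcases h with h | h | h | h | h | h <;> rw [h] <;> rfl
    have hnrd : (nxt c (R.y t) (R.st t) (R.rs t)).ph ≠ .rd 0 false := by
      obtain ⟨i, v, h⟩ := h
      rcases h with h | h | h | h | h | h <;> rw [h] <;> simp
    have hk : (nxt c (R.y t) (R.st t) (R.rs t)).k < S0 c := by
      rcases nxt_main hmain with h1 | h1
      · exact h1
      · exact absurd h1 hnrd
    have hk' : (nxt c (R.y t) (R.st t) (R.rs t)).k = (R.st t).k + 1 := by
      rcases nxt_k hmain with h1 | ⟨_, _, _, _, h1⟩
      · exact h1.1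
      · exact absurd h1 hnrd
    refine ⟨?_, hk⟩
    rw [hk']
    have hst : ∀ {j r : ℕ} {b : Bool}, (R.st t).ph.inR j r b → r ≤ (R.st t).k :=
      fun hh => (ih hh).1
    obtain ⟨i, v, h⟩ := h
    rcases h with h | h | h | h | h | h
    · rcases pre_pX h with ⟨h0, _⟩ | ⟨h0, _⟩ | ⟨r', hr, h1⟩
      · omega
      · omega
      · have : r' ≤ (R.st t).k := by
          rcases h1 with ⟨h1, _⟩ | ⟨b', h1, _⟩ | ⟨b', v', h1, _⟩ | ⟨b', h1, _⟩ | ⟨b', v', h1, _⟩
          · exact hst (j := j) (b := b) ⟨i, v, by rw [h1]; simp⟩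
          · exact hst (j := j) (b := b') ⟨i, v, by rw [h1]; simp⟩
          · exact hst (j := j) (b := b') ⟨i, v', by rw [h1]; simp⟩
          · exact hst (j := j) (b := b') ⟨i, v, by rw [h1]; simp⟩
          · exact hst (j := j) (b := b') ⟨i, v', by rw [h1]; simp⟩
        omega
    · have h1 := pre_pY h
      have := hst (j := j) (r := r) (b := b) ⟨i, v, by rw [h1]; simp⟩
      omega
    · have h1 := (pre_pW h).1
      have := hst (j := j) (r := r) (b := b) ⟨i, v, by rw [h1]; simp⟩
      omega
    · have h1 := pre_pR h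
      have := hst (j := j) (r := r) (b := b) ⟨i, v, by rw [h1]; simp⟩
      omega
    · obtain ⟨v', h1, _⟩ := pre_pV h
      have := hst (j := j) (r := r) (b := b) ⟨i, v', by rw [h1]; simp⟩
      omega
    · have h1 := (pre_pC h).1
      have := hst (j := j) (r := r) (b := b) ⟨i, v, by rw [h1]; simp⟩
      omega

end Run

end Pool.Agent.Lib.MP_2ab09f_lc.SQ
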