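import Mathlib

import Pool.Agent.Lib.MP_2ab09f_lcS.Val

/-!
JOB Top. The contiguous top of `F`, the counter `M` of relevant writes.
-/

namespace Pool.Agent.Lib.MP_2ab09f_lc.SQ

variable {c n : ℕ}

namespace Run

variable (R : Run c n)

/-- At time `t` the top of `F e` is at position `i` and has the content `v`. -/
def TopAt (t e i v : ℕ) : Prop :=
  (∀ i' ≤ i, R.mem t (.F e i') ≠ 0) ∧ R.mem t (.F e i) = v ∧ R.mem t (.F e (i + 1)) = 0

theorem top_ne {t e i v : ℕ} (h : R.TopAt t e i v) : v ≠ 0 := by
  have := h.1 i (le_refl i)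
  rw [h.2.1] at this
  exact this

/-- Uniqueness: if `i < i'` then `F e (i + 1)` is both `0` and nonzero. -/
theorem top_unique {t e i v i' v' : ℕ} (h : R.TopAt t e i v) (h' : R.TopAt t e i' v') :
    i = i' ∧ v = v' := by
  have key : ∀ {a b w w' : ℕ}, R.TopAt t e a w → R.TopAt t e b w' → ¬ a < b := by
    intro a b w w' ha hb hab
    exact hb.1 (a + 1) hab ha.2.2
  have hi : i = i' := le_antisymm (not_lt.1 (key h' h)) (not_lt.1 (key h h'))
  subst hi
  exact ⟨rfl, h.2.1.symm.trans h'.2.1⟩

/-- Convexity: `F_const` gives `i = i'` and the content at time `t`; `mem_mono`, `mem_zero_of`. -/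
theorem top_conv {t1 t t2 e i i' v : ℕ} (h1 : R.TopAt t1 e i v) (h2 : R.TopAt t2 e i' v)
    (ht1 : t1 ≤ t) (ht2 : t ≤ t2) : R.TopAt t e i v ∧ i = i' := by
  obtain ⟨hi, hv⟩ := R.F_const (R.top_ne h1) h1.2.1 h2.2.1 ht1 ht2
  subst hi
  exact ⟨⟨fun a ha => R.mem_mono ht1 (h1.1 a ha), hv, R.mem_zero_of ht2 h2.2.2⟩, rfl⟩

/-- The number of relevant writes to `F e`. -/
def M (t e : ℕ) : ℕ :=
  (R.gh t).N e + ((Finset.range (c + 4)).filter (fun i => R.mem t (.F e i) ≠ 0)).card

/-- The ghost counter `N e` never goes down, and it goes up by one exactly when the step writes to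
`F e i`, `i < c + 3`, while `F e (i + 1)` is empty. (Unfold `gh_succ`, `ghOf`, cases of the phase.) -/
theorem N_succ (t e : ℕ) : (R.gh (t + 1)).N e = (R.gh t).N e ∨
    ((R.gh (t + 1)).N e = (R.gh t).N e + 1 ∧
      ∃ i v, i < c + 3 ∧ R.act t = .write (.F e i) v ∧ R.mem t (.F e (i + 1)) = 0) := by
  rw [R.gh_succ]
  cases hp : (R.st t).ph with
  | wr l =>
    by_cases hh : hit c l (R.y t) = true
    · by_cases hc : pos c (R.y t) < c + 3 ∧ R.mem t (.F (R.st t).e (pos c (R.y t) + 1)) = 0
      · have h1 : (ghOf c (R.mem t) (R.gh t) (R.y t) (R.st t) (R.rs t)).N =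
            Function.update (R.gh t).N (R.st t).e ((R.gh t).N (R.st t).e + 1) := by
          unfold ghOf
          rw [hp]
          dsimp only
          rw [if_pos hh]
          dsimp only
          rw [if_pos hc]
        rw [h1]
        by_cases he : e = (R.st t).e
        · right
          subst he
          refine ⟨by rw [Function.update_self], pos c (R.y t), cont (R.u (R.s t)) (R.st t).x, hc.1, ?_, hc.2⟩
          unfold Run.act SQ.act
          rw [hp]
          dsimp only
          rw [if_pos hh]
        · left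
          rw [Function.update_of_ne he]
      · left
        unfold ghOf
        rw [hp]
        dsimp only
        rw [if_pos hh]
        dsimp only
        rw [if_neg hc]
    · left
      unfold ghOf
      rw [hp]
      dsimp only
      rw [if_neg hh]
  | _ =>
    left
    unfold ghOf
    rw [hp] <;> (dsimp only; split_ifs <;> rfl)

theorem N_write {t e i v : ℕ} (h : R.act t = .write (.F e i) v) (hi : i < c + 3)
    (h0 : R.mem t (.F e (i + 1)) = 0) : (R.gh (t + 1)).N e = (R.gh t).N e + 1 := by
  obtain ⟨l, hp, he, hh, hpos, -⟩ := R.act_F h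
  subst he
  rw [← hpos] at hi h0
  rw [R.gh_succ]
  have h1 : (ghOf c (R.mem t) (R.gh t) (R.y t) (R.st t) (R.rs t)).N =
      Function.update (R.gh t).N (R.st t).e ((R.gh t).N (R.st t).e + 1) := by
    unfold ghOf
    rw [hp]
    dsimp only
    rw [if_pos hh]
    dsimp only
    rw [if_pos ⟨hi, h0⟩]
  rw [h1, Function.update_self]

theorem N_mono {t t' : ℕ} (h : t ≤ t') (e : ℕ) : (R.gh t).N e ≤ (R.gh t').N e := by
  induction t', h using Nat.le_induction with
  | base => exact le_refl _
  | succ t' _ ih =>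
    rcases R.N_succ t' e with h1 | ⟨h1, -⟩
    · rw [h1]; exact ih
    · rw [h1]; omega

theorem M_mono {t t' : ℕ} (h : t ≤ t') (e : ℕ) : R.M t e ≤ R.M t' e := by
  unfold M
  refine Nat.add_le_add (R.N_mono h e) (Finset.card_le_card ?_)
  intro i hi
  rw [Finset.mem_filter] at hi ⊢
  exact ⟨hi.1, R.mem_mono h hi.2⟩

/-- If the top has changed then there was a relevant write. Proof: `¬ TopAt t2`, but the positions
`≤ i` are nonempty at `t2` (`mem_mono`), so `F e (i + 1) ≠ 0` at `t2` or `F e i ≠ v` at `t2`. In the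
first case position `i + 1 ≤ c + 3` is in the filtered set at `t2` and not at `t1`
(`Finset.card_lt_card`), and `N` is monotone. In the second case (with `F e (i+1) = 0` at `t2`, hence
at all times before) there is a step `τ`, `t1 ≤ τ < t2`, that writes to `F e i` (otherwise the
content would still be `v`: `mem_succ_ne`), and `N_write` applies at `τ`. -/
theorem M_lt {t1 t2 e i v : ℕ} (h1 : R.TopAt t1 e i v) (h : t1 ≤ t2) (h2 : ¬ R.TopAt t2 e i v)
    (hi : i < c + 3) : R.M t1 e < R.M t2 e := by
  by_cases h0 : R.mem t2 (.F e (i + 1)) = 0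
  · have hv : R.mem t2 (.F e i) ≠ v := fun hv =>
      h2 ⟨fun a ha => R.mem_mono h (h1.1 a ha), hv, h0⟩
    -- a step which writes to `F e i`
    have hex : ∃ τ, t1 ≤ τ ∧ τ < t2 ∧ ∃ w, R.act τ = .write (.F e i) w := by
      by_contra hno
      refine hv ?_
      have hall : ∀ t, t1 ≤ t → t ≤ t2 → R.mem t (.F e i) = v := by
        intro t ht
        induction t, ht using Nat.le_induction with
        | base => intro _; exact h1.2.1
        | succ t ht ih =>
          intro ht2
          rw [R.mem_succ_ne fun w hw => hno ⟨t, ht, ht2, w, hw⟩]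
          exact ih (by omega)
      exact hall t2 h (le_refl _)
    obtain ⟨τ, ha, hb, w, hw⟩ := hex
    have hN := R.N_write hw hi (R.mem_zero_of hb.le h0)
    have hN2 : (R.gh (τ + 1)).N e ≤ (R.gh t2).N e := R.N_mono hb e
    have hN1 : (R.gh t1).N e ≤ (R.gh τ).N e := R.N_mono ha e
    have hc : ((Finset.range (c + 4)).filter (fun i => R.mem t1 (.F e i) ≠ 0)).card ≤
        ((Finset.range (c + 4)).filter (fun i => R.mem t2 (.F e i) ≠ 0)).card := by
      refine Finset.card_le_card ?_
      intro a ha
      rw [Finset.mem_filter] at ha ⊢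
      exact ⟨ha.1, R.mem_mono h ha.2⟩
    unfold M
    omega
  · have hN : (R.gh t1).N e ≤ (R.gh t2).N e := R.N_mono h e
    have hc : ((Finset.range (c + 4)).filter (fun i => R.mem t1 (.F e i) ≠ 0)).card <
        ((Finset.range (c + 4)).filter (fun i => R.mem t2 (.F e i) ≠ 0)).card := by
      refine Finset.card_lt_card ⟨?_, ?_⟩
      · intro a ha
        rw [Finset.mem_filter] at ha ⊢
        exact ⟨ha.1, R.mem_mono h ha.2⟩
      · intro hsub
        have hmem : i + 1 ∈ (Finset.range (c + 4)).filter (fun i => R.mem t2 (.F e i) ≠ 0) := by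
          rw [Finset.mem_filter, Finset.mem_range]
          exact ⟨by omega, h0⟩
        exact (Finset.mem_filter.1 (hsub hmem)).2 h1.2.2
    unfold M
    omega

/-- The filtered set is contained in `range (c + 3)`. -/
theorem M_le {t e : ℕ} (h : R.mem t (.F e (c + 3)) = 0) : R.M t e ≤ (R.gh t).N e + (c + 3) := by
  unfold M
  refine Nat.add_le_add (le_refl _) ?_
  refine (Finset.card_le_card (t := Finset.range (c + 3)) ?_).trans (by rw [Finset.card_range])
  intro i hi
  rw [Finset.mem_filter, Finset.mem_range] at hi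
  rw [Finset.mem_range]
  rcases Nat.lt_or_ge i (c + 3) with h1 | h1
  · exact h1
  · have : i = c + 3 := by omega
    subst this
    exact absurd h hi.2

/-- Position `0` is in the filtered set. -/
theorem M_pos {t e : ℕ} (h : R.mem t (.F e 0) ≠ 0) : 1 ≤ R.M t e := by
  unfold M
  have h1 : 0 < ((Finset.range (c + 4)).filter (fun i => R.mem t (.F e i) ≠ 0)).card :=
    Finset.card_pos.2 ⟨0, Finset.mem_filter.2 ⟨Finset.mem_range.2 (by omega), h⟩⟩
  omega

end Run

end Pool.Agent.Lib.MP_2ab09f_lc.SQ
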