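import Mathlib

import Pool.Agent.Lib.MP_2ab09f_lcS.Top

/-!
JOB Cert. What processors know about the top when they pass or fail the check of an index.
Induction principle: `Run.inv_ind` or `Run.last`; inversions `pre_*`.
-/

namespace Pool.Agent.Lib.MP_2ab09f_lc.SQ

variable {c n : ℕ}

namespace Run

variable (R : Run c n)

/-- Index `j` of epoch `e` has been started. -/
def Started (t e j : ℕ) : Prop :=
  (j = 0 ∧ R.mem t (.F e 0) ≠ 0) ∨
  (j ≠ 0 ∧ ∃ τ ≤ t, ∃ p j', (R.loc τ p).e = e ∧ (R.loc τ p).ph.idx? = some j' ∧ j ≤ j')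

theorem started_mono {t t' e j : ℕ} (h : t ≤ t') (h0 : R.Started t e j) : R.Started t' e j := by
  rcases h0 with ⟨h1, h2⟩ | ⟨h1, τ, hτ, p, j', h2, h3, h4⟩
  · exact Or.inl ⟨h1, R.mem_mono h h2⟩
  · exact Or.inr ⟨h1, τ, hτ.trans h, p, j', h2, h3, h4⟩

theorem Cert_pos {φ : Ph} {j : ℕ} (h : φ.idx? = some j) : ∃ i, φ.pos? = some i := by
  cases φ <;> simp_all [Ph.idx?, Ph.pos?]

/-- A processor in an index sees that `F e 0` is nonempty. -/
theorem Cert_F0 {t j : ℕ} {p : Fin n} (h : (R.loc t p).ph.idx? = some j) :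
    R.mem t (.F (R.loc t p).e 0) ≠ 0 := by
  obtain ⟨i, hi⟩ := Cert_pos h
  exact R.pos_ne t p i hi 0 (Nat.zero_le i)

/-- For `j = 0` use `pos_ne` (a phase with an index has a position). -/
theorem started_idx {t j : ℕ} {p : Fin n} (h : (R.loc t p).ph.idx? = some j) :
    R.Started t (R.loc t p).e j := by
  by_cases hj : j = 0
  · exact Or.inl ⟨hj, R.Cert_F0 h⟩
  · exact Or.inr ⟨hj, t, le_refl t, p, j, rfl, h, le_refl j⟩

theorem started_le {t e j j' : ℕ} (h : j ≤ j') (h0 : R.Started t e j') : R.Started t e j := by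
  by_cases hj : j = 0
  · refine Or.inl ⟨hj, ?_⟩
    rcases h0 with ⟨-, h2⟩ | ⟨-, τ, hτ, p, j'', h2, h3, -⟩
    · exact h2
    · have h4 := R.Cert_F0 h3
      rw [h2] at h4
      exact R.mem_mono hτ h4
  · rcases h0 with ⟨h1, -⟩ | ⟨-, τ, hτ, p, j'', h2, h3, h4⟩
    · exact absurd h1 (by omega)
    · exact Or.inr ⟨hj, τ, hτ, p, j'', h2, h3, h.trans h4⟩

/-- In the phase `nx j i v` the content `v` was read at a time `t1` at which all positions `≤ i` were
nonempty. Induction; `pre_nx`: from `rd` (`t1` = that step; `Started` because `F e 0` is nonempty),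
from `top` (`t1` = that step, `pos_ne`, `started_idx`), from `nx j i' v'` (`t1` = that step). -/
theorem cert_nx {t j i v : ℕ} {p : Fin n} (h : (R.loc t p).ph = .nx j i v) :
    ∃ t1 ≤ t, R.Started t1 (R.loc t p).e j ∧ (∀ i' ≤ i, R.mem t1 (.F (R.loc t p).e i') ≠ 0) ∧
      R.mem t1 (.F (R.loc t p).e i) = v := by
  refine R.inv_ind (fun t _ s => ∀ j i v, s.ph = .nx j i v → ∃ t1 ≤ t, R.Started t1 s.e j ∧
    (∀ i' ≤ i, R.mem t1 (.F s.e i') ≠ 0) ∧ R.mem t1 (.F s.e i) = v) ?_ ?_ ?_ t p j i v h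
  · intro p j i v h
    simp [init] at h
  · intro t p h j i v hs
    obtain ⟨t1, h1, h2⟩ := h j i v hs
    exact ⟨t1, h1.trans (Nat.le_succ t), h2⟩
  · intro t _ j i v hs
    have he : (nxt c (R.y t) (R.st t) (R.rs t)).e = (R.st t).e :=
      (nxt_pos (i := i) (by rw [hs]; rfl)).1
    rw [he]
    refine ⟨t, Nat.le_succ t, ?_⟩
    rcases pre_nx hs with ⟨l, f, hp, rfl, rfl, rfl, ha⟩ | ⟨hp, rfl⟩ | ⟨i0, v0, rfl, hp, ha, rfl⟩
    · have hact : R.act t = .read (.F (R.st t).e 0) := by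
        unfold Run.act SQ.act
        rw [hp]
      rw [R.rs_read hact] at ha ⊢
      refine ⟨Or.inl ⟨rfl, ha⟩, ?_, rfl⟩
      intro i' hi'
      have : i' = 0 := by omega
      rw [this]
      exact ha
    · have hact : R.act t = .read (.F (R.st t).e i) := by
        unfold Run.act SQ.act
        rw [hp]
      rw [R.rs_read hact]
      exact ⟨R.started_idx (p := R.s t) (by show (R.st t).ph.idx? = some j; rw [hp]; rfl),
        R.pos_ne t (R.s t) i (by show (R.st t).ph.pos? = some i; rw [hp]; rfl), rfl⟩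
    · have hact : R.act t = .read (.F (R.st t).e (i0 + 1)) := by
        unfold Run.act SQ.act
        rw [hp]
      rw [R.rs_read hact] at ha ⊢
      refine ⟨R.started_idx (p := R.s t) (by show (R.st t).ph.idx? = some j; rw [hp]; rfl), ?_, rfl⟩
      intro i' hi'
      rcases Nat.lt_or_ge i0 i' with hc | hc
      · have : i' = i0 + 1 := by omega
        rw [this]
        exact ha
      · exact R.pos_ne t (R.s t) i0 (by show (R.st t).ph.pos? = some i0; rw [hp]; rfl) i' hc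

/-- Certified top. `z` is reached from `nx` by reading `F e (i + 1) = 0`, so `F e (i + 1)` was `0` at
`t1` (`mem_zero_of`). -/
theorem cert {t j i v : ℕ} {p : Fin n} (h : (R.loc t p).ph = .z j i v ∨
    (R.loc t p).ph = .zw j i v ∨ (R.loc t p).ph = .c1 j i v ∨ (R.loc t p).ph = .c2 j i v) :
    ∃ t1 ≤ t, R.Started t1 (R.loc t p).e j ∧ R.TopAt t1 (R.loc t p).e i v := by
  refine R.inv_ind (fun t _ s => ∀ j i v, (s.ph = .z j i v ∨ s.ph = .zw j i v ∨
    s.ph = .c1 j i v ∨ s.ph = .c2 j i v) → ∃ t1 ≤ t, R.Started t1 s.e j ∧ R.TopAt t1 s.e i v)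
    ?_ ?_ ?_ t p j i v h
  · intro p j i v h
    simp [init] at h
  · intro t p h j i v hs
    obtain ⟨t1, h1, h2⟩ := h j i v hs
    exact ⟨t1, h1.trans (Nat.le_succ t), h2⟩
  · intro t ih j i v hs
    have he : (nxt c (R.y t) (R.st t) (R.rs t)).e = (R.st t).e := by
      refine (nxt_pos (i := i) ?_).1
      rcases hs with hs | hs | hs | hs <;> rw [hs] <;> rfl
    rw [he]
    have up : (∃ t1 ≤ t, R.Started t1 (R.st t).e j ∧ R.TopAt t1 (R.st t).e i v) →
        ∃ t1 ≤ t + 1, R.Started t1 (R.st t).e j ∧ R.TopAt t1 (R.st t).e i v := by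
      rintro ⟨t1, h1, h2⟩
      exact ⟨t1, h1.trans (Nat.le_succ t), h2⟩
    apply up
    rcases hs with hs | hs | hs | hs
    · obtain ⟨hp, ha⟩ := pre_z hs
      have hact : R.act t = .read (.F (R.st t).e (i + 1)) := by
        unfold Run.act SQ.act
        rw [hp]
      rw [R.rs_read hact] at ha
      obtain ⟨t1, h1, h2, h3, h4⟩ := R.cert_nx (t := t) (p := R.s t) hp
      exact ⟨t1, h1, h2, h3, h4, R.mem_zero_of h1 ha⟩
    · exact ih j i v (Or.inl (pre_zw hs).1)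
    · rcases pre_c1 hs with ⟨hp, -⟩ | hp
      · exact ih j i v (Or.inl hp)
      · exact ih j i v (Or.inr (Or.inl hp))
    · exact ih j i v (Or.inr (Or.inr (Or.inl (pre_c2 hs).1)))

/-- `v` was the top at a time when index `j` was started and `Z e j` was empty. -/
def Z0 (t e j v : ℕ) : Prop :=
  ∃ t0 ≤ t, ∃ i, R.Started t0 e j ∧ R.TopAt t0 e i v ∧ R.mem t0 (.Z e j) = 0

theorem Z0_mono {t t' e j v : ℕ} (h : t ≤ t') (h0 : R.Z0 t e j v) : R.Z0 t' e j v := by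
  obtain ⟨t0, h1, h2⟩ := h0
  exact ⟨t0, h1.trans h, h2⟩

/-- `zw` is reached from `z` by reading `Z e j = 0`; take the certified time `t1`,
`Z e j` was empty at `t1` (`mem_zero_of`). -/
theorem zw_Z0 {t j i v : ℕ} {p : Fin n} (h : (R.loc t p).ph = .zw j i v) :
    R.Z0 t (R.loc t p).e j v := by
  refine R.inv_ind (fun t _ s => ∀ j i v, s.ph = .zw j i v → R.Z0 t s.e j v) ?_ ?_ ?_ t p j i v h
  · intro p j i v h
    simp [init] at h
  · intro t p h j i v hs
    exact R.Z0_mono (Nat.le_succ t) (h j i v hs)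
  · intro t _ j i v hs
    have he : (nxt c (R.y t) (R.st t) (R.rs t)).e = (R.st t).e :=
      (nxt_pos (i := i) (by rw [hs]; rfl)).1
    rw [he]
    obtain ⟨hp, ha⟩ := pre_zw hs
    have hact : R.act t = .read (.Z (R.st t).e j) := by
      unfold Run.act SQ.act
      rw [hp]
    rw [R.rs_read hact] at ha
    obtain ⟨t1, h1, h2, h3⟩ := R.cert (t := t) (p := R.s t) (Or.inl hp)
    exact ⟨t1, h1.trans (Nat.le_succ t), i, h2, h3, R.mem_zero_of h1 ha⟩

/-- The contents of `Z`: `mprov`, `act_Z`, `zw_Z0`. -/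
theorem Z_Z0 {t e j v : ℕ} (h : R.mem t (.Z e j) = v) (hv : v ≠ 0) : R.Z0 t e j v := by
  obtain ⟨τ, hτ, hact, -⟩ := R.mprov h hv
  obtain ⟨i, hp, he⟩ := R.act_Z hact
  have h1 : R.Z0 τ (R.st τ).e j v := R.zw_Z0 (p := R.s τ) hp
  rw [he] at h1
  exact R.Z0_mono hτ.le h1

/-- `c1` is reached from `z` by reading `Z e j = v`, or from `zw` by writing `v`. -/
theorem c1_Z0 {t j i v : ℕ} {p : Fin n} (h : (R.loc t p).ph = .c1 j i v) :
    R.Z0 t (R.loc t p).e j v ∧ R.mem t (.Z (R.loc t p).e j) ≠ 0 := by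
  refine R.inv_ind (fun t _ s => ∀ j i v, s.ph = .c1 j i v → R.Z0 t s.e j v ∧
    R.mem t (.Z s.e j) ≠ 0) ?_ ?_ ?_ t p j i v h
  · intro p j i v h
    simp [init] at h
  · intro t p h j i v hs
    obtain ⟨h1, h2⟩ := h j i v hs
    exact ⟨R.Z0_mono (Nat.le_succ t) h1, R.mem_mono (Nat.le_succ t) h2⟩
  · intro t _ j i v hs
    have he : (nxt c (R.y t) (R.st t) (R.rs t)).e = (R.st t).e :=
      (nxt_pos (i := i) (by rw [hs]; rfl)).1
    rw [he]
    rcases pre_c1 hs with ⟨hp, hav, ha⟩ | hp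
    · have hact : R.act t = .read (.Z (R.st t).e j) := by
        unfold Run.act SQ.act
        rw [hp]
      rw [R.rs_read hact] at hav ha
      have h1 : R.Z0 t (R.st t).e j v := R.Z_Z0 hav (hav ▸ ha)
      exact ⟨R.Z0_mono (Nat.le_succ t) h1, R.mem_mono (Nat.le_succ t) ha⟩
    · have hact : R.act t = .write (.Z (R.st t).e j) v := by
        unfold Run.act SQ.act
        rw [hp]
      refine ⟨R.Z0_mono (Nat.le_succ t) (R.zw_Z0 (p := R.s t) hp), ?_⟩
      rw [R.mem_succ_write hact]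
      exact R.ct_ne (t := t) (p := R.s t) (by show (R.st t).ph.ct? = some v; rw [hp]; rfl)

/-- `c2` is reached from `c1` at a step `t3` at which `F e (i + 1)` is empty. -/
theorem c2_spec {t j i v : ℕ} {p : Fin n} (h : (R.loc t p).ph = .c2 j i v) :
    ∃ t1 t3, t1 ≤ t3 ∧ t3 ≤ t ∧ R.Started t1 (R.loc t p).e j ∧ R.TopAt t1 (R.loc t p).e i v ∧
      R.mem t3 (.Z (R.loc t p).e j) ≠ 0 ∧ R.mem t3 (.F (R.loc t p).e (i + 1)) = 0 ∧
      R.Z0 t3 (R.loc t p).e j v := by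
  refine R.inv_ind (fun t _ s => ∀ j i v, s.ph = .c2 j i v → ∃ t1 t3, t1 ≤ t3 ∧ t3 ≤ t ∧
    R.Started t1 s.e j ∧ R.TopAt t1 s.e i v ∧ R.mem t3 (.Z s.e j) ≠ 0 ∧
    R.mem t3 (.F s.e (i + 1)) = 0 ∧ R.Z0 t3 s.e j v) ?_ ?_ ?_ t p j i v h
  · intro p j i v h
    simp [init] at h
  · intro t p h j i v hs
    obtain ⟨t1, t3, h1, h2, h3⟩ := h j i v hs
    exact ⟨t1, t3, h1, h2.trans (Nat.le_succ t), h3⟩
  · intro t _ j i v hs
    have he : (nxt c (R.y t) (R.st t) (R.rs t)).e = (R.st t).e :=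
      (nxt_pos (i := i) (by rw [hs]; rfl)).1
    rw [he]
    obtain ⟨hp, ha⟩ := pre_c2 hs
    have hact : R.act t = .read (.F (R.st t).e (i + 1)) := by
      unfold Run.act SQ.act
      rw [hp]
    rw [R.rs_read hact] at ha
    obtain ⟨t1, h1, h2, h3⟩ := R.cert (t := t) (p := R.s t) (Or.inr (Or.inr (Or.inl hp)))
    obtain ⟨h4, h5⟩ := R.c1_Z0 (t := t) (p := R.s t) hp
    exact ⟨t1, t, h1, Nat.le_succ t, h2, h3, h5, ha, h4⟩

/-- The content `v` has passed index `j` of epoch `e`. -/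
def PF (t e j v : ℕ) : Prop :=
  ∃ t0 t3 i, t0 ≤ t3 ∧ t3 ≤ t ∧ R.Started t0 e j ∧ R.TopAt t0 e i v ∧ R.mem t0 (.Z e j) = 0 ∧
    R.TopAt t3 e i v ∧ R.mem t3 (.Z e j) ≠ 0

/-- Somebody has failed at index `j` of epoch `e`: the top has changed since the start of `j`. -/
def FF (t e j : ℕ) : Prop :=
  ∃ ta tb i v, ta ≤ tb ∧ tb ≤ t ∧ R.Started ta e j ∧ R.TopAt ta e i v ∧ ¬ R.TopAt tb e i v

theorem PF_mono {t t' e j v : ℕ} (h : t ≤ t') (h0 : R.PF t e j v) : R.PF t' e j v := by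
  obtain ⟨t0, t3, i, h1, h2, h3⟩ := h0
  exact ⟨t0, t3, i, h1, h2.trans h, h3⟩

theorem FF_mono {t t' e j : ℕ} (h : t ≤ t') (h0 : R.FF t e j) : R.FF t' e j := by
  obtain ⟨ta, tb, i, v, h1, h2, h3⟩ := h0
  exact ⟨ta, tb, i, v, h1, h2.trans h, h3⟩

/-- Passing: `c2_spec` gives `t1 ≤ t3`; `F e i = v` at `t1` and at `t`, so also at `t3` (`F_const`,
`top_ne`); the positions `≤ i` are nonempty at `t3`, `F e (i + 1) = 0` at `t3`: `TopAt t3`. From `Z0`:
`t0` with `TopAt t0 e i0 v` and `Z e j = 0` at `t0`, so `t0 < t3` (`mem_mono`), `i0 = i`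
(`top_conv` or `F_const`). -/
theorem pass_c2 {t j i v : ℕ} (h : (R.st t).ph = .c2 j i v) (ha : R.rs t = v) :
    R.PF t (R.st t).e j v := by
  obtain ⟨t1, t3, h13, h3t, hs, ht, hz, hf, h0⟩ := R.c2_spec (p := R.s t) h
  have hact : R.act t = .read (.F (R.st t).e i) := by
    unfold Run.act SQ.act
    rw [h]
  rw [R.rs_read hact] at ha
  have hv : v ≠ 0 := R.top_ne ht
  have h3 := (R.F_const hv ht.2.1 ha h13 h3t).2
  have hT : R.TopAt t3 (R.st t).e i v := ⟨fun i' hi' => R.mem_mono h13 (ht.1 i' hi'), h3, hf⟩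
  obtain ⟨t0, h03, i0, hs0, ht0, hz0⟩ := h0
  have hi := (R.F_const hv ht0.2.1 h3 (le_refl t0) h03).1
  subst hi
  exact ⟨t0, t3, i0, h03, h3t, hs0, ht0, hz0, hT, hz⟩

/-- Failing in phase `z`: the content `w` of `Z e j` is neither `0` nor `v`. `Z_Z0`: `TopAt t0 w`,
`Started t0`; `cert`: `TopAt t1 v`. If `t0 ≤ t1` take `ta = t0`, `tb = t1` (`top_unique`), else
`ta = t1`, `tb = t0`. -/
theorem fail_z {t j i v : ℕ} (h : (R.st t).ph = .z j i v) (ha : R.rs t ≠ 0) (ha' : R.rs t ≠ v) :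
    R.FF t (R.st t).e j := by
  have hact : R.act t = .read (.Z (R.st t).e j) := by
    unfold Run.act SQ.act
    rw [h]
  rw [R.rs_read hact] at ha ha'
  obtain ⟨t0, h0t, i0, hs0, ht0, -⟩ := R.Z_Z0 rfl ha
  obtain ⟨t1, h1t, hs1, ht1⟩ := R.cert (p := R.s t) (Or.inl h)
  rcases le_total t0 t1 with hc | hc
  · exact ⟨t0, t1, i0, _, hc, h1t, hs0, ht0, fun hh => ha' (R.top_unique hh ht1).2⟩
  · exact ⟨t1, t0, i, _, hc, h0t, hs1, ht1, fun hh => ha' (R.top_unique hh ht0).2.symm⟩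

/-- Failing in phase `c1`: `F e (i + 1) ≠ 0` at time `t`: `ta = t1` of `cert`, `tb = t`. -/
theorem fail_c1 {t j i v : ℕ} (h : (R.st t).ph = .c1 j i v) (ha : R.rs t ≠ 0) :
    R.FF t (R.st t).e j := by
  have hact : R.act t = .read (.F (R.st t).e (i + 1)) := by
    unfold Run.act SQ.act
    rw [h]
  rw [R.rs_read hact] at ha
  obtain ⟨t1, h1t, hs1, ht1⟩ := R.cert (p := R.s t) (Or.inr (Or.inr (Or.inl h)))
  exact ⟨t1, t, i, v, h1t, le_refl t, hs1, ht1, fun hh => ha hh.2.2⟩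

/-- Failing in phase `c2`: `F e i ≠ v` at time `t`: `ta = t1` of `cert`, `tb = t`. -/
theorem fail_c2 {t j i v : ℕ} (h : (R.st t).ph = .c2 j i v) (ha : R.rs t ≠ v) :
    R.FF t (R.st t).e j := by
  have hact : R.act t = .read (.F (R.st t).e i) := by
    unfold Run.act SQ.act
    rw [h]
  rw [R.rs_read hact] at ha
  obtain ⟨t1, h1t, hs1, ht1⟩ := R.cert (p := R.s t) (Or.inr (Or.inr (Or.inr h)))
  exact ⟨t1, t, i, v, h1t, le_refl t, hs1, ht1, fun hh => ha hh.2.1⟩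

/-- `Z e j` is written only by processors in index `j` (`mprov`, `act_Z`, `started_idx`). -/
theorem Z_started {t e j : ℕ} (h : R.mem t (.Z e j) ≠ 0) : R.Started t e j := by
  obtain ⟨τ, hτ, hact, -⟩ := R.mprov rfl h
  obtain ⟨i, hp, he⟩ := R.act_Z hact
  have h1 := R.started_idx (t := τ) (p := R.s τ) (j := j) (by
    show (R.st τ).ph.idx? = some j
    rw [hp]
    rfl)
  have h2 : (R.loc τ (R.s τ)).e = e := he
  rw [h2] at h1
  exact R.started_mono hτ.le h1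

end Run

end Pool.Agent.Lib.MP_2ab09f_lc.SQ
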