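import Mathlib

import Pool.Agent.Lib.MP_2ab09f_lcS.Cert

/-!
JOB Side. Validity of the binary consensus of index `j`: side `true` carries a content that has
passed, side `false` means that somebody failed.
-/

namespace Pool.Agent.Lib.MP_2ab09f_lc.SQ

variable {c n : ℕ}

theorem Side_e {y : Cn c} {s : LS} {a : ℕ} (h : (nxt c y s a).ph ≠ .coin 0) :
    (nxt c y s a).e = s.e := by
  rcases nxt_e (c := c) (y := y) (s := s) (a := a) with h1 | h1
  · exact h1.1
  · exact absurd h1.2.1 h

/-- Where the index of a phase comes from. -/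
theorem nxt_idx {y : Cn c} {s : LS} {a j' : ℕ} (h : (nxt c y s a).ph.idx? = some j') :
    (nxt c y s a).e = s.e ∧ (s.ph.idx? = some j' ∨ (j' = 0 ∧ ∃ l f, s.ph = .rd l f ∧ a ≠ 0) ∨
      (∃ j i r v, j' = j + 1 ∧ s.ph = .pR j i r false v ∧ a = 0)) := by
  unfold nxt at h ⊢
  cases hp : s.ph <;> rw [hp] at h <;> dsimp only at h ⊢ <;> (try unfold cap at *) <;>
    (try unfold newE at *) <;> (try split_ifs at h ⊢) <;> simp_all [Ph.idx?]

/-- The phases in which the anchor register of the index is known to be nonempty. -/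
def Ph.zd : Ph → Bool
  | .c1 _ _ _ => true
  | .c2 _ _ _ => true
  | .pX _ _ _ _ _ => true
  | .pY _ _ _ _ _ => true
  | .pW _ _ _ _ _ => true
  | .pR _ _ _ _ _ => true
  | .pV _ _ _ _ _ => true
  | .pC _ _ _ _ _ => true
  | _ => false

theorem nxt_zd {y : Cn c} {s : LS} {a j' : ℕ} (h : (nxt c y s a).ph.idx? = some j')
    (hz : (nxt c y s a).ph.zd = true) :
    s.ph.idx? = some j' ∧ (s.ph.zd = true ∨ (∃ i v, s.ph = .z j' i v ∧ a ≠ 0) ∨
      (∃ i v, s.ph = .zw j' i v)) := by
  unfold nxt at h hz
  cases hp : s.ph <;> rw [hp] at h hz <;> dsimp only at h hz ⊢ <;> (try unfold cap at *) <;>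
    (try unfold newE at *) <;> (try split_ifs at h hz ⊢) <;> simp_all [Ph.idx?, Ph.zd]

namespace Run

variable (R : Run c n)

/-- Simultaneous induction on `t`. States: `pre_pX` (round `0`: `pass_c2`, `fail_z`, `fail_c1`,
`fail_c2`; later rounds: from `pR` the same side; from `pV` with response `2` (`1`): the last but one
clause for `W`; from `pC`: in `pV`, `pC` both a content has passed and somebody has failed),
`pre_pY`, `pre_pW`, `pre_pR`, `pre_pV` (the response is the content of `X e j r (!b)`: for `b = false`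
it is `v` and has passed, for `b = true` somebody failed), `pre_pC`. Registers: `act_X`, `act_W`. In
the phases `pV`, `pC` the flag `b` is the old side. Note that `W` has only the values `0, 1, 2`
(`act_W`). -/
theorem side_all : ∀ t : ℕ,
    (∀ p j i r v, ((R.loc t p).ph = .pX j i r true v ∨ (R.loc t p).ph = .pY j i r true v ∨
      (R.loc t p).ph = .pW j i r true v ∨ (R.loc t p).ph = .pR j i r true v) →
      R.PF t (R.loc t p).e j v) ∧
    (∀ p j i r v, ((R.loc t p).ph = .pX j i r false v ∨ (R.loc t p).ph = .pY j i r false v ∨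
      (R.loc t p).ph = .pW j i r false v ∨ (R.loc t p).ph = .pR j i r false v) →
      R.FF t (R.loc t p).e j) ∧
    (∀ p j i r b v, ((R.loc t p).ph = .pV j i r b v ∨ (R.loc t p).ph = .pC j i r b v) →
      R.PF t (R.loc t p).e j v ∧ R.FF t (R.loc t p).e j) ∧
    (∀ e j r v, R.mem t (.X e j r true) = v → v ≠ 0 → R.PF t e j v) ∧
    (∀ e j r, R.mem t (.X e j r false) ≠ 0 → R.FF t e j) ∧
    (∀ e j r, R.mem t (.W e j r) = 2 → ∃ v, R.PF t e j v) ∧
    (∀ e j r, R.mem t (.W e j r) ≠ 0 → R.mem t (.W e j r) ≠ 2 → R.FF t e j) := by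
  intro t
  induction t with
  | zero =>
    refine ⟨?_, ?_, ?_, ?_, ?_, ?_, ?_⟩
    · intro p j i r v h
      simp [R.loc_zero, init] at h
    · intro p j i r v h
      simp [R.loc_zero, init] at h
    · intro p j i r b v h
      simp [R.loc_zero, init] at h
    · intro e j r v h hv
      exact absurd (h.symm.trans (R.mem_zero _)) hv
    · intro e j r h
      exact absurd (R.mem_zero _) h
    · intro e j r h
      rw [R.mem_zero] at h
      exact absurd h (by decide)
    · intro e j r h
      exact absurd (R.mem_zero _) h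
  | succ t ih =>
    obtain ⟨ih1, ih2, ih3, ih4, ih5, ih6, ih7⟩ := ih
    have j1 : ∀ j i r v, ((R.st t).ph = .pX j i r true v ∨ (R.st t).ph = .pY j i r true v ∨
        (R.st t).ph = .pW j i r true v ∨ (R.st t).ph = .pR j i r true v) →
        R.PF (t + 1) (R.st t).e j v := fun j i r v h =>
      R.PF_mono (Nat.le_succ t) (ih1 (R.s t) j i r v h)
    have j2 : ∀ j i r v, ((R.st t).ph = .pX j i r false v ∨ (R.st t).ph = .pY j i r false v ∨
        (R.st t).ph = .pW j i r false v ∨ (R.st t).ph = .pR j i r false v) →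
        R.FF (t + 1) (R.st t).e j := fun j i r v h =>
      R.FF_mono (Nat.le_succ t) (ih2 (R.s t) j i r v h)
    have j3 : ∀ j i r b v, ((R.st t).ph = .pV j i r b v ∨ (R.st t).ph = .pC j i r b v) →
        R.PF (t + 1) (R.st t).e j v ∧ R.FF (t + 1) (R.st t).e j := fun j i r b v h =>
      ⟨R.PF_mono (Nat.le_succ t) (ih3 (R.s t) j i r b v h).1,
        R.FF_mono (Nat.le_succ t) (ih3 (R.s t) j i r b v h).2⟩
    refine ⟨?_, ?_, ?_, ?_, ?_, ?_, ?_⟩
    · intro p j i r v h
      by_cases hp : p = R.s t
      · subst hp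
        have he : (R.loc (t + 1) (R.s t)).e = (R.st t).e := by
          rw [R.loc_succ_self] at h ⊢
          refine Side_e (c := c) ?_
          intro hc
          rw [hc] at h
          simp at h
        rw [he]
        rw [R.loc_succ_self] at h
        rcases h with h | h | h | h
        · rcases pre_pX h with ⟨_, _, h1, h2⟩ | ⟨_, h1, _⟩ | ⟨r', _, h1⟩
          · exact R.PF_mono (Nat.le_succ t) (R.pass_c2 h1 h2)
          · cases h1
          · rcases h1 with ⟨h1, _⟩ | ⟨b', h1, _, _⟩ | ⟨b', v', _, _, _, h1, _⟩ | ⟨b', h1, _, _⟩ |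
              ⟨b', v', _, _, h1, _⟩
            · exact j1 _ _ _ _ (Or.inr (Or.inr (Or.inr h1)))
            · exact (j3 _ _ _ _ _ (Or.inl h1)).1
            · cases h1
            · exact (j3 _ _ _ _ _ (Or.inr h1)).1
            · cases h1
        · exact j1 _ _ _ _ (Or.inl (pre_pY h))
        · exact j1 _ _ _ _ (Or.inr (Or.inl (pre_pW h).1))
        · exact j1 _ _ _ _ (Or.inr (Or.inr (Or.inl (pre_pR h))))
      · rw [R.loc_succ_ne _ hp] at h ⊢
        exact R.PF_mono (Nat.le_succ t) (ih1 p j i r v h)
    · intro p j i r v h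
      by_cases hp : p = R.s t
      · subst hp
        have he : (R.loc (t + 1) (R.s t)).e = (R.st t).e := by
          rw [R.loc_succ_self] at h ⊢
          refine Side_e (c := c) ?_
          intro hc
          rw [hc] at h
          simp at h
        rw [he]
        rw [R.loc_succ_self] at h
        rcases h with h | h | h | h
        · rcases pre_pX h with ⟨_, h1, _⟩ | ⟨_, _, _, h1⟩ | ⟨r', _, h1⟩
          · cases h1
          · rcases h1 with ⟨v', h1, h2, h3⟩ | ⟨v', h1, h2⟩ | ⟨v', h1, h2⟩
            · exact R.FF_mono (Nat.le_succ t) (R.fail_z h1 h2 h3)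
            · exact R.FF_mono (Nat.le_succ t) (R.fail_c1 h1 h2)
            · exact R.FF_mono (Nat.le_succ t) (R.fail_c2 h1 h2)
          · rcases h1 with ⟨h1, _⟩ | ⟨b', _, _, h1⟩ | ⟨b', v', h1, _⟩ | ⟨b', _, _, h1⟩ |
              ⟨b', v', h1, _⟩
            · exact j2 _ _ _ _ (Or.inr (Or.inr (Or.inr h1)))
            · cases h1
            · exact (j3 _ _ _ _ _ (Or.inl h1)).2
            · cases h1
            · exact (j3 _ _ _ _ _ (Or.inr h1)).2
        · exact j2 _ _ _ _ (Or.inl (pre_pY h))
        · exact j2 _ _ _ _ (Or.inr (Or.inl (pre_pW h).1))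
        · exact j2 _ _ _ _ (Or.inr (Or.inr (Or.inl (pre_pR h))))
      · rw [R.loc_succ_ne _ hp] at h ⊢
        exact R.FF_mono (Nat.le_succ t) (ih2 p j i r v h)
    · intro p j i r b v h
      by_cases hp : p = R.s t
      · subst hp
        have he : (R.loc (t + 1) (R.s t)).e = (R.st t).e := by
          rw [R.loc_succ_self] at h ⊢
          refine Side_e (c := c) ?_
          intro hc
          rw [hc] at h
          simp at h
        rw [he]
        rw [R.loc_succ_self] at h
        rcases h with h | h
        · obtain ⟨v', h1, h2, h3⟩ := pre_pV h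
          have hact : R.act t = .read (.X (R.st t).e j r (!b)) := by
            unfold Run.act SQ.act; rw [h1]
          rw [R.rs_read hact] at h2 h3
          cases b with
          | true =>
            refine ⟨?_, R.FF_mono (Nat.le_succ t) (ih5 _ _ _ h2)⟩
            have : v = v' := by simpa using h3
            rw [this]
            exact j1 _ _ _ _ (Or.inr (Or.inl h1))
          | false =>
            have : R.mem t (.X (R.st t).e j r true) = v := by simpa using h3.symm
            refine ⟨R.PF_mono (Nat.le_succ t) (ih4 _ _ _ _ this ?_),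
              j2 _ _ _ _ (Or.inr (Or.inl h1))⟩
            rw [← this]
            exact h2
        · exact j3 _ _ _ _ _ (Or.inl (pre_pC h).1)
      · rw [R.loc_succ_ne _ hp] at h ⊢
        exact ⟨R.PF_mono (Nat.le_succ t) (ih3 p j i r b v h).1,
          R.FF_mono (Nat.le_succ t) (ih3 p j i r b v h).2⟩
    · intro e j r v h hv
      by_cases hw : ∃ w, R.act t = .write (.X e j r true) w
      · obtain ⟨w, hw⟩ := hw
        rw [R.mem_succ_write hw] at h
        obtain ⟨i, v', h1, h2, h3⟩ := R.act_X hw
        rw [← h2, ← h, h3]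
        exact j1 _ _ _ _ (Or.inl h1)
      · rw [R.mem_succ_ne fun w hh => hw ⟨w, hh⟩] at h
        exact R.PF_mono (Nat.le_succ t) (ih4 e j r v h hv)
    · intro e j r h
      by_cases hw : ∃ w, R.act t = .write (.X e j r false) w
      · obtain ⟨w, hw⟩ := hw
        obtain ⟨i, v', h1, h2, h3⟩ := R.act_X hw
        rw [← h2]
        exact j2 _ _ _ _ (Or.inl h1)
      · rw [R.mem_succ_ne fun w hh => hw ⟨w, hh⟩] at h
        exact R.FF_mono (Nat.le_succ t) (ih5 e j r h)
    · intro e j r h
      by_cases hw : ∃ w, R.act t = .write (.W e j r) w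
      · obtain ⟨w, hw⟩ := hw
        rw [R.mem_succ_write hw] at h
        obtain ⟨i, b, v', h1, h2, h3⟩ := R.act_W hw
        cases b with
        | true =>
          rw [← h2]
          exact ⟨v', j1 _ _ _ _ (Or.inr (Or.inr (Or.inl h1)))⟩
        | false =>
          simp at h3
          omega
      · rw [R.mem_succ_ne fun w hh => hw ⟨w, hh⟩] at h
        obtain ⟨v, hv⟩ := ih6 e j r h
        exact ⟨v, R.PF_mono (Nat.le_succ t) hv⟩
    · intro e j r h h'
      by_cases hw : ∃ w, R.act t = .write (.W e j r) w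
      · obtain ⟨w, hw⟩ := hw
        rw [R.mem_succ_write hw] at h h'
        obtain ⟨i, b, v', h1, h2, h3⟩ := R.act_W hw
        cases b with
        | true =>
          simp at h3
          omega
        | false =>
          rw [← h2]
          exact j2 _ _ _ _ (Or.inr (Or.inr (Or.inl h1)))
      · rw [R.mem_succ_ne fun w hh => hw ⟨w, hh⟩] at h h'
        exact R.FF_mono (Nat.le_succ t) (ih7 e j r h h')

/-- A processor in index `j'` (or that committed side `true` at `j'`) has seen all indices `j < j'`
fail. Induction on `t` (`pre_top`: from `pR j' i r false v`, `side_all`). -/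
theorem idx_FF {t j j' : ℕ} {p : Fin n} (h : (R.loc t p).ph.idx? = some j') (hj : j < j') :
    R.FF t (R.loc t p).e j := by
  refine R.inv_ind (fun t _ s => ∀ j', s.ph.idx? = some j' → ∀ j < j', R.FF t s.e j)
    ?_ ?_ ?_ t p j' h j hj
  · intro p j' h
    simp [init, Ph.idx?] at h
  · intro t p h j' hj' j hj
    exact R.FF_mono (Nat.le_succ t) (h j' hj' j hj)
  · intro t h j' hj' j hj
    obtain ⟨he, h1⟩ := nxt_idx hj'
    rw [he]
    rcases h1 with h1 | ⟨rfl, l, f, hp, ha⟩ | ⟨j0, i, r, v, rfl, hp, ha⟩
    · exact R.FF_mono (Nat.le_succ t) (h j' h1 j hj)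
    · omega
    · refine R.FF_mono (Nat.le_succ t) ?_
      rcases Nat.lt_or_ge j j0 with hc | hc
      · exact h j0 (by rw [hp]; rfl) j hc
      · have : j = j0 := by omega
        subst this
        exact (R.side_all t).2.1 (R.s t) j i r v (Or.inr (Or.inr (Or.inr hp)))

/-- From `idx_FF`. -/
theorem started_FF {t e j : ℕ} (h : R.Started t e (j + 1)) : R.FF t e j := by
  rcases h with ⟨h, -⟩ | ⟨-, τ, hτ, p, j', he, hi, hj⟩
  · omega
  · subst he
    exact R.FF_mono hτ (R.idx_FF hi (by omega))

/-- A processor in index `j'` has found `Z e j` nonempty for every `j < j'` (it went through the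
phases `c1` or failed in `z`: in both cases `Z e j ≠ 0`). Induction on `t` of: for every processor
with index `j'`: `Z e j ≠ 0` for `j < j'`, and also for `j = j'` if the phase is `c1, c2` or one of
the `p`-phases. -/
theorem started_Z {t e j : ℕ} (h : R.Started t e (j + 1)) : R.mem t (.Z e j) ≠ 0 := by
  rcases h with ⟨h, -⟩ | ⟨-, τ, hτ, p, j', he, hi, hj⟩
  · omega
  · subst he
    refine R.mem_mono hτ ?_
    have key := R.inv_ind (fun t _ s => ∀ j', s.ph.idx? = some j' →
      (∀ j < j', R.mem t (.Z s.e j) ≠ 0) ∧ (s.ph.zd = true → R.mem t (.Z s.e j') ≠ 0))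
      ?_ ?_ ?_ τ p j' hi
    · exact key.1 j (by omega)
    · intro p j' h
      simp [init, Ph.idx?] at h
    · intro t p h j' hj'
      exact ⟨fun j hj => R.mem_mono (Nat.le_succ t) ((h j' hj').1 j hj),
        fun hz => R.mem_mono (Nat.le_succ t) ((h j' hj').2 hz)⟩
    · intro t h j' hj'
      obtain ⟨he, h1⟩ := nxt_idx hj'
      constructor
      · intro j hj
        rw [he]
        rcases h1 with h1 | ⟨rfl, l, f, hp, ha⟩ | ⟨j0, i, r, v, rfl, hp, ha⟩
        · exact R.mem_mono (Nat.le_succ t) ((h j' h1).1 j hj)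
        · omega
        · refine R.mem_mono (Nat.le_succ t) ?_
          have h2 := h j0 (by rw [hp]; rfl)
          rcases Nat.lt_or_ge j j0 with hc | hc
          · exact h2.1 j hc
          · have : j = j0 := by omega
            subst this
            exact h2.2 (by rw [hp]; rfl)
      · intro hz
        rw [he]
        obtain ⟨h2, h3⟩ := nxt_zd hj' hz
        rcases h3 with h3 | ⟨i, v, hp, ha⟩ | ⟨i, v, hp⟩
        · exact R.mem_mono (Nat.le_succ t) ((h j' h2).2 h3)
        · have hact : R.act t = .read (.Z (R.st t).e j') := by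
            unfold Run.act SQ.act; rw [hp]
          rw [R.rs_read hact] at ha
          exact R.mem_mono (Nat.le_succ t) ha
        · have hact : R.act t = .write (.Z (R.st t).e j') v := by
            unfold Run.act SQ.act; rw [hp]
          rw [R.mem_succ_write hact]
          exact R.ct_ne (t := t) (p := R.s t) (by show (R.st t).ph.ct? = _; rw [hp]; rfl)

/-- At most one content passes an index. Let `(t0, t3)`, `(t0', t3')` be the times of the two
passings: `Z e j` is empty at `t0`, `t0'` and nonempty at `t3`, `t3'`, so `max t0 t0' < min t3 t3'`.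
At the time `max t0 t0'` both contents are the top (`top_conv`), `top_unique`. -/
theorem PF_unique {t t' e j v v' : ℕ} (h : R.PF t e j v) (h' : R.PF t' e j v') : v = v' := by
  obtain ⟨t0, t3, i, h03, h3t, hS, hT0, hZ0, hT3, hZ3⟩ := h
  obtain ⟨t0', t3', i', h03', h3t', hS', hT0', hZ0', hT3', hZ3'⟩ := h'
  have a1 : t0 < t3' := by
    by_contra hh
    exact R.mem_mono (not_lt.1 hh) hZ3' hZ0
  have a2 : t0' < t3 := by
    by_contra hh
    exact R.mem_mono (not_lt.1 hh) hZ3 hZ0'
  have b1 := (R.top_conv hT0 hT3 (le_max_left t0 t0') (max_le h03 a2.le)).1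
  have b2 := (R.top_conv hT0' hT3' (le_max_right t0 t0') (max_le a1.le h03')).1
  exact (R.top_unique b1 b2).2

/-- A content does not pass two indices `j`, `j' ≥ j + 2`. At `t0` (first passing) `Z e j` is empty,
so `¬ Started t0 e (j + 1)` (`started_Z`). At `t3'` (second passing) `Z e j'` is nonempty, so
`Started t3' e (j + 2)` (`Z_started`, `started_le`), `started_FF` gives `ta ≤ tb ≤ t3'` with
`Started ta e (j + 1)`, hence `t0 < ta` (`started_mono`). By `top_conv` (`t0`, `t3'`) the content `v`
is the top at `ta` and at `tb`; `top_unique` at `ta` contradicts `¬ TopAt tb`. -/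
theorem parity {t t' e j j' v : ℕ} (h : R.PF t e j v) (h' : R.PF t' e j' v) (hj : j + 2 ≤ j') :
    False := by
  obtain ⟨t0, t3, i, h03, h3t, hS, hT0, hZ0, hT3, hZ3⟩ := h
  obtain ⟨t0', t3', i', h03', h3t', hS', hT0', hZ0', hT3', hZ3'⟩ := h'
  have hns : ¬ R.Started t0 e (j + 1) := fun hh => R.started_Z hh hZ0
  obtain ⟨ta, tb, i2, v2, hab, hb3, hSa, hTa, hTb⟩ :=
    R.started_FF (R.started_le hj (R.Z_started hZ3'))
  have h0a : t0 < ta := by
    by_contra hh
    exact hns (R.started_mono (not_lt.1 hh) hSa)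
  have b1 := (R.top_conv hT0 hT3' h0a.le (hab.trans hb3)).1
  have b2 := (R.top_conv hT0 hT3' (h0a.le.trans hab) hb3).1
  obtain ⟨rfl, rfl⟩ := R.top_unique b1 hTa
  exact hTb b2

/-- The number of started indices is at most the number of relevant writes. Induction on `j`:
`j = 0`: `M_pos`. `j + 1`: `started_FF`: `ta ≤ tb ≤ t`, `Started ta e j`, so `j + 1 ≤ M ta`, and
`M_lt` (`i < c + 3` because `F e i ≠ 0` at `ta` while `F e (c + 3) = 0`; positions `≤ i` are all
nonempty), `M_mono`. -/
theorem started_M {t e j : ℕ} (h : R.Started t e j) (h0 : R.mem t (.F e (c + 3)) = 0) :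
    j + 1 ≤ R.M t e := by
  induction j generalizing t with
  | zero =>
    rcases h with ⟨-, h⟩ | ⟨h, -⟩
    · exact R.M_pos h
    · exact absurd rfl h
  | succ j ih =>
    obtain ⟨ta, tb, i, v, hab, hbt, hSa, hTa, hTb⟩ := R.started_FF h
    have h0a : R.mem ta (.F e (c + 3)) = 0 := R.mem_zero_of (hab.trans hbt) h0
    have hi : i < c + 3 := by
      by_contra hh
      exact hTa.1 (c + 3) (not_lt.1 hh) h0a
    have h1 := ih hSa h0a
    have h2 := R.M_lt hTa hab hTb hi
    have h3 := R.M_mono hbt e
    omega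

end Run

end Pool.Agent.Lib.MP_2ab09f_lc.SQ
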