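import Mathlib

import Pool.Agent.Lib.MP_2ab09f_lcS.Side

/-!
JOB Round. One round of the binary consensus: the side of those who see no conflict is unique.
-/

namespace Pool.Agent.Lib.MP_2ab09f_lc.SQ

variable {c n : ℕ}

namespace Run

variable (R : Run c n)

/-- Unfold `gh_succ`, `ghOf`, cases of the phase. -/
theorem sk_succ (t e j r : ℕ) : (R.gh (t + 1)).sk e j r = (R.gh t).sk e j r ∨
    ((R.gh t).sk e j r = none ∧ ∃ i b v, (R.st t).ph = .pY j i r b v ∧ (R.st t).e = e ∧
      R.rs t = 0 ∧ (R.gh (t + 1)).sk e j r = some b) := by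
  rw [R.gh_succ]
  unfold ghOf
  cases hp : (R.st t).ph <;> dsimp only
  case wr l => left; split_ifs <;> rfl
  case pC j0 i0 r0 b0 v0 => left; split_ifs <;> rfl
  case pY j0 i0 r0 b0 v0 =>
    split_ifs with h
    · by_cases hh : e = (R.st t).e ∧ j = j0 ∧ r = r0
      · obtain ⟨rfl, rfl, rfl⟩ := hh
        right
        exact ⟨h.2, i0, b0, v0, rfl, rfl, h.1, by simp⟩
      · left
        dsimp only
        rw [if_neg hh]
    · left; rfl
  all_goals (left; rfl)

theorem sk_mono {t t' e j r : ℕ} {b : Bool} (h : t ≤ t') (h0 : (R.gh t).sk e j r = some b) :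
    (R.gh t').sk e j r = some b := by
  induction t', h using Nat.le_induction with
  | base => exact h0
  | succ t' _ ih =>
    rcases R.sk_succ t' e j r with h1 | ⟨h1, _⟩
    · rw [h1]; exact ih
    · rw [h1] at ih; exact absurd ih (by simp)

/-- The epoch does not change when the next phase is not the beginning of an epoch. -/
theorem nxt_e_same {y : Cn c} {s : LS} {a : ℕ} (h : (nxt c y s a).ph ≠ .coin 0) :
    (nxt c y s a).e = s.e := by
  rcases nxt_e (c := c) (y := y) (s := s) (a := a) with h1 | h1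
  · exact h1.1
  · exact absurd h1.2.1 h

/-- Reading the other flag in the phase `pY`. -/
theorem act_pY {t j i r v : ℕ} {b : Bool} (h : (R.st t).ph = .pY j i r b v) :
    R.rs t = R.mem t (.X (R.st t).e j r (!b)) := by
  apply R.rs_read
  unfold Run.act SQ.act; rw [h]

/-- Reading `W` in the phase `pV`. -/
theorem act_pV {t j i r v : ℕ} {b : Bool} (h : (R.st t).ph = .pV j i r b v) :
    R.rs t = R.mem t (.W (R.st t).e j r) := by
  apply R.rs_read
  unfold Run.act SQ.act; rw [h]

/-- Reading the coin in the phase `pC`. -/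
theorem act_pC {t j i r v : ℕ} {b : Bool} (h : (R.st t).ph = .pC j i r b v) :
    R.rs t = R.mem t (.C (R.st t).e (own v) (2 * r + j % 2)) := by
  apply R.rs_read
  unfold Run.act SQ.act; rw [h]

/-- After the phase `pX` the own flag is up. Induction (`pre_pY` etc., the write of `pX` is not
zero: `ct_ne` for `b = true`), or `last` repeatedly. -/
theorem inX {t j i r v : ℕ} {b : Bool} {p : Fin n} (h : (R.loc t p).ph = .pY j i r b v ∨
    (R.loc t p).ph = .pW j i r b v ∨ (R.loc t p).ph = .pR j i r b v ∨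
    (R.loc t p).ph = .pV j i r b v ∨ (R.loc t p).ph = .pC j i r b v) :
    R.mem t (.X (R.loc t p).e j r b) ≠ 0 := by
  revert h
  have key : ∀ (t : ℕ) (p : Fin n), ∀ j i r v b, ((R.loc t p).ph = .pY j i r b v ∨
    (R.loc t p).ph = .pW j i r b v ∨ (R.loc t p).ph = .pR j i r b v ∨
    (R.loc t p).ph = .pV j i r b v ∨ (R.loc t p).ph = .pC j i r b v) →
    R.mem t (.X (R.loc t p).e j r b) ≠ 0 := by
    refine R.inv_ind (fun t _ s => ∀ j i r v b, (s.ph = .pY j i r b v ∨
      s.ph = .pW j i r b v ∨ s.ph = .pR j i r b v ∨ s.ph = .pV j i r b v ∨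
      s.ph = .pC j i r b v) → R.mem t (.X s.e j r b) ≠ 0) ?_ ?_ ?_
    · intro p j i r v b h
      simp [init] at h
    · intro t p h j i r v b h1
      exact R.mem_mono (Nat.le_succ t) (h j i r v b h1)
    · intro t h j i r v b h1
      have he : (nxt c (R.y t) (R.st t) (R.rs t)).e = (R.st t).e := by
        apply nxt_e_same
        intro hc
        rw [hc] at h1
        simp at h1
      rw [he]
      rcases h1 with h1 | h1 | h1 | h1 | h1
      · have h2 := pre_pY h1
        have hact : R.act t = .write (.X (R.st t).e j r b) (if b then v else 1) := by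
          unfold Run.act SQ.act; rw [h2]
        rw [R.mem_succ_write hact]
        cases b with
        | false => simp
        | true =>
          simp only [if_true]
          refine R.ct_ne (t := t) (p := R.s t) (v := v) ?_
          show (R.st t).ph.ct? = _
          rw [h2]; rfl
      · obtain ⟨h2, _⟩ := pre_pW h1
        exact R.mem_mono (Nat.le_succ t) (h j i r v b (Or.inl h2))
      · have h2 := pre_pR h1
        exact R.mem_mono (Nat.le_succ t) (h j i r v b (Or.inr (Or.inl h2)))
      · obtain ⟨v', h2, _⟩ := pre_pV h1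
        exact R.mem_mono (Nat.le_succ t) (h j i r v' b (Or.inl h2))
      · obtain ⟨h2, _⟩ := pre_pC h1
        exact R.mem_mono (Nat.le_succ t) (h j i r v b (Or.inr (Or.inr (Or.inr (Or.inl h2)))))
  exact key t p j i r v b

/-- In the phases `pV`, `pC` the other flag is up as well. -/
theorem inVC {t j i r v : ℕ} {b : Bool} {p : Fin n} (h : (R.loc t p).ph = .pV j i r b v ∨
    (R.loc t p).ph = .pC j i r b v) : R.mem t (.X (R.loc t p).e j r (!b)) ≠ 0 := by
  revert h
  have key : ∀ (t : ℕ) (p : Fin n), ∀ j i r v b, ((R.loc t p).ph = .pV j i r b v ∨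
    (R.loc t p).ph = .pC j i r b v) → R.mem t (.X (R.loc t p).e j r (!b)) ≠ 0 := by
    refine R.inv_ind (fun t _ s => ∀ j i r v b, (s.ph = .pV j i r b v ∨
      s.ph = .pC j i r b v) → R.mem t (.X s.e j r (!b)) ≠ 0) ?_ ?_ ?_
    · intro p j i r v b h
      simp [init] at h
    · intro t p h j i r v b h1
      exact R.mem_mono (Nat.le_succ t) (h j i r v b h1)
    · intro t h j i r v b h1
      have he : (nxt c (R.y t) (R.st t) (R.rs t)).e = (R.st t).e := by
        apply nxt_e_same
        intro hc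
        rw [hc] at h1
        simp at h1
      rw [he]
      rcases h1 with h1 | h1
      · obtain ⟨v', h2, h3, _⟩ := pre_pV h1
        rw [R.act_pY h2] at h3
        exact R.mem_mono (Nat.le_succ t) h3
      · obtain ⟨h2, _⟩ := pre_pC h1
        exact R.mem_mono (Nat.le_succ t) (h j i r v b (Or.inl h2))
  exact key t p j i r v b

/-- From `sk_succ`, `inX`, persistence. -/
theorem sk_X {t e j r : ℕ} {b : Bool} (h : (R.gh t).sk e j r = some b) :
    R.mem t (.X e j r b) ≠ 0 := by
  induction t with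
  | zero =>
    exfalso
    have h1 : (R.gh 0).sk e j r = none := rfl
    rw [h1] at h
    simp at h
  | succ t ih =>
    rcases R.sk_succ t e j r with h1 | ⟨_, i, b', v, h2, h3, _, h5⟩
    · rw [h1] at h
      exact R.mem_mono (Nat.le_succ t) (ih h)
    · rw [h5] at h
      have hb : b' = b := by simpa using h
      subst hb
      subst h3
      exact R.mem_mono (Nat.le_succ t) (R.inX (p := R.s t) (Or.inl h2))

/-- A processor that sees no conflict in the phase `pY` has the side `sk`: if `sk` is already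
`some b'` with `b' ≠ b`, then `b' = !b` and its flag is up (`sk_X`), but the response is `0`. -/
theorem skip_sk {t j i r v : ℕ} {b : Bool} (h : (R.st t).ph = .pY j i r b v)
    (ha : R.rs t = 0) : (R.gh (t + 1)).sk (R.st t).e j r = some b := by
  rw [R.act_pY h] at ha
  cases hs : (R.gh t).sk (R.st t).e j r with
  | none =>
    rw [R.gh_succ]
    unfold ghOf
    rw [h]
    dsimp only
    rw [if_pos ⟨by rw [R.act_pY h]; exact ha, hs⟩]
    simp
  | some b' =>
    have h1 := R.sk_X hs
    have hb : b' = b := by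
      by_contra hne
      have : b' = !b := by cases b <;> cases b' <;> simp_all
      rw [this] at h1
      exact h1 ha
    subst hb
    exact R.sk_mono (Nat.le_succ t) hs

theorem sk_phase {t j i r v : ℕ} {b : Bool} {p : Fin n} (h : (R.loc t p).ph = .pW j i r b v ∨
    (R.loc t p).ph = .pR j i r b v) : (R.gh t).sk (R.loc t p).e j r = some b := by
  revert h
  have key : ∀ (t : ℕ) (p : Fin n), ∀ j i r v b, ((R.loc t p).ph = .pW j i r b v ∨
    (R.loc t p).ph = .pR j i r b v) → (R.gh t).sk (R.loc t p).e j r = some b := by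
    refine R.inv_ind (fun t _ s => ∀ j i r v b, (s.ph = .pW j i r b v ∨
      s.ph = .pR j i r b v) → (R.gh t).sk s.e j r = some b) ?_ ?_ ?_
    · intro p j i r v b h
      simp [init] at h
    · intro t p h j i r v b h1
      exact R.sk_mono (Nat.le_succ t) (h j i r v b h1)
    · intro t h j i r v b h1
      have he : (nxt c (R.y t) (R.st t) (R.rs t)).e = (R.st t).e := by
        apply nxt_e_same
        intro hc
        rw [hc] at h1
        simp at h1
      rw [he]
      rcases h1 with h1 | h1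
      · obtain ⟨h2, h3⟩ := pre_pW h1
        exact R.skip_sk h2 h3
      · have h2 := pre_pR h1
        exact R.sk_mono (Nat.le_succ t) (h j i r v b (Or.inl h2))
  exact key t p j i r v b

/-- `mprov`, `act_W`, `sk_phase`, `sk_mono`. -/
theorem W_sk {t e j r : ℕ} (h : R.mem t (.W e j r) ≠ 0) :
    ∃ b : Bool, R.mem t (.W e j r) = b.toNat + 1 ∧ (R.gh t).sk e j r = some b := by
  obtain ⟨τ, h1, h2, _⟩ := R.mprov (r := .W e j r) rfl h
  obtain ⟨i, b, v', h3, h4, h5⟩ := R.act_W h2
  refine ⟨b, h5, ?_⟩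
  subst h4
  exact R.sk_mono h1.le (R.sk_phase (p := R.s τ) (Or.inl h3))

theorem pR_W {t j i r v : ℕ} {b : Bool} {p : Fin n} (h : (R.loc t p).ph = .pR j i r b v) :
    R.mem t (.W (R.loc t p).e j r) ≠ 0 := by
  revert h
  have key : ∀ (t : ℕ) (p : Fin n), ∀ j i r v b, (R.loc t p).ph = .pR j i r b v →
    R.mem t (.W (R.loc t p).e j r) ≠ 0 := by
    refine R.inv_ind (fun t _ s => ∀ j i r v b, s.ph = .pR j i r b v →
      R.mem t (.W s.e j r) ≠ 0) ?_ ?_ ?_
    · intro p j i r v b h
      simp [init] at h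
    · intro t p h j i r v b h1
      exact R.mem_mono (Nat.le_succ t) (h j i r v b h1)
    · intro t h j i r v b h1
      have he : (nxt c (R.y t) (R.st t) (R.rs t)).e = (R.st t).e := by
        apply nxt_e_same
        intro hc
        rw [hc] at h1
        simp at h1
      rw [he]
      have h2 := pre_pR h1
      have hact : R.act t = .write (.W (R.st t).e j r) (b.toNat + 1) := by
        unfold Run.act SQ.act; rw [h2]
      rw [R.mem_succ_write hact]
      omega
  exact key t p j i r v b

/-- When both flags are up nobody can see no conflict any more. -/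
theorem sk_frozen {t t' e j r : ℕ} (h1 : R.mem t (.X e j r true) ≠ 0)
    (h2 : R.mem t (.X e j r false) ≠ 0) (h : t ≤ t') :
    (R.gh t').sk e j r = (R.gh t).sk e j r := by
  induction t', h using Nat.le_induction with
  | base => rfl
  | succ t' ht ih =>
    rcases R.sk_succ t' e j r with h3 | ⟨_, i, b, v, h4, h5, h6, _⟩
    · rw [h3, ih]
    · exfalso
      rw [R.act_pY h4, h5] at h6
      cases b with
      | false => exact R.mem_mono ht h1 h6
      | true => exact R.mem_mono ht h2 h6

/-- The phase `pC` is reached from `pV` by reading `W = 0`, both flags being up. -/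
theorem pC_W0 {t j i r v : ℕ} {b : Bool} {p : Fin n} (h : (R.loc t p).ph = .pC j i r b v) :
    ∃ τ < t, R.mem τ (.W (R.loc t p).e j r) = 0 ∧ R.mem τ (.X (R.loc t p).e j r true) ≠ 0 ∧
      R.mem τ (.X (R.loc t p).e j r false) ≠ 0 := by
  have hne : R.loc t p ≠ init (R.u p) := by
    intro hh
    rw [hh] at h
    simp [init] at h
  obtain ⟨τ, h1, h2, _, h3, _⟩ := R.last hne
  subst h2
  rw [← h3] at h
  have he : (nxt c (R.y τ) (R.st τ) (R.rs τ)).e = (R.st τ).e := by
    apply nxt_e_same
    intro hc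
    rw [hc] at h
    simp at h
  obtain ⟨h4, h5⟩ := pre_pC h
  rw [R.act_pV h4] at h5
  have hX : R.mem τ (.X (R.st τ).e j r b) ≠ 0 :=
    R.inX (p := R.s τ) (Or.inr (Or.inr (Or.inr (Or.inl h4))))
  have hX' : R.mem τ (.X (R.st τ).e j r (!b)) ≠ 0 := R.inVC (p := R.s τ) (Or.inl h4)
  rw [← h3, he]
  refine ⟨τ, h1, h5, ?_⟩
  cases b with
  | false => exact ⟨hX', hX⟩
  | true => exact ⟨hX, hX'⟩

/-- Somebody has entered round `r` of index `j` with side `b`. -/
def In (t e j r : ℕ) (b : Bool) : Prop :=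
  ∃ τ ≤ t, ∃ p i v, (R.loc τ p).e = e ∧ (R.loc τ p).ph = .pX j i r b v

theorem In_mono {t t' e j r : ℕ} {b : Bool} (h : t ≤ t') (h0 : R.In t e j r b) :
    R.In t' e j r b := by
  obtain ⟨τ, h1, h2⟩ := h0
  exact ⟨τ, h1.trans h, h2⟩

theorem phase_In {t j r : ℕ} {b : Bool} {p : Fin n} (h : (R.loc t p).ph.inR j r b) :
    R.In t (R.loc t p).e j r b := by
  revert h
  have key : ∀ (t : ℕ) (p : Fin n), ∀ j r b, (R.loc t p).ph.inR j r b →
    R.In t (R.loc t p).e j r b := by
    refine R.inv_ind (fun t _ s => ∀ j r b, s.ph.inR j r b → R.In t s.e j r b) ?_ ?_ ?_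
    · intro p j r b h
      obtain ⟨i, v, h⟩ := h
      simp [init] at h
    · intro t p h j r b h1
      exact R.In_mono (Nat.le_succ t) (h j r b h1)
    · intro t h j r b h1
      obtain ⟨i, v, h1⟩ := h1
      have he : (nxt c (R.y t) (R.st t) (R.rs t)).e = (R.st t).e := by
        apply nxt_e_same
        intro hc
        rw [hc] at h1
        simp at h1
      rw [he]
      rcases h1 with h1 | h1 | h1 | h1 | h1 | h1
      · refine ⟨t + 1, le_refl _, R.s t, i, v, ?_, ?_⟩
        · rw [R.loc_succ_self]; exact he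
        · rw [R.loc_succ_self]; exact h1
      · exact R.In_mono (Nat.le_succ t) (h j r b ⟨i, v, Or.inl (pre_pY h1)⟩)
      · exact R.In_mono (Nat.le_succ t) (h j r b ⟨i, v, Or.inr (Or.inl (pre_pW h1).1)⟩)
      · exact R.In_mono (Nat.le_succ t)
          (h j r b ⟨i, v, Or.inr (Or.inr (Or.inl (pre_pR h1)))⟩)
      · obtain ⟨v', h2, _⟩ := pre_pV h1
        exact R.In_mono (Nat.le_succ t) (h j r b ⟨i, v', Or.inr (Or.inl h2)⟩)
      · exact R.In_mono (Nat.le_succ t)
          (h j r b ⟨i, v, Or.inr (Or.inr (Or.inr (Or.inr (Or.inl (pre_pC h1).1))))⟩)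
  exact key t p j r b

theorem X_In {t e j r : ℕ} {b : Bool} (h : R.mem t (.X e j r b) ≠ 0) : R.In t e j r b := by
  obtain ⟨τ, h1, h2, _⟩ := R.mprov (r := .X e j r b) rfl h
  obtain ⟨i, v', h3, h4, _⟩ := R.act_X h2
  exact ⟨τ, h1.le, R.s τ, i, v', h4, h3⟩

/-- The step `τ` leaves round `r` of index `j` without commitment, with side `b` for round
`r + 1`. -/
def Exit (τ e j r : ℕ) (b : Bool) : Prop :=
  (R.st τ).e = e ∧ ((∃ i v, (R.st τ).ph = .pR j i r b v ∧ R.rs τ ≠ 0) ∨
    (∃ i b' v, (R.st τ).ph = .pV j i r b' v ∧ R.rs τ = b.toNat + 1) ∨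
    (∃ i b' v, (R.st τ).ph = .pC j i r b' v ∧ R.rs τ = b.toNat + 1))

/-- The coin register that is read in the phase `pC` is filled: `side_all` (the content `v` has
passed), it is a content of `F` (`ct_wr`), `coin_reg`, `rnd_lt` (so `2 * r + j % 2 < 2 * S0 c`). -/
theorem pC_coin {t j i r v : ℕ} {b : Bool} {p : Fin n} (h : (R.loc t p).ph = .pC j i r b v) :
    ∃ q, R.u q = own v ∧ R.mem t (.C (R.loc t p).e (own v) (2 * r + j % 2)) =
      bit c (R.ω q ((R.loc t p).e, 2 * (2 * r + j % 2))) + 1 := by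
  have hct : (R.loc t p).ph.ct? = some v := by rw [h]; rfl
  obtain ⟨i', hw⟩ := R.ct_wr hct
  have hr := R.rnd_lt (t := t) (p := p) (j := j) (r := r) (b := b)
    ⟨i, v, Or.inr (Or.inr (Or.inr (Or.inr (Or.inr h))))⟩
  exact R.coin_reg hw (by omega)

/-- `pre_pX` for round `r + 1`; the response in `pV` is `0`, `1` or `2` (`W_sk`), in `pC` it is
`1` or `2` (`pC_coin`, `bit < 2`). -/
theorem In_succ {t e j r : ℕ} {b : Bool} (h : R.In t e j (r + 1) b) :
    ∃ τ < t, R.Exit τ e j r b := by
  obtain ⟨t1, ht1, p, i, v, he1, hp1⟩ := h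
  have hne : R.loc t1 p ≠ init (R.u p) := by
    intro hh
    rw [hh] at hp1
    simp [init] at hp1
  obtain ⟨τ, h1, h2, _, h3, _⟩ := R.last hne
  subst h2
  rw [← h3] at hp1 he1
  have he : (nxt c (R.y τ) (R.st τ) (R.rs τ)).e = (R.st τ).e := by
    apply nxt_e_same
    intro hc
    rw [hc] at hp1
    simp at hp1
  rw [he] at he1
  refine ⟨τ, by omega, he1, ?_⟩
  rcases pre_pX hp1 with ⟨h4, _⟩ | ⟨h4, _⟩ | ⟨r', h4, h5⟩
  · omega
  · omega
  · have hr : r' = r := by omega
    subst hr
    rcases h5 with ⟨h5, h6⟩ | ⟨b', h5, h6, h7⟩ | ⟨b', v', h5, h6, h7, h8, _⟩ |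
      ⟨b', h5, h6, h7⟩ | ⟨b', v', h5, h6, h7, _⟩
    · exact Or.inl ⟨i, v, h5, h6⟩
    · subst h7
      exact Or.inr (Or.inl ⟨i, b', v, h5, h6⟩)
    · subst h8
      refine Or.inr (Or.inl ⟨i, b', v', h5, ?_⟩)
      rw [R.act_pV h5] at h6 h7 ⊢
      obtain ⟨b'', h9, _⟩ := R.W_sk h6
      rw [h9] at h7 ⊢
      cases b'' with
      | false => rfl
      | true => exact absurd rfl h7
    · subst h7
      exact Or.inr (Or.inr ⟨i, b', v, h5, h6⟩)
    · subst h7
      refine Or.inr (Or.inr ⟨i, b', v', h5, ?_⟩)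
      obtain ⟨q, _, h9⟩ := R.pC_coin (p := R.s τ) h5
      have h10 : R.rs τ = bit c (R.ω q ((R.st τ).e, 2 * (2 * r' + j % 2))) + 1 :=
        (R.act_pC h5).trans h9
      rw [h10] at h6 ⊢
      have h11 : bit c (R.ω q ((R.st τ).e, 2 * (2 * r' + j % 2))) < 2 := by
        unfold bit; omega
      show _ = 0 + 1
      omega

/-- Every processor in round `r' ≥ r` has gone through round `r`: if round `r'` was entered then
round `r ≤ r'` was entered by somebody (`In_succ`, `phase_In`). -/
theorem In_le {t e j r r' : ℕ} {b : Bool} (h : r ≤ r') (h0 : R.In t e j r' b) :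
    ∃ b', R.In t e j r b' := by
  induction r', h using Nat.le_induction generalizing t b with
  | base => exact ⟨b, h0⟩
  | succ r' hr ih =>
    obtain ⟨τ, h1, h2, h3⟩ := R.In_succ h0
    have key : ∃ b', R.In τ e j r' b' := by
      subst h2
      rcases h3 with ⟨i, v, h4, _⟩ | ⟨i, b', v, h4, _⟩ | ⟨i, b', v, h4, _⟩
      · exact ⟨b, R.phase_In (p := R.s τ) ⟨i, v, Or.inr (Or.inr (Or.inr (Or.inl h4)))⟩⟩
      · exact ⟨b', R.phase_In (p := R.s τ)
          ⟨i, v, Or.inr (Or.inr (Or.inr (Or.inr (Or.inl h4))))⟩⟩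
      · exact ⟨b', R.phase_In (p := R.s τ)
          ⟨i, v, Or.inr (Or.inr (Or.inr (Or.inr (Or.inr h4))))⟩⟩
    obtain ⟨b', h5⟩ := key
    obtain ⟨b'', h6⟩ := ih h5
    exact ⟨b'', R.In_mono h1.le h6⟩

end Run

end Pool.Agent.Lib.MP_2ab09f_lc.SQ
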