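import Mathlib

import Pool.Agent.Lib.MP_2ab09f_lcS.Round

/-!
JOB Agree. Agreement of the binary consensus of an index; winners; agreement and validity.
-/

namespace Pool.Agent.Lib.MP_2ab09f_lc.SQ

variable {c n : ℕ}

/-- The index goes up by one when the phase `top` is entered. -/
theorem nxt_idx2 {y : Cn c} {s : LS} {a j : ℕ} (h : (nxt c y s a).ph.idx? = some j) :
    (nxt c y s a).e = s.e ∧ (s.ph.idx? = some j ∨ j = 0 ∨
      (∃ j0 i r v, j = j0 + 1 ∧ s.ph = .pR j0 i r false v ∧ a = 0)) := by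
  unfold nxt at h ⊢
  cases hp : s.ph <;> rw [hp] at h <;> dsimp only at h ⊢ <;> (try unfold cap at *) <;>
    (try unfold newE at *) <;> (try split_ifs at h ⊢) <;> simp_all [Ph.idx?]

/-- The epoch does not change when a phase other than `coin` is entered. -/
theorem nxt_e_of {y : Cn c} {s : LS} {a : ℕ} (h : ∀ k, (nxt c y s a).ph ≠ .coin k) :
    (nxt c y s a).e = s.e := by
  rcases nxt_e (c := c) (y := y) (s := s) (a := a) with h1 | h1
  · exact h1.1
  · exact absurd h1.2.1 (h 0)

namespace Run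

variable (R : Run c n)

/-- The step `τ` commits to side `b` in round `r` of index `j`. -/
def Cm (τ e j r : ℕ) (b : Bool) : Prop :=
  ∃ i v, (R.st τ).ph = .pR j i r b v ∧ (R.st τ).e = e ∧ R.mem τ (.X e j r (!b)) = 0

theorem Cm.sk {R : Run c n} {τ e j r : ℕ} {b : Bool} (h : R.Cm τ e j r b) :
    (R.gh τ).sk e j r = some b := by
  obtain ⟨i, v, hph, he, -⟩ := h
  have h1 : (R.gh τ).sk (R.loc τ (R.s τ)).e j r = some b := R.sk_phase (Or.inr hph)
  have he3 : (R.loc τ (R.s τ)).e = e := he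
  rwa [he3] at h1

theorem sk_eq {τ τ' e j r : ℕ} {b b' : Bool} (h : (R.gh τ).sk e j r = some b)
    (h' : (R.gh τ').sk e j r = some b') : b = b' := by
  have h1 := R.sk_mono (le_max_left τ τ') h
  have h2 := R.sk_mono (le_max_right τ τ') h'
  rw [h1] at h2
  exact Option.some.inj h2

/-- After a commitment to `b` in round `r` everybody enters round `r + 1` with side `b`. `In_succ`:
a step `τ'` with `Exit τ' e j r b'`. `pR`: `sk_phase` at `τ` and `τ'`, `sk_mono`. `pV`: `W_sk`, the
same. `pC`: `pC_W0` gives `τ0 < τ'` with `W = 0` and both flags up; the flag `!b` is down at `τ`,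
so `τ < τ0`, but `W ≠ 0` at `τ` (`pR_W`): contradiction. -/
theorem cm_next {τ t e j r : ℕ} {b b' : Bool} (h : R.Cm τ e j r b) (h' : R.In t e j (r + 1) b') :
    b' = b := by
  obtain ⟨τ', -, hE⟩ := R.In_succ h'
  have hsk : (R.gh τ).sk e j r = some b := h.sk
  obtain ⟨i0, v0, hph, he, hX⟩ := h
  obtain ⟨he', hc⟩ := hE
  rcases hc with ⟨i, v, hp, -⟩ | ⟨i, b2, v, hp, ha⟩ | ⟨i, b2, v, hp, -⟩
  · have h2 : (R.gh τ').sk (R.loc τ' (R.s τ')).e j r = some b' := R.sk_phase (Or.inr hp)
    have he2 : (R.loc τ' (R.s τ')).e = e := he'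
    rw [he2] at h2
    exact (sk_eq R hsk h2).symm
  · have hact : R.act τ' = .read (.W (R.st τ').e j r) := by
      unfold Run.act SQ.act; rw [hp]
    rw [R.rs_read hact, he'] at ha
    obtain ⟨b3, h3, h4⟩ := R.W_sk (t := τ') (e := e) (j := j) (r := r) (by rw [ha]; exact Nat.succ_ne_zero _)
    rw [ha] at h3
    have h5 : b3 = b' := by
      cases b3 <;> cases b' <;> simp_all
    rw [h5] at h4
    exact (sk_eq R hsk h4).symm
  · exfalso
    obtain ⟨τ0, -, h1, h2, h3⟩ := R.pC_W0 (t := τ') (p := R.s τ') hp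
    have he2 : (R.loc τ' (R.s τ')).e = e := he'
    rw [he2] at h1 h2 h3
    have h4 : R.mem τ0 (.X e j r (!b)) ≠ 0 := by cases b <;> assumption
    have h5 : τ < τ0 := by
      by_contra hc
      exact R.mem_mono (Nat.le_of_not_lt hc) h4 hX
    have h6 : R.mem τ (.W e j r) ≠ 0 := by
      have := R.pR_W (t := τ) (p := R.s τ) hph
      have he3 : (R.loc τ (R.s τ)).e = e := he
      rwa [he3] at this
    exact R.mem_mono h5.le h6 h1

/-- The same for all later rounds, by induction on `r'`: `Exit τ' e j r' b'`: `pR`: `phase_In`;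
`pV`: `W_sk`, `sk_X`, `X_In`; `pC`: both flags are up (`inX`, `inVC`), so round `r'` was entered with
both sides (`X_In`): contradiction. -/
theorem cm_later {τ t e j r r' : ℕ} {b b' : Bool} (h : R.Cm τ e j r b) (hr : r < r')
    (h' : R.In t e j r' b') : b' = b := by
  induction r', hr using Nat.le_induction generalizing t b' with
  | base => exact R.cm_next h h'
  | succ r' hr ih =>
    obtain ⟨τ', -, he', hc⟩ := R.In_succ h'
    have he2 : (R.loc τ' (R.s τ')).e = e := he'
    rcases hc with ⟨i, v, hp, -⟩ | ⟨i, b2, v, hp, ha⟩ | ⟨i, b2, v, hp, -⟩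
    · have h2 := R.phase_In (t := τ') (p := R.s τ') (j := j) (r := r') (b := b')
        ⟨i, v, Or.inr (Or.inr (Or.inr (Or.inl hp)))⟩
      rw [he2] at h2
      exact ih h2
    · have hact : R.act τ' = .read (.W (R.st τ').e j r') := by
        unfold Run.act SQ.act; rw [hp]
      rw [R.rs_read hact, he'] at ha
      obtain ⟨b3, h3, h4⟩ := R.W_sk (t := τ') (e := e) (j := j) (r := r')
        (by rw [ha]; exact Nat.succ_ne_zero _)
      rw [ha] at h3
      have h5 : b3 = b' := by
        cases b3 <;> cases b' <;> simp_all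
      rw [h5] at h4
      exact ih (R.X_In (R.sk_X h4))
    · exfalso
      have h3 := R.inX (t := τ') (p := R.s τ') (j := j) (i := i) (r := r') (v := v) (b := b2)
        (Or.inr (Or.inr (Or.inr (Or.inr hp))))
      have h4 := R.inVC (t := τ') (p := R.s τ') (j := j) (i := i) (r := r') (v := v) (b := b2)
        (Or.inr hp)
      rw [he2] at h3 h4
      have h5 := ih (R.X_In h3)
      have h6 := ih (R.X_In h4)
      rw [← h5] at h6
      cases b2 <;> exact absurd h6 (by decide)

theorem Cm.In {R : Run c n} {τ e j r : ℕ} {b : Bool} (h : R.Cm τ e j r b) : R.In τ e j r b := by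
  obtain ⟨i, v, hph, he, -⟩ := h
  have h2 := R.phase_In (t := τ) (p := R.s τ) (j := j) (r := r) (b := b)
    ⟨i, v, Or.inr (Or.inr (Or.inr (Or.inl hph)))⟩
  have he3 : (R.loc τ (R.s τ)).e = e := he
  rwa [he3] at h2

/-- A processor that reads the other flag in phase `pR` and finds it down commits. -/
theorem cm_of {t j i r v : ℕ} {b : Bool} (hp : (R.st t).ph = .pR j i r b v) (ha : R.rs t = 0) :
    R.Cm t (R.st t).e j r b := by
  have hact : R.act t = .read (.X (R.st t).e j r (!b)) := by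
    unfold Run.act SQ.act; rw [hp]
  rw [R.rs_read hact] at ha
  exact ⟨i, v, hp, rfl, ha⟩

/-- `r = r'`: `sk_phase`, `sk_mono`; `r ≠ r'`: `cm_later`, `phase_In`. -/
theorem cm_agree {τ τ' e j r r' : ℕ} {b b' : Bool} (h : R.Cm τ e j r b)
    (h' : R.Cm τ' e j r' b') : b = b' := by
  rcases Nat.lt_trichotomy r r' with hr | hr | hr
  · exact (R.cm_later h hr h'.In).symm
  · subst hr
    exact sk_eq R h.sk h'.sk
  · exact R.cm_later h' hr h.In

/-- A processor in index `j'` has committed to `false` at every `j < j'`. Induction, `pre_top`. -/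
theorem idx_cm {t j j' : ℕ} {p : Fin n} (h : (R.loc t p).ph.idx? = some j') (hj : j < j') :
    ∃ τ < t, ∃ r, R.Cm τ (R.loc t p).e j r false := by
  refine R.inv_ind (fun t _ s => ∀ j', s.ph.idx? = some j' → ∀ j < j',
    ∃ τ < t, ∃ r, R.Cm τ s.e j r false) ?_ ?_ ?_ t p j' h j hj
  · intro p j' h
    simp [init, Ph.idx?] at h
  · intro t p h j' hj' j hj
    obtain ⟨τ, h1, h2⟩ := h j' hj' j hj
    exact ⟨τ, by omega, h2⟩
  · intro t h j' hj' j hj
    obtain ⟨he, h1⟩ := nxt_idx2 hj'
    rw [he]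
    rcases h1 with h1 | h1 | ⟨j0, i, r, v, rfl, hp, ha⟩
    · obtain ⟨τ, h2, h3⟩ := h j' h1 j hj
      exact ⟨τ, by omega, h3⟩
    · omega
    · rcases Nat.lt_or_ge j j0 with hc | hc
      · obtain ⟨τ, h2, h3⟩ := h j0 (by rw [hp]; rfl) j hc
        exact ⟨τ, by omega, h3⟩
      · have : j = j0 := by omega
        subst this
        exact ⟨t, by omega, r, R.cm_of hp ha⟩

/-- `v` is the winner of epoch `e`. -/
def Win (t e v : ℕ) : Prop :=
  ∃ j r τ, τ < t ∧ R.Cm τ e j r true ∧ R.PF t e j v ∧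
    ∀ j0 < j, ∃ τ0 < t, ∃ r0, R.Cm τ0 e j0 r0 false

theorem Win_mono {t t' e v : ℕ} (h : t ≤ t') (h0 : R.Win t e v) : R.Win t' e v := by
  obtain ⟨j, r, τ, h1, h2, h3, h4⟩ := h0
  refine ⟨j, r, τ, by omega, h2, R.PF_mono h h3, fun j0 hj0 => ?_⟩
  obtain ⟨τ0, h5, h6⟩ := h4 j0 hj0
  exact ⟨τ0, by omega, h6⟩

/-- `pre_fd`, `pre_fr`, `idx_cm`, `side_all`. -/
theorem fd_win {t v : ℕ} {p : Fin n} (h : (R.loc t p).ph = .fd v ∨ (R.loc t p).ph = .fr v) :
    R.Win t (R.loc t p).e v := by
  refine R.inv_ind (fun t _ s => ∀ v, s.ph = .fd v ∨ s.ph = .fr v → R.Win t s.e v) ?_ ?_ ?_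
    t p v h
  · intro p v h
    rcases h with h | h <;> simp [init] at h
  · intro t p h v hv
    exact R.Win_mono (Nat.le_succ t) (h v hv)
  · intro t h v hv
    have he : (nxt c (R.y t) (R.st t) (R.rs t)).e = (R.st t).e := by
      apply nxt_e_of
      intro k hk
      rcases hv with hv | hv <;> rw [hv] at hk <;> cases hk
    rw [he]
    rcases hv with hv | hv
    · obtain ⟨j, i, r, hp, ha⟩ := pre_fd hv
      refine ⟨j, r, t, by omega, R.cm_of hp ha, ?_, fun j0 hj0 => ?_⟩
      · exact R.PF_mono (Nat.le_succ t) ((R.side_all t).1 (R.s t) j i r v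
          (Or.inr (Or.inr (Or.inr hp))))
      · obtain ⟨τ, h1, h2⟩ := R.idx_cm (t := t) (p := R.s t) (j := j0) (j' := j)
          (by show (R.st t).ph.idx? = _; rw [hp]; rfl) hj0
        exact ⟨τ, by omega, h2⟩
    · exact R.Win_mono (Nat.le_succ t) (h v (Or.inl (pre_fr hv)))

/-- `mprov`, `act_D`, `fd_win`, `Win_mono`. -/
theorem D_win {t e v : ℕ} (h : R.mem t (.D e) = v) (hv : v ≠ 0) : R.Win t e v := by
  obtain ⟨τ, h1, h2, -⟩ := R.mprov h hv
  obtain ⟨h3, h4⟩ := R.act_D h2
  have h5 := R.fd_win (t := τ) (p := R.s τ) (Or.inl h3)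
  have h6 : (R.loc τ (R.s τ)).e = e := h4
  rw [h6] at h5
  exact R.Win_mono h1.le h5

/-- The same index: `PF_unique`. `j < j'`: `Cm .. j .. true` and `Cm .. j .. false` contradict
`cm_agree`. -/
theorem win_unique {t t' e v v' : ℕ} (h : R.Win t e v) (h' : R.Win t' e v') : v = v' := by
  obtain ⟨j, r, τ, -, h2, h3, h4⟩ := h
  obtain ⟨j', r', τ', -, h2', h3', h4'⟩ := h'
  rcases Nat.lt_trichotomy j j' with hj | hj | hj
  · obtain ⟨τ0, -, r0, h5⟩ := h4' j hj
    exact absurd (R.cm_agree h2 h5) (by decide)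
  · subst hj
    exact R.PF_unique h3 h3'
  · obtain ⟨τ0, -, r0, h5⟩ := h4 j' hj
    exact absurd (R.cm_agree h2' h5) (by decide)

/-- The step `τ` outputs `val v` in epoch `e`. -/
def Out (τ e v : ℕ) : Prop :=
  (R.st τ).ph = .fr v ∧ (R.st τ).e = e ∧ R.mem τ (.V e) = 0

theorem fr_D {t v : ℕ} {p : Fin n} (h : (R.loc t p).ph = .fr v) :
    R.mem t (.D (R.loc t p).e) ≠ 0 := by
  obtain ⟨τ, h1, h2, h3, h4, h5⟩ := R.last (t := t) (p := p) (by
    intro hh
    rw [hh] at h
    simp [init] at h)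
  have hph : (nxt c (R.y τ) (R.st τ) (R.rs τ)).ph = .fr v := by rw [h4]; exact h
  have hfd := pre_fr hph
  have he : (R.loc t p).e = (R.st τ).e := by
    rw [← h4]
    unfold nxt
    rw [hfd]
  have hact : R.act τ = .write (.D (R.st τ).e) v := by
    unfold Run.act SQ.act
    rw [hfd]
  have hv : v ≠ 0 := R.ct_ne (t := t) (p := p) (v := v) (by rw [h]; rfl)
  have hm : R.mem (τ + 1) (.D (R.st τ).e) ≠ 0 := by
    rw [R.mem_succ_write hact]
    exact hv
  rw [he]
  exact R.mem_mono (by omega) hm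

theorem od_V {t : ℕ} {p : Fin n} (h : (R.loc t p).ph = .od) :
    R.mem t (.V (R.loc t p).e) ≠ 0 := by
  obtain ⟨τ, h1, h2, h3, h4, h5⟩ := R.last (t := t) (p := p) (by
    intro hh
    rw [hh] at h
    simp [init] at h)
  have hph : (nxt c (R.y τ) (R.st τ) (R.rs τ)).ph = .od := by rw [h4]; exact h
  have hfd := pre_od hph
  have he : (R.loc t p).e = (R.st τ).e := by
    rw [← h4]
    unfold nxt
    rw [hfd]
  have hact : R.act τ = .write (.V (R.st τ).e) 1 := by
    unfold Run.act SQ.act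
    rw [hfd]
  have hm : R.mem (τ + 1) (.V (R.st τ).e) ≠ 0 := by
    rw [R.mem_succ_write hact]
    exact one_ne_zero
  rw [he]
  exact R.mem_mono (by omega) hm

theorem done_out {t u : ℕ} {p : Fin n} (h : (R.loc t p).ph = .done u) :
    ∃ τ < t, ∃ v, R.Out τ (R.loc t p).e v ∧ u = val v := by
  obtain ⟨τ, h1, h2, h3, h4, h5⟩ := R.last (t := t) (p := p) (by
    intro hh
    rw [hh] at h
    simp [init] at h)
  have hph : (nxt c (R.y τ) (R.st τ) (R.rs τ)).ph = .done u := by rw [h4]; exact h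
  have hst : R.loc τ p = R.st τ := by
    rw [← h2]
    rfl
  rcases pre_done hph with ⟨v, hv, ha, hu⟩ | hd
  · have he : (R.loc t p).e = (R.st τ).e := by
      rw [← h4]
      unfold nxt
      rw [hv]
      simp [ha]
    refine ⟨τ, h1, v, ⟨hv, he.symm, ?_⟩, hu⟩
    have hact : R.act τ = .read (.V (R.st τ).e) := by
      unfold Run.act SQ.act
      rw [hv]
    rw [R.rs_read hact] at ha
    rw [he]
    exact ha
  · exfalso
    apply h3
    rw [hst, ← h4]
    unfold nxt
    rw [hd]

/-- If the step `τ'` leaves epoch `e` in which somebody outputs `val v`, then the new preference is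
`val v`. Cases of `nxt_e`: `fr w`: `fd_win`, `win_unique`. `od`, `D = 0`: at `τ'` `V ≠ 0` (`od_V`), so
`τ < τ'` (because `V = 0` at `τ`), but `D ≠ 0` at `τ` (`fr_D`): contradiction. `od`, `D ≠ 0`:
`D_win`. -/
theorem leave_pref {τ τ' e v : ℕ} (h : R.Out τ e v) (he : (R.st τ').e = e)
    (he' : (R.loc (τ' + 1) (R.s τ')).e = e + 1) : (R.loc (τ' + 1) (R.s τ')).x = val v := by
  have hD : (R.st τ').ph = .od → R.rs τ' = R.mem τ' (.D (R.st τ').e) := by
    intro hp
    refine R.rs_read ?_
    unfold Run.act SQ.act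
    rw [hp]
  have hw : R.Win τ e v := by
    have := R.fd_win (t := τ) (v := v) (p := R.s τ) (Or.inr h.1)
    have he2 : (R.loc τ (R.s τ)).e = e := h.2.1
    rwa [he2] at this
  rw [R.loc_succ_self] at he' ⊢
  rcases nxt_e (c := c) (y := R.y τ') (s := R.st τ') (a := R.rs τ') with h1 | h1
  · omega
  obtain ⟨_, _, _, _, h2⟩ := h1
  rcases h2 with ⟨w, hp, _, hx⟩ | ⟨hp, ha, _⟩ | ⟨hp, ha, hx⟩
  · rw [hx]
    have hw' := R.fd_win (t := τ') (v := w) (p := R.s τ') (Or.inr hp)
    have he2 : (R.loc τ' (R.s τ')).e = e := he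
    rw [he2] at hw'
    rw [R.win_unique hw hw']
  · exfalso
    rw [hD hp, he] at ha
    have hV := R.od_V (t := τ') (p := R.s τ') hp
    have he2 : (R.loc τ' (R.s τ')).e = e := he
    rw [he2] at hV
    rcases Nat.lt_or_ge τ τ' with hc | hc
    · have hDτ := R.fr_D (t := τ) (p := R.s τ) h.1
      have he3 : (R.loc τ (R.s τ)).e = e := h.2.1
      rw [he3] at hDτ
      exact R.mem_mono hc.le hDτ ha
    · exact R.mem_mono hc hV h.2.2
  · rw [hx]
    rw [hD hp, he] at ha
    have hw' := R.D_win (t := τ') (e := e) (v := R.mem τ' (.D e)) rfl ha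
    rw [hD hp, he, R.win_unique hw hw']

/-- The new preference at the beginning of an epoch is the old one, or the preference of a processor
in the old epoch at an earlier time. -/
theorem new_pref {t : ℕ} (he : (nxt c (R.y t) (R.st t) (R.rs t)).e ≠ (R.st t).e) :
    (nxt c (R.y t) (R.st t) (R.rs t)).x = (R.st t).x ∨
      ∃ q, ∃ τ < t, (R.loc τ q).e = (R.st t).e ∧
        (nxt c (R.y t) (R.st t) (R.rs t)).x = (R.loc τ q).x := by
  rcases nxt_e (c := c) (y := R.y t) (s := R.st t) (a := R.rs t) with h1 | h1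
  · exact absurd h1.1 he
  obtain ⟨_, _, _, _, h2⟩ := h1
  rcases h2 with ⟨w, hp, _, hx⟩ | ⟨hp, ha, hx⟩ | ⟨hp, ha, hx⟩
  · right
    obtain ⟨i, hw⟩ := R.ct_wr (t := t) (p := R.s t) (v := w) (by
      show (R.st t).ph.ct? = _
      rw [hp]
      rfl)
    obtain ⟨q, τ, h3, h4, h5⟩ := R.Wr_cont hw
    refine ⟨q, τ, h3, h4, ?_⟩
    rw [hx, h5, val_cont]
  · left
    exact hx
  · right
    have hD : R.rs t = R.mem t (.D (R.st t).e) := by
      refine R.rs_read ?_
      unfold Run.act SQ.act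
      rw [hp]
    obtain ⟨i, hw⟩ := (R.wr_all t).2.2.2 (R.st t).e (R.rs t) hD.symm ha
    obtain ⟨q, τ, h3, h4, h5⟩ := R.Wr_cont hw
    refine ⟨q, τ, h3, h4, ?_⟩
    rw [hx]
    conv_lhs => rw [h5]
    rw [val_cont]

/-- All preferences in later epochs are `val v`. Strong induction on `t`; a step that leaves an
epoch `e' > e`: the new preference is the old one, or `val w` for a content `w` of epoch `e'`
(`ct_wr`, `wr_all` for `D`), which by `Wr_cont` carries the preference of a processor in epoch `e'` at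
an earlier time. -/
theorem later_pref {τ e v : ℕ} (h : R.Out τ e v) : ∀ (t : ℕ) (p : Fin n),
    e < (R.loc t p).e → (R.loc t p).x = val v := by
  intro t
  induction t using Nat.strong_induction_on with
  | _ t ih =>
    intro p hp
    rcases Nat.eq_zero_or_pos t with h0 | h0
    · subst h0
      rw [R.loc_zero] at hp
      simp [init] at hp
    obtain ⟨t, rfl⟩ : ∃ t', t = t' + 1 := ⟨t - 1, by omega⟩
    by_cases hs : p = R.s t
    · subst hs
      rw [R.loc_succ_self] at hp ⊢
      by_cases he : (nxt c (R.y t) (R.st t) (R.rs t)).e = (R.st t).e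
      · rcases nxt_e (c := c) (y := R.y t) (s := R.st t) (a := R.rs t) with h1 | h1
        · rw [h1.2]
          exact ih t (by omega) (R.s t) (by
            show e < (R.st t).e
            omega)
        · omega
      · have h1 : (nxt c (R.y t) (R.st t) (R.rs t)).e = (R.st t).e + 1 := by
          rcases nxt_e (c := c) (y := R.y t) (s := R.st t) (a := R.rs t) with h1 | h1
          · exact absurd h1.1 he
          · exact h1.1
        rcases Nat.lt_or_ge e (R.st t).e with hc | hc
        · rcases R.new_pref he with h2 | ⟨q, τ0, h2, h3, h4⟩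
          · rw [h2]
            exact ih t (by omega) (R.s t) hc
          · rw [h4]
            exact ih τ0 (by omega) q (by omega)
        · have h2 : (R.st t).e = e := by omega
          have h3 := R.leave_pref h h2 (by
            rw [R.loc_succ_self]
            omega)
          rwa [R.loc_succ_self] at h3
    · rw [R.loc_succ_ne _ hs] at hp ⊢
      exact ih t (by omega) p hp

theorem Out_win {τ e v : ℕ} (h : R.Out τ e v) : R.Win τ e v := by
  have := R.fd_win (t := τ) (v := v) (p := R.s τ) (Or.inr h.1)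
  have he2 : (R.loc τ (R.s τ)).e = e := h.2.1
  rwa [he2] at this

theorem Out_cont {τ e v : ℕ} (h : R.Out τ e v) :
    ∃ q, ∃ τ' < τ, (R.loc τ' q).e = e ∧ val v = (R.loc τ' q).x := by
  obtain ⟨i, hw⟩ := R.ct_wr (t := τ) (p := R.s τ) (v := v) (by
    show (R.st τ).ph.ct? = _
    rw [h.1]
    rfl)
  obtain ⟨q, τ', h3, h4, h5⟩ := R.Wr_cont hw
  refine ⟨q, τ', h3, ?_, ?_⟩
  · rw [h4]
    exact h.2.1
  · rw [h5, val_cont]

theorem out_agree {τ τ' e e' v v' : ℕ} (h : R.Out τ e v) (h' : R.Out τ' e' v') :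
    val v = val v' := by
  wlog hle : e ≤ e' generalizing τ τ' e e' v v' with H
  · exact (H h' h (by omega)).symm
  rcases Nat.eq_or_lt_of_le hle with he | he
  · subst he
    rw [R.win_unique (R.Out_win h) (R.Out_win h')]
  · obtain ⟨q, τ0, h1, h2, h3⟩ := R.Out_cont h'
    rw [h3]
    exact (R.later_pref h τ0 q (by omega)).symm

/-- All preferences are ids. Strong induction, `Wr_cont`. -/
theorem valid : ∀ (t : ℕ) (p : Fin n), ∃ q, (R.loc t p).x = R.u q := by
  intro t
  induction t using Nat.strong_induction_on with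
  | _ t ih =>
    intro p
    rcases Nat.eq_zero_or_pos t with h0 | h0
    · subst h0
      exact ⟨p, by rw [R.loc_zero]; rfl⟩
    obtain ⟨t, rfl⟩ : ∃ t', t = t' + 1 := ⟨t - 1, by omega⟩
    by_cases hs : p = R.s t
    · subst hs
      rw [R.loc_succ_self]
      by_cases he : (nxt c (R.y t) (R.st t) (R.rs t)).e = (R.st t).e
      · rcases nxt_e (c := c) (y := R.y t) (s := R.st t) (a := R.rs t) with h1 | h1
        · rw [h1.2]
          exact ih t (by omega) (R.s t)
        · omega
      · rcases R.new_pref he with h2 | ⟨q, τ0, h2, h3, h4⟩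
        · rw [h2]
          exact ih t (by omega) (R.s t)
        · rw [h4]
          exact ih τ0 (by omega) q
    · rw [R.loc_succ_ne _ hs]
      exact ih t (by omega) p

theorem agreement {t t' u u' : ℕ} {p p' : Fin n} (h : (R.loc t p).ph = .done u)
    (h' : (R.loc t' p').ph = .done u') : u = u' := by
  obtain ⟨τ, _, v, h1, h2⟩ := R.done_out h
  obtain ⟨τ', _, v', h1', h2'⟩ := R.done_out h'
  rw [h2, h2']
  exact R.out_agree h1 h1'

theorem validity {t u : ℕ} {p : Fin n} (h : (R.loc t p).ph = .done u) : ∃ q, u = R.u q := by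
  obtain ⟨τ, _, v, h1, h2⟩ := R.done_out h
  obtain ⟨q, τ', _, _, h3⟩ := R.Out_cont h1
  obtain ⟨q', h4⟩ := R.valid τ' q
  exact ⟨q', by rw [h2, h3, h4]⟩

end Run

end Pool.Agent.Lib.MP_2ab09f_lc.SQ
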