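import Mathlib

import Pool.Agent.Lib.MP_2ab09f_lcS.Agree

/-!
JOB Bad. Bad and good coins; the number of rounds of an index.
-/

namespace Pool.Agent.Lib.MP_2ab09f_lc.SQ

variable {c n : ℕ}

namespace Run

variable (R : Run c n)

/-- The step `τ` is the first reading of the coin of round `r` of index `j`. -/
def Rv (τ e j r : ℕ) : Prop :=
  (R.st τ).e = e ∧ ∃ i b v, (R.st τ).ph = .pC j i r b v ∧
    (R.gh τ).rv e (own v) (2 * r + j % 2) = false

def Bd (τ e j r : ℕ) : Prop := R.Rv τ e j r ∧ isBad (R.gh τ) e j r (R.rs τ) = true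

def Gd (τ e j r : ℕ) : Prop := R.Rv τ e j r ∧ isBad (R.gh τ) e j r (R.rs τ) = false

/-! ### the counters (unfold `gh_succ`, `ghOf`, cases of the phase) -/

/-- Outside the phase `pC` the counters and the marks do not change. -/
theorem Bad_nC {t : ℕ} (h : ∀ j i r b v, (R.st t).ph ≠ .pC j i r b v) :
    (R.gh (t + 1)).B = (R.gh t).B ∧ (R.gh (t + 1)).G = (R.gh t).G ∧
      (R.gh (t + 1)).Bj = (R.gh t).Bj ∧ (R.gh (t + 1)).Gj = (R.gh t).Gj ∧
      (R.gh (t + 1)).rv = (R.gh t).rv := by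
  rw [gh_succ]
  unfold ghOf
  cases hp : (R.st t).ph with
  | wr l => dsimp only; split_ifs <;> exact ⟨rfl, rfl, rfl, rfl, rfl⟩
  | pY j i r b v => dsimp only; split_ifs <;> exact ⟨rfl, rfl, rfl, rfl, rfl⟩
  | pC j i r b v => exact absurd hp (h j i r b v)
  | _ => exact ⟨rfl, rfl, rfl, rfl, rfl⟩

/-- In the phase `pC` with a marked register nothing changes. -/
theorem Bad_C_old {t j i r v : ℕ} {b : Bool} (h : (R.st t).ph = .pC j i r b v)
    (h0 : (R.gh t).rv (R.st t).e (own v) (2 * r + j % 2) = true) : R.gh (t + 1) = R.gh t := by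
  rw [gh_succ]
  unfold ghOf
  rw [h]
  dsimp only
  rw [if_pos h0]

/-- In the phase `pC` with a register that is not marked. -/
theorem Bad_C_new {t j i r v : ℕ} {b : Bool} (h : (R.st t).ph = .pC j i r b v)
    (h0 : (R.gh t).rv (R.st t).e (own v) (2 * r + j % 2) = false) :
    (∀ e' o' k', (R.gh (t + 1)).rv e' o' k' = if e' = (R.st t).e ∧ o' = own v ∧
        k' = 2 * r + j % 2 then true else (R.gh t).rv e' o' k') ∧
      (isBad (R.gh t) (R.st t).e j r (R.rs t) = true →
        (R.gh (t + 1)).B = Function.update (R.gh t).B (R.st t).e ((R.gh t).B (R.st t).e + 1) ∧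
        (R.gh (t + 1)).G = (R.gh t).G ∧ (R.gh (t + 1)).Gj = (R.gh t).Gj ∧
        ∀ e' j', (R.gh (t + 1)).Bj e' j' = if e' = (R.st t).e ∧ j' = j then
          (R.gh t).Bj (R.st t).e j + 1 else (R.gh t).Bj e' j') ∧
      (isBad (R.gh t) (R.st t).e j r (R.rs t) = false →
        (R.gh (t + 1)).G = Function.update (R.gh t).G (R.st t).e ((R.gh t).G (R.st t).e + 1) ∧
        (R.gh (t + 1)).B = (R.gh t).B ∧ (R.gh (t + 1)).Bj = (R.gh t).Bj ∧
        ∀ e' j', (R.gh (t + 1)).Gj e' j' = if e' = (R.st t).e ∧ j' = j then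
          (R.gh t).Gj (R.st t).e j + 1 else (R.gh t).Gj e' j') := by
  have h1 : ¬ ((R.gh t).rv (R.st t).e (own v) (2 * r + j % 2) = true) := by
    rw [h0]
    exact Bool.false_ne_true
  rw [gh_succ]
  unfold ghOf
  rw [h]
  dsimp only
  rw [if_neg h1]
  refine ⟨fun _ _ _ => rfl, fun hb => ?_, fun hb => ?_⟩
  · simp only [hb, if_true]
    exact ⟨trivial, trivial, trivial, fun _ _ => trivial⟩
  · simp only [hb, Bool.false_eq_true, if_false]
    exact ⟨trivial, trivial, trivial, fun _ _ => trivial⟩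

theorem Bj_succ_bad {t e j r : ℕ} (h : R.Bd t e j r) :
    (R.gh (t + 1)).Bj e j = (R.gh t).Bj e j + 1 := by
  obtain ⟨⟨he, i, b, v, hp, hr⟩, hb⟩ := h
  subst he
  obtain ⟨-, h2, -⟩ := R.Bad_C_new hp hr
  rw [(h2 hb).2.2.2, if_pos ⟨rfl, rfl⟩]

theorem Bj_succ_le (t e j : ℕ) : (R.gh t).Bj e j ≤ (R.gh (t + 1)).Bj e j := by
  by_cases hC : ∃ j' i r b v, (R.st t).ph = .pC j' i r b v
  · obtain ⟨j', i, r, b, v, hp⟩ := hC
    by_cases h0 : (R.gh t).rv (R.st t).e (own v) (2 * r + j' % 2) = true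
    · rw [R.Bad_C_old hp h0]
    · rw [Bool.not_eq_true] at h0
      obtain ⟨-, h2, h3⟩ := R.Bad_C_new hp h0
      by_cases hb : isBad (R.gh t) (R.st t).e j' r (R.rs t) = true
      · rw [(h2 hb).2.2.2]
        split_ifs with hh
        · rw [hh.1, hh.2]
          exact Nat.le_succ _
        · exact le_rfl
      · rw [Bool.not_eq_true] at hb
        rw [(h3 hb).2.2.1]
  · rw [(R.Bad_nC fun j' i r b v hp => hC ⟨j', i, r, b, v, hp⟩).2.2.1]

/-- `B e` grows whenever some `Bj e j` grows, and only one of them grows, by one. -/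
theorem B_succ (t e : ℕ) : ((R.gh (t + 1)).B e = (R.gh t).B e ∧
      ∀ j, (R.gh (t + 1)).Bj e j = (R.gh t).Bj e j) ∨
    ((R.gh (t + 1)).B e = (R.gh t).B e + 1 ∧ ∃ j0, (R.gh (t + 1)).Bj e j0 = (R.gh t).Bj e j0 + 1 ∧
      ∀ j, j ≠ j0 → (R.gh (t + 1)).Bj e j = (R.gh t).Bj e j) := by
  by_cases hC : ∃ j' i r b v, (R.st t).ph = .pC j' i r b v
  · obtain ⟨j', i, r, b, v, hp⟩ := hC
    by_cases h0 : (R.gh t).rv (R.st t).e (own v) (2 * r + j' % 2) = true
    · rw [R.Bad_C_old hp h0]
      exact Or.inl ⟨rfl, fun _ => rfl⟩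
    · rw [Bool.not_eq_true] at h0
      obtain ⟨-, h2, h3⟩ := R.Bad_C_new hp h0
      by_cases hb : isBad (R.gh t) (R.st t).e j' r (R.rs t) = true
      · obtain ⟨hB, -, -, hBj⟩ := h2 hb
        by_cases he : e = (R.st t).e
        · subst he
          refine Or.inr ⟨?_, j', ?_, fun j hj => ?_⟩
          · rw [hB, Function.update_self]
          · rw [hBj, if_pos ⟨rfl, rfl⟩]
          · rw [hBj, if_neg fun hh => hj hh.2]
        · refine Or.inl ⟨?_, fun j => ?_⟩
          · rw [hB, Function.update_of_ne he]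
          · rw [hBj, if_neg fun hh => he hh.1]
      · rw [Bool.not_eq_true] at hb
        obtain ⟨-, hB, hBj, -⟩ := h3 hb
        rw [hB, hBj]
        exact Or.inl ⟨rfl, fun _ => rfl⟩
  · obtain ⟨hB, -, hBj, -, -⟩ := R.Bad_nC fun j' i r b v hp => hC ⟨j', i, r, b, v, hp⟩
    rw [hB, hBj]
    exact Or.inl ⟨rfl, fun _ => rfl⟩

theorem G_succ (t e : ℕ) : ((R.gh (t + 1)).G e = (R.gh t).G e ∧
      ∀ j, (R.gh (t + 1)).Gj e j = (R.gh t).Gj e j) ∨
    ((R.gh (t + 1)).G e = (R.gh t).G e + 1 ∧ ∃ j0 r, R.Gd t e j0 r ∧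
      (R.gh (t + 1)).Gj e j0 = (R.gh t).Gj e j0 + 1 ∧
      ∀ j, j ≠ j0 → (R.gh (t + 1)).Gj e j = (R.gh t).Gj e j) := by
  by_cases hC : ∃ j' i r b v, (R.st t).ph = .pC j' i r b v
  · obtain ⟨j', i, r, b, v, hp⟩ := hC
    by_cases h0 : (R.gh t).rv (R.st t).e (own v) (2 * r + j' % 2) = true
    · rw [R.Bad_C_old hp h0]
      exact Or.inl ⟨rfl, fun _ => rfl⟩
    · rw [Bool.not_eq_true] at h0
      obtain ⟨-, h2, h3⟩ := R.Bad_C_new hp h0
      by_cases hb : isBad (R.gh t) (R.st t).e j' r (R.rs t) = true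
      · obtain ⟨-, hG, hGj, -⟩ := h2 hb
        rw [hG, hGj]
        exact Or.inl ⟨rfl, fun _ => rfl⟩
      · rw [Bool.not_eq_true] at hb
        obtain ⟨hG, -, -, hGj⟩ := h3 hb
        by_cases he : e = (R.st t).e
        · subst he
          refine Or.inr ⟨?_, j', r, ⟨⟨rfl, i, b, v, hp, h0⟩, hb⟩, ?_, fun j hj => ?_⟩
          · rw [hG, Function.update_self]
          · rw [hGj, if_pos ⟨rfl, rfl⟩]
          · rw [hGj, if_neg fun hh => hj hh.2]
        · refine Or.inl ⟨?_, fun j => ?_⟩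
          · rw [hG, Function.update_of_ne he]
          · rw [hGj, if_neg fun hh => he hh.1]
  · obtain ⟨-, hG, -, hGj, -⟩ := R.Bad_nC fun j' i r b v hp => hC ⟨j', i, r, b, v, hp⟩
    rw [hG, hGj]
    exact Or.inl ⟨rfl, fun _ => rfl⟩

/-- A sum in which one member grows by one. -/
theorem Bad_sum {f g : ℕ → ℕ} {j0 : ℕ} (h : g j0 = f j0 + 1) (h' : ∀ j, j ≠ j0 → g j = f j)
    (J : ℕ) : ∑ j ∈ Finset.range J, g j = ∑ j ∈ Finset.range J, f j + if j0 < J then 1 else 0 := by
  split_ifs with hJ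
  · have hm : j0 ∈ Finset.range J := Finset.mem_range.2 hJ
    rw [← Finset.add_sum_erase _ g hm, ← Finset.add_sum_erase _ f hm, h,
      Finset.sum_congr rfl fun j hj => h' j (Finset.ne_of_mem_erase hj)]
    ring
  · rw [add_zero]
    refine Finset.sum_congr rfl fun j hj => h' j ?_
    rintro rfl
    exact hJ (Finset.mem_range.1 hj)

/-- Induction on `t`, `B_succ`. -/
theorem B_sum (t e J : ℕ) : ∑ j ∈ Finset.range J, (R.gh t).Bj e j ≤ (R.gh t).B e := by
  induction t with
  | zero =>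
    have h1 : ∀ j, (R.gh 0).Bj e j = 0 := fun _ => rfl
    rw [Finset.sum_congr rfl fun j _ => h1 j, Finset.sum_const_zero]
    exact Nat.zero_le _
  | succ t ih =>
    rcases R.B_succ t e with ⟨h1, h2⟩ | ⟨h1, j0, h2, h3⟩
    · rw [h1, Finset.sum_congr rfl fun j _ => h2 j]
      exact ih
    · rw [h1, Bad_sum h2 h3 J]
      split_ifs <;> omega

/-- Induction on `t`, `G_succ` (the hypothesis at `t + 1` implies the one at `t`). -/
theorem G_sum (t e J : ℕ) (h : ∀ j, J ≤ j → (R.gh t).Gj e j = 0) :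
    (R.gh t).G e = ∑ j ∈ Finset.range J, (R.gh t).Gj e j := by
  induction t with
  | zero =>
    have h1 : ∀ j, (R.gh 0).Gj e j = 0 := fun _ => rfl
    rw [Finset.sum_congr rfl fun j _ => h1 j, Finset.sum_const_zero]
    rfl
  | succ t ih =>
    rcases R.G_succ t e with ⟨h1, h2⟩ | ⟨h1, j0, r, -, h2, h3⟩
    · rw [h1, Finset.sum_congr rfl fun j _ => h2 j]
      exact ih fun j hj => by rw [← h2]; exact h j hj
    · have hJ : j0 < J := by
        by_contra hcon
        have := h j0 (not_lt.1 hcon)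
        rw [h2] at this
        omega
      rw [h1, Bad_sum h2 h3 J, if_pos hJ, ih fun j hj => ?_]
      rw [← h3 j (by omega)]
      exact h j hj

/-! ### freshness -/

/-- A coin register is marked as read only by a step in the phase `pC` reading it, and after such a
step it is marked. -/
theorem rv_spec {t e o k : ℕ} (h : (R.gh t).rv e o k = true) :
    ∃ τ < t, ∃ j i r b v, (R.st τ).e = e ∧ (R.st τ).ph = .pC j i r b v ∧ own v = o ∧
      k = 2 * r + j % 2 := by
  induction t with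
  | zero => exact absurd (show (R.gh 0).rv e o k = false from rfl) (by rw [h]; simp)
  | succ t ih =>
    have hold : (R.gh t).rv e o k = true → ∃ τ < t + 1, ∃ j i r b v, (R.st τ).e = e ∧
        (R.st τ).ph = .pC j i r b v ∧ own v = o ∧ k = 2 * r + j % 2 := by
      intro h'
      obtain ⟨τ, h1, h2⟩ := ih h'
      exact ⟨τ, Nat.lt_succ_of_lt h1, h2⟩
    by_cases hC : ∃ j' i r b v, (R.st t).ph = .pC j' i r b v
    · obtain ⟨j', i, r, b, v, hp⟩ := hC
      by_cases h0 : (R.gh t).rv (R.st t).e (own v) (2 * r + j' % 2) = true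
      · rw [R.Bad_C_old hp h0] at h
        exact hold h
      · rw [Bool.not_eq_true] at h0
        rw [(R.Bad_C_new hp h0).1] at h
        split_ifs at h with hh
        · exact ⟨t, Nat.lt_succ_self t, j', i, r, b, v, hh.1.symm, hp, hh.2.1.symm, hh.2.2⟩
        · exact hold h
    · rw [(R.Bad_nC fun j' i r b v hp => hC ⟨j', i, r, b, v, hp⟩).2.2.2.2] at h
      exact hold h

/-- The marks are permanent. -/
theorem Bad_rv_succ {t e o k : ℕ} (h : (R.gh t).rv e o k = true) :
    (R.gh (t + 1)).rv e o k = true := by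
  by_cases hC : ∃ j' i r b v, (R.st t).ph = .pC j' i r b v
  · obtain ⟨j', i, r, b, v, hp⟩ := hC
    by_cases h0 : (R.gh t).rv (R.st t).e (own v) (2 * r + j' % 2) = true
    · rw [R.Bad_C_old hp h0]
      exact h
    · rw [Bool.not_eq_true] at h0
      rw [(R.Bad_C_new hp h0).1]
      split_ifs with hh
      · rfl
      · exact h
  · rw [(R.Bad_nC fun j' i r b v hp => hC ⟨j', i, r, b, v, hp⟩).2.2.2.2]
    exact h

theorem rv_after {τ t j i r v : ℕ} {b : Bool} (h : (R.st τ).ph = .pC j i r b v) (ht : τ < t) :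
    (R.gh t).rv (R.st τ).e (own v) (2 * r + j % 2) = true := by
  have ht' : τ + 1 ≤ t := ht
  induction t, ht' using Nat.le_induction with
  | base =>
    by_cases h0 : (R.gh τ).rv (R.st τ).e (own v) (2 * r + j % 2) = true
    · rw [R.Bad_C_old h h0]
      exact h0
    · rw [Bool.not_eq_true] at h0
      rw [(R.Bad_C_new h h0).1, if_pos ⟨rfl, rfl, rfl⟩]
  | succ t ht' ih => exact R.Bad_rv_succ (ih ht')

/-- The register `C e o k` is used in at most one round of at most one index: `v` and `v'` are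
contents of `F e` (`ct_wr`) with the same owner, so `v = v'` (`own_inj`); both indices are passed
by `v` (`side_all`); `r = r'` and `j % 2 = j' % 2` by `omega`, `parity`. -/
theorem pC_same {τ τ' j i r v j' i' r' v' : ℕ} {b b' : Bool} (h : (R.st τ).ph = .pC j i r b v)
    (h' : (R.st τ').ph = .pC j' i' r' b' v') (he : (R.st τ).e = (R.st τ').e)
    (ho : own v = own v') (hk : 2 * r + j % 2 = 2 * r' + j' % 2) : j = j' ∧ r = r' := by
  obtain ⟨i1, hw⟩ := R.ct_wr (t := τ) (p := R.s τ) (v := v)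
    (by show (R.st τ).ph.ct? = _; rw [h]; rfl)
  obtain ⟨i2, hw'⟩ := R.ct_wr (t := τ') (p := R.s τ') (v := v')
    (by show (R.st τ').ph.ct? = _; rw [h']; rfl)
  have he' : (R.loc τ (R.s τ)).e = (R.loc τ' (R.s τ')).e := he
  rw [← he'] at hw'
  have hv : v = v' := R.own_inj hw hw' ho
  subst hv
  have hP := ((R.side_all τ).2.2.1 (R.s τ) j i r b v (Or.inr h)).1
  have hP' := ((R.side_all τ').2.2.1 (R.s τ') j' i' r' b' v (Or.inr h')).1
  rw [← he'] at hP'
  refine ⟨?_, by omega⟩
  rcases Nat.lt_trichotomy j j' with hj | hj | hj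
  · exact (R.parity hP hP' (by omega)).elim
  · exact hj
  · exact (R.parity hP' hP (by omega)).elim

/-- Every reading of the coin of round `r` of index `j` is preceded by (or is) a fresh one. Strong
induction on `τ`: if the register is marked at `τ`, `rv_spec`, `pC_same`. -/
theorem first_fresh {τ j i r v : ℕ} {b : Bool} (h : (R.st τ).ph = .pC j i r b v) :
    ∃ τ' ≤ τ, R.Rv τ' (R.st τ).e j r := by
  induction τ using Nat.strong_induction_on generalizing i v b with
  | _ τ ih =>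
    by_cases h0 : (R.gh τ).rv (R.st τ).e (own v) (2 * r + j % 2) = true
    · obtain ⟨τ1, h1, j1, i1, r1, b1, v1, he, hp, ho, hk⟩ := R.rv_spec h0
      obtain ⟨hj, hr⟩ := R.pC_same hp h he ho hk.symm
      subst hj hr
      obtain ⟨τ', h2, h3⟩ := ih τ1 h1 hp
      rw [he] at h3
      exact ⟨τ', h2.trans h1.le, h3⟩
    · rw [Bool.not_eq_true] at h0
      exact ⟨τ, le_rfl, rfl, i, b, v, h, h0⟩

/-- The response in the phase `pC`. -/
theorem Bad_rs {τ j i r v : ℕ} {b : Bool} (h : (R.st τ).ph = .pC j i r b v) :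
    R.rs τ = R.mem τ (.C (R.st τ).e (own v) (2 * r + j % 2)) := by
  have hact : R.act τ = .read (.C (R.st τ).e (own v) (2 * r + j % 2)) := by
    unfold Run.act SQ.act; rw [h]
  exact R.rs_read hact

/-- The content in the phase `pC` depends only on the index. -/
theorem Bad_v {τ τ' j i r v i' r' v' : ℕ} {b b' : Bool} (h : (R.st τ).ph = .pC j i r b v)
    (h' : (R.st τ').ph = .pC j i' r' b' v') (he : (R.st τ).e = (R.st τ').e) : v = v' := by
  have hP := ((R.side_all τ).2.2.1 (R.s τ) j i r b v (Or.inr h)).1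
  have hP' := ((R.side_all τ').2.2.1 (R.s τ') j i' r' b' v' (Or.inr h')).1
  have he' : (R.loc τ (R.s τ)).e = (R.loc τ' (R.s τ')).e := he
  rw [← he'] at hP'
  exact R.PF_unique hP hP'

/-- All readings give the same value: `PF_unique` (`side_all`), `pC_coin` (injectivity of `R.u`). -/
theorem pC_rs {τ τ' j i r v i' v' : ℕ} {b b' : Bool} (h : (R.st τ).ph = .pC j i r b v)
    (h' : (R.st τ').ph = .pC j i' r b' v') (he : (R.st τ).e = (R.st τ').e) :
    R.rs τ = R.rs τ' := by
  have hv : v = v' := R.Bad_v h h' he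
  subst hv
  rw [R.Bad_rs h, R.Bad_rs h']
  obtain ⟨q, hq, hm⟩ := R.pC_coin (t := τ) (p := R.s τ) h
  obtain ⟨q', hq', hm'⟩ := R.pC_coin (t := τ') (p := R.s τ') h'
  have hqq : q = q' := R.hu (hq.trans hq'.symm)
  subst hqq
  have he' : (R.loc τ (R.s τ)).e = (R.loc τ' (R.s τ')).e := he
  refine hm.trans (Eq.trans ?_ hm'.symm)
  rw [he']

/-- `PF_unique` (so the same register), `rv_after`. -/
theorem fresh_unique {τ τ' e j r : ℕ} (h : R.Rv τ e j r) (h' : R.Rv τ' e j r) : τ = τ' := by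
  obtain ⟨he, i, b, v, hp, hr⟩ := h
  obtain ⟨he', i', b', v', hp', hr'⟩ := h'
  have hv : v = v' := R.Bad_v hp hp' (he.trans he'.symm)
  subst hv
  rcases Nat.lt_trichotomy τ τ' with hlt | hlt | hlt
  · have h1 := R.rv_after hp hlt
    rw [he, hr'] at h1
    exact absurd h1 Bool.false_ne_true
  · exact hlt
  · have h1 := R.rv_after hp' hlt
    rw [he', hr] at h1
    exact absurd h1 Bool.false_ne_true

/-! ### rounds -/

/-- At a step leaving a round both flags are up, and the side of the exit is the ghost side or it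
comes from the coin. -/
theorem exit_cases {τ e j r : ℕ} {b : Bool} (h : R.Exit τ e j r b) :
    (∀ b', R.mem τ (.X e j r b') ≠ 0) ∧ ((R.gh τ).sk e j r = some b ∨
      (∃ i b' v, (R.st τ).ph = .pC j i r b' v ∧ R.rs τ = b.toNat + 1)) := by
  obtain ⟨he, h⟩ := h
  subst he
  rcases h with ⟨i, v, hp, ha⟩ | ⟨i, b', v, hp, ha⟩ | ⟨i, b', v, hp, ha⟩
  · have h1 : R.mem τ (.X (R.st τ).e j r b) ≠ 0 :=
      R.inX (t := τ) (p := R.s τ) (i := i) (v := v) (Or.inr (Or.inr (Or.inl hp)))
    have hact : R.act τ = .read (.X (R.st τ).e j r (!b)) := by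
      unfold Run.act SQ.act; rw [hp]
    rw [R.rs_read hact] at ha
    refine ⟨?_, Or.inl ?_⟩
    · intro b'
      rcases Bool.eq_false_or_eq_true (b' == b) with hb | hb
      · rw [eq_of_beq hb]; exact h1
      · have : b' = !b := by cases b <;> cases b' <;> simp_all
        rw [this]; exact ha
    · exact R.sk_phase (t := τ) (p := R.s τ) (i := i) (v := v) (Or.inr hp)
  · have h1 : R.mem τ (.X (R.st τ).e j r b') ≠ 0 :=
      R.inX (t := τ) (p := R.s τ) (i := i) (v := v) (Or.inr (Or.inr (Or.inr (Or.inl hp))))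
    have h2 : R.mem τ (.X (R.st τ).e j r (!b')) ≠ 0 :=
      R.inVC (t := τ) (p := R.s τ) (i := i) (v := v) (Or.inl hp)
    have hact : R.act τ = .read (.W (R.st τ).e j r) := by
      unfold Run.act SQ.act; rw [hp]
    rw [R.rs_read hact] at ha
    refine ⟨?_, Or.inl ?_⟩
    · intro b''
      rcases Bool.eq_false_or_eq_true (b'' == b') with hb | hb
      · rw [eq_of_beq hb]; exact h1
      · have : b'' = !b' := by cases b' <;> cases b'' <;> simp_all
        rw [this]; exact h2
    · obtain ⟨b0, hb0, hs⟩ := R.W_sk (t := τ) (e := (R.st τ).e) (j := j) (r := r) (by omega)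
      rw [hs]
      have : b0 = b := by
        rw [ha] at hb0
        cases b <;> cases b0 <;> simp_all
      rw [this]
  · have h1 : R.mem τ (.X (R.st τ).e j r b') ≠ 0 :=
      R.inX (t := τ) (p := R.s τ) (i := i) (v := v) (Or.inr (Or.inr (Or.inr (Or.inr hp))))
    have h2 : R.mem τ (.X (R.st τ).e j r (!b')) ≠ 0 :=
      R.inVC (t := τ) (p := R.s τ) (i := i) (v := v) (Or.inr hp)
    refine ⟨?_, Or.inr ⟨i, b', v, hp, ha⟩⟩
    intro b''
    rcases Bool.eq_false_or_eq_true (b'' == b') with hb | hb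
    · rw [eq_of_beq hb]; exact h1
    · have : b'' = !b' := by cases b' <;> cases b'' <;> simp_all
      rw [this]; exact h2

/-- At a fresh reading of a coin both flags are up. -/
theorem Rv_X {τ e j r : ℕ} (h : R.Rv τ e j r) (b : Bool) : R.mem τ (.X e j r b) ≠ 0 := by
  obtain ⟨he, i, b', v, hp, _⟩ := h
  subst he
  have h1 : R.mem τ (.X (R.st τ).e j r b') ≠ 0 :=
    R.inX (t := τ) (p := R.s τ) (i := i) (v := v) (Or.inr (Or.inr (Or.inr (Or.inr hp))))
  have h2 : R.mem τ (.X (R.st τ).e j r (!b')) ≠ 0 :=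
    R.inVC (t := τ) (p := R.s τ) (i := i) (v := v) (Or.inr hp)
  rcases Bool.eq_false_or_eq_true (b == b') with hb | hb
  · rw [eq_of_beq hb]; exact h1
  · have : b = !b' := by cases b' <;> cases b <;> simp_all
    rw [this]; exact h2

/-- An exit by the coin with side `b` while the ghost side is `!b` at some time. -/
theorem bad_of {τ1 τ2 e j i r v : ℕ} {b b' : Bool} (he : (R.st τ1).e = e)
    (hp : (R.st τ1).ph = .pC j i r b' v) (ha : R.rs τ1 = b.toNat + 1)
    (hs : (R.gh τ2).sk e j r = some (!b)) : ∃ τ ≤ τ1, R.Bd τ e j r := by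
  subst he
  obtain ⟨τ0, h0, hr⟩ := R.first_fresh hp
  refine ⟨τ0, h0, hr, ?_⟩
  have hsk : (R.gh τ0).sk (R.st τ1).e j r = some (!b) := by
    rcases le_total τ0 τ2 with hc | hc
    · rw [← hs]
      exact (R.sk_frozen (R.Rv_X hr true) (R.Rv_X hr false) hc).symm
    · exact R.sk_mono hc hs
  obtain ⟨he0, i0, b0, v0, hp0, _⟩ := hr
  have hrs : R.rs τ0 = b.toNat + 1 := by
    rw [← ha]
    exact R.pC_rs hp0 hp he0
  unfold isBad
  rw [hsk, hrs]
  cases b <;> simp

/-- If round `r + 1` is entered with both sides, the coin of round `r` was bad. `In_succ` twice: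
`Exit τ1 .. true`, `Exit τ2 .. false`. In the cases `pR`, `pV` the ghost `sk` is the side of the exit
(`sk_phase`, `W_sk`). Both of this type: contradiction (`sk_mono`). Both `pC`: contradiction
(`pC_rs`). Otherwise the exit `pC` has side `b` and `sk = some (!b)` at the time of the other exit;
let `τ0` be the fresh reading (`first_fresh`): both flags are up at `τ0` (`inX`, `inVC`), so `sk` is
`some (!b)` at `τ0` (`sk_frozen` or `sk_mono`), and the value read is `b.toNat + 1` (`pC_rs`): bad. -/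
theorem diff_bad {t e j r : ℕ} (h : R.In t e j (r + 1) true) (h' : R.In t e j (r + 1) false) :
    ∃ τ < t, R.Bd τ e j r := by
  obtain ⟨τ1, ht1, hx1⟩ := R.In_succ h
  obtain ⟨τ2, ht2, hx2⟩ := R.In_succ h'
  have he1 : (R.st τ1).e = e := hx1.1
  have he2 : (R.st τ2).e = e := hx2.1
  rcases (R.exit_cases hx1).2 with hs1 | ⟨i1, b1, v1, hp1, ha1⟩
  · rcases (R.exit_cases hx2).2 with hs2 | ⟨i2, b2, v2, hp2, ha2⟩
    · exfalso
      rcases le_total τ1 τ2 with hc | hc
      · have := R.sk_mono hc hs1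
        rw [hs2] at this
        simp at this
      · have := R.sk_mono hc hs2
        rw [hs1] at this
        simp at this
    · obtain ⟨τ, hτ, hb⟩ := R.bad_of (τ2 := τ1) (b := false) he2 hp2 ha2 hs1
      exact ⟨τ, lt_of_le_of_lt hτ ht2, hb⟩
  · rcases (R.exit_cases hx2).2 with hs2 | ⟨i2, b2, v2, hp2, ha2⟩
    · obtain ⟨τ, hτ, hb⟩ := R.bad_of (τ2 := τ2) (b := true) he1 hp1 ha1 hs2
      exact ⟨τ, lt_of_le_of_lt hτ ht1, hb⟩
    · exfalso
      have := R.pC_rs hp1 hp2 (he1.trans he2.symm)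
      rw [ha1, ha2] at this
      simp at this

/-- If round `r + 2` is entered then the coin of round `r` was bad: `In_succ`, in each case both
flags of round `r + 1` are up (`inX`, `inVC`, the response of `pR`), `X_In`, `diff_bad`. -/
theorem round_bad {t e j r : ℕ} {b : Bool} (h : R.In t e j (r + 2) b) :
    ∃ τ < t, R.Bd τ e j r := by
  obtain ⟨τ1, ht1, hx1⟩ := R.In_succ (r := r + 1) h
  have hf := (R.exit_cases hx1).1
  obtain ⟨τ, hτ, hb⟩ := R.diff_bad (R.X_In (hf true)) (R.X_In (hf false))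
  exact ⟨τ, hτ.trans ht1, hb⟩

theorem Bj_mono {t t' : ℕ} (h : t ≤ t') (e j : ℕ) : (R.gh t).Bj e j ≤ (R.gh t').Bj e j := by
  induction t', h using Nat.le_induction with
  | base => exact le_refl _
  | succ t' _ ih => exact ih.trans (R.Bj_succ_le t' e j)

/-- If round `r` is entered with both sides then there were `r` bad coins. -/
theorem Bj_both (e j r : ℕ) : ∀ t, R.In t e j r true → R.In t e j r false →
    r ≤ (R.gh t).Bj e j := by
  induction r with
  | zero => intro t _ _; exact Nat.zero_le _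
  | succ r ih =>
    intro t h h'
    obtain ⟨τ, hτ, hb⟩ := R.diff_bad h h'
    have h1 : r ≤ (R.gh τ).Bj e j :=
      ih τ (R.X_In (R.Rv_X hb.1 true)) (R.X_In (R.Rv_X hb.1 false))
    have h2 := R.Bj_succ_bad hb
    have h3 := R.Bj_mono (show τ + 1 ≤ t from hτ) e j
    omega

/-- `round_bad` (with `In_le`) gives for each `r' < r - 1` a step `τ < t` with `Bd τ e j r'`; these
steps are different; `Bj` counts them: `Bj e j` at time `t` is at least the number of `τ < t` with
`∃ r, Bd τ e j r` (`Bj_succ_bad`, `Bj_succ_le`). -/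
theorem Bj_round {t e j r : ℕ} {b : Bool} (h : R.In t e j r b) : r ≤ (R.gh t).Bj e j + 1 := by
  cases r with
  | zero => exact Nat.zero_le _
  | succ r =>
    obtain ⟨τ, hτ, hx⟩ := R.In_succ h
    have hf := (R.exit_cases hx).1
    have h1 := R.Bj_both e j r τ (R.X_In (hf true)) (R.X_In (hf false))
    have h2 := R.Bj_mono (le_of_lt hτ) e j
    omega

/-- A good fresh reading in round `r` and a fresh reading in a later round: impossible. -/
theorem good_lt {τ τ' e j r r' : ℕ} (h : R.Gd τ e j r) (h' : R.Rv τ' e j r') (hr : r < r') :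
    False := by
  have hI : ∀ b, R.In τ' e j r' b := fun b => R.X_In (R.Rv_X h' b)
  have key : ∃ τ'' < τ', R.Bd τ'' e j r := by
    rcases Nat.lt_or_ge (r + 1) r' with hc | hc
    · obtain ⟨b', hb'⟩ := R.In_le (show r + 2 ≤ r' from hc) (hI true)
      exact R.round_bad hb'
    · have : r' = r + 1 := by omega
      subst this
      exact R.diff_bad (hI true) (hI false)
  obtain ⟨τ'', _, hb⟩ := key
  have he : τ'' = τ := R.fresh_unique hb.1 h.1
  subst he
  have h1 := hb.2
  rw [h.2] at h1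
  exact Bool.false_ne_true h1

/-- At most one good fresh reading for each index. `r = r'`: `fresh_unique`. `r < r'`: at `τ'` both
flags of round `r'` are up, so for `r' = r + 1` `diff_bad`, for `r' ≥ r + 2` `round_bad` (with
`In_le`) give a bad fresh reading of round `r`, which by `fresh_unique` is `τ`: contradiction. -/
theorem good_once {τ τ' e j r r' : ℕ} (h : R.Gd τ e j r) (h' : R.Gd τ' e j r') : τ = τ' := by
  rcases Nat.lt_trichotomy r r' with hc | hc | hc
  · exact (R.good_lt h h'.1 hc).elim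
  · subst hc
    exact R.fresh_unique h.1 h'.1
  · exact (R.good_lt h' h.1 hc).elim

/-- `good_once`, induction on `t` of: `Gj e j ≤ 1` and (`Gj e j ≠ 0 → ∃ τ < t, ∃ r, Gd τ e j r`). -/
theorem Gj_le_one (t e j : ℕ) : (R.gh t).Gj e j ≤ 1 ∧
    ((R.gh t).Gj e j ≠ 0 → ∃ τ < t, ∃ r, R.Gd τ e j r) := by
  induction t with
  | zero =>
    have h0 : (R.gh 0).Gj e j = 0 := rfl
    rw [h0]
    exact ⟨Nat.zero_le _, fun h => absurd rfl h⟩
  | succ t ih =>
    obtain ⟨ih1, ih2⟩ := ih
    have hkeep : (R.gh (t + 1)).Gj e j = (R.gh t).Gj e j → ((R.gh (t + 1)).Gj e j ≤ 1 ∧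
        ((R.gh (t + 1)).Gj e j ≠ 0 → ∃ τ < t + 1, ∃ r, R.Gd τ e j r)) := by
      intro hk
      rw [hk]
      refine ⟨ih1, fun h => ?_⟩
      obtain ⟨τ, h1, h2⟩ := ih2 h
      exact ⟨τ, Nat.lt_succ_of_lt h1, h2⟩
    rcases R.G_succ t e with ⟨_, hG⟩ | ⟨_, j0, r, hgd, hG, hO⟩
    · exact hkeep (hG j)
    · by_cases hj : j = j0
      · subst hj
        have hz : (R.gh t).Gj e j = 0 := by
          by_contra hne
          obtain ⟨τ, h1, r', h2⟩ := ih2 hne
          have := R.good_once h2 hgd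
          omega
        rw [hG, hz]
        exact ⟨le_refl _, fun _ => ⟨t, Nat.lt_succ_self t, r, hgd⟩⟩
      · exact hkeep (hO j hj)

/-- For `j ≥ M t e` we have `Gj e j = 0` (`started_idx`, `started_M`); `G_sum` with `J = M t e`. -/
theorem G_le {t e : ℕ} (h : R.mem t (.F e (c + 3)) = 0) : (R.gh t).G e ≤ R.M t e := by
  rw [R.G_sum t e (R.M t e) ?_]
  · calc ∑ j ∈ Finset.range (R.M t e), (R.gh t).Gj e j
        ≤ ∑ _j ∈ Finset.range (R.M t e), 1 := Finset.sum_le_sum fun j _ => (R.Gj_le_one t e j).1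
      _ = R.M t e := by simp
  · intro j hj
    by_contra hne
    obtain ⟨τ, hτ, r, ⟨he, i, b, v, hp, _⟩, _⟩ := (R.Gj_le_one t e j).2 hne
    subst he
    have hs : R.Started τ (R.st τ).e j :=
      R.started_idx (t := τ) (p := R.s τ) (by show (R.st τ).ph.idx? = _; rw [hp]; rfl)
    have := R.started_M (R.started_mono (le_of_lt hτ) hs) h
    omega

end Run

end Pool.Agent.Lib.MP_2ab09f_lc.SQ
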