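import Mathlib

import Pool.Agent.Lib.MP_2ab09f_lcS.Bad

/-!
JOB Steps. Without a bad event nobody uses up the budget.
-/

namespace Pool.Agent.Lib.MP_2ab09f_lc.SQ

variable {c n : ℕ}

/-- The bad events of epoch `e`. -/
def BadE (c : ℕ) {n : ℕ} (κ : CF n) (e : ℕ) : Prop :=
  κ.gh.b1 e = true ∨ κ.mem (.F e (c + 3)) ≠ 0 ∨ X3 c ≤ κ.gh.N e ∨ X4 c ≤ κ.gh.B e

/-- Offset of a phase with an index. -/
def Ph.off : Ph → ℕ
  | .top _ _ => 0
  | .nx _ _ _ => 1
  | .z _ _ _ => 2
  | .zw _ _ _ => 3
  | .c1 _ _ _ => 4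
  | .c2 _ _ _ => 5
  | .pX _ _ _ _ _ => 6
  | .pY _ _ _ _ _ => 7
  | .pW _ _ _ _ _ => 8
  | .pV _ _ _ _ _ => 8
  | .pR _ _ _ _ _ => 9
  | .pC _ _ _ _ _ => 9
  | _ => 0

theorem Steps_e {y : Cn c} {s : LS} {a : ℕ} (h : (nxt c y s a).ph ≠ .coin 0) :
    (nxt c y s a).e = s.e := by
  rcases nxt_e (c := c) (y := y) (s := s) (a := a) with h1 | h1
  · exact h1.1
  · exact absurd h1.2.1 h

theorem Steps_nxt {y : Cn c} {s : LS} {a j i : ℕ} (hj : (nxt c y s a).ph.idx? = some j)
    (hi : (nxt c y s a).ph.pos? = some i) :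
    (nxt c y s a).k = s.k + 1 ∧ ((∃ l f, s.ph = .rd l f ∧ (nxt c y s a).ph.off = 1) ∨
      (∃ j0 i0, s.ph.idx? = some j0 ∧ s.ph.pos? = some i0 ∧
        i0 + 6 * j0 + 4 * s.q + s.ph.off + 1 ≤
          i + 6 * j + 4 * (nxt c y s a).q + (nxt c y s a).ph.off)) := by
  unfold nxt at *
  cases hp : s.ph <;> rw [hp] at hj hi <;> dsimp only at * <;> (try unfold cap at *) <;>
    (try unfold newE at *) <;> (try split_ifs at *) <;>
    simp_all [Ph.idx?, Ph.pos?, Ph.off] <;> omega

theorem Steps_coin {y : Cn c} {s : LS} {a k : ℕ} (h : (nxt c y s a).ph = .coin k) :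
    (nxt c y s a).k = 0 ∨ ((∃ k', s.ph = .coin k') ∧ (nxt c y s a).k = s.k) := by
  unfold nxt at *
  cases hp : s.ph <;> rw [hp] at h <;> dsimp only at * <;> (try unfold cap at *) <;>
    (try unfold newE at *) <;> (try split_ifs at *) <;> simp_all

theorem Steps_hit {y : Cn c} {a : ℕ} (h : hit c a y = false) (ha : a ≤ c) : a + 1 ≤ c := by
  rcases Nat.lt_or_ge a c with h1 | h1
  · exact h1
  · have h2 : a = c := le_antisymm ha h1
    subst h2
    unfold hit at h
    have h3 := y.1.isLt
    rw [decide_eq_false_iff_not] at h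
    exact absurd h3 h

theorem Steps_pos {y : Cn c} : pos c y ≤ c + 3 := by
  unfold pos
  omega

theorem Steps_b1 {mem : Reg → ℕ} {g : Gh} {y : Cn c} {s : LS} {a e : ℕ} (h : g.b1 e = true) :
    (ghOf c mem g y s a).b1 e = true := by
  unfold ghOf
  cases hp : s.ph <;> dsimp only <;> (try split_ifs) <;> (try exact h)
  all_goals
    show Function.update g.b1 s.e true e = true
    by_cases he : e = s.e
    · subst he
      simp
    · rw [Function.update_of_ne he]
      exact h

theorem Steps_b1_set {mem : Reg → ℕ} {g : Gh} {y : Cn c} {s : LS} {a l : ℕ} (h1 : s.ph = .wr l)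
    (h2 : hit c l y = true) (h3 : emptyF c mem s.e) (h4 : pos c y ≠ 0) :
    (ghOf c mem g y s a).b1 s.e = true := by
  unfold ghOf
  rw [h1]
  simp [h2, h3, h4]

/-- The round of a phase (`0` if the phase does not belong to a round). -/
def Ph.rn : Ph → ℕ
  | .pX _ _ r _ _ => r
  | .pY _ _ r _ _ => r
  | .pW _ _ r _ _ => r
  | .pR _ _ r _ _ => r
  | .pV _ _ r _ _ => r
  | .pC _ _ r _ _ => r
  | _ => 0

/-- The phases before the first index. -/
def Ph.lp : Ph → Bool
  | .coin _ => true
  | .rd _ _ => true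
  | .wr _ => true
  | _ => false

theorem Ph.inR_of {φ : Ph} {j : ℕ} (h : φ.idx? = some j) : φ.rn = 0 ∨ ∃ b, φ.inR j φ.rn b := by
  cases φ <;> simp [Ph.idx?] at h <;> subst h <;> simp [Ph.rn, Ph.inR]

theorem Ph.off_le (φ : Ph) : φ.off ≤ 9 := by
  cases φ <;> simp [Ph.off]

/-- How the number of rounds changes. -/
theorem nxt_idx3 {y : Cn c} {s : LS} {a j : ℕ} (h : (nxt c y s a).ph.idx? = some j) :
    (nxt c y s a).e = s.e ∧
    ((s.ph.lp = true ∧ (nxt c y s a).q = s.q) ∨
      (s.ph.idx? = some j ∧ (nxt c y s a).q + s.ph.rn ≤ s.q + (nxt c y s a).ph.rn) ∨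
      (∃ j' i r v, j = j' + 1 ∧ s.ph = .pR j' i r false v ∧ (nxt c y s a).q = s.q + 1)) := by
  unfold nxt at h ⊢
  cases hp : s.ph <;> rw [hp] at h <;> dsimp only at h ⊢ <;> (try unfold cap at *) <;>
    (try unfold newE at *) <;> (try split_ifs at h ⊢) <;>
    simp_all [Ph.idx?, Ph.rn, Ph.lp] <;> omega

theorem nxt_lp {y : Cn c} {s : LS} {a : ℕ} (h : (nxt c y s a).ph.lp = true) :
    (nxt c y s a).q = 0 ∨ (s.ph.lp = true ∧ (nxt c y s a).q = s.q) := by
  unfold nxt at h ⊢
  cases hp : s.ph <;> rw [hp] at h <;> dsimp only at h ⊢ <;> (try unfold cap at *) <;>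
    (try unfold newE at *) <;> (try split_ifs at h ⊢) <;> simp_all [Ph.lp]

namespace Run

variable (R : Run c n)

theorem Steps_b1_mono {t t' e : ℕ} (h : t ≤ t') (h0 : (R.gh t).b1 e = true) :
    (R.gh t').b1 e = true := by
  induction t', h using Nat.le_induction with
  | base => exact h0
  | succ t' _ ih =>
    rw [R.gh_succ]
    exact Steps_b1 ih

theorem Steps_N_mono {t t' : ℕ} (e : ℕ) (h : t ≤ t') : (R.gh t).N e ≤ (R.gh t').N e := by
  induction t', h using Nat.le_induction with
  | base => exact le_refl _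
  | succ t' _ ih =>
    rcases R.N_succ t' e with h1 | h1
    · omega
    · have := h1.1
      omega

theorem Steps_B_mono {t t' : ℕ} (e : ℕ) (h : t ≤ t') : (R.gh t).B e ≤ (R.gh t').B e := by
  induction t', h using Nat.le_induction with
  | base => exact le_refl _
  | succ t' _ ih =>
    rcases R.B_succ t' e with h1 | h1
    · have := h1.1
      omega
    · have := h1.1
      omega

/-- All four quantities are monotone in time. -/
theorem BadE_mono {t t' e : ℕ} (h : t ≤ t') (h0 : BadE c (R.cf t) e) : BadE c (R.cf t') e := by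
  rcases h0 with h1 | h1 | h1 | h1
  · exact Or.inl (R.Steps_b1_mono h h1)
  · exact Or.inr (Or.inl (R.mem_mono h h1))
  · exact Or.inr (Or.inr (Or.inl (le_trans h1 (R.Steps_N_mono e h))))
  · exact Or.inr (Or.inr (Or.inr (le_trans h1 (R.Steps_B_mono e h))))

/-- `b1 e` becomes true when the first write to `F e` does not go to position `0`. Induction. -/
theorem F0_of_b1 {t e i : ℕ} (h : (R.gh t).b1 e = false) (hi : i ≤ c + 3)
    (h0 : R.mem t (.F e i) ≠ 0) : R.mem t (.F e 0) ≠ 0 := by
  induction t generalizing i with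
  | zero => exact absurd (R.mem_zero _) h0
  | succ t ih =>
    have hb : (R.gh t).b1 e = false := by
      by_contra hne
      have : (R.gh t).b1 e = true := by
        cases hh : (R.gh t).b1 e with
        | true => rfl
        | false => exact absurd hh hne
      rw [R.Steps_b1_mono (Nat.le_succ t) this] at h
      cases h
    by_cases hw : ∃ i' w, R.act t = .write (.F e i') w
    · obtain ⟨i', w, hw⟩ := hw
      obtain ⟨l, h1, h2, h3, h4, h5⟩ := R.act_F hw
      by_cases hE : emptyF c (R.mem t) e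
      · have hi' : i' = 0 := by
          by_contra hne
          have h6 := Steps_b1_set (mem := R.mem t) (g := R.gh t) (a := R.rs t) h1 h3
            (by rw [h2]; exact hE) (by rw [h4]; exact hne)
          rw [R.gh_succ, ← h2, h6] at h
          cases h
        subst hi'
        rw [R.mem_succ_write hw, h5]
        exact cont_ne _ _
      · unfold emptyF at hE
        push Not at hE
        obtain ⟨i'', h6, h7⟩ := hE
        exact R.mem_mono (Nat.le_succ t) (ih hb h6 h7)
    · rw [R.mem_succ_ne fun w hh => hw ⟨i, w, hh⟩] at h0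
      exact R.mem_mono (Nat.le_succ t) (ih hb hi h0)

/-- A processor in the phase `rd a true` has written to some position `≤ c + 3` of `F`. -/
theorem rd_true {t a : ℕ} {p : Fin n} (h : (R.loc t p).ph = .rd a true) :
    ∃ i ≤ c + 3, R.mem t (.F (R.loc t p).e i) ≠ 0 := by
  refine R.inv_ind (fun t _ s => ∀ a, s.ph = .rd a true →
    ∃ i ≤ c + 3, R.mem t (.F s.e i) ≠ 0) ?_ ?_ ?_ t p a h
  · intro p a h
    simp [init] at h
  · intro t p h a ha
    obtain ⟨i, h1, h2⟩ := h a ha
    exact ⟨i, h1, R.mem_mono (Nat.le_succ t) h2⟩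
  · intro t h a ha
    have he : (nxt c (R.y t) (R.st t) (R.rs t)).e = (R.st t).e := by
      refine Steps_e ?_
      rw [ha]
      simp
    rw [he]
    rcases pre_rd ha with ⟨_, h1, _⟩ | ⟨l', _, h1, h2⟩ | ⟨_, h1, _⟩
    · cases h1
    · have hact : R.act t = .write (.F (R.st t).e (pos c (R.y t)))
          (cont (R.u (R.s t)) (R.st t).x) := by
        unfold Run.act SQ.act
        rw [h1]
        simp only [← h2, if_true]
      refine ⟨pos c (R.y t), Steps_pos, ?_⟩
      rw [R.mem_succ_write hact]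
      exact cont_ne _ _
    · obtain ⟨i, h2, h3⟩ := h a h1
      exact ⟨i, h2, R.mem_mono (Nat.le_succ t) h3⟩

/-- Levels: at level `c` the write attempt always hits. -/
theorem level {t a : ℕ} {p : Fin n} : ((R.loc t p).ph = .rd a false → a ≤ c) ∧
    ((R.loc t p).ph = .rd a true → a ≤ c + 1) ∧ ((R.loc t p).ph = .wr a → a ≤ c) := by
  refine R.inv_ind (fun _ _ s => ∀ a, (s.ph = .rd a false → a ≤ c) ∧
    (s.ph = .rd a true → a ≤ c + 1) ∧ (s.ph = .wr a → a ≤ c)) ?_ ?_ ?_ t p a
  · intro p a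
    simp [init]
  · intro t p h
    exact h
  · intro t h a
    refine ⟨?_, ?_, ?_⟩
    · intro ha
      rcases pre_rd ha with ⟨h1, _⟩ | ⟨l', h1, h2, h3⟩ | ⟨h1, _⟩
      · omega
      · rw [h1]
        exact Steps_hit h3.symm ((h l').2.2 h2)
      · cases h1
    · intro ha
      rcases pre_rd ha with ⟨h1, _⟩ | ⟨l', h1, h2, h3⟩ | ⟨_, h1, _⟩
      · omega
      · have := (h l').2.2 h2
        omega
      · exact (h a).2.1 h1
    · intro ha
      exact (h a).1 (pre_wr ha).1

theorem Steps_k0 {t k : ℕ} {p : Fin n} (h : (R.loc t p).ph = .coin k) : (R.loc t p).k = 0 := by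
  refine R.inv_ind (fun _ _ s => ∀ k, s.ph = .coin k → s.k = 0) ?_ ?_ ?_ t p k h
  · intro p k _
    rfl
  · intro t p h
    exact h
  · intro t h k hk
    rcases Steps_coin hk with h1 | ⟨⟨k', h1⟩, h2⟩
    · exact h1
    · rw [h2]
      exact h k' h1

/-- The counter in the loop of write attempts. In `rd a true` the response is not `0`
(`rd_true`, `F0_of_b1`), so this phase is not repeated. Induction; use `BadE_mono` for the
hypothesis at earlier times. -/
theorem k_loop {t a : ℕ} {p : Fin n} (hb : ¬ BadE c (R.cf t) (R.loc t p).e) :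
    (∀ f, (R.loc t p).ph = .rd a f → (R.loc t p).k ≤ 2 * a) ∧
    ((R.loc t p).ph = .wr a → (R.loc t p).k ≤ 2 * a + 1) := by
  refine R.inv_ind (fun t _ s => ¬ BadE c (R.cf t) s.e → ∀ a, (∀ f, s.ph = .rd a f → s.k ≤ 2 * a) ∧
    (s.ph = .wr a → s.k ≤ 2 * a + 1)) ?_ ?_ ?_ t p hb a
  · intro p _ a
    simp [init]
  · intro t p h hb
    exact h fun hh => hb (R.BadE_mono (Nat.le_succ t) hh)
  · intro t h hb a
    have hcase : ∀ φ, (nxt c (R.y t) (R.st t) (R.rs t)).ph = φ → φ ≠ .coin 0 →
        ¬ BadE c (R.cf t) (R.st t).e := by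
      intro φ h1 h2 h3
      apply hb
      have he : (nxt c (R.y t) (R.st t) (R.rs t)).e = (R.st t).e := by
        refine Steps_e ?_
        rw [h1]
        exact h2
      rw [he]
      exact R.BadE_mono (Nat.le_succ t) h3
    refine ⟨?_, ?_⟩
    · intro f ha
      have hb' := hcase _ ha (by simp)
      have hm : (nxt c (R.y t) (R.st t) (R.rs t)).ph.main = true := by rw [ha]; rfl
      rcases pre_rd ha with ⟨h1, h2, k, h3, _⟩ | ⟨l', h1, h2, _⟩ | ⟨_, h1, h2⟩
      · rcases nxt_k hm with ⟨_, h5⟩ | ⟨k', _, h5, _⟩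
        · rw [h3] at h5
          simp [Ph.main] at h5
        · rw [h5]
          have : (R.st t).k = 0 := R.Steps_k0 h3
          omega
      · rcases nxt_k hm with ⟨h4, _⟩ | ⟨k', h4, _⟩
        · have := (h hb' l').2 h2
          omega
        · rw [h2] at h4
          cases h4
      · exfalso
        have hact : R.act t = .read (.F (R.st t).e 0) := by
          unfold Run.act SQ.act; rw [h1]
        rw [R.rs_read hact] at h2
        obtain ⟨i, hi, h3⟩ := R.rd_true (p := R.s t) h1
        refine R.F0_of_b1 ?_ hi h3 h2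
        cases hh : (R.gh t).b1 (R.loc t (R.s t)).e with
        | false => rfl
        | true => exact absurd (Or.inl hh) hb'
    · intro ha
      have hb' := hcase _ ha (by simp)
      have hm : (nxt c (R.y t) (R.st t) (R.rs t)).ph.main = true := by rw [ha]; rfl
      have h1 := (pre_wr ha).1
      rcases nxt_k hm with ⟨h4, _⟩ | ⟨k', h4, _⟩
      · have := (h hb' a).1 false h1
        omega
      · rw [h1] at h4
        cases h4

/-- The counter in the phases with an index. Induction. -/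
theorem k_idx {t j i : ℕ} {p : Fin n} (hb : ¬ BadE c (R.cf t) (R.loc t p).e)
    (hj : (R.loc t p).ph.idx? = some j) (hi : (R.loc t p).ph.pos? = some i) :
    (R.loc t p).k ≤ 2 * c + 3 + i + 6 * j + 4 * (R.loc t p).q + (R.loc t p).ph.off := by
  refine R.inv_ind (fun t _ s => ¬ BadE c (R.cf t) s.e → ∀ j i, s.ph.idx? = some j →
    s.ph.pos? = some i → s.k ≤ 2 * c + 3 + i + 6 * j + 4 * s.q + s.ph.off) ?_ ?_ ?_ t p hb j i hj hi
  · intro p _ j i hj
    simp [init, Ph.idx?] at hj
  · intro t p h hb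
    exact h fun hh => hb (R.BadE_mono (Nat.le_succ t) hh)
  · intro t h hb j i hj hi
    have hb' : ¬ BadE c (R.cf t) (R.st t).e := by
      intro h3
      apply hb
      have he : (nxt c (R.y t) (R.st t) (R.rs t)).e = (R.st t).e := by
        refine Steps_e ?_
        intro h1
        rw [h1] at hj
        simp [Ph.idx?] at hj
      rw [he]
      exact R.BadE_mono (Nat.le_succ t) h3
    obtain ⟨h1, h2⟩ := Steps_nxt hj hi
    rcases h2 with ⟨l, f, h2, h3⟩ | ⟨j0, i0, h2, h3, h4⟩
    · have h5 : (R.st t).k ≤ 2 * l := (R.k_loop (p := R.s t) (a := l) hb').1 f h2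
      have h6 : l ≤ c + 1 := by
        cases f with
        | false => exact Nat.le_succ_of_le ((R.level (p := R.s t) (a := l)).1 h2)
        | true => exact (R.level (p := R.s t) (a := l)).2.1 h2
      omega
    · have := h hb' j0 i0 h2 h3
      omega

/-- The invariant for `q_le`. -/
theorem q_inv : ∀ (t : ℕ) (p : Fin n), ((R.loc t p).ph.lp = true → (R.loc t p).q = 0) ∧
    ∀ j, (R.loc t p).ph.idx? = some j →
      (R.loc t p).q ≤ ∑ j' ∈ Finset.range j, (R.gh t).Bj (R.loc t p).e j' + 2 * j +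
        (R.loc t p).ph.rn := by
  refine R.inv_ind (fun t _ s => (s.ph.lp = true → s.q = 0) ∧ ∀ j, s.ph.idx? = some j →
      s.q ≤ ∑ j' ∈ Finset.range j, (R.gh t).Bj s.e j' + 2 * j + s.ph.rn) ?_ ?_ ?_
  · intro p
    refine ⟨fun _ => rfl, fun j hj => ?_⟩
    simp [init, Ph.idx?] at hj
  · intro t p h
    refine ⟨h.1, fun j hj => (h.2 j hj).trans ?_⟩
    have h1 : ∑ j' ∈ Finset.range j, (R.gh t).Bj (R.loc t p).e j' ≤
        ∑ j' ∈ Finset.range j, (R.gh (t + 1)).Bj (R.loc t p).e j' :=
      Finset.sum_le_sum fun j' _ => R.Bj_succ_le t _ j'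
    omega
  · intro t h
    constructor
    · intro hl
      rcases nxt_lp hl with h1 | ⟨h1, h2⟩
      · exact h1
      · rw [h2]
        exact h.1 h1
    · intro j hj
      obtain ⟨he, h1⟩ := nxt_idx3 hj
      rw [he]
      have hsum : ∀ j, ∑ j' ∈ Finset.range j, (R.gh t).Bj (R.st t).e j' ≤
          ∑ j' ∈ Finset.range j, (R.gh (t + 1)).Bj (R.st t).e j' := fun j =>
        Finset.sum_le_sum fun j' _ => R.Bj_succ_le t _ j'
      rcases h1 with ⟨h1, h2⟩ | ⟨h1, h2⟩ | ⟨j', i, r, v, rfl, h1, h2⟩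
      · rw [h2, h.1 h1]
        exact Nat.zero_le _
      · have h3 := h.2 j h1
        have h4 := hsum j
        omega
      · have h3 := h.2 j' (by rw [h1]; rfl)
        have h4 := hsum (j' + 1)
        have h5 : (R.loc t (R.s t)).ph.inR j' r false := by
          refine ⟨i, v, ?_⟩
          have h6 : (R.loc t (R.s t)).ph = .pR j' i r false v := h1
          rw [h6]
          simp
        have h7 := R.Bj_round (R.phase_In h5)
        have h8 : (R.gh t).Bj (R.loc t (R.s t)).e j' = (R.gh t).Bj (R.st t).e j' := rfl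
        rw [h8] at h7
        rw [Finset.sum_range_succ] at h4
        have h9 : (R.st t).ph.rn = r := by rw [h1]; rfl
        rw [h9] at h3
        rw [h2]
        omega

/-- The number of rounds. Induction on `t` (no hypothesis on bad events): `q = 0` in the phases
`coin`, `rd`, `wr`; in the phases `top .. c2` of index `j`: `q ≤ ∑_{j' < j} Bj e j' + 2 * j`; in the
phases of round `r` of index `j`: `q ≤ ∑_{j' < j} Bj e j' + 2 * j + r`. Moving from `pR j _ r` to
`top (j + 1)`: `r ≤ Bj e j + 1` (`Bj_round`, `phase_In`). -/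
theorem q_le {t j : ℕ} {p : Fin n} (hj : (R.loc t p).ph.idx? = some j) :
    (R.loc t p).q ≤ ∑ j' ∈ Finset.range (j + 1), (R.gh t).Bj (R.loc t p).e j' + 2 * j + 1 := by
  have h1 := (R.q_inv t p).2 j hj
  have h2 : (R.loc t p).ph.rn ≤ (R.gh t).Bj (R.loc t p).e j + 1 := by
    rcases Ph.inR_of hj with h3 | ⟨b, h3⟩
    · omega
    · exact R.Bj_round (R.phase_In h3)
  rw [Finset.sum_range_succ]
  omega

/-- `started_M`, `M_le`, `started_idx`. -/
theorem idx_le {t j : ℕ} {p : Fin n} (hb : ¬ BadE c (R.cf t) (R.loc t p).e)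
    (hj : (R.loc t p).ph.idx? = some j) : j + 3 ≤ JJ c := by
  unfold BadE at hb
  push Not at hb
  obtain ⟨_, h1, h2, _⟩ := hb
  have h3 := R.started_M (R.started_idx hj) h1
  have h4 := R.M_le h1
  have h5 : (R.cf t).gh.N (R.loc t p).e = (R.gh t).N (R.loc t p).e := rfl
  unfold JJ
  omega

/-- `G_le`, `M_le`. -/
theorem G_JJ {t e : ℕ} (hb : ¬ BadE c (R.cf t) e) : (R.gh t).G e ≤ JJ c := by
  unfold BadE at hb
  push Not at hb
  obtain ⟨_, h1, h2, _⟩ := hb
  have h3 := R.G_le h1
  have h4 := R.M_le h1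
  have h5 : (R.cf t).gh.N e = (R.gh t).N e := rfl
  unfold JJ
  omega

/-- Without bad events the budget is not used up: `k_loop`, `level`, or `k_idx`, `q_le`, `B_sum`,
`idx_le`, and `i ≤ c + 2` (`pos_ne`). (`S0 c = 3 * c + 14 * JJ c + 4 * X4 c + 10`.) -/
theorem k_lt {t : ℕ} {p : Fin n} (hb : ¬ BadE c (R.cf t) (R.loc t p).e)
    (hm : (R.loc t p).ph.main = true) : (R.loc t p).k + 1 < S0 c := by
  have hb0 := hb
  unfold BadE at hb0
  push Not at hb0
  obtain ⟨_, h1, _, h2⟩ := hb0
  have hS : S0 c = 3 * c + 14 * JJ c + 4 * X4 c + 10 := rfl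
  by_cases hi : ∃ j, (R.loc t p).ph.idx? = some j
  · obtain ⟨j, hj⟩ := hi
    have hi' : ∃ i, (R.loc t p).ph.pos? = some i := by
      cases hp : (R.loc t p).ph <;> rw [hp] at hj <;> simp [Ph.idx?] at hj <;> simp [Ph.pos?]
    obtain ⟨i, hi⟩ := hi'
    have h3 := R.k_idx hb hj hi
    have h4 := R.q_le hj
    have h5 := R.B_sum t (R.loc t p).e (j + 1)
    have h6 := R.idx_le hb hj
    have h7 := (R.loc t p).ph.off_le
    have h8 : i < c + 3 := by
      by_contra h9
      exact R.pos_ne t p i hi (c + 3) (by omega) h1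
    have h10 : (R.cf t).gh.B (R.loc t p).e = (R.gh t).B (R.loc t p).e := rfl
    omega
  · have h3 : (∃ a f, (R.loc t p).ph = .rd a f) ∨ ∃ a, (R.loc t p).ph = .wr a := by
      cases hp : (R.loc t p).ph <;> rw [hp] at hm hi <;> simp [Ph.main, Ph.idx?] at hm hi ⊢
    rcases h3 with ⟨a, f, h3⟩ | ⟨a, h3⟩
    · have h4 := (R.k_loop hb).1 f h3
      have h5 : a ≤ c + 1 := by
        cases f with
        | false => exact (R.level.1 h3).trans (Nat.le_succ c)
        | true => exact R.level.2.1 h3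
      omega
    · have h4 := (R.k_loop hb).2 h3
      have h5 := R.level.2.2 h3
      omega

/-- The phase `ow` is entered only after a bad event. -/
theorem ow_bad_aux {t : ℕ} {p : Fin n} (h : (R.loc t p).ph = .ow) :
    BadE c (R.cf t) (R.loc t p).e := by
  have hne : R.loc t p ≠ init (R.u p) := by
    intro h0
    rw [h0] at h
    simp [init] at h
  obtain ⟨τ, h1, h2, _, h3, _⟩ := R.last hne
  rw [← h3] at h
  obtain ⟨h4, h5⟩ := pre_ow h
  have h6 : (R.loc t p).e = (R.st τ).e := by
    rw [← h3]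
    rcases nxt_e (c := c) (y := R.y τ) (s := R.st τ) (a := R.rs τ) with h7 | h7
    · exact h7.1
    · rw [h7.2.1] at h
      cases h
  rw [h6]
  refine R.BadE_mono h1.le ?_
  by_contra hb
  have h8 := R.k_lt (t := τ) (p := R.s τ) hb h4
  have h9 : (R.loc τ (R.s τ)).k = (R.st τ).k := rfl
  omega

/-- `pre_ow`, `k_lt`, `BadE_mono`; `mprov`, `act_V`. -/
theorem V_bad {t e : ℕ} (h : R.mem t (.V e) ≠ 0) : BadE c (R.cf t) e := by
  obtain ⟨τ, h1, h2, _⟩ := R.mprov (v := R.mem t (.V e)) rfl h
  obtain ⟨h3, h4, _⟩ := R.act_V h2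
  have h5 := R.ow_bad_aux (t := τ) (p := R.s τ) h3
  have h6 : (R.loc τ (R.s τ)).e = e := h4
  rw [h6] at h5
  exact R.BadE_mono h1.le h5

theorem ow_bad {t : ℕ} {p : Fin n} (h : (R.loc t p).ph = .ow ∨ (R.loc t p).ph = .od) :
    BadE c (R.cf t) (R.loc t p).e := by
  rcases h with h | h
  · exact R.ow_bad_aux h
  · have hne : R.loc t p ≠ init (R.u p) := by
      intro h0
      rw [h0] at h
      simp [init] at h
    obtain ⟨τ, h1, h2, _, h3, _⟩ := R.last hne
    rw [← h3] at h
    have h4 := pre_od h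
    have h6 : (R.loc t p).e = (R.st τ).e := by
      rw [← h3]
      rcases nxt_e (c := c) (y := R.y τ) (s := R.st τ) (a := R.rs τ) with h7 | h7
      · exact h7.1
      · rw [h7.2.1] at h
        cases h
    rw [h6]
    exact R.BadE_mono h1.le (R.ow_bad_aux (t := τ) (p := R.s τ) h4)

/-- An epoch is left only after an overflow (`nxt_e`: `fr` with `V ≠ 0`, or `od`). -/
theorem leave_bad {t e : ℕ} {p : Fin n} (h : e < (R.loc t p).e) : BadE c (R.cf t) e := by
  induction t with
  | zero =>
    rw [R.loc_zero] at h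
    simp [init] at h
  | succ t ih =>
    by_cases h0 : e < (R.loc t p).e
    · exact R.BadE_mono (Nat.le_succ t) (ih h0)
    · by_cases hp : p = R.s t
      · subst hp
        rw [R.loc_succ_self] at h
        have hst : (R.loc t (R.s t)).e = (R.st t).e := rfl
        rcases nxt_e (c := c) (y := R.y t) (s := R.st t) (a := R.rs t) with h1 | h1
        · omega
        · have he : e = (R.st t).e := by omega
          subst he
          refine R.BadE_mono (Nat.le_succ t) ?_
          rcases h1.2.2.2.2 with ⟨v, h2, h3, _⟩ | ⟨h2, _⟩ | ⟨h2, _⟩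
          · have hact : R.act t = .read (.V (R.st t).e) := by
              unfold Run.act SQ.act; rw [h2]
            rw [R.rs_read hact] at h3
            exact R.V_bad h3
          · exact R.ow_bad (p := R.s t) (Or.inr h2)
          · exact R.ow_bad (p := R.s t) (Or.inr h2)
      · rw [R.loc_succ_ne t hp] at h
        exact absurd h h0

end Run

end Pool.Agent.Lib.MP_2ab09f_lc.SQ
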