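import Mathlib

import Pool.Agent.Lib.MP_2ab09f_lcS.Steps

/-!
The potential: its definition and the average over the coin of one step.
-/

namespace Pool.Agent.Lib.MP_2ab09f_lc.SQ

variable {c n : ℕ}

noncomputable section

/-- Probability that the write attempt of level `a` goes to `F`. -/
def qr (c a : ℕ) : ℝ := (2 : ℝ) ^ (c * a) / 2 ^ (c * c)

/-- Pending mass of the processor `p` for epoch `e`. -/
def mass (c : ℕ) (κ : CF n) (e : ℕ) (p : Fin n) : ℝ :=
  if (κ.loc p).e < e then (if κ.mem (.F e 0) = 0 then qr c 0 else 0)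
  else if (κ.loc p).e = e then
    match (κ.loc p).ph with
    | .coin _ => if κ.mem (.F e 0) = 0 then qr c 0 else 0
    | .rd a f => if f = false ∧ κ.mem (.F e 0) = 0 then qr c a else 0
    | .wr a => qr c a
    | _ => 0
  else 0

/-- Pending mass and reserve. -/
def Phi (c : ℕ) (κ : CF n) (e : ℕ) : ℝ :=
  (∑ p, mass c κ e p) + (if κ.mem (.F e 0) = 0 then 2 * (2 : ℝ) ^ c else 0)

def phi1 (c : ℕ) (κ : CF n) (e : ℕ) : ℝ := if emptyF c κ.mem e then 1 / 16 else 0

def phi2 (c : ℕ) (κ : CF n) (e : ℕ) : ℝ := Phi c κ e / 2 ^ (c + 6)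

def psi (c : ℕ) (κ : CF n) (e : ℕ) : ℝ :=
  (κ.gh.N e : ℝ) + (if κ.mem (.F e 1) = 0 then 30 else 0) +
    2 * ∑ i ∈ Finset.Icc 2 (c + 3), (if κ.mem (.F e i) = 0 then (1 : ℝ) else 0)

def phi3 (c : ℕ) (κ : CF n) (e : ℕ) : ℝ := psi c κ e / X3 c

def phi4 (c : ℕ) (κ : CF n) (e : ℕ) : ℝ :=
  ((κ.gh.B e : ℝ) - κ.gh.G e + JJ c) / X4 c

open Classical in
/-- Bound for the probability that epoch `e` ends badly. -/
def phi (c : ℕ) (κ : CF n) (e : ℕ) : ℝ :=
  if BadE c κ e then 1 else phi1 c κ e + phi2 c κ e + phi3 c κ e + phi4 c κ e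

/-- The last epoch that has been entered. -/
def ep (κ : CF n) : ℕ := Finset.univ.sup fun p => (κ.loc p).e

/-- The potential. -/
def Vp (c : ℕ) (κ : CF n) : ℝ := (ep κ : ℝ) + 4 / 3 * phi c κ (ep κ)

/-- Hypothesis on a configuration: the number of good coins is bounded when there is no bad event. -/
def GOK (c : ℕ) (κ : CF n) : Prop := ∀ e, ¬ BadE c κ e → κ.gh.G e ≤ JJ c

theorem qr_nonneg (c a : ℕ) : 0 ≤ qr c a := by
  unfold qr
  positivity

theorem mass_nonneg (κ : CF n) (e : ℕ) (p : Fin n) : 0 ≤ mass c κ e p := by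
  have h := qr_nonneg c
  unfold mass
  by_cases h1 : (κ.loc p).e < e
  · rw [if_pos h1]
    split_ifs
    · exact h 0
    · exact le_refl _
  · rw [if_neg h1]
    by_cases h2 : (κ.loc p).e = e
    · rw [if_pos h2]
      cases hph : (κ.loc p).ph <;> dsimp only
      case coin k =>
        split_ifs
        · exact h 0
        · exact le_refl _
      case rd a f =>
        split_ifs
        · exact h _
        · exact le_refl _
      case wr a => exact h _
      all_goals exact le_refl _
    · rw [if_neg h2]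

theorem Phi_nonneg (κ : CF n) (e : ℕ) : 0 ≤ Phi c κ e := by
  unfold Phi
  have h1 : 0 ≤ ∑ p, mass c κ e p := Finset.sum_nonneg fun p _ => mass_nonneg κ e p
  have h2 : (0 : ℝ) ≤ if κ.mem (.F e 0) = 0 then 2 * (2 : ℝ) ^ c else 0 := by
    split_ifs <;> positivity
  linarith

theorem psi_nonneg (κ : CF n) (e : ℕ) : 0 ≤ psi c κ e := by
  unfold psi
  have h1 : (0 : ℝ) ≤ if κ.mem (.F e 1) = 0 then (30 : ℝ) else 0 := by
    split_ifs <;> norm_num
  have h2 : (0 : ℝ) ≤ ∑ i ∈ Finset.Icc 2 (c + 3), (if κ.mem (.F e i) = 0 then (1 : ℝ) else 0) :=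
    Finset.sum_nonneg fun i _ => by split_ifs <;> norm_num
  have h3 : (0 : ℝ) ≤ (κ.gh.N e : ℝ) := Nat.cast_nonneg _
  linarith

theorem phi_nonneg (κ : CF n) (h : GOK c κ) (e : ℕ) : 0 ≤ phi c κ e := by
  unfold phi
  split_ifs with hb
  · norm_num
  · have h1 : 0 ≤ phi1 c κ e := by
      unfold phi1
      split_ifs <;> norm_num
    have h2 : 0 ≤ phi2 c κ e := by
      unfold phi2
      exact div_nonneg (Phi_nonneg κ e) (by positivity)
    have h3 : 0 ≤ phi3 c κ e := by
      unfold phi3
      exact div_nonneg (psi_nonneg κ e) (by positivity)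
    have h4 : 0 ≤ phi4 c κ e := by
      unfold phi4
      refine div_nonneg ?_ (by positivity)
      have h5 : (κ.gh.G e : ℝ) ≤ JJ c := Nat.cast_le.2 (h e hb)
      have h6 : (0 : ℝ) ≤ (κ.gh.B e : ℝ) := Nat.cast_nonneg _
      linarith
    linarith

theorem ep_le_Vp (κ : CF n) (h : GOK c κ) : (ep κ : ℝ) ≤ Vp c κ := by
  unfold Vp
  have := phi_nonneg κ h (ep κ)
  linarith

theorem le_ep (κ : CF n) (p : Fin n) : (κ.loc p).e ≤ ep κ :=
  Finset.le_sup (f := fun p => (κ.loc p).e) (Finset.mem_univ p)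

/-- A fresh epoch: nothing has been written, no ghost, and every processor is in an earlier epoch or
in the phase `coin 0` of this one. `n * qr c 0 ≤ 1`, so
`phi ≤ 1/16 + (1 + 2 * 2 ^ c) / 2 ^ (c + 6) + (30 + 2 * (c + 2)) / X3 c + JJ c / X4 c ≤ 1/4`
(`X3 c = 16 * (34 + 2 * c)`, `X4 c = 16 * JJ c`). -/
theorem phi_fresh (hn : n ≤ 2 ^ (c * c)) (κ : CF n) (e : ℕ) (hF : ∀ i, κ.mem (.F e i) = 0)
    (hb : κ.gh.b1 e = false) (hN : κ.gh.N e = 0) (hB : κ.gh.B e = 0) (hG : κ.gh.G e = 0)
    (hp : ∀ p, (κ.loc p).e < e ∨ ((κ.loc p).e = e ∧ (κ.loc p).ph = .coin 0)) :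
    phi c κ e ≤ 1 / 4 := by
  have hJ : 0 < JJ c := by unfold JJ; omega
  have hJr : (0 : ℝ) < JJ c := Nat.cast_pos.2 hJ
  have hnb : ¬ BadE c κ e := by
    rintro (h | h | h | h)
    · rw [hb] at h
      exact absurd h (by simp)
    · exact h (hF _)
    · rw [hN] at h
      unfold X3 at h
      omega
    · rw [hB] at h
      unfold X4 at h
      omega
  unfold phi
  rw [if_neg hnb]
  have h1 : phi1 c κ e ≤ 1 / 16 := by
    unfold phi1
    split_ifs <;> norm_num
  have hm : ∀ p, mass c κ e p = qr c 0 := by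
    intro p
    unfold mass
    rcases hp p with h | ⟨h, hph⟩
    · rw [if_pos h, if_pos (hF 0)]
    · rw [if_neg (by omega), if_pos h, hph]
      simp [hF 0]
  have hP : Phi c κ e ≤ 1 + 2 * (2 : ℝ) ^ c := by
    unfold Phi
    rw [if_pos (hF 0), Finset.sum_congr rfl fun p _ => hm p, Finset.sum_const, Finset.card_univ,
      Fintype.card_fin, nsmul_eq_mul]
    have h2 : (n : ℝ) * qr c 0 ≤ 1 := by
      unfold qr
      have h3 : (n : ℝ) ≤ 2 ^ (c * c) := by exact_mod_cast hn
      rw [Nat.mul_zero, pow_zero, mul_one_div]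
      exact (div_le_one (by positivity)).2 h3
    linarith
  have h2 : phi2 c κ e ≤ 3 / 64 := by
    unfold phi2
    have h3 : (2 : ℝ) ^ (c + 6) = 64 * 2 ^ c := by rw [pow_add]; norm_num; ring
    have h4 : (1 : ℝ) ≤ 2 ^ c := one_le_pow₀ (by norm_num)
    rw [h3, div_le_iff₀ (by positivity)]
    linarith
  have h3 : phi3 c κ e = 1 / 16 := by
    unfold phi3 psi
    rw [if_pos (hF 1), hN, Finset.sum_congr rfl fun i _ => if_pos (hF i), Finset.sum_const,
      Nat.card_Icc]
    have h5 : (X3 c : ℝ) = 16 * (34 + 2 * c) := by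
      unfold X3
      push_cast
      ring
    have h6 : c + 3 + 1 - 2 = c + 2 := by omega
    rw [h5, h6, nsmul_eq_mul]
    push_cast
    rw [div_eq_div_iff (by positivity) (by norm_num)]
    ring
  have h4 : phi4 c κ e = 1 / 16 := by
    unfold phi4
    rw [hB, hG]
    have h5 : (X4 c : ℝ) = 16 * JJ c := by
      unfold X4
      push_cast
      ring
    rw [h5, Nat.cast_zero, sub_zero, zero_add, div_eq_div_iff (by positivity) (by norm_num)]
    ring
  rw [h3, h4]
  linarith

/-! ### the write attempt -/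

theorem sum_size (F : ℕ → ℝ) (m : ℕ) :
    ∑ z ∈ Finset.range (2 ^ m), F (Nat.size z) =
      F 0 + ∑ k ∈ Finset.Icc 1 m, (2 : ℝ) ^ (k - 1) * F k := by
  induction m with
  | zero => simp
  | succ m ih =>
    have h1 : 2 ^ (m + 1) = 2 ^ m + 2 ^ m := by rw [pow_succ]; omega
    rw [h1, Finset.sum_range_add, ih, Finset.sum_Icc_succ_top (by omega)]
    have h2 : ∑ z ∈ Finset.range (2 ^ m), F (Nat.size (2 ^ m + z)) =
        ∑ z ∈ Finset.range (2 ^ m), F (m + 1) := by
      refine Finset.sum_congr rfl fun z hz => ?_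
      have hz' : z < 2 ^ m := Finset.mem_range.1 hz
      have hs : Nat.size (2 ^ m + z) = m + 1 := by
        apply le_antisymm
        · rw [Nat.size_le, h1]; omega
        · have : m < Nat.size (2 ^ m + z) := by rw [Nat.lt_size]; omega
          omega
      rw [hs]
    rw [h2, Finset.sum_const, Finset.card_range, nsmul_eq_mul]
    push_cast
    ring

theorem sum_pos (f : ℕ → ℝ) :
    ∑ z : Fin (2 ^ (c + 6)), f ((c + 3) - Nat.size z.val) =
      15 * 2 ^ (c + 2) * f 0 + ∑ g ∈ Finset.Icc 1 (c + 2), (2 : ℝ) ^ (c + 2 - g) * f g +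
        f (c + 3) := by
  have h0 : ∑ z : Fin (2 ^ (c + 6)), f ((c + 3) - Nat.size z.val) =
      ∑ z ∈ Finset.range (2 ^ (c + 6)), f ((c + 3) - Nat.size z) :=
    Fin.sum_univ_eq_sum_range (fun z => f ((c + 3) - Nat.size z)) (2 ^ (c + 6))
  rw [h0, sum_size (fun k => f ((c + 3) - k)) (c + 6)]
  rw [show c + 6 = (c + 2) + 1 + 1 + 1 + 1 by omega,
    Finset.sum_Icc_succ_top (by omega), Finset.sum_Icc_succ_top (by omega),
    Finset.sum_Icc_succ_top (by omega), Finset.sum_Icc_succ_top (by omega)]
  have hr : ∑ k ∈ Finset.Icc 1 (c + 2), (2 : ℝ) ^ (k - 1) * f (c + 3 - k) =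
      ∑ g ∈ Finset.Icc 1 (c + 2), (2 : ℝ) ^ (c + 2 - g) * f g := by
    refine Finset.sum_nbij' (fun k => c + 3 - k) (fun k => c + 3 - k) ?_ ?_ ?_ ?_ ?_
    · intro k hk; rw [Finset.mem_Icc] at hk ⊢; omega
    · intro k hk; rw [Finset.mem_Icc] at hk ⊢; omega
    · intro k hk; rw [Finset.mem_Icc] at hk; omega
    · intro k hk; rw [Finset.mem_Icc] at hk; omega
    · intro k hk
      rw [Finset.mem_Icc] at hk
      rw [show c + 2 - (c + 3 - k) = k - 1 by omega]
  rw [hr]
  have e0 : c + 3 - (c + 2 + 1) = 0 := by omega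
  have e1 : c + 3 - (c + 2 + 1 + 1) = 0 := by omega
  have e2 : c + 3 - (c + 2 + 1 + 1 + 1) = 0 := by omega
  have e3 : c + 3 - (c + 2 + 1 + 1 + 1 + 1) = 0 := by omega
  have e4 : c + 3 - 0 = c + 3 := by omega
  rw [e0, e1, e2, e3, e4]
  simp only [Nat.add_sub_cancel]
  ring

/-- The distribution of the coin of a write attempt. The first component: `2 ^ (c * a)` of the
`2 ^ (c * c)` values hit (`a ≤ c`). The second component `z < 2 ^ (c + 6)`, `pos = c + 3 - size z`:
`z = 0`: `pos = c + 3`; the `2 ^ (k - 1)` values `z` of size `k`, `1 ≤ k ≤ c + 2`: `pos = c + 3 - k`;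
the other `15 * 2 ^ (c + 2)` values (size `≥ c + 3`): `pos = 0`. -/
theorem sum_coin (a : ℕ) (ha : a ≤ c) (f0 : ℝ) (f : ℕ → ℝ) :
    ∑ y : Cn c, (if hit c a y = true then f (pos c y) else f0) =
      ((2 : ℝ) ^ (c * c) - 2 ^ (c * a)) * 2 ^ (c + 6) * f0 +
      (2 : ℝ) ^ (c * a) * (15 * 2 ^ (c + 2) * f 0 +
        ∑ g ∈ Finset.Icc 1 (c + 2), (2 : ℝ) ^ (c + 2 - g) * f g + f (c + 3)) := by
  rw [← sum_pos (c := c) f]
  have hle : 2 ^ (c * a) ≤ 2 ^ (c * c) := Nat.pow_le_pow_right (by norm_num) (Nat.mul_le_mul_left c ha)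
  have h1 : ∑ y : Cn c, (if hit c a y = true then f (pos c y) else f0) =
      ∑ y1 : Fin (2 ^ (c * c)), (if y1.val < 2 ^ (c * a) then
        ∑ z : Fin (2 ^ (c + 6)), f ((c + 3) - Nat.size z.val) else 2 ^ (c + 6) * f0) := by
    rw [Fintype.sum_prod_type]
    refine Finset.sum_congr rfl fun y1 _ => ?_
    by_cases hy : y1.val < 2 ^ (c * a)
    · rw [if_pos hy]
      refine Finset.sum_congr rfl fun z _ => ?_
      have : hit c a (y1, z) = true := by unfold hit; exact decide_eq_true hy
      rw [if_pos this]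
      rfl
    · rw [if_neg hy]
      have h2 : ∀ z : Fin (2 ^ (c + 6)), (if hit c a (y1, z) = true then f (pos c (y1, z)) else f0)
          = f0 := by
        intro z
        have : ¬ hit c a (y1, z) = true := by
          unfold hit; simpa using hy
        rw [if_neg this]
      rw [Finset.sum_congr rfl fun z _ => h2 z, Finset.sum_const, Finset.card_univ,
        Fintype.card_fin, nsmul_eq_mul]
      push_cast
      ring
  rw [h1]
  set S := ∑ z : Fin (2 ^ (c + 6)), f ((c + 3) - Nat.size z.val)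
  rw [Fin.sum_univ_eq_sum_range (fun y => if y < 2 ^ (c * a) then S else 2 ^ (c + 6) * f0)
    (2 ^ (c * c))]
  obtain ⟨d, hd⟩ := Nat.exists_eq_add_of_le hle
  have hdR : (d : ℝ) = 2 ^ (c * c) - 2 ^ (c * a) := by
    have : ((2 ^ (c * c) : ℕ) : ℝ) = ((2 ^ (c * a) + d : ℕ) : ℝ) := by rw [hd]
    push_cast at this
    linarith
  rw [hd, Finset.sum_range_add]
  have h3 : ∑ y ∈ Finset.range (2 ^ (c * a)), (if y < 2 ^ (c * a) then S else 2 ^ (c + 6) * f0) =
      ∑ y ∈ Finset.range (2 ^ (c * a)), S :=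
    Finset.sum_congr rfl fun y hy => if_pos (Finset.mem_range.1 hy)
  have h4 : ∑ y ∈ Finset.range d, (if 2 ^ (c * a) + y < 2 ^ (c * a) then S else
      2 ^ (c + 6) * f0) = ∑ y ∈ Finset.range d, (2 ^ (c + 6) * f0) :=
    Finset.sum_congr rfl fun y hy => if_neg (by omega)
  rw [h3, h4, Finset.sum_const, Finset.sum_const, Finset.card_range, Finset.card_range,
    nsmul_eq_mul, nsmul_eq_mul, hdR]
  push_cast
  ring

theorem PotC_cap_e (s : LS) (q : ℕ) (ph : Ph) : (cap c s q ph).e = s.e := by
  unfold cap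
  split_ifs <;> rfl

theorem PotC_cap_ph (s : LS) (q : ℕ) (ph : Ph) :
    (cap c s q ph).ph = .ow ∨ (cap c s q ph).ph = ph := by
  unfold cap
  split_ifs
  · exact Or.inl rfl
  · exact Or.inr rfl

theorem PotC_qr_nonneg (a : ℕ) : 0 ≤ qr c a := by
  unfold qr
  positivity

theorem PotC_pos_le (y : Cn c) : pos c y ≤ c + 3 := Nat.sub_le _ _

theorem PotC_miss_mem (u : Fin n → ℕ) (κ : CF n) (p : Fin n) (a : ℕ) (h : (κ.loc p).ph = .wr a)
    (y : Cn c) (hy : hit c a y = false) :
    (stepY c u κ p y).mem = Function.update κ.mem .T 1 := by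
  unfold stepY act memOf
  simp only [h, hy]
  rfl

theorem PotC_hit_mem (u : Fin n → ℕ) (κ : CF n) (p : Fin n) (a : ℕ) (h : (κ.loc p).ph = .wr a)
    (y : Cn c) (hy : hit c a y = true) :
    (stepY c u κ p y).mem =
      Function.update κ.mem (.F (κ.loc p).e (pos c y)) (cont (u p) (κ.loc p).x) := by
  unfold stepY act memOf
  simp only [h, hy]
  rfl

theorem PotC_loc (u : Fin n → ℕ) (κ : CF n) (p : Fin n) (a : ℕ) (h : (κ.loc p).ph = .wr a)
    (y : Cn c) : (stepY c u κ p y).loc =
      Function.update κ.loc p (cap c (κ.loc p) (κ.loc p).q (.rd (a + 1) (hit c a y))) := by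
  unfold stepY nxt
  simp only [h]

theorem PotC_miss_gh (u : Fin n → ℕ) (κ : CF n) (p : Fin n) (a : ℕ) (h : (κ.loc p).ph = .wr a)
    (y : Cn c) (hy : hit c a y = false) : (stepY c u κ p y).gh = κ.gh := by
  unfold stepY ghOf
  simp only [h, hy]
  rfl

theorem PotC_hit_b1 (u : Fin n → ℕ) (κ : CF n) (p : Fin n) (a : ℕ) (h : (κ.loc p).ph = .wr a)
    (y : Cn c) (hy : hit c a y = true) : (stepY c u κ p y).gh.b1 =
      if emptyF c κ.mem (κ.loc p).e ∧ pos c y ≠ 0 then
        Function.update κ.gh.b1 (κ.loc p).e true else κ.gh.b1 := by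
  unfold stepY ghOf
  simp only [h, hy]
  rfl

theorem PotC_hit_N (u : Fin n → ℕ) (κ : CF n) (p : Fin n) (a : ℕ) (h : (κ.loc p).ph = .wr a)
    (y : Cn c) (hy : hit c a y = true) : (stepY c u κ p y).gh.N =
      if pos c y < c + 3 ∧ κ.mem (.F (κ.loc p).e (pos c y + 1)) = 0 then
        Function.update κ.gh.N (κ.loc p).e (κ.gh.N (κ.loc p).e + 1) else κ.gh.N := by
  unfold stepY ghOf
  simp only [h, hy]
  rfl

theorem PotC_hit_BG (u : Fin n → ℕ) (κ : CF n) (p : Fin n) (a : ℕ) (h : (κ.loc p).ph = .wr a)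
    (y : Cn c) (hy : hit c a y = true) : (stepY c u κ p y).gh.B = κ.gh.B ∧
      (stepY c u κ p y).gh.G = κ.gh.G := by
  unfold stepY ghOf
  simp only [h, hy]
  exact ⟨rfl, rfl⟩

/-- Equal masses, registers and counters give equal potentials. -/
theorem PotC_phi_congr {κ κ' : CF n} {e : ℕ} (hF : ∀ i, κ'.mem (.F e i) = κ.mem (.F e i))
    (hb : κ'.gh.b1 e = κ.gh.b1 e) (hN : κ'.gh.N e = κ.gh.N e) (hB : κ'.gh.B e = κ.gh.B e)
    (hG : κ'.gh.G e = κ.gh.G e) (hm : ∀ q, mass c κ' e q = mass c κ e q) :
    phi c κ' e = phi c κ e := by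
  have h1 : BadE c κ' e ↔ BadE c κ e := by
    unfold BadE
    rw [hb, hF, hN, hB]
  have h2 : emptyF c κ'.mem e ↔ emptyF c κ.mem e := by
    unfold emptyF
    simp only [hF]
  have h3 : phi1 c κ' e = phi1 c κ e := by
    unfold phi1
    simp only [h2]
  have h4 : phi2 c κ' e = phi2 c κ e := by
    unfold phi2 Phi
    simp only [hF, hm]
  have h5 : phi3 c κ' e = phi3 c κ e := by
    unfold phi3 psi
    simp only [hF, hN]
  have h6 : phi4 c κ' e = phi4 c κ e := by
    unfold phi4
    rw [hB, hG]
  unfold phi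
  by_cases h7 : BadE c κ e
  · rw [if_pos (h1.2 h7), if_pos h7]
  · rw [if_neg (fun h8 => h7 (h1.1 h8)), if_neg h7, h3, h4, h5, h6]

theorem PotC_ep_wr (u : Fin n → ℕ) (κ : CF n) (p : Fin n) (a : ℕ) (h : (κ.loc p).ph = .wr a)
    (y : Cn c) : ep (stepY c u κ p y) = ep κ := by
  unfold ep
  rw [PotC_loc u κ p a h y]
  congr 1
  funext q
  by_cases hq : q = p
  · subst hq
    rw [Function.update_self, PotC_cap_e]
  · rw [Function.update_of_ne hq]

/-- The masses of the other processors, if the register `F e 0` has the same content. -/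
theorem PotC_mass_congr {κ κ' : CF n} {e : ℕ} {q : Fin n} (hl : κ'.loc q = κ.loc q)
    (hm : κ'.mem (.F e 0) = κ.mem (.F e 0)) : mass c κ' e q = mass c κ e q := by
  unfold mass
  rw [hl, hm]

theorem PotC_phi_other (u : Fin n → ℕ) (κ : CF n) (p : Fin n) (a : ℕ) (h : (κ.loc p).ph = .wr a)
    (y : Cn c) {e : ℕ} (he : (κ.loc p).e < e) : phi c (stepY c u κ p y) e = phi c κ e := by
  have hl := PotC_loc u κ p a h y
  have hmass : (stepY c u κ p y).mem (.F e 0) = κ.mem (.F e 0) →
      ∀ q, mass c (stepY c u κ p y) e q = mass c κ e q := by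
    intro hm q
    by_cases hq : q = p
    · subst hq
      have h1 : ((stepY c u κ q y).loc q).e = (κ.loc q).e := by
        rw [hl, Function.update_self, PotC_cap_e]
      unfold mass
      rw [if_pos (by rw [h1]; exact he), if_pos he, hm]
    · refine PotC_mass_congr ?_ hm
      rw [hl, Function.update_of_ne hq]
  by_cases hy : hit c a y = true
  · have hm := PotC_hit_mem u κ p a h y hy
    have hF : ∀ i, (stepY c u κ p y).mem (.F e i) = κ.mem (.F e i) := by
      intro i
      rw [hm, Function.update_of_ne]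
      intro h1
      injection h1 with h2
      omega
    refine PotC_phi_congr hF ?_ ?_ ?_ ?_ (hmass (hF 0))
    · rw [PotC_hit_b1 u κ p a h y hy]
      split_ifs
      · rw [Function.update_of_ne (by omega)]
      · rfl
    · rw [PotC_hit_N u κ p a h y hy]
      split_ifs
      · rw [Function.update_of_ne (by omega)]
      · rfl
    · rw [(PotC_hit_BG u κ p a h y hy).1]
    · rw [(PotC_hit_BG u κ p a h y hy).2]
  · rw [Bool.not_eq_true] at hy
    have hm := PotC_miss_mem u κ p a h y hy
    have hF : ∀ i, (stepY c u κ p y).mem (.F e i) = κ.mem (.F e i) := by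
      intro i
      rw [hm, Function.update_of_ne]
      intro h1
      injection h1
    have hg := PotC_miss_gh u κ p a h y hy
    exact PotC_phi_congr hF (by rw [hg]) (by rw [hg]) (by rw [hg]) (by rw [hg]) (hmass (hF 0))

/-- A step in an epoch before the last one does not change the potential (the last epoch stays the
same: a processor in the phase `wr` stays in its epoch). -/
theorem Vp_wr_old (u : Fin n → ℕ) (κ : CF n) (p : Fin n) (a : ℕ) (h : (κ.loc p).ph = .wr a)
    (he : (κ.loc p).e < ep κ) (y : Cn c) : Vp c (stepY c u κ p y) = Vp c κ := by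
  unfold Vp
  rw [PotC_ep_wr u κ p a h y, PotC_phi_other u κ p a h y he]

theorem ep_wr (u : Fin n → ℕ) (κ : CF n) (p : Fin n) (a : ℕ) (h : (κ.loc p).ph = .wr a)
    (y : Cn c) : ep (stepY c u κ p y) = ep κ := PotC_ep_wr u κ p a h y

/-- After a bad event the epoch stays bad. -/
theorem BadE_wr (u : Fin n → ℕ) (κ : CF n) (p : Fin n) (a : ℕ) (h : (κ.loc p).ph = .wr a)
    (e : ℕ) (y : Cn c) (hb : BadE c κ e) : BadE c (stepY c u κ p y) e := by
  by_cases hy : hit c a y = true
  · rcases hb with hb | hb | hb | hb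
    · left
      rw [PotC_hit_b1 u κ p a h y hy]
      split_ifs
      · by_cases he : e = (κ.loc p).e
        · rw [he, Function.update_self]
        · rw [Function.update_of_ne he, hb]
      · exact hb
    · right; left
      rw [PotC_hit_mem u κ p a h y hy]
      by_cases he : Reg.F e (c + 3) = .F (κ.loc p).e (pos c y)
      · rw [he, Function.update_self]
        unfold cont
        omega
      · rw [Function.update_of_ne he]
        exact hb
    · right; right; left
      rw [PotC_hit_N u κ p a h y hy]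
      split_ifs
      · by_cases he : e = (κ.loc p).e
        · rw [he, Function.update_self]
          rw [he] at hb
          omega
        · rw [Function.update_of_ne he]
          exact hb
      · exact hb
    · right; right; right
      rw [(PotC_hit_BG u κ p a h y hy).1]
      exact hb
  · rw [Bool.not_eq_true] at hy
    unfold BadE
    rw [PotC_miss_gh u κ p a h y hy, PotC_miss_mem u κ p a h y hy, Function.update_of_ne]
    · exact hb
    · intro h1
      injection h1

theorem PotC_phi_neg {κ : CF n} {e : ℕ} (hb : ¬ BadE c κ e) :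
    phi c κ e = phi1 c κ e + phi2 c κ e + phi3 c κ e + phi4 c κ e := by
  unfold phi
  rw [if_neg hb]

theorem PotC_mass_wr (κ : CF n) (p : Fin n) (a : ℕ) (h : (κ.loc p).ph = .wr a) :
    mass c κ (κ.loc p).e p = qr c a := by
  unfold mass
  rw [if_neg (lt_irrefl _), if_pos rfl, h]

theorem PotC_mass_nonneg (κ : CF n) (e : ℕ) (p : Fin n) : 0 ≤ mass c κ e p := by
  unfold mass
  by_cases h1 : (κ.loc p).e < e
  · rw [if_pos h1]
    split_ifs
    · exact PotC_qr_nonneg _
    · exact le_refl _
  · rw [if_neg h1]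
    by_cases h2 : (κ.loc p).e = e
    · rw [if_pos h2]
      cases (κ.loc p).ph <;> dsimp only <;> (try split_ifs) <;> first
        | exact PotC_qr_nonneg _
        | exact le_refl (0 : ℝ)
    · rw [if_neg h2]

theorem PotC_mass_le {κ κ' : CF n} {e : ℕ} {q : Fin n} (hl : κ'.loc q = κ.loc q)
    (hm : κ'.mem (.F e 0) = 0 → κ.mem (.F e 0) = 0) : mass c κ' e q ≤ mass c κ e q := by
  by_cases h1 : κ'.mem (.F e 0) = 0
  · refine le_of_eq (PotC_mass_congr hl ?_)
    rw [h1, hm h1]
  · have h0 := PotC_mass_nonneg (c := c) κ e q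
    unfold mass at h0 ⊢
    rw [hl]
    simp only [h1, if_false, and_false]
    split_ifs at h0 ⊢
    · exact h0
    · exact le_refl _
    · revert h0
      cases (κ.loc q).ph <;> simp only <;> intro h0 <;> first
        | exact h0
        | exact le_refl _
    · revert h0
      cases (κ.loc q).ph <;> simp only <;> intro h0 <;> first
        | exact h0
        | exact le_refl _
    · exact le_refl _

theorem PotC_mass_new (u : Fin n → ℕ) (κ : CF n) (p : Fin n) (a : ℕ) (h : (κ.loc p).ph = .wr a)
    (y : Cn c) : mass c (stepY c u κ p y) (κ.loc p).e p ≤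
      if hit c a y = false ∧ (stepY c u κ p y).mem (.F (κ.loc p).e 0) = 0 then qr c (a + 1)
      else 0 := by
  have hl := PotC_loc u κ p a h y
  have h1 : (stepY c u κ p y).loc p =
      cap c (κ.loc p) (κ.loc p).q (.rd (a + 1) (hit c a y)) := by
    rw [hl, Function.update_self]
  unfold mass
  rw [h1, PotC_cap_e, if_neg (lt_irrefl _), if_pos rfl]
  rcases PotC_cap_ph (c := c) (κ.loc p) (κ.loc p).q (.rd (a + 1) (hit c a y)) with h2 | h2
  · rw [h2]
    simp only
    split_ifs
    · exact PotC_qr_nonneg _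
    · exact le_refl _
  · rw [h2]

theorem PotC_other (u : Fin n → ℕ) (κ : CF n) (p : Fin n) (a : ℕ) (h : (κ.loc p).ph = .wr a)
    (y : Cn c) {q : Fin n} (hq : q ≠ p) : (stepY c u κ p y).loc q = κ.loc q := by
  rw [PotC_loc u κ p a h y, Function.update_of_ne hq]

/-- The sum of the masses after the step. -/
theorem PotC_sum_mass (u : Fin n → ℕ) (κ : CF n) (p : Fin n) (a : ℕ) (h : (κ.loc p).ph = .wr a)
    (y : Cn c) (hm : (stepY c u κ p y).mem (.F (κ.loc p).e 0) = 0 →
      κ.mem (.F (κ.loc p).e 0) = 0) :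
    ∑ q, mass c (stepY c u κ p y) (κ.loc p).e q ≤ ∑ q, mass c κ (κ.loc p).e q +
      ((if hit c a y = false ∧ (stepY c u κ p y).mem (.F (κ.loc p).e 0) = 0 then qr c (a + 1)
      else 0) - qr c a) := by
  classical
  rw [← Finset.add_sum_erase Finset.univ _ (Finset.mem_univ p),
    ← Finset.add_sum_erase Finset.univ (fun q => mass c κ (κ.loc p).e q) (Finset.mem_univ p),
    PotC_mass_wr κ p a h]
  have h1 := PotC_mass_new u κ p a h y
  have h2 : ∑ q ∈ Finset.univ.erase p, mass c (stepY c u κ p y) (κ.loc p).e q ≤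
      ∑ q ∈ Finset.univ.erase p, mass c κ (κ.loc p).e q := by
    refine Finset.sum_le_sum fun q hq => PotC_mass_le (PotC_other u κ p a h y ?_) hm
    exact Finset.ne_of_mem_erase hq
  linarith

/-- A miss: the memory changes only at `T`, the ghost not at all; the processor goes to
`rd (a + 1) false` or `ow`. -/
theorem phi_miss (u : Fin n → ℕ) (κ : CF n) (hG : GOK c κ) (p : Fin n) (a : ℕ)
    (h : (κ.loc p).ph = .wr a) (y : Cn c) (hy : hit c a y = false)
    (hb : ¬ BadE c κ (κ.loc p).e) :
    phi c (stepY c u κ p y) (κ.loc p).e ≤ phi c κ (κ.loc p).e +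
      ((if κ.mem (.F (κ.loc p).e 0) = 0 then qr c (a + 1) else 0) - qr c a) / 2 ^ (c + 6) := by
  have hgh := PotC_miss_gh u κ p a h y hy
  have hF : ∀ e i, (stepY c u κ p y).mem (.F e i) = κ.mem (.F e i) := by
    intro e i
    rw [PotC_miss_mem u κ p a h y hy, Function.update_of_ne]
    intro h1
    injection h1
  have hb' : ¬ BadE c (stepY c u κ p y) (κ.loc p).e := by
    unfold BadE
    rw [hgh, hF]
    exact hb
  rw [PotC_phi_neg hb', PotC_phi_neg hb]
  have h1 : phi1 c (stepY c u κ p y) (κ.loc p).e = phi1 c κ (κ.loc p).e := by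
    unfold phi1 emptyF
    simp only [hF]
  have h3 : phi3 c (stepY c u κ p y) (κ.loc p).e = phi3 c κ (κ.loc p).e := by
    unfold phi3 psi
    simp only [hF, hgh]
  have h4 : phi4 c (stepY c u κ p y) (κ.loc p).e = phi4 c κ (κ.loc p).e := by
    unfold phi4
    rw [hgh]
  have h2 := PotC_sum_mass u κ p a h y (fun h0 => by rwa [hF] at h0)
  simp only [hy, hF, true_and] at h2
  have h5 : phi2 c (stepY c u κ p y) (κ.loc p).e ≤ phi2 c κ (κ.loc p).e +
      ((if κ.mem (.F (κ.loc p).e 0) = 0 then qr c (a + 1) else 0) - qr c a) / 2 ^ (c + 6) := by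
    unfold phi2 Phi
    rw [← add_div]
    refine div_le_div_of_nonneg_right ?_ (by positivity)
    rw [hF]
    linarith
  rw [h1, h3, h4]
  linarith

theorem PotC_psi_nonneg (κ : CF n) (e : ℕ) : 0 ≤ psi c κ e := by
  unfold psi
  have h1 : (0 : ℝ) ≤ ∑ i ∈ Finset.Icc 2 (c + 3), (if κ.mem (.F e i) = 0 then (1 : ℝ) else 0) :=
    Finset.sum_nonneg fun i _ => by split_ifs <;> norm_num
  have h2 : (0 : ℝ) ≤ (if κ.mem (.F e 1) = 0 then (30 : ℝ) else 0) := by split_ifs <;> norm_num
  have h3 : (0 : ℝ) ≤ (κ.gh.N e : ℝ) := Nat.cast_nonneg _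
  linarith

theorem PotC_hit_F (u : Fin n → ℕ) (κ : CF n) (p : Fin n) (a : ℕ) (h : (κ.loc p).ph = .wr a)
    (y : Cn c) (hy : hit c a y = true) (i : ℕ) :
    ((stepY c u κ p y).mem (.F (κ.loc p).e i) = 0) ↔
      (i ≠ pos c y ∧ κ.mem (.F (κ.loc p).e i) = 0) := by
  rw [PotC_hit_mem u κ p a h y hy]
  by_cases hi : i = pos c y
  · rw [hi, Function.update_self]
    unfold cont
    constructor
    · intro h1
      omega
    · intro h1
      exact absurd rfl h1.1
  · rw [Function.update_of_ne (by
      intro h1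
      injection h1 with h2 h3
      exact hi h3)]
    exact ⟨fun h1 => ⟨hi, h1⟩, fun h1 => h1.2⟩

theorem PotC_hit_psi (u : Fin n → ℕ) (κ : CF n) (p : Fin n) (a : ℕ) (h : (κ.loc p).ph = .wr a)
    (y : Cn c) (hy : hit c a y = true) :
    psi c (stepY c u κ p y) (κ.loc p).e = psi c κ (κ.loc p).e +
      ((if pos c y < c + 3 ∧ κ.mem (.F (κ.loc p).e (pos c y + 1)) = 0 then 1 else 0) -
        (if pos c y = 1 ∧ κ.mem (.F (κ.loc p).e 1) = 0 then 30 else 0) -
        (if 2 ≤ pos c y ∧ κ.mem (.F (κ.loc p).e (pos c y)) = 0 then 2 else 0)) := by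
  have hle := PotC_pos_le (c := c) y
  have hF := PotC_hit_F u κ p a h y hy
  have hN : ((stepY c u κ p y).gh.N (κ.loc p).e : ℝ) = κ.gh.N (κ.loc p).e +
      (if pos c y < c + 3 ∧ κ.mem (.F (κ.loc p).e (pos c y + 1)) = 0 then 1 else 0) := by
    rw [PotC_hit_N u κ p a h y hy]
    split_ifs
    · rw [Function.update_self]
      push_cast
      rfl
    · rw [add_zero]
  have h1 : (if (stepY c u κ p y).mem (.F (κ.loc p).e 1) = 0 then (30 : ℝ) else 0) =
      (if κ.mem (.F (κ.loc p).e 1) = 0 then 30 else 0) -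
        (if pos c y = 1 ∧ κ.mem (.F (κ.loc p).e 1) = 0 then 30 else 0) := by
    by_cases h2 : pos c y = 1 <;> by_cases h3 : κ.mem (.F (κ.loc p).e 1) = 0
    · rw [if_neg (fun h4 => ((hF 1).1 h4).1 h2.symm), if_pos h3, if_pos ⟨h2, h3⟩, sub_self]
    · rw [if_neg (fun h4 => h3 ((hF 1).1 h4).2), if_neg h3, if_neg (fun h4 => h3 h4.2), sub_zero]
    · rw [if_pos ((hF 1).2 ⟨Ne.symm h2, h3⟩), if_pos h3, if_neg (fun h4 => h2 h4.1), sub_zero]
    · rw [if_neg (fun h4 => h3 ((hF 1).1 h4).2), if_neg h3, if_neg (fun h4 => h3 h4.2), sub_zero]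
  have h2 : ∑ i ∈ Finset.Icc 2 (c + 3),
      (if (stepY c u κ p y).mem (.F (κ.loc p).e i) = 0 then (1 : ℝ) else 0) =
      ∑ i ∈ Finset.Icc 2 (c + 3), (if κ.mem (.F (κ.loc p).e i) = 0 then (1 : ℝ) else 0) -
        (if 2 ≤ pos c y ∧ κ.mem (.F (κ.loc p).e (pos c y)) = 0 then 1 else 0) := by
    have h3 : ∀ i ∈ Finset.Icc 2 (c + 3),
        (if (stepY c u κ p y).mem (.F (κ.loc p).e i) = 0 then (1 : ℝ) else 0) =
        (if κ.mem (.F (κ.loc p).e i) = 0 then (1 : ℝ) else 0) -
        (if i = pos c y then (if κ.mem (.F (κ.loc p).e (pos c y)) = 0 then 1 else 0) else 0) := by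
      intro i _
      by_cases hi : i = pos c y
      · rw [if_neg (fun h4 => ((hF i).1 h4).1 hi), if_pos hi, hi, sub_self]
      · rw [if_neg hi, sub_zero]
        by_cases h4 : κ.mem (.F (κ.loc p).e i) = 0
        · rw [if_pos ((hF i).2 ⟨hi, h4⟩), if_pos h4]
        · rw [if_neg (fun h5 => h4 ((hF i).1 h5).2), if_neg h4]
    rw [Finset.sum_congr rfl h3, Finset.sum_sub_distrib, Finset.sum_ite_eq']
    congr 1
    by_cases h4 : 2 ≤ pos c y
    · rw [if_pos (Finset.mem_Icc.2 ⟨h4, hle⟩)]
      simp only [h4, true_and]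
    · rw [if_neg (fun h5 => h4 (Finset.mem_Icc.1 h5).1), if_neg (fun h5 => h4 h5.1)]
  unfold psi
  rw [hN, h1, h2]
  have h3 : (if 2 ≤ pos c y ∧ κ.mem (.F (κ.loc p).e (pos c y)) = 0 then (2 : ℝ) else 0) =
      2 * (if 2 ≤ pos c y ∧ κ.mem (.F (κ.loc p).e (pos c y)) = 0 then 1 else 0) := by
    split_ifs <;> norm_num
  rw [h3]
  ring

theorem PotC_hit_Phi (u : Fin n → ℕ) (κ : CF n) (p : Fin n) (a : ℕ) (h : (κ.loc p).ph = .wr a)
    (y : Cn c) (hy : hit c a y = true) :
    0 ≤ Phi c (stepY c u κ p y) (κ.loc p).e ∧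
    Phi c (stepY c u κ p y) (κ.loc p).e ≤ Phi c κ (κ.loc p).e - (qr c a +
      (if κ.mem (.F (κ.loc p).e 0) = 0 ∧ pos c y = 0 then 2 * (2 : ℝ) ^ c else 0)) := by
  have hF := PotC_hit_F u κ p a h y hy
  have h1 := PotC_sum_mass u κ p a h y (fun h0 => ((hF 0).1 h0).2)
  rw [if_neg (fun h2 => by rw [hy] at h2; exact Bool.noConfusion h2.1)] at h1
  have h2 : 0 ≤ ∑ q, mass c (stepY c u κ p y) (κ.loc p).e q :=
    Finset.sum_nonneg fun q _ => PotC_mass_nonneg _ _ _
  have hD : (0 : ℝ) < 2 * 2 ^ c := by positivity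
  unfold Phi
  constructor
  · split_ifs <;> linarith
  · by_cases h3 : pos c y = 0 <;> by_cases h4 : κ.mem (.F (κ.loc p).e 0) = 0
    · rw [if_neg (fun h5 => ((hF 0).1 h5).1 h3.symm), if_pos h4, if_pos ⟨h4, h3⟩]
      linarith
    · rw [if_neg (fun h5 => h4 ((hF 0).1 h5).2), if_neg h4, if_neg (fun h5 => h4 h5.1)]
      linarith
    · rw [if_pos ((hF 0).2 ⟨Ne.symm h3, h4⟩), if_pos h4, if_neg (fun h5 => h3 h5.2)]
      linarith
    · rw [if_neg (fun h5 => h4 ((hF 0).1 h5).2), if_neg h4, if_neg (fun h5 => h4 h5.1)]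
      linarith

/-- A hit at position `g = pos c y`: the new content is in `F e g`; the processor goes to
`rd (a + 1) true` or `ow` (mass `0`); the other masses do not grow; `phi1` becomes `0`. If the new
configuration is bad then one of: `F e` was empty and `g ≠ 0`; `g = c + 3`; the new `N e ≥ X3 c`, so
that the new `phi3 ≥ 1` (the other terms are not negative, `hG`). -/
theorem phi_hit (u : Fin n → ℕ) (κ : CF n) (hG : GOK c κ) (p : Fin n) (a : ℕ)
    (h : (κ.loc p).ph = .wr a) (y : Cn c) (hy : hit c a y = true)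
    (hb : ¬ BadE c κ (κ.loc p).e) :
    phi c (stepY c u κ p y) (κ.loc p).e ≤ phi c κ (κ.loc p).e - phi1 c κ (κ.loc p).e +
      (if emptyF c κ.mem (κ.loc p).e ∧ pos c y ≠ 0 then 1 else 0) +
      (if pos c y = c + 3 then 1 else 0) -
      (qr c a + (if κ.mem (.F (κ.loc p).e 0) = 0 ∧ pos c y = 0 then 2 * (2 : ℝ) ^ c else 0)) /
        2 ^ (c + 6) +
      ((if pos c y < c + 3 ∧ κ.mem (.F (κ.loc p).e (pos c y + 1)) = 0 then 1 else 0) -
        (if pos c y = 1 ∧ κ.mem (.F (κ.loc p).e 1) = 0 then 30 else 0) -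
        (if 2 ≤ pos c y ∧ κ.mem (.F (κ.loc p).e (pos c y)) = 0 then 2 else 0)) / X3 c := by
  have hle := PotC_pos_le (c := c) y
  have hF := PotC_hit_F u κ p a h y hy
  have hpsi := PotC_hit_psi u κ p a h y hy
  obtain ⟨hP0, hP⟩ := PotC_hit_Phi u κ p a h y hy
  obtain ⟨hB, hG'⟩ := PotC_hit_BG u κ p a h y hy
  have hpsi0 := PotC_psi_nonneg (c := c) (stepY c u κ p y) (κ.loc p).e
  have hD : (0 : ℝ) < 2 ^ (c + 6) := by positivity
  have hX3 : (0 : ℝ) < X3 c := by
    have : 0 < X3 c := by unfold X3; omega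
    exact_mod_cast this
  have hX4 : (0 : ℝ) < X4 c := by
    have : 0 < X4 c := by unfold X4 JJ; omega
    exact_mod_cast this
  have hphi4 : 0 ≤ phi4 c κ (κ.loc p).e := by
    unfold phi4
    refine div_nonneg ?_ hX4.le
    have h1 : ((κ.gh.G (κ.loc p).e : ℕ) : ℝ) ≤ JJ c := by exact_mod_cast hG _ hb
    have h2 : (0 : ℝ) ≤ (κ.gh.B (κ.loc p).e : ℝ) := Nat.cast_nonneg _
    linarith
  -- the bound from below of the right hand side
  have key : Phi c (stepY c u κ p y) (κ.loc p).e / 2 ^ (c + 6) +
      psi c (stepY c u κ p y) (κ.loc p).e / X3 c + phi4 c κ (κ.loc p).e +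
      (if emptyF c κ.mem (κ.loc p).e ∧ pos c y ≠ 0 then 1 else 0) +
      (if pos c y = c + 3 then 1 else 0) ≤
      phi c κ (κ.loc p).e - phi1 c κ (κ.loc p).e +
      (if emptyF c κ.mem (κ.loc p).e ∧ pos c y ≠ 0 then 1 else 0) +
      (if pos c y = c + 3 then 1 else 0) -
      (qr c a + (if κ.mem (.F (κ.loc p).e 0) = 0 ∧ pos c y = 0 then 2 * (2 : ℝ) ^ c else 0)) /
        2 ^ (c + 6) +
      ((if pos c y < c + 3 ∧ κ.mem (.F (κ.loc p).e (pos c y + 1)) = 0 then 1 else 0) -
        (if pos c y = 1 ∧ κ.mem (.F (κ.loc p).e 1) = 0 then 30 else 0) -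
        (if 2 ≤ pos c y ∧ κ.mem (.F (κ.loc p).e (pos c y)) = 0 then 2 else 0)) / X3 c := by
    have h1 := div_le_div_of_nonneg_right hP hD.le
    rw [sub_div] at h1
    rw [hpsi, add_div, PotC_phi_neg hb]
    unfold phi2 phi3
    linarith
  refine le_trans ?_ key
  have h1 : 0 ≤ Phi c (stepY c u κ p y) (κ.loc p).e / 2 ^ (c + 6) := div_nonneg hP0 hD.le
  have h2 : 0 ≤ psi c (stepY c u κ p y) (κ.loc p).e / X3 c := div_nonneg hpsi0 hX3.le
  have h3 : (0 : ℝ) ≤ (if emptyF c κ.mem (κ.loc p).e ∧ pos c y ≠ 0 then 1 else 0) := by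
    split_ifs <;> norm_num
  have h4 : (0 : ℝ) ≤ (if pos c y = c + 3 then 1 else 0) := by
    split_ifs <;> norm_num
  by_cases hb' : BadE c (stepY c u κ p y) (κ.loc p).e
  · have h5 : phi c (stepY c u κ p y) (κ.loc p).e = 1 := by
      unfold phi
      rw [if_pos hb']
    rw [h5]
    unfold BadE at hb
    push Not at hb
    obtain ⟨b1, b2, b3, b4⟩ := hb
    rcases hb' with hb' | hb' | hb' | hb'
    · have h6 : emptyF c κ.mem (κ.loc p).e ∧ pos c y ≠ 0 := by
        rw [PotC_hit_b1 u κ p a h y hy] at hb'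
        by_contra h7
        rw [if_neg h7] at hb'
        exact b1 hb'
      rw [if_pos h6]
      linarith
    · have h6 : pos c y = c + 3 := by
        by_contra h7
        exact hb' ((hF _).2 ⟨fun h8 => h7 h8.symm, b2⟩)
      rw [if_pos h6]
      rw [if_pos h6] at h4
      linarith
    · have h6 : (1 : ℝ) ≤ psi c (stepY c u κ p y) (κ.loc p).e / X3 c := by
        rw [le_div_iff₀ hX3, one_mul]
        have h7 : (X3 c : ℝ) ≤ ((stepY c u κ p y).gh.N (κ.loc p).e : ℝ) := by exact_mod_cast hb'
        refine le_trans h7 ?_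
        unfold psi
        have h8 : (0 : ℝ) ≤ ∑ i ∈ Finset.Icc 2 (c + 3),
            (if (stepY c u κ p y).mem (.F (κ.loc p).e i) = 0 then (1 : ℝ) else 0) :=
          Finset.sum_nonneg fun i _ => by split_ifs <;> norm_num
        have h9 : (0 : ℝ) ≤ (if (stepY c u κ p y).mem (.F (κ.loc p).e 1) = 0 then (30 : ℝ)
            else 0) := by split_ifs <;> norm_num
        linarith
      linarith
    · exfalso
      rw [hB] at hb'
      omega
  · rw [PotC_phi_neg hb']
    have h5 : phi1 c (stepY c u κ p y) (κ.loc p).e = 0 := by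
      unfold phi1
      rw [if_neg]
      intro h6
      exact ((hF _).1 (h6 (pos c y) hle)).1 rfl
    have h6 : phi4 c (stepY c u κ p y) (κ.loc p).e = phi4 c κ (κ.loc p).e := by
      unfold phi4
      rw [hB, hG']
    rw [h5, h6]
    unfold phi2 phi3
    linarith

/-- The expectation of the last line of `phi_hit` is not positive (`z i = 1` if position `i` is
empty, else `0`): the coefficient of `z 1` is `15 * 2 ^ (c + 2) - 30 * 2 ^ (c + 1) = 0`, the one of
`z i`, `2 ≤ i ≤ c + 2`, is `2 ^ (c + 3 - i) - 2 * 2 ^ (c + 2 - i) = 0`, the one of `z (c + 3)` is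
`1 - 2`. -/
theorem sum_psi (z : ℕ → ℝ) (hz : ∀ i, 0 ≤ z i) :
    15 * (2 : ℝ) ^ (c + 2) * z 1 +
      ∑ g ∈ Finset.Icc 1 (c + 2), (2 : ℝ) ^ (c + 2 - g) * (z (g + 1) -
        (if g = 1 then 30 * z 1 else 0) - (if 2 ≤ g then 2 * z g else 0)) - 2 * z (c + 3) ≤ 0 := by
  have key : ∀ m, 1 ≤ m → m ≤ c + 2 →
      ∑ g ∈ Finset.Icc 1 m, (2 : ℝ) ^ (c + 2 - g) * (z (g + 1) -
        (if g = 1 then 30 * z 1 else 0) - (if 2 ≤ g then 2 * z g else 0)) =
      (2 : ℝ) ^ (c + 2 - m) * z (m + 1) - 30 * 2 ^ (c + 1) * z 1 := by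
    intro m hm
    induction m, hm using Nat.le_induction with
    | base =>
      intro _
      rw [Finset.Icc_self, Finset.sum_singleton, if_pos rfl, if_neg (by norm_num),
        show c + 2 - 1 = c + 1 by omega]
      ring
    | succ m hm ih =>
      intro hm2
      rw [Finset.sum_Icc_succ_top (by omega), ih (by omega), if_neg (by omega),
        if_pos (by omega)]
      obtain ⟨k, hk⟩ : ∃ k, c + 2 = m + 1 + k := ⟨c + 2 - (m + 1), by omega⟩
      rw [show c + 2 - m = k + 1 by omega, show c + 2 - (m + 1) = k by omega, pow_succ]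
      ring
  rw [key (c + 2) (by omega) (le_refl _), Nat.sub_self, pow_zero]
  have h := hz (c + 3)
  have e1 : (15 : ℝ) * 2 ^ (c + 2) = 30 * 2 ^ (c + 1) := by
    rw [pow_succ (2 : ℝ) (c + 1)]
    ring
  rw [e1]
  have e2 : z (c + 2 + 1) = z (c + 3) := rfl
  rw [e2]
  linarith

/-- Average over the coin of a write attempt. If `(κ.loc p).e < ep κ`: `Vp_wr_old`. If the last epoch
is bad: `BadE_wr`, both sides are equal. Otherwise by `phi_miss`, `phi_hit`, `sum_coin` the average of
`phi` is at most (`q = qr c a`, `D = 2 ^ (c + 6)`, `f = 1` if `F e 0` is empty, else `0`, `E = 1` if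
`F e` is empty)
`phi + (1 - q) * (f * qr c (a+1) - q) / D + q * (- phi1 + E / 16 + 1 / D - (q + f * (15/16) * 2 * 2 ^ c) / D) + 0`
`<= phi + f * ((1 - q) * q * 2 ^ c - q * (15/8) * 2 ^ c) / D <= phi`
(for `a = c` there is no miss, `1 - q = 0`; for `a < c`: `qr c (a + 1) = 2 ^ c * qr c a`;
`phi1 = E / 16`). -/
theorem Vp_wr (u : Fin n → ℕ) (κ : CF n) (hG : GOK c κ) (p : Fin n) (a : ℕ)
    (h : (κ.loc p).ph = .wr a) (ha : a ≤ c) :
    ∑ y : Cn c, Vp c (stepY c u κ p y) ≤ (Fintype.card (Cn c) : ℝ) * Vp c κ := by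
  rcases lt_or_eq_of_le (le_ep κ p) with he | he
  · rw [Finset.sum_congr rfl (fun y _ => Vp_wr_old u κ p a h he y), Finset.sum_const,
      Finset.card_univ, nsmul_eq_mul]
  · have hV (y : Cn c) : Vp c (stepY c u κ p y) = (ep κ : ℝ) + 4 / 3 * phi c (stepY c u κ p y) (ep κ) := by
      unfold Vp
      rw [ep_wr u κ p a h y]
    rw [Finset.sum_congr rfl (fun y _ => hV y), Finset.sum_add_distrib, ← Finset.mul_sum,
      Finset.sum_const, Finset.card_univ, nsmul_eq_mul]
    have hmain : ∑ y : Cn c, phi c (stepY c u κ p y) (ep κ) ≤ (Fintype.card (Cn c) : ℝ) * phi c κ (ep κ) := by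
      by_cases hb : BadE c κ (ep κ)
      · have h1 (y : Cn c) : phi c (stepY c u κ p y) (ep κ) = phi c κ (ep κ) := by
          unfold phi
          rw [if_pos hb, if_pos (BadE_wr u κ p a h (ep κ) y hb)]
        rw [Finset.sum_congr rfl (fun y _ => h1 y), Finset.sum_const, Finset.card_univ, nsmul_eq_mul]
      · rw [← he] at hb ⊢
        set e := (κ.loc p).e with hedef
        set f : ℝ := if κ.mem (.F e 0) = 0 then 1 else 0 with hf
        set E : ℝ := if emptyF c κ.mem e then 1 else 0 with hE
        set z : ℕ → ℝ := fun i => if κ.mem (.F e i) = 0 then (1 : ℝ) else 0 with hz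
        set T : ℝ := (2 : ℝ) ^ c with hT
        have hT0 : 0 < T := by positivity
        set P : ℝ := (2 : ℝ) ^ (c * c) with hP
        have hP0 : 0 < P := by positivity
        set q : ℝ := qr c a with hq
        have hq0 : 0 < q := by rw [hq]; unfold qr; positivity
        have hq1 : (2 : ℝ) ^ (c * a) = q * P := by
          rw [hq, hP]
          unfold qr
          field_simp
        have hq2 : qr c (a + 1) = T * q := by
          rw [hq, hT]
          unfold qr
          rw [show c * (a + 1) = c + c * a by ring, pow_add]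
          ring
        have e2 : (2 : ℝ) ^ (c + 2) = 4 * T := by rw [pow_add]; norm_num; ring
        have e6 : (2 : ℝ) ^ (c + 6) = 64 * T := by rw [pow_add]; norm_num; ring
        have hphi1 : phi1 c κ e = E / 16 := by
          unfold phi1
          rw [hE]
          split_ifs <;> norm_num
        set w : ℕ → ℝ := fun g => z (g + 1) - (if g = 1 then 30 * z 1 else 0) -
          (if 2 ≤ g then 2 * z g else 0) with hw
        set hitf : ℕ → ℝ := fun g => - phi1 c κ e +
          (if emptyF c κ.mem e ∧ g ≠ 0 then 1 else 0) + (if g = c + 3 then 1 else 0) -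
          (q + (if κ.mem (.F e 0) = 0 ∧ g = 0 then 2 * T else 0)) / 2 ^ (c + 6) +
          ((if g < c + 3 ∧ κ.mem (.F e (g + 1)) = 0 then 1 else 0) -
            (if g = 1 ∧ κ.mem (.F e 1) = 0 then 30 else 0) -
            (if 2 ≤ g ∧ κ.mem (.F e g) = 0 then 2 else 0)) / X3 c with hhitf
        set miss : ℝ := ((if κ.mem (.F e 0) = 0 then qr c (a + 1) else 0) - q) / 2 ^ (c + 6) with hmiss
        have h1 (y : Cn c) : phi c (stepY c u κ p y) e ≤ phi c κ e +
            (if hit c a y = true then hitf (pos c y) else miss) := by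
          cases hy : hit c a y with
          | false =>
            rw [if_neg (by simp)]
            exact phi_miss u κ hG p a h y hy hb
          | true =>
            rw [if_pos rfl]
            have := phi_hit u κ hG p a h y hy hb
            rw [hhitf]
            linarith
        have h2 : ∑ y : Cn c, phi c (stepY c u κ p y) e ≤ (Fintype.card (Cn c) : ℝ) * phi c κ e +
            ∑ y : Cn c, (if hit c a y = true then hitf (pos c y) else miss) := by
          refine (Finset.sum_le_sum (fun y _ => h1 y)).trans (le_of_eq ?_)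
          rw [Finset.sum_add_distrib, Finset.sum_const, Finset.card_univ, nsmul_eq_mul]
        rw [sum_coin a ha miss hitf] at h2
        have hX : (0 : ℝ) < X3 c := by
          unfold X3
          positivity
        have g0 : hitf 0 = - (E / 16) - (q + f * (2 * T)) / (64 * T) + z 1 / X3 c := by
          rw [hhitf]
          simp only
          rw [hphi1, e6, hz, hf]
          simp only [ne_eq, not_true_eq_false, and_false, if_false, and_true, zero_add, ite_mul, one_mul, zero_mul,
            show ¬ (0 = c + 3) by omega, show ¬ ((0 : ℕ) = 1) by omega, show ¬ (2 ≤ 0) by omega, false_and,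
            show (0 < c + 3) by omega, true_and]
          ring
        have gc : hitf (c + 3) = - (E / 16) + E + 1 - q / (64 * T) - 2 * z (c + 3) / X3 c := by
          rw [hhitf]
          simp only
          rw [hphi1, e6, hz, hE]
          simp only [ne_eq, show ¬ (c + 3 = 0) by omega, not_false_eq_true, and_true, and_false, if_false, if_true, true_and,
            false_and, show ¬ (c + 3 = 1) by omega, show (2 ≤ c + 3) by omega, lt_irrefl]
          split_ifs <;> ring
        have gg (g : ℕ) (hg : g ∈ Finset.Icc 1 (c + 2)) : (2 : ℝ) ^ (c + 2 - g) * hitf g =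
            (2 : ℝ) ^ (c + 2 - g) * (- (E / 16) + E - q / (64 * T)) + (2 : ℝ) ^ (c + 2 - g) * w g / X3 c := by
          rw [Finset.mem_Icc] at hg
          rw [hhitf, hw]
          simp only
          rw [hphi1, e6, hz, hE]
          simp only [ne_eq, show ¬ (g = 0) by omega, not_false_eq_true, and_true, and_false, if_false,
            show ¬ (g = c + 3) by omega, show (g < c + 3) by omega, true_and]
          have h30 : (if g = 1 ∧ κ.mem (.F e 1) = 0 then (30 : ℝ) else 0) =
              if g = 1 then 30 * (if κ.mem (.F e 1) = 0 then (1 : ℝ) else 0) else 0 := by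
            by_cases h1 : g = 1 <;> by_cases h2 : κ.mem (.F e 1) = 0 <;> simp [h1, h2]
          have h22 : (if 2 ≤ g ∧ κ.mem (.F e g) = 0 then (2 : ℝ) else 0) =
              if 2 ≤ g then 2 * (if κ.mem (.F e g) = 0 then (1 : ℝ) else 0) else 0 := by
            by_cases h1 : 2 ≤ g <;> by_cases h2 : κ.mem (.F e g) = 0 <;> simp [h1, h2]
          rw [h30, h22]
          ring
        have hgeo : ∑ g ∈ Finset.Icc 1 (c + 2), (2 : ℝ) ^ (c + 2 - g) = 4 * T - 1 := by
          have : ∀ m : ℕ, ∑ g ∈ Finset.Icc 1 m, (2 : ℝ) ^ (m - g) = 2 ^ m - 1 := by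
            intro m
            induction m with
            | zero => simp
            | succ m ih =>
              rw [Finset.sum_Icc_succ_top (by omega), Nat.sub_self, pow_zero]
              have : ∑ g ∈ Finset.Icc 1 m, (2 : ℝ) ^ (m + 1 - g) = 2 * ∑ g ∈ Finset.Icc 1 m, (2 : ℝ) ^ (m - g) := by
                rw [Finset.mul_sum]
                refine Finset.sum_congr rfl fun g hg => ?_
                rw [Finset.mem_Icc] at hg
                rw [show m + 1 - g = (m - g) + 1 by omega, pow_succ]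
                ring
              rw [this, ih, pow_succ]
              ring
          rw [this, e2]
        have hsum : ∑ g ∈ Finset.Icc 1 (c + 2), (2 : ℝ) ^ (c + 2 - g) * hitf g =
            (4 * T - 1) * (- (E / 16) + E - q / (64 * T)) +
              (∑ g ∈ Finset.Icc 1 (c + 2), (2 : ℝ) ^ (c + 2 - g) * w g) / X3 c := by
          rw [Finset.sum_congr rfl gg, Finset.sum_add_distrib, ← Finset.sum_mul, hgeo, Finset.sum_div]
        have hW := sum_psi (c := c) z (fun i => by rw [hz]; simp only; split_ifs <;> norm_num)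
        rw [e2] at hW
        rw [hsum, g0, gc, e2, e6, hq1] at h2
        have hm : miss = (f * (T * q) - q) / (64 * T) := by
          rw [hmiss, hf, e6, hq2]
          simp only [ite_mul, one_mul, zero_mul]
        rw [hm] at h2
        set W : ℝ := 15 * (4 * T) * z 1 + ∑ g ∈ Finset.Icc 1 (c + 2), (2 : ℝ) ^ (c + 2 - g) * w g - 2 * z (c + 3) with hWdef
        have hW0 : W ≤ 0 := hW
        have hf0 : 0 ≤ f := by rw [hf]; split_ifs <;> norm_num
        have key : (P - q * P) * (64 * T) * ((f * (T * q) - q) / (64 * T)) +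
            q * P * (15 * (4 * T) * (-(E / 16) - (q + f * (2 * T)) / (64 * T) + z 1 / X3 c) +
              ((4 * T - 1) * (- (E / 16) + E - q / (64 * T)) +
              (∑ g ∈ Finset.Icc 1 (c + 2), (2 : ℝ) ^ (c + 2 - g) * w g) / X3 c) +
              (- (E / 16) + E + 1 - q / (64 * T) - 2 * z (c + 3) / X3 c)) =
            q * P * (f * T * (1 - q - 15 / 8)) + q * P * W / X3 c := by
          rw [hWdef]
          field_simp
          ring
        rw [key] at h2
        have hqP : 0 < q * P := by positivity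
        have k1 : q * P * (f * T * (1 - q - 15 / 8)) ≤ 0 := by
          refine mul_nonpos_of_nonneg_of_nonpos hqP.le ?_
          refine mul_nonpos_of_nonneg_of_nonpos (by positivity) ?_
          linarith
        have k2 : q * P * W / X3 c ≤ 0 :=
          div_nonpos_of_nonpos_of_nonneg (mul_nonpos_of_nonneg_of_nonpos hqP.le hW0) hX.le
        linarith
    unfold Vp
    linarith

/-! ### the fresh reading of a coin -/

/-- The configuration with the value `w` in the register `r`. -/
def setM (κ : CF n) (r : Reg) (w : ℕ) : CF n := ⟨Function.update κ.mem r w, κ.loc, κ.gh⟩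

theorem sum_mod_two (f : ℕ → ℝ) (m : ℕ) :
    ∑ z ∈ Finset.range (2 * m), f (z % 2) = m * (f 0 + f 1) := by
  induction m with
  | zero => simp
  | succ m ih =>
    rw [show 2 * (m + 1) = 2 * m + 1 + 1 by omega, Finset.sum_range_succ, Finset.sum_range_succ, ih,
      show (2 * m) % 2 = 0 by omega, show (2 * m + 1) % 2 = 1 by omega]
    push_cast
    ring

/-- Half of the values of the coin have bit `0`. -/
theorem sum_bit (f : ℕ → ℝ) :
    ∑ y : Cn c, f (bit c y) = (Fintype.card (Cn c) : ℝ) / 2 * (f 0 + f 1) := by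
  have h1 : ∑ y : Cn c, f (bit c y) =
      ∑ y1 : Fin (2 ^ (c * c)), ∑ z : Fin (2 ^ (c + 6)), f (z.val % 2) := by
    rw [Fintype.sum_prod_type]
    rfl
  have h3 : ∑ z ∈ Finset.range (2 ^ (c + 6)), f (z % 2) = ((2 ^ (c + 5) : ℕ) : ℝ) * (f 0 + f 1) := by
    rw [show 2 ^ (c + 6) = 2 * 2 ^ (c + 5) by ring, sum_mod_two]
  rw [h1, Fin.sum_univ_eq_sum_range (fun z => f (z % 2)) (2 ^ (c + 6)), h3, Finset.sum_const,
    Finset.card_univ, Fintype.card_fin, nsmul_eq_mul]
  have h2 : (Fintype.card (Cn c) : ℝ) = 2 ^ (c * c) * (2 * 2 ^ (c + 5)) := by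
    rw [Fintype.card_prod, Fintype.card_fin, Fintype.card_fin]
    push_cast
    ring
  rw [h2]
  push_cast
  ring

/-- The step of a processor in the phase `pC` with the value `w` in its coin register. -/
theorem PotE_mem (u : Fin n → ℕ) (κ : CF n) (p : Fin n) (j i r v w : ℕ) (b : Bool)
    (h : (κ.loc p).ph = .pC j i r b v) (y : Cn c) :
    (stepY c u (setM κ (.C (κ.loc p).e (own v) (2 * r + j % 2)) w) p y).mem =
      Function.update κ.mem (.C (κ.loc p).e (own v) (2 * r + j % 2)) w := by
  unfold stepY setM act memOf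
  simp only [h]

theorem PotE_loc (u : Fin n → ℕ) (κ : CF n) (p : Fin n) (j i r v w : ℕ) (b : Bool)
    (h : (κ.loc p).ph = .pC j i r b v) (y : Cn c) :
    (stepY c u (setM κ (.C (κ.loc p).e (own v) (2 * r + j % 2)) w) p y).loc =
      Function.update κ.loc p (cap c (κ.loc p) ((κ.loc p).q + 1)
        (if w = 2 then .pX j i (r + 1) true v else .pX j i (r + 1) false 0)) := by
  unfold stepY setM act nxt respOf
  simp only [h, Function.update_self]

theorem PotE_gh (u : Fin n → ℕ) (κ : CF n) (p : Fin n) (j i r v w : ℕ) (b : Bool)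
    (h : (κ.loc p).ph = .pC j i r b v) (y : Cn c) :
    (stepY c u (setM κ (.C (κ.loc p).e (own v) (2 * r + j % 2)) w) p y).gh.b1 = κ.gh.b1 ∧
    (stepY c u (setM κ (.C (κ.loc p).e (own v) (2 * r + j % 2)) w) p y).gh.N = κ.gh.N ∧
    ((stepY c u (setM κ (.C (κ.loc p).e (own v) (2 * r + j % 2)) w) p y).gh.B =
      if κ.gh.rv (κ.loc p).e (own v) (2 * r + j % 2) = true then κ.gh.B else
      if isBad κ.gh (κ.loc p).e j r w then
        Function.update κ.gh.B (κ.loc p).e (κ.gh.B (κ.loc p).e + 1) else κ.gh.B) ∧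
    ((stepY c u (setM κ (.C (κ.loc p).e (own v) (2 * r + j % 2)) w) p y).gh.G =
      if κ.gh.rv (κ.loc p).e (own v) (2 * r + j % 2) = true then κ.gh.G else
      if isBad κ.gh (κ.loc p).e j r w then κ.gh.G else
        Function.update κ.gh.G (κ.loc p).e (κ.gh.G (κ.loc p).e + 1)) := by
  unfold stepY setM act ghOf respOf
  simp only [h, Function.update_self]
  split_ifs <;> simp

theorem PotE_F (u : Fin n → ℕ) (κ : CF n) (p : Fin n) (j i r v w : ℕ) (b : Bool)
    (h : (κ.loc p).ph = .pC j i r b v) (y : Cn c) (e k : ℕ) :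
    (stepY c u (setM κ (.C (κ.loc p).e (own v) (2 * r + j % 2)) w) p y).mem (.F e k) =
      κ.mem (.F e k) := by
  rw [PotE_mem u κ p j i r v w b h y, Function.update_of_ne]
  intro h1
  cases h1

theorem PotE_ep (u : Fin n → ℕ) (κ : CF n) (p : Fin n) (j i r v w : ℕ) (b : Bool)
    (h : (κ.loc p).ph = .pC j i r b v) (y : Cn c) :
    ep (stepY c u (setM κ (.C (κ.loc p).e (own v) (2 * r + j % 2)) w) p y) = ep κ := by
  unfold ep
  rw [PotE_loc u κ p j i r v w b h y]
  congr 1
  funext q
  by_cases hq : q = p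
  · subst hq
    rw [Function.update_self, PotC_cap_e]
  · rw [Function.update_of_ne hq]

theorem PotE_mass (u : Fin n → ℕ) (κ : CF n) (p : Fin n) (j i r v w : ℕ) (b : Bool)
    (h : (κ.loc p).ph = .pC j i r b v) (y : Cn c) (e : ℕ) (q : Fin n) :
    mass c (stepY c u (setM κ (.C (κ.loc p).e (own v) (2 * r + j % 2)) w) p y) e q =
      mass c κ e q := by
  have hF := PotE_F u κ p j i r v w b h y e 0
  have hl := PotE_loc u κ p j i r v w b h y
  by_cases hq : q = p
  · subst hq
    unfold mass
    rw [hF, hl, Function.update_self, PotC_cap_e, h]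
    rcases PotC_cap_ph (c := c) (κ.loc q) ((κ.loc q).q + 1)
      (if w = 2 then .pX j i (r + 1) true v else .pX j i (r + 1) false 0) with h2 | h2
    · rw [h2]
    · rw [h2]
      by_cases hw : w = 2
      · rw [if_pos hw]
      · rw [if_neg hw]
  · refine PotC_mass_congr ?_ hF
    rw [hl, Function.update_of_ne hq]

/-- Without a new `B`, `G` in the epoch `e` the potential of `e` is the same. -/
theorem PotE_phi_ne (u : Fin n → ℕ) (κ : CF n) (p : Fin n) (j i r v w : ℕ) (b : Bool)
    (h : (κ.loc p).ph = .pC j i r b v) (y : Cn c) {e : ℕ} (he : (κ.loc p).e ≠ e) :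
    phi c (stepY c u (setM κ (.C (κ.loc p).e (own v) (2 * r + j % 2)) w) p y) e = phi c κ e := by
  obtain ⟨h1, h2, h3, h4⟩ := PotE_gh u κ p j i r v w b h y
  refine PotC_phi_congr (fun k => PotE_F u κ p j i r v w b h y e k) (by rw [h1]) (by rw [h2]) ?_ ?_
    (fun q => PotE_mass u κ p j i r v w b h y e q)
  · rw [h3]
    split_ifs
    · rfl
    · rw [Function.update_of_ne (Ne.symm he)]
    · rfl
  · rw [h4]
    split_ifs
    · rfl
    · rfl
    · rw [Function.update_of_ne (Ne.symm he)]

theorem PotE_bad (u : Fin n → ℕ) (κ : CF n) (p : Fin n) (j i r v w : ℕ) (b : Bool)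
    (h : (κ.loc p).ph = .pC j i r b v) (y : Cn c) {e : ℕ} (hb : BadE c κ e) :
    BadE c (stepY c u (setM κ (.C (κ.loc p).e (own v) (2 * r + j % 2)) w) p y) e := by
  obtain ⟨h1, h2, h3, h4⟩ := PotE_gh u κ p j i r v w b h y
  rcases hb with hb | hb | hb | hb
  · left
    rw [h1]
    exact hb
  · right; left
    rw [PotE_F u κ p j i r v w b h y]
    exact hb
  · right; right; left
    rw [h2]
    exact hb
  · right; right; right
    rw [h3]
    split_ifs
    · exact hb
    · by_cases he : e = (κ.loc p).e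
      · rw [he, Function.update_self]
        rw [he] at hb
        omega
      · rw [Function.update_of_ne he]
        exact hb
    · exact hb

/-- If the configuration is bad or the epoch is not the last one, then the reading of a coin does not
change the potential. -/
theorem Vp_coin0 (u : Fin n → ℕ) (κ : CF n) (p : Fin n) (j i r v w : ℕ) (b : Bool)
    (h : (κ.loc p).ph = .pC j i r b v)
    (hr : (κ.loc p).e ≠ ep κ ∨ BadE c κ (ep κ)) (y : Cn c) :
    Vp c (stepY c u (setM κ (.C (κ.loc p).e (own v) (2 * r + j % 2)) w) p y) = Vp c κ := by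
  unfold Vp
  rw [PotE_ep u κ p j i r v w b h y]
  rcases hr with hr | hr
  · rw [PotE_phi_ne u κ p j i r v w b h y hr]
  · have h1 := PotE_bad u κ p j i r v w b h y hr
    unfold phi
    rw [if_pos h1, if_pos hr]

open Classical in
/-- One fresh reading with the value `w` (`w = 1` or `2`) in the coin register: the last epoch stays
the same; if it is a later epoch nothing changes; if it is bad it stays bad; otherwise `B` or `G`
grows by one, and if the new configuration is bad because `B + 1 ≥ X4 c` then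
`(B + 1 - G + JJ) / X4 ≥ 1` (`hG`). -/
theorem Vp_coin1 (u : Fin n → ℕ) (κ : CF n) (hG : GOK c κ) (p : Fin n) (j i r v w : ℕ) (b : Bool)
    (h : (κ.loc p).ph = .pC j i r b v)
    (hr : κ.gh.rv (κ.loc p).e (own v) (2 * r + j % 2) = false) (y : Cn c) :
    Vp c (stepY c u (setM κ (.C (κ.loc p).e (own v) (2 * r + j % 2)) w) p y) ≤ Vp c κ +
      (if isBad κ.gh (κ.loc p).e j r w = true then 4 / 3 / (X4 c : ℝ) else
        (if (κ.loc p).e = ep κ ∧ ¬ BadE c κ (ep κ) then - (4 / 3 / (X4 c : ℝ)) else 0)) := by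
  have hX : (0 : ℝ) < (X4 c : ℝ) := by
    have : 0 < X4 c := by unfold X4 JJ; omega
    exact_mod_cast this
  by_cases hc : (κ.loc p).e = ep κ ∧ ¬ BadE c κ (ep κ)
  · obtain ⟨he, hb⟩ := hc
    rw [if_pos (⟨he, hb⟩ : (κ.loc p).e = ep κ ∧ ¬ BadE c κ (ep κ))]
    have hep := PotE_ep u κ p j i r v w b h y
    have hF := fun k => PotE_F u κ p j i r v w b h y (ep κ) k
    obtain ⟨h1, h2, h3, h4⟩ := PotE_gh u κ p j i r v w b h y
    have hmass := fun q => PotE_mass u κ p j i r v w b h y (ep κ) q
    unfold Vp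
    rw [hep]
    rw [if_neg (by rw [hr]; simp)] at h3 h4
    set κ' := stepY c u (setM κ (.C (κ.loc p).e (own v) (2 * r + j % 2)) w) p y with hκ'
    have e1 : phi1 c κ' (ep κ) = phi1 c κ (ep κ) := by
      have h2' : emptyF c κ'.mem (ep κ) ↔ emptyF c κ.mem (ep κ) := by
        unfold emptyF
        simp only [hF]
      unfold phi1
      simp only [h2']
    have e2 : phi2 c κ' (ep κ) = phi2 c κ (ep κ) := by
      unfold phi2 Phi
      simp only [hF, hmass]
    have e3 : phi3 c κ' (ep κ) = phi3 c κ (ep κ) := by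
      unfold phi3 psi
      simp only [hF, h2]
    by_cases hbad : isBad κ.gh (κ.loc p).e j r w = true
    · rw [if_pos hbad] at h3 h4 ⊢
      have hB' : κ'.gh.B (ep κ) = κ.gh.B (ep κ) + 1 := by
        rw [h3, he, Function.update_self]
      have hG' : κ'.gh.G (ep κ) = κ.gh.G (ep κ) := by rw [h4]
      have e4 : phi4 c κ' (ep κ) = phi4 c κ (ep κ) + 1 / (X4 c : ℝ) := by
        unfold phi4
        rw [hB', hG']
        push_cast
        field_simp
        ring
      have key : phi c κ' (ep κ) ≤ phi c κ (ep κ) + 1 / (X4 c : ℝ) := by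
        by_cases hb' : BadE c κ' (ep κ)
        · have hB4 : X4 c ≤ κ.gh.B (ep κ) + 1 := by
            unfold BadE at hb hb'
            push Not at hb
            obtain ⟨g1, g2, g3, g4⟩ := hb
            rcases hb' with hb' | hb' | hb' | hb'
            · rw [h1] at hb'
              exact absurd hb' g1
            · rw [hF] at hb'
              exact absurd g2 hb'
            · rw [h2] at hb'
              omega
            · rw [hB'] at hb'
              exact hb'
          have h5 : 1 ≤ phi4 c κ (ep κ) + 1 / (X4 c : ℝ) := by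
            unfold phi4
            rw [← add_div, le_div_iff₀ hX, one_mul]
            have h6 : (κ.gh.G (ep κ) : ℝ) ≤ JJ c := Nat.cast_le.2 (hG _ hb)
            have h7 : (X4 c : ℝ) ≤ (κ.gh.B (ep κ) : ℝ) + 1 := by exact_mod_cast hB4
            linarith
          have h8 : phi c κ' (ep κ) = 1 := by
            unfold phi
            rw [if_pos hb']
          rw [h8, PotC_phi_neg hb]
          have h9 : 0 ≤ phi1 c κ (ep κ) := by
            unfold phi1
            split_ifs <;> norm_num
          have h10 : 0 ≤ phi2 c κ (ep κ) := by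
            unfold phi2
            exact div_nonneg (Phi_nonneg κ _) (by positivity)
          have h11 : 0 ≤ phi3 c κ (ep κ) := by
            unfold phi3
            exact div_nonneg (psi_nonneg κ _) (by positivity)
          linarith
        · rw [PotC_phi_neg hb', PotC_phi_neg hb, e1, e2, e3, e4]
          linarith
      have h12 : (4 : ℝ) / 3 / (X4 c : ℝ) = 4 / 3 * (1 / (X4 c : ℝ)) := by ring
      rw [h12]
      linarith
    · rw [if_neg hbad] at h3 h4 ⊢
      have hB' : κ'.gh.B (ep κ) = κ.gh.B (ep κ) := by rw [h3]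
      have hG' : κ'.gh.G (ep κ) = κ.gh.G (ep κ) + 1 := by
        rw [h4, he, Function.update_self]
      have e4 : phi4 c κ' (ep κ) = phi4 c κ (ep κ) - 1 / (X4 c : ℝ) := by
        unfold phi4
        rw [hB', hG']
        push_cast
        field_simp
        ring
      have hb' : ¬ BadE c κ' (ep κ) := by
        intro hb'
        apply hb
        unfold BadE at hb' ⊢
        rw [h1, hF, h2, hB'] at hb'
        exact hb'
      rw [PotC_phi_neg hb', PotC_phi_neg hb, e1, e2, e3, e4]
      have h12 : (4 : ℝ) / 3 / (X4 c : ℝ) = 4 / 3 * (1 / (X4 c : ℝ)) := by ring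
      rw [h12]
      linarith
  · rw [if_neg hc]
    have hc' : (κ.loc p).e ≠ ep κ ∨ BadE c κ (ep κ) := by
      by_contra h1
      push Not at h1
      exact hc h1
    rw [Vp_coin0 u κ p j i r v w b h hc' y]
    have h1 : (0 : ℝ) ≤ 4 / 3 / (X4 c : ℝ) := by positivity
    split_ifs <;> linarith

/-- Average over the coin of a fresh reading: `sum_bit`, `Vp_coin1`, `Vp_coin0`; of the two values
`w = 1, 2` at most one is bad (`isBad`). -/
theorem Vp_coin (u : Fin n → ℕ) (κ : CF n) (hG : GOK c κ) (p : Fin n) (j i r v : ℕ) (b : Bool)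
    (h : (κ.loc p).ph = .pC j i r b v)
    (hr : κ.gh.rv (κ.loc p).e (own v) (2 * r + j % 2) = false) (y0 : Cn c) :
    ∑ y : Cn c, Vp c (stepY c u
      (setM κ (.C (κ.loc p).e (own v) (2 * r + j % 2)) (bit c y + 1)) p y0) ≤
      (Fintype.card (Cn c) : ℝ) * Vp c κ := by
  classical
  have h0 := sum_bit (c := c) (fun z => Vp c (stepY c u
      (setM κ (.C (κ.loc p).e (own v) (2 * r + j % 2)) (z + 1)) p y0))
  rw [h0]
  have hkey : Vp c (stepY c u (setM κ (.C (κ.loc p).e (own v) (2 * r + j % 2)) (0 + 1)) p y0) +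
      Vp c (stepY c u (setM κ (.C (κ.loc p).e (own v) (2 * r + j % 2)) (1 + 1)) p y0) ≤
      2 * Vp c κ := by
    by_cases hc : (κ.loc p).e = ep κ ∧ ¬ BadE c κ (ep κ)
    · have h1 := Vp_coin1 u κ hG p j i r v (0 + 1) b h hr y0
      have h2 := Vp_coin1 u κ hG p j i r v (1 + 1) b h hr y0
      rw [if_pos hc] at h1 h2
      have hX : (0 : ℝ) ≤ 4 / 3 / (X4 c : ℝ) := by positivity
      by_cases hb1 : isBad κ.gh (κ.loc p).e j r (0 + 1) = true
      · have hb2 : ¬ isBad κ.gh (κ.loc p).e j r (1 + 1) = true := by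
          unfold isBad at hb1 ⊢
          cases hs : κ.gh.sk (κ.loc p).e j r with
          | none => rw [hs] at hb1; simp at hb1
          | some b0 =>
            rw [hs] at hb1
            cases b0 <;> simp at hb1 ⊢
        rw [if_pos hb1] at h1
        rw [if_neg hb2] at h2
        linarith
      · rw [if_neg hb1] at h1
        split_ifs at h2 <;> linarith
    · have hc' : (κ.loc p).e ≠ ep κ ∨ BadE c κ (ep κ) := by
        by_contra h1
        push Not at h1
        exact hc h1
      rw [Vp_coin0 u κ p j i r v (0 + 1) b h hc' y0, Vp_coin0 u κ p j i r v (1 + 1) b h hc' y0]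
      linarith
  have hcard : (0 : ℝ) ≤ (Fintype.card (Cn c) : ℝ) / 2 := by positivity
  calc (Fintype.card (Cn c) : ℝ) / 2 * _ ≤ (Fintype.card (Cn c) : ℝ) / 2 * (2 * Vp c κ) :=
        mul_le_mul_of_nonneg_left hkey hcard
    _ = _ := by ring

/-! ### runs -/

namespace Run

variable (R : Run c n)

theorem e_le_succ (t : ℕ) (p : Fin n) : (R.loc t p).e ≤ (R.loc (t + 1) p).e := by
  by_cases hp : p = R.s t
  · subst hp
    rw [loc_succ_self]
    rcases nxt_e (c := c) (y := R.y t) (s := R.st t) (a := R.rs t) with h | h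
    · rw [h.1]
      exact le_rfl
    · rw [h.1]
      exact Nat.le_succ _
  · rw [loc_succ_ne R t hp]

/-- Nothing has happened in an epoch that nobody has entered: memory and ghost. Induction. -/
theorem fresh_epoch {t e : ℕ} (h : ∀ p, (R.loc t p).e < e) :
    (∀ i, R.mem t (.F e i) = 0) ∧ (R.gh t).b1 e = false ∧ (R.gh t).N e = 0 ∧
      (R.gh t).B e = 0 ∧ (R.gh t).G e = 0 := by
  induction t with
  | zero => exact ⟨fun i => rfl, rfl, rfl, rfl, rfl⟩
  | succ t ih =>
    have h0 : ∀ p, (R.loc t p).e < e := fun p => lt_of_le_of_lt (R.e_le_succ t p) (h p)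
    obtain ⟨i1, i2, i3, i4, i5⟩ := ih h0
    have hs : (R.st t).e < e := h0 _
    have hne : e ≠ (R.st t).e := by omega
    refine ⟨fun i => ?_, ?_⟩
    · rw [R.mem_succ_ne, i1]
      intro v hv
      obtain ⟨l, h1, h2, h3⟩ := R.act_F hv
      omega
    · rw [gh_succ]
      unfold ghOf
      cases hp : (R.st t).ph with
      | wr l =>
        simp only
        split_ifs <;> simp [Function.update_of_ne hne, i2, i3, i4, i5]
      | pY j i r b v =>
        simp only
        split_ifs <;> simp [i2, i3, i4, i5]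
      | pC j i r b v =>
        simp only
        split_ifs <;> simp [Function.update_of_ne hne, i2, i3, i4, i5]
      | _ => exact ⟨i2, i3, i4, i5⟩

/-- `G_JJ`. -/
theorem GOK_run (t : ℕ) : GOK c (R.cf t) := fun _ hb => R.G_JJ hb

/-- The initial value of the potential: `phi_fresh` with `e = 0`. -/
theorem Vp_zero (hn : n ≤ 2 ^ (c * c)) : Vp c (R.cf 0) ≤ 1 / 3 := by
  have he : ep (R.cf 0) = 0 := by
    unfold ep
    rw [← Nat.le_zero]
    exact Finset.sup_le fun p _ => le_rfl
  have h := phi_fresh hn (R.cf 0) 0 (fun i => rfl) rfl rfl rfl rfl (fun p => Or.inr ⟨rfl, rfl⟩)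
  unfold Vp
  rw [he]
  push_cast
  linarith

/-- The step of `Vp_det` does not change `F` and the counters. -/
theorem same_step {t : ℕ} (h1 : ∀ a, (R.st t).ph ≠ .wr a) (h2 : ∀ e j r, ¬ R.Rv t e j r) :
    (∀ e i, R.mem (t + 1) (.F e i) = R.mem t (.F e i)) ∧ (R.gh (t + 1)).b1 = (R.gh t).b1 ∧
      (R.gh (t + 1)).N = (R.gh t).N ∧ (R.gh (t + 1)).B = (R.gh t).B ∧ (R.gh (t + 1)).G = (R.gh t).G := by
  refine ⟨fun e i => ?_, ?_⟩
  · refine R.mem_succ_ne fun v hv => ?_
    obtain ⟨l, h3, _⟩ := R.act_F hv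
    exact h1 l h3
  · rw [gh_succ]
    unfold ghOf
    cases hp : (R.st t).ph with
    | wr l => exact absurd hp (h1 l)
    | pY j i r b v =>
      simp only
      split_ifs <;> simp
    | pC j i r b v =>
      simp only
      have : (R.gh t).rv (R.st t).e (own v) (2 * r + j % 2) = true := by
        by_contra hh
        exact h2 (R.st t).e j r ⟨rfl, i, b, v, hp, by simpa using hh⟩
      rw [if_pos this]
      exact ⟨rfl, rfl, rfl, rfl⟩
    | _ => exact ⟨rfl, rfl, rfl, rfl⟩

theorem BadE_same {t : ℕ} (h1 : ∀ a, (R.st t).ph ≠ .wr a) (h2 : ∀ e j r, ¬ R.Rv t e j r) (e : ℕ) :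
    BadE c (R.cf (t + 1)) e ↔ BadE c (R.cf t) e := by
  obtain ⟨s1, s2, s3, s4, s5⟩ := R.same_step h1 h2
  have e1 : (R.cf (t + 1)).gh.b1 = (R.cf t).gh.b1 := s2
  have e2 : (R.cf (t + 1)).mem (.F e (c + 3)) = (R.cf t).mem (.F e (c + 3)) := s1 e (c + 3)
  have e3 : (R.cf (t + 1)).gh.N = (R.cf t).gh.N := s3
  have e4 : (R.cf (t + 1)).gh.B = (R.cf t).gh.B := s4
  unfold BadE
  rw [e1, e2, e3, e4]

/-- If the mass of the acting processor does not grow then `phi` does not grow. -/
theorem phi_same {t : ℕ} (h1 : ∀ a, (R.st t).ph ≠ .wr a) (h2 : ∀ e j r, ¬ R.Rv t e j r) (e : ℕ)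
    (hm : mass c (R.cf (t + 1)) e (R.s t) ≤ mass c (R.cf t) e (R.s t)) :
    phi c (R.cf (t + 1)) e ≤ phi c (R.cf t) e := by
  obtain ⟨s1, s2, s3, s4, s5⟩ := R.same_step h1 h2
  have e0 : ∀ i, (R.cf (t + 1)).mem (.F e i) = (R.cf t).mem (.F e i) := fun i => s1 e i
  have e3 : (R.cf (t + 1)).gh.N = (R.cf t).gh.N := s3
  have e4 : (R.cf (t + 1)).gh.B = (R.cf t).gh.B := s4
  have e5 : (R.cf (t + 1)).gh.G = (R.cf t).gh.G := s5
  have hmass : ∀ p, mass c (R.cf (t + 1)) e p ≤ mass c (R.cf t) e p := by
    intro p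
    by_cases hp : p = R.s t
    · rw [hp]
      exact hm
    · have hl : (R.cf (t + 1)).loc p = (R.cf t).loc p := R.loc_succ_ne t hp
      unfold mass
      rw [hl, e0 0]
  have hPhi : Phi c (R.cf (t + 1)) e ≤ Phi c (R.cf t) e := by
    unfold Phi
    rw [e0 0]
    exact add_le_add (Finset.sum_le_sum fun p _ => hmass p) le_rfl
  have hemp : emptyF c (R.cf (t + 1)).mem e ↔ emptyF c (R.cf t).mem e := by
    unfold emptyF
    constructor
    · intro h i hi
      rw [← e0 i]
      exact h i hi
    · intro h i hi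
      rw [e0 i]
      exact h i hi
  have p1 : phi1 c (R.cf (t + 1)) e = phi1 c (R.cf t) e := by
    unfold phi1
    by_cases h : emptyF c (R.cf t).mem e
    · rw [if_pos h, if_pos (hemp.mpr h)]
    · rw [if_neg h, if_neg (fun hh => h (hemp.mp hh))]
  have p2 : phi2 c (R.cf (t + 1)) e ≤ phi2 c (R.cf t) e := by
    unfold phi2
    exact div_le_div_of_nonneg_right hPhi (by positivity)
  have p3 : phi3 c (R.cf (t + 1)) e = phi3 c (R.cf t) e := by
    unfold phi3 psi
    rw [e3, e0 1]
    simp only [e0]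
  have p4 : phi4 c (R.cf (t + 1)) e = phi4 c (R.cf t) e := by
    unfold phi4
    rw [e4, e5]
  unfold phi
  by_cases hb : BadE c (R.cf t) e
  · rw [if_pos hb, if_pos ((R.BadE_same h1 h2 e).mpr hb)]
  · rw [if_neg hb, if_neg (fun hh => hb ((R.BadE_same h1 h2 e).mp hh)), p1, p3, p4]
    linarith

/-- All other steps: the potential does not grow. Cases of the phase. If the step does not leave the
epoch: the last epoch is the same; if the epoch of the processor is not the last one nothing
changes (when it enters the last epoch from the one before it is in the phase `coin 0`, with the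
same mass as before); in the last epoch: `F`, `b1`, `N`, `B`, `G` do not change, the mass of the
processor does not grow (`rd a false` to `wr a` only if `F e 0 = 0`; a change to `ow` makes it `0`).
If the step leaves the last epoch `e`: `e` is bad (`leave_bad` at `t + 1`, and nothing in epoch `e`
changes in this step, so it is bad at `t`: or `V_bad` / `ow_bad` at `t`), the potential before is
`e + 4/3`, and after the step it is at most `e + 1 + 4/3 * 1/4` (`fresh_epoch` for `e + 1` at time `t`,
the step does not write to `F (e+1)`, `phi_fresh`). -/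
theorem Vp_det (hn : n ≤ 2 ^ (c * c)) {t : ℕ} (h1 : ∀ a, (R.st t).ph ≠ .wr a)
    (h2 : ∀ e j r, ¬ R.Rv t e j r) : Vp c (R.cf (t + 1)) ≤ Vp c (R.cf t) := by
  obtain ⟨s1, s2, s3, s4, s5⟩ := R.same_step h1 h2
  have hloc : (R.cf (t + 1)).loc (R.s t) = nxt c (R.y t) (R.st t) (R.rs t) := R.loc_succ_self t
  have hst : (R.cf t).loc (R.s t) = R.st t := rfl
  have hne (p : Fin n) (hp : p ≠ R.s t) : (R.cf (t + 1)).loc p = (R.cf t).loc p := R.loc_succ_ne t hp
  have hmono : ep (R.cf t) ≤ ep (R.cf (t + 1)) :=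
    Finset.sup_le fun p _ => (R.e_le_succ t p).trans (le_ep (R.cf (t + 1)) p)
  have hsle : (R.st t).e ≤ ep (R.cf t) := le_ep (R.cf t) (R.s t)
  have hF0 : (R.cf (t + 1)).mem (.F (ep (R.cf t)) 0) = (R.cf t).mem (.F (ep (R.cf t)) 0) := s1 _ 0
  -- the case in which the last epoch stays the same
  have same (he : (nxt c (R.y t) (R.st t) (R.rs t)).e ≤ ep (R.cf t))
      (hm : mass c (R.cf (t + 1)) (ep (R.cf t)) (R.s t) ≤ mass c (R.cf t) (ep (R.cf t)) (R.s t)) :
      Vp c (R.cf (t + 1)) ≤ Vp c (R.cf t) := by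
    have hep : ep (R.cf (t + 1)) = ep (R.cf t) := by
      refine le_antisymm (Finset.sup_le fun p _ => ?_) hmono
      by_cases hp : p = R.s t
      · rw [hp, hloc]
        exact he
      · rw [hne p hp]
        exact le_ep (R.cf t) p
    unfold Vp
    rw [hep]
    have := R.phi_same h1 h2 (ep (R.cf t)) hm
    linarith
  rcases nxt_e (c := c) (y := R.y t) (s := R.st t) (a := R.rs t) with hA | hB
  · refine same (by rw [hA.1]; exact hsle) ?_
    rcases lt_or_eq_of_le hsle with hlt | heq
    · unfold mass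
      rw [hloc, hst, hF0, hA.1, if_pos hlt, if_pos hlt]
    · -- the processor is in the last epoch
      have hold : mass c (R.cf t) (ep (R.cf t)) (R.s t) =
          match (R.st t).ph with
          | .coin _ => if (R.cf t).mem (.F (ep (R.cf t)) 0) = 0 then qr c 0 else 0
          | .rd a f => if f = false ∧ (R.cf t).mem (.F (ep (R.cf t)) 0) = 0 then qr c a else 0
          | .wr a => qr c a
          | _ => 0 := by
        unfold mass
        rw [hst, if_neg (by omega), if_pos heq]
      have hnew : mass c (R.cf (t + 1)) (ep (R.cf t)) (R.s t) =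
          match (nxt c (R.y t) (R.st t) (R.rs t)).ph with
          | .coin _ => if (R.cf t).mem (.F (ep (R.cf t)) 0) = 0 then qr c 0 else 0
          | .rd a f => if f = false ∧ (R.cf t).mem (.F (ep (R.cf t)) 0) = 0 then qr c a else 0
          | .wr a => qr c a
          | _ => 0 := by
        unfold mass
        rw [hloc, hF0, hA.1, if_neg (by omega), if_pos heq]
      have hq (a : ℕ) : 0 ≤ qr c a := by
        unfold qr
        positivity
      have h0 : 0 ≤ mass c (R.cf t) (ep (R.cf t)) (R.s t) := mass_nonneg _ _ _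
      rw [hnew]
      -- the new phase
      have hcase : (∃ k, (nxt c (R.y t) (R.st t) (R.rs t)).ph = .coin k) ∨
          (∃ a f, (nxt c (R.y t) (R.st t) (R.rs t)).ph = .rd a f) ∨
          (∃ a, (nxt c (R.y t) (R.st t) (R.rs t)).ph = .wr a) ∨
          (match (nxt c (R.y t) (R.st t) (R.rs t)).ph with
          | .coin _ => if (R.cf t).mem (.F (ep (R.cf t)) 0) = 0 then qr c 0 else 0
          | .rd a f => if f = false ∧ (R.cf t).mem (.F (ep (R.cf t)) 0) = 0 then qr c a else 0
          | .wr a => qr c a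
          | _ => 0) = 0 := by
        cases (nxt c (R.y t) (R.st t) (R.rs t)).ph with
        | coin k => exact Or.inl ⟨k, rfl⟩
        | rd a f => exact Or.inr (Or.inl ⟨a, f, rfl⟩)
        | wr a => exact Or.inr (Or.inr (Or.inl ⟨a, rfl⟩))
        | _ => exact Or.inr (Or.inr (Or.inr rfl))
      rcases hcase with ⟨k, hk⟩ | ⟨a, f, hk⟩ | ⟨a, hk⟩ | hk
      · -- coin: the old phase is coin
        have : ∃ k', (R.st t).ph = .coin k' := by
          have hAe := hA.1
          unfold nxt at hk hAe
          cases hp : (R.st t).ph with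
          | coin k' => exact ⟨k', rfl⟩
          | fr v =>
            exfalso
            rw [hp] at hk hAe
            simp only [newE] at hk hAe
            split_ifs at hk hAe with g
            simp at hAe
          | od =>
            exfalso
            rw [hp] at hk hAe
            simp only [newE] at hk hAe
            split_ifs at hk hAe with g
            · simp at hAe
            · simp at hAe
          | _ =>
            exfalso
            rw [hp] at hk
            simp only [cap, newE] at hk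
            first
            | (split_ifs at hk <;> simp_all)
            | simp_all
        obtain ⟨k', hk'⟩ := this
        rw [hold, hk, hk']
      · -- rd
        rw [hk]
        simp only
        by_cases hf : f = false ∧ (R.cf t).mem (.F (ep (R.cf t)) 0) = 0
        · rw [if_pos hf]
          have : (∃ k', (R.st t).ph = .coin k') ∧ a = 0 := by
            unfold nxt at hk
            cases hp : (R.st t).ph with
            | coin k' =>
              rw [hp] at hk
              simp only at hk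
              split_ifs at hk
              · simp only [Ph.rd.injEq] at hk
                exact ⟨⟨k', rfl⟩, hk.1.symm⟩
            | wr l => exact absurd hp (h1 l)
            | _ =>
              exfalso
              rw [hp] at hk
              simp only [cap, newE] at hk
              first
              | (split_ifs at hk <;> simp_all)
              | simp_all
          obtain ⟨⟨k', hk'⟩, rfl⟩ := this
          rw [hold, hk']
          simp only
          rw [if_pos hf.2]
        · rw [if_neg hf]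
          exact h0
      · -- wr: the old phase is rd a false and the response is 0
        have : (R.st t).ph = .rd a false ∧ R.rs t = 0 := by
          unfold nxt at hk
          cases hp : (R.st t).ph with
          | rd l f =>
            rw [hp] at hk
            simp only [cap] at hk
            split_ifs at hk with g1 g2 g3
            simp only [Ph.wr.injEq] at hk
            subst hk
            refine ⟨?_, g2⟩
            simp only [Bool.not_eq_true] at g3
            rw [g3]
          | wr l => exact absurd hp (h1 l)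
          | _ =>
            exfalso
            rw [hp] at hk
            simp only [cap, newE] at hk
            first
            | (split_ifs at hk <;> simp_all)
            | simp_all
        obtain ⟨hk', hr⟩ := this
        have hact : R.act t = .read (.F (R.st t).e 0) := by
          unfold Run.act SQ.act
          rw [hk']
        have hr2 := R.rs_read hact
        rw [hr, heq] at hr2
        have hr3 : (R.cf t).mem (.F (ep (R.cf t)) 0) = 0 := hr2.symm
        rw [hold, hk, hk']
        simp only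
        rw [if_pos ⟨trivial, hr3⟩]
      · rw [hk]
        exact h0
  · -- the step leaves the epoch
    rcases lt_or_eq_of_le hsle with hlt | heq
    · refine same (by rw [hB.1]; omega) (le_of_eq ?_)
      unfold mass
      rw [hloc, hst, hF0, hB.1, if_pos hlt]
      rcases lt_or_eq_of_le (Nat.succ_le_of_lt hlt) with h3 | h3
      · rw [if_pos (by omega)]
      · rw [if_neg (by omega), if_pos (by omega), hB.2.1]
    · have hbad : BadE c (R.cf t) (ep (R.cf t)) := by
        rw [← R.BadE_same h1 h2]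
        refine R.leave_bad (p := R.s t) ?_
        rw [R.loc_succ_self t, hB.1]
        omega
      have hep : ep (R.cf (t + 1)) = ep (R.cf t) + 1 := by
        refine le_antisymm (Finset.sup_le fun p _ => ?_) ?_
        · by_cases hp : p = R.s t
          · rw [hp, hloc, hB.1, heq]
          · rw [hne p hp]
            exact (le_ep (R.cf t) p).trans (Nat.le_succ _)
        · have := le_ep (R.cf (t + 1)) (R.s t)
          rw [hloc, hB.1, heq] at this
          exact this
      have hfr := R.fresh_epoch (t := t) (e := ep (R.cf t) + 1) fun p => Nat.lt_succ_of_le (le_ep (R.cf t) p)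
      have hph := phi_fresh hn (R.cf (t + 1)) (ep (R.cf t) + 1)
        (fun i => (s1 _ i).trans (hfr.1 i)) ((congrFun s2 _).trans hfr.2.1) ((congrFun s3 _).trans hfr.2.2.1)
        ((congrFun s4 _).trans hfr.2.2.2.1) ((congrFun s5 _).trans hfr.2.2.2.2) (fun p => by
          by_cases hp : p = R.s t
          · right
            rw [hp, hloc]
            exact ⟨by rw [hB.1, heq], hB.2.1⟩
          · left
            rw [hne p hp]
            exact Nat.lt_succ_of_le (le_ep (R.cf t) p))
      have hone : phi c (R.cf t) (ep (R.cf t)) = 1 := by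
        unfold phi
        rw [if_pos hbad]
      unfold Vp
      rw [hep, hone]
      push_cast
      linarith

end Run

end

end Pool.Agent.Lib.MP_2ab09f_lc.SQ
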