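import Mathlib

import Pool.Agent.Lib.MP_2ab09f_lcS.Pot

/-!
Strategies of the adversary (abstract form) and the change of one hidden coin.
-/

namespace Pool.Agent.Lib.MP_2ab09f_lc.SQ

variable {c n : ℕ}

/-- What the adversary sees of a step. -/
inductive AEv (n : ℕ) where
  | read (p : Fin n) (r : Reg) (v : ℕ)
  | write (p : Fin n) (r : Reg)
  | out (p : Fin n) (u : ℕ)

def evA (p : Fin n) (mem : Reg → ℕ) : AAct → AEv n
  | .read r => .read p r (mem r)
  | .write r _ => .write p r
  | .out u => .out p u

abbrev AStr (n : ℕ) : Type := List (AEv n) → Fin n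

/-- The event of the step of `p` in `κ`. -/
def evS (u : Fin n → ℕ) (ω : Coins c n) (κ : CF n) (p : Fin n) : AEv n :=
  evA p κ.mem (act c (u p) (ω p (nm (κ.loc p))) (κ.loc p))

/-- Configuration and events after `t` steps against the strategy `σ`. -/
def aplay (u : Fin n → ℕ) (σ : AStr n) (ω : Coins c n) : ℕ → CF n × List (AEv n)
  | 0 => (initC u, [])
  | t + 1 =>
    (stepC c u ω (aplay u σ ω t).1 (σ (aplay u σ ω t).2),
      (aplay u σ ω t).2 ++ [evS u ω (aplay u σ ω t).1 (σ (aplay u σ ω t).2)])

/-- The run (with its schedule) produced by the strategy. -/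
def runOf (u : Fin n → ℕ) (hu : Function.Injective u) (σ : AStr n) (ω : Coins c n) : Run c n :=
  ⟨u, hu, ω, fun t => σ (aplay u σ ω t).2⟩

theorem runOf_cf (u : Fin n → ℕ) (hu : Function.Injective u) (σ : AStr n) (ω : Coins c n)
    (t : ℕ) : (runOf u hu σ ω).cf t = (aplay u σ ω t).1 := by
  induction t with
  | zero => rfl
  | succ t ih =>
    show stepC c u ω ((runOf u hu σ ω).cf t) (σ (aplay u σ ω t).2) = _
    rw [ih]
    rfl

/-- Change of the coin `x`. -/
def upd (ω : Coins c n) (x : Fin n × (ℕ × ℕ)) (y : Cn c) : Coins c n :=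
  Function.update ω x.1 (Function.update (ω x.1) x.2 y)

theorem upd_self (ω : Coins c n) (x : Fin n × (ℕ × ℕ)) (y : Cn c) :
    upd ω x y x.1 x.2 = y := by
  simp [upd]

theorem upd_ne (ω : Coins c n) (x : Fin n × (ℕ × ℕ)) (y : Cn c) {p : Fin n} {k : ℕ × ℕ}
    (h : (p, k) ≠ x) : upd ω x y p k = ω p k := by
  unfold upd
  by_cases hp : p = x.1
  · subst hp
    rw [Function.update_self]
    have hk : k ≠ x.2 := by
      intro hk
      apply h
      rw [hk]
    rw [Function.update_of_ne hk]
  · rw [Function.update_of_ne hp]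

/-- The action, the next state and the ghost do not depend on the coin except in the phases `coin`
(only the value that is written) and `wr`. -/
theorem act_indep {o : ℕ} {y y' : Cn c} {s : LS} (h1 : ∀ k, s.ph ≠ .coin k)
    (h2 : ∀ a, s.ph ≠ .wr a) : act c o y s = act c o y' s := by
  unfold act
  cases hp : s.ph with
  | coin k => exact absurd hp (h1 k)
  | wr a => exact absurd hp (h2 a)
  | _ => rfl

theorem nxt_indep {y y' : Cn c} {s : LS} {a : ℕ} (h2 : ∀ a, s.ph ≠ .wr a) :
    nxt c y s a = nxt c y' s a := by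
  unfold nxt
  cases hp : s.ph with
  | wr a => exact absurd hp (h2 a)
  | _ => rfl

theorem ghOf_indep {mem : Reg → ℕ} {g : Gh} {y y' : Cn c} {s : LS} {a : ℕ}
    (h2 : ∀ a, s.ph ≠ .wr a) : ghOf c mem g y s a = ghOf c mem g y' s a := by
  unfold ghOf
  cases hp : s.ph with
  | wr a => exact absurd hp (h2 a)
  | _ => rfl

/-- The phases which can occur in an epoch after the write attempt of level `a`. -/
def Ph.after (a : ℕ) : Ph → Prop
  | .coin _ => False
  | .rd a' _ => a < a'
  | .wr a' => a < a'
  | _ => True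

theorem nxt_after {y : Cn c} {s : LS} {a b : ℕ} (h : s.ph.after a) :
    (nxt c y s b).e = s.e + 1 ∨ ((nxt c y s b).e = s.e ∧ (nxt c y s b).ph.after a) := by
  unfold nxt
  cases hp : s.ph <;> rw [hp] at h <;> dsimp only <;> (try unfold cap at *) <;>
    (try unfold newE at *) <;> (try split_ifs) <;> simp_all [Ph.after] <;> omega

/-- A processor in the phase `wr a` of epoch `e` at time `t` was not in this phase at an earlier step
of its own: in an epoch the level of `rd a _`, `wr a` goes up with every write attempt. (Invariant: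
at all times after a step in the phase `wr a` of epoch `e` the processor is in a later epoch, or in
epoch `e` and in `rd a' _`, `wr a'` with `a < a'`, or in a phase which is neither `coin`, `rd`,
`wr`.) -/
theorem Run.wr_fresh (R : Run c n) {τ t a : ℕ} {p : Fin n} (ht : τ < t) (hs : R.s τ = p)
    (h : (R.loc τ p).ph = .wr a) (h' : (R.loc t p).ph = .wr a)
    (he : (R.loc τ p).e = (R.loc t p).e) : False := by
  have key : ∀ t', τ + 1 ≤ t' → (R.loc τ p).e < (R.loc t' p).e ∨
      ((R.loc t' p).e = (R.loc τ p).e ∧ (R.loc t' p).ph.after a) := by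
    intro t' ht'
    induction t', ht' using Nat.le_induction with
    | base =>
      subst hs
      rw [R.loc_succ_self]
      have h1 : (R.st τ).ph = .wr a := h
      right
      show (nxt c (R.y τ) (R.st τ) (R.rs τ)).e = (R.st τ).e ∧ _
      unfold nxt
      rw [h1]
      dsimp only
      unfold cap
      split_ifs
      · exact ⟨rfl, trivial⟩
      · exact ⟨rfl, Nat.lt_succ_self a⟩
    | succ t' _ ih =>
      by_cases hp : p = R.s t'
      · rcases ih with ih | ⟨ih1, ih2⟩
        · left
          exact lt_of_lt_of_le ih (R.e_mono (Nat.le_succ t') p)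
        · subst hp
          rw [R.loc_succ_self]
          have ih1' : (R.st t').e = (R.loc τ (R.s t')).e := ih1
          rcases nxt_after (c := c) (y := R.y t') (s := R.st t') (b := R.rs t') ih2 with h1 | ⟨h1, h2⟩
          · left; omega
          · right; exact ⟨h1.trans ih1', h2⟩
      · rw [R.loc_succ_ne t' hp]
        exact ih
  rcases key t ht with h1 | ⟨-, h2⟩
  · omega
  · rw [h'] at h2
    exact absurd h2 (lt_irrefl a)

theorem stepC_congr (u : Fin n → ℕ) {ω ω' : Coins c n} (κ : CF n) (p : Fin n)
    (h : ω' p (nm (κ.loc p)) = ω p (nm (κ.loc p)) ∨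
      ((∀ k, (κ.loc p).ph ≠ .coin k) ∧ ∀ a, (κ.loc p).ph ≠ .wr a)) :
    stepC c u ω' κ p = stepC c u ω κ p ∧ evS u ω' κ p = evS u ω κ p := by
  rcases h with h | ⟨h1, h2⟩
  · unfold stepC evS
    rw [h]
    exact ⟨rfl, rfl⟩
  · unfold stepC evS stepY
    dsimp only
    rw [act_indep (y := ω' p (nm (κ.loc p))) (y' := ω p (nm (κ.loc p))) h1 h2,
      nxt_indep (y := ω' p (nm (κ.loc p))) (y' := ω p (nm (κ.loc p))) h2,
      ghOf_indep (y := ω' p (nm (κ.loc p))) (y' := ω p (nm (κ.loc p))) h2]
    exact ⟨rfl, rfl⟩

/-- Changing the location coin of the write attempt that comes next does not change the past. Proof: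
by induction on `τ ≤ t`, `aplay u σ (upd ω x y) τ = aplay u σ ω τ`: the coin of step `τ` is not `x`
(`Run.wr_fresh`; in the phase `coin k` the name has an even second component; in the other phases
nothing depends on the coin: `act_indep`, `nxt_indep`, `ghOf_indep`). -/
theorem inv_wr (u : Fin n → ℕ) (hu : Function.Injective u) (σ : AStr n) (ω : Coins c n)
    (t : ℕ) {p : Fin n} {a : ℕ} (hp : σ (aplay u σ ω t).2 = p)
    (h : ((aplay u σ ω t).1.loc p).ph = .wr a) (y : Cn c) :
    aplay u σ (upd ω (p, (((aplay u σ ω t).1.loc p).e, 2 * a + 1)) y) t = aplay u σ ω t := by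
  obtain ⟨e, he⟩ : ∃ e, e = ((aplay u σ ω t).1.loc p).e := ⟨_, rfl⟩
  rw [← he]
  obtain ⟨R, hR⟩ : ∃ R, R = runOf u hu σ ω := ⟨_, rfl⟩
  have hloc : ∀ τ q, R.loc τ q = (aplay u σ ω τ).1.loc q := by
    intro τ q
    rw [hR]
    unfold Run.loc
    rw [runOf_cf]
  have hsch : ∀ τ, R.s τ = σ (aplay u σ ω τ).2 := by
    intro τ
    rw [hR]
    rfl
  have key : ∀ τ ≤ t, aplay u σ (upd ω (p, (e, 2 * a + 1)) y) τ = aplay u σ ω τ := by
    intro τ
    induction τ with
    | zero => intro _; rfl
    | succ τ ih =>
      intro hτ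
      have ih' := ih (by omega)
      have hst := stepC_congr u (ω := ω) (ω' := upd ω (p, (e, 2 * a + 1)) y) (aplay u σ ω τ).1
        (σ (aplay u σ ω τ).2) ?_
      · show (stepC c u (upd ω (p, (e, 2 * a + 1)) y)
            (aplay u σ (upd ω (p, (e, 2 * a + 1)) y) τ).1
              (σ (aplay u σ (upd ω (p, (e, 2 * a + 1)) y) τ).2),
          (aplay u σ (upd ω (p, (e, 2 * a + 1)) y) τ).2 ++
            [evS u (upd ω (p, (e, 2 * a + 1)) y)
              (aplay u σ (upd ω (p, (e, 2 * a + 1)) y) τ).1
              (σ (aplay u σ (upd ω (p, (e, 2 * a + 1)) y) τ).2)]) =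
          (stepC c u ω (aplay u σ ω τ).1 (σ (aplay u σ ω τ).2),
            (aplay u σ ω τ).2 ++ [evS u ω (aplay u σ ω τ).1 (σ (aplay u σ ω τ).2)])
        rw [ih', hst.1, hst.2]
      · by_cases hx : (σ (aplay u σ ω τ).2, nm ((aplay u σ ω τ).1.loc (σ (aplay u σ ω τ).2))) =
            (p, (e, 2 * a + 1))
        · right
          obtain ⟨hx1, hx2⟩ := Prod.mk.injEq _ _ _ _ ▸ hx
          rw [hx1] at hx2 ⊢
          constructor
          · intro k hk
            unfold nm at hx2
            rw [hk] at hx2
            have h3 := congrArg Prod.snd hx2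
            dsimp only at h3
            omega
          · intro a' ha'
            have h4 : nm ((aplay u σ ω τ).1.loc p) = (((aplay u σ ω τ).1.loc p).e, 2 * a' + 1) := by
              unfold nm
              rw [ha']
            rw [h4] at hx2
            have h5 := congrArg Prod.fst hx2
            have h6 := congrArg Prod.snd hx2
            dsimp only at h5 h6
            have h7 : a' = a := by omega
            subst h7
            refine R.wr_fresh (p := p) (a := a') (τ := τ) (t := t) (by omega)
              ((hsch τ).trans hx1) ?_ ?_ ?_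
            · rw [hloc]; exact ha'
            · rw [hloc]; exact h
            · rw [hloc, hloc, h5, he]
        · left
          exact upd_ne _ _ _ hx
  exact key t (le_refl t)

theorem ghOf_memF {mem mem' : Reg → ℕ} {g : Gh} {y : Cn c} {s : LS} {a : ℕ}
    (h : ∀ e i, mem' (.F e i) = mem (.F e i)) : ghOf c mem' g y s a = ghOf c mem g y s a := by
  have hE : ∀ e, emptyF c mem' e ↔ emptyF c mem e := by
    intro e
    unfold emptyF
    simp only [h]
  unfold ghOf
  cases hp : s.ph <;> dsimp only
  simp only [hE, h]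

theorem ghOf_rv {mem : Reg → ℕ} {g : Gh} {y : Cn c} {s : LS} {a e o k : ℕ}
    (h : (ghOf c mem g y s a).rv e o k = false) : g.rv e o k = false := by
  unfold ghOf at h
  cases hp : s.ph <;> rw [hp] at h <;> dsimp only at h
  case wr l => split_ifs at h <;> exact h
  case pY j i r b v => split_ifs at h <;> exact h
  case pC j i r b v =>
    by_cases h1 : g.rv s.e (own v) (2 * r + j % 2) = true
    · rw [if_pos h1] at h
      exact h
    · rw [if_neg h1] at h
      have h2 : (if e = s.e ∧ o = own v ∧ k = 2 * r + j % 2 then true else g.rv e o k) =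
        false := h
      split_ifs at h2
      exact h2
  all_goals exact h

theorem ghOf_rv_pC {mem : Reg → ℕ} {g : Gh} {y : Cn c} {s : LS} {a j i r v : ℕ} {b : Bool}
    (hp : s.ph = .pC j i r b v) :
    (ghOf c mem g y s a).rv s.e (own v) (2 * r + j % 2) = true := by
  unfold ghOf
  rw [hp]
  dsimp only
  by_cases h1 : g.rv s.e (own v) (2 * r + j % 2) = true
  · rw [if_pos h1]
    exact h1
  · rw [if_neg h1]
    show (if s.e = s.e ∧ own v = own v ∧ 2 * r + j % 2 = 2 * r + j % 2 then true else
      g.rv s.e (own v) (2 * r + j % 2)) = true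
    simp

/-- Two configurations which agree outside the register `R0` still do so after a step. -/
theorem step_agree (u : Fin n → ℕ) {κ κ' : CF n} {p : Fin n} {y y' : Cn c} {R0 : Reg}
    (hF : ∀ e i, R0 ≠ .F e i) (hl : κ'.loc = κ.loc) (hg : κ'.gh = κ.gh)
    (hm : ∀ r, r ≠ R0 → κ'.mem r = κ.mem r)
    (hA : act c (u p) y' (κ.loc p) = act c (u p) y (κ.loc p) ∨
      ∃ w w', act c (u p) y (κ.loc p) = .write R0 w ∧ act c (u p) y' (κ.loc p) = .write R0 w')
    (hread : act c (u p) y (κ.loc p) ≠ .read R0)
    (hy : y' = y ∨ ∀ a, (κ.loc p).ph ≠ .wr a) :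
    evA p κ'.mem (act c (u p) y' (κ'.loc p)) = evA p κ.mem (act c (u p) y (κ.loc p)) ∧
    (stepY c u κ' p y').loc = (stepY c u κ p y).loc ∧
    (stepY c u κ' p y').gh = (stepY c u κ p y).gh ∧
    ∀ r, r ≠ R0 → (stepY c u κ' p y').mem r = (stepY c u κ p y).mem r := by
  have hresp : respOf κ'.mem (act c (u p) y' (κ.loc p)) =
      respOf κ.mem (act c (u p) y (κ.loc p)) := by
    rcases hA with hA | ⟨w, w', h1, h2⟩
    · rw [hA]
      cases hB : act c (u p) y (κ.loc p) with
      | read r => exact hm r (fun hh => hread (by rw [hB, hh]))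
      | write r w => rfl
      | out w => rfl
    · rw [h1, h2]; rfl
  refine ⟨?_, ?_, ?_, ?_⟩
  · rw [hl]
    rcases hA with hA | ⟨w, w', h1, h2⟩
    · rw [hA]
      cases hB : act c (u p) y (κ.loc p) with
      | read r =>
        show AEv.read p r (κ'.mem r) = AEv.read p r (κ.mem r)
        rw [hm r (fun hh => hread (by rw [hB, hh]))]
      | write r w => rfl
      | out w => rfl
    · rw [h1, h2]; rfl
  · show Function.update κ'.loc p (nxt c y' (κ'.loc p)
      (respOf κ'.mem (act c (u p) y' (κ'.loc p)))) = Function.update κ.loc p (nxt c y (κ.loc p)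
      (respOf κ.mem (act c (u p) y (κ.loc p))))
    rw [hl, hresp]
    rcases hy with rfl | hy
    · rfl
    · rw [nxt_indep (y := y') (y' := y) hy]
  · show ghOf c κ'.mem κ'.gh y' (κ'.loc p) (respOf κ'.mem (act c (u p) y' (κ'.loc p))) =
      ghOf c κ.mem κ.gh y (κ.loc p) (respOf κ.mem (act c (u p) y (κ.loc p)))
    rw [hl, hg, hresp, ghOf_memF (mem' := κ'.mem) (mem := κ.mem)
      (fun e i => hm _ (fun hh => hF e i hh.symm))]
    rcases hy with rfl | hy
    · rfl
    · rw [ghOf_indep (y := y') (y' := y) hy]
  · intro r hr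
    show memOf κ'.mem (act c (u p) y' (κ'.loc p)) r = memOf κ.mem (act c (u p) y (κ.loc p)) r
    rw [hl]
    rcases hA with hA | ⟨w, w', h1, h2⟩
    · rw [hA]
      cases hB : act c (u p) y (κ.loc p) with
      | read r' => exact hm r hr
      | write r' w =>
        show Function.update κ'.mem r' w r = Function.update κ.mem r' w r
        by_cases hrr : r = r'
        · subst hrr
          rw [Function.update_self, Function.update_self]
        · rw [Function.update_of_ne hrr, Function.update_of_ne hrr]
          exact hm r hr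
      | out w => exact hm r hr
    · rw [h1, h2]
      show Function.update κ'.mem R0 w' r = Function.update κ.mem R0 w r
      rw [Function.update_of_ne hr, Function.update_of_ne hr]
      exact hm r hr

/-- Changing a bit coin whose register has not been read: the events, the local states and the ghost
are the same and the memory is the same outside this register. Induction on `t` (the mark `rv` at `t`
is `false`, so it is `false` before): a step in the phase `coin` writes to the same register, possibly
another value if it is this one; a step in the phase `pC` reads another register (otherwise it would be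
marked). -/
theorem inv_bit (u : Fin n → ℕ) (hu : Function.Injective u) (σ : AStr n) (ω : Coins c n)
    (t : ℕ) {q : Fin n} {e k : ℕ} (hr : (aplay u σ ω t).1.gh.rv e (u q) k = false) (y : Cn c) :
    (aplay u σ (upd ω (q, (e, 2 * k)) y) t).2 = (aplay u σ ω t).2 ∧
    (aplay u σ (upd ω (q, (e, 2 * k)) y) t).1.loc = (aplay u σ ω t).1.loc ∧
    (aplay u σ (upd ω (q, (e, 2 * k)) y) t).1.gh = (aplay u σ ω t).1.gh ∧
    ∀ r, r ≠ .C e (u q) k →
      (aplay u σ (upd ω (q, (e, 2 * k)) y) t).1.mem r = (aplay u σ ω t).1.mem r := by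
  induction t with
  | zero => exact ⟨rfl, rfl, rfl, fun _ _ => rfl⟩
  | succ t ih =>
    have hr' : (ghOf c (aplay u σ ω t).1.mem (aplay u σ ω t).1.gh
        (ω (σ (aplay u σ ω t).2) (nm ((aplay u σ ω t).1.loc (σ (aplay u σ ω t).2))))
        ((aplay u σ ω t).1.loc (σ (aplay u σ ω t).2))
        (respOf (aplay u σ ω t).1.mem (act c (u (σ (aplay u σ ω t).2))
          (ω (σ (aplay u σ ω t).2) (nm ((aplay u σ ω t).1.loc (σ (aplay u σ ω t).2))))
          ((aplay u σ ω t).1.loc (σ (aplay u σ ω t).2))))).rv e (u q) k = false := hr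
    obtain ⟨i1, i2, i3, i4⟩ := ih (ghOf_rv hr')
    have key : evS u (upd ω (q, (e, 2 * k)) y) (aplay u σ (upd ω (q, (e, 2 * k)) y) t).1
          (σ (aplay u σ (upd ω (q, (e, 2 * k)) y) t).2) =
          evS u ω (aplay u σ ω t).1 (σ (aplay u σ ω t).2) ∧
        (stepC c u (upd ω (q, (e, 2 * k)) y) (aplay u σ (upd ω (q, (e, 2 * k)) y) t).1
          (σ (aplay u σ (upd ω (q, (e, 2 * k)) y) t).2)).loc =
          (stepC c u ω (aplay u σ ω t).1 (σ (aplay u σ ω t).2)).loc ∧
        (stepC c u (upd ω (q, (e, 2 * k)) y) (aplay u σ (upd ω (q, (e, 2 * k)) y) t).1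
          (σ (aplay u σ (upd ω (q, (e, 2 * k)) y) t).2)).gh =
          (stepC c u ω (aplay u σ ω t).1 (σ (aplay u σ ω t).2)).gh ∧
        ∀ r, r ≠ .C e (u q) k →
          (stepC c u (upd ω (q, (e, 2 * k)) y) (aplay u σ (upd ω (q, (e, 2 * k)) y) t).1
            (σ (aplay u σ (upd ω (q, (e, 2 * k)) y) t).2)).mem r =
            (stepC c u ω (aplay u σ ω t).1 (σ (aplay u σ ω t).2)).mem r := by
      rw [i1]
      generalize σ (aplay u σ ω t).2 = p at hr' ⊢
      unfold evS stepC
      rw [i2]
      generalize (aplay u σ ω t).1 = κ at i2 i3 i4 hr' ⊢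
      generalize (aplay u σ (upd ω (q, (e, 2 * k)) y) t).1 = κ' at i2 i3 i4 ⊢
      have hcase : upd ω (q, (e, 2 * k)) y p (nm (κ.loc p)) = ω p (nm (κ.loc p)) ∨
          (p = q ∧ nm (κ.loc p) = (e, 2 * k)) := by
        by_cases hx : (p, nm (κ.loc p)) = (q, (e, 2 * k))
        · right
          have h1 := congrArg Prod.fst hx
          have h2 := congrArg Prod.snd hx
          exact ⟨h1, h2⟩
        · left
          exact upd_ne ω _ y hx
      have hwr : upd ω (q, (e, 2 * k)) y p (nm (κ.loc p)) = ω p (nm (κ.loc p)) ∨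
          ∀ a, (κ.loc p).ph ≠ .wr a := by
        rcases hcase with h | ⟨_, h⟩
        · exact Or.inl h
        · right
          intro a ha
          unfold nm at h
          rw [ha] at h
          simp only [Prod.mk.injEq] at h
          omega
      have hA : act c (u p) (upd ω (q, (e, 2 * k)) y p (nm (κ.loc p))) (κ.loc p) =
          act c (u p) (ω p (nm (κ.loc p))) (κ.loc p) ∨
          ∃ w w', act c (u p) (ω p (nm (κ.loc p))) (κ.loc p) = .write (.C e (u q) k) w ∧
            act c (u p) (upd ω (q, (e, 2 * k)) y p (nm (κ.loc p))) (κ.loc p) =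
              .write (.C e (u q) k) w' := by
        rcases hcase with h | ⟨h1, h2⟩
        · left; rw [h]
        · by_cases hco : ∃ k', (κ.loc p).ph = .coin k'
          · obtain ⟨k', hco⟩ := hco
            right
            have h3 := h2
            unfold nm at h3
            rw [hco] at h3
            simp only [Prod.mk.injEq] at h3
            have hk : k' = k := by omega
            refine ⟨bit c (ω p (nm (κ.loc p))) + 1,
              bit c (upd ω (q, (e, 2 * k)) y p (nm (κ.loc p))) + 1, ?_, ?_⟩
            · unfold act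
              rw [hco]
              dsimp only
              rw [h3.1, hk, h1]
            · unfold act
              rw [hco]
              dsimp only
              rw [h3.1, hk, h1]
          · left
            refine act_indep (fun k' hk' => hco ⟨k', hk'⟩) ?_
            intro a ha
            unfold nm at h2
            rw [ha] at h2
            simp only [Prod.mk.injEq] at h2
            omega
      have hread : act c (u p) (ω p (nm (κ.loc p))) (κ.loc p) ≠ .read (.C e (u q) k) := by
        intro hrd
        unfold act at hrd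
        cases hph : (κ.loc p).ph <;> rw [hph] at hrd <;> dsimp only at hrd
        case pC j i r b v =>
          have h3 := ghOf_rv_pC (c := c) (mem := κ.mem) (g := κ.gh) (y := ω p (nm (κ.loc p)))
            (s := κ.loc p) (a := respOf κ.mem (act c (u p) (ω p (nm (κ.loc p))) (κ.loc p))) hph
          simp only [AAct.read.injEq, Reg.C.injEq] at hrd
          rw [hrd.1, hrd.2.1, hrd.2.2] at h3
          rw [h3] at hr'
          exact absurd hr' (by simp)
        case wr a => split_ifs at hrd
        all_goals simp at hrd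
      have := step_agree (c := c) u (κ := κ) (κ' := κ') (p := p) (y := ω p (nm (κ.loc p)))
        (y' := upd ω (q, (e, 2 * k)) y p (nm (κ.loc p))) (R0 := .C e (u q) k)
        (fun _ _ => by simp) i2 i3 i4 hA hread hwr
      rw [i2] at this
      exact this
    obtain ⟨k1, k2, k3, k4⟩ := key
    refine ⟨?_, k2, k3, k4⟩
    show (aplay u σ (upd ω (q, (e, 2 * k)) y) t).2 ++ [_] = (aplay u σ ω t).2 ++ [_]
    rw [i1] at k1 ⊢
    rw [k1]

/-- Before a fresh reading: with the coin `y` instead, the configuration is the same with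
`bit c y + 1` in the coin register. `inv_bit`; the value in the register: `Run.pC_coin` for the run
`runOf` with the changed coins (its local states are the same), `upd_self`. -/
theorem inv_coin (u : Fin n → ℕ) (hu : Function.Injective u) (σ : AStr n) (ω : Coins c n)
    (t : ℕ) {p q : Fin n} {j i r v : ℕ} {b : Bool} (hp : σ (aplay u σ ω t).2 = p)
    (h : ((aplay u σ ω t).1.loc p).ph = .pC j i r b v) (hq : u q = own v)
    (hr : (aplay u σ ω t).1.gh.rv ((aplay u σ ω t).1.loc p).e (own v) (2 * r + j % 2) = false)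
    (y : Cn c) :
    aplay u σ (upd ω (q, (((aplay u σ ω t).1.loc p).e, 2 * (2 * r + j % 2))) y) t =
      (setM (aplay u σ ω t).1 (.C ((aplay u σ ω t).1.loc p).e (own v) (2 * r + j % 2))
        (bit c y + 1), (aplay u σ ω t).2) := by
  have hr2 := hr
  rw [← hq] at hr2
  obtain ⟨i1, i2, i3, i4⟩ := inv_bit u hu σ ω t hr2 y
  set ω' := upd ω (q, (((aplay u σ ω t).1.loc p).e, 2 * (2 * r + j % 2))) y with hω'
  have hval : (aplay u σ ω' t).1.mem
      (.C ((aplay u σ ω t).1.loc p).e (own v) (2 * r + j % 2)) = bit c y + 1 := by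
    have hloc : (runOf u hu σ ω').loc t p = (aplay u σ ω t).1.loc p := by
      unfold Run.loc
      rw [runOf_cf, i2]
    have hpc : ((runOf u hu σ ω').loc t p).ph = .pC j i r b v := by rw [hloc]; exact h
    obtain ⟨q', hq', hv⟩ := (runOf u hu σ ω').pC_coin hpc
    have hqq : q' = q := hu (hq'.trans hq.symm)
    subst hqq
    rw [hloc] at hv
    unfold Run.mem at hv
    rw [runOf_cf] at hv
    rw [hv]
    show bit c (ω' q' _) + 1 = _
    rw [hω']
    have := upd_self ω (q', (((aplay u σ ω t).1.loc p).e, 2 * (2 * r + j % 2))) y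
    dsimp only at this
    rw [this]
  have hext : ∀ κ κ' : CF n, κ.mem = κ'.mem → κ.loc = κ'.loc → κ.gh = κ'.gh → κ = κ' := by
    intro κ κ' h1 h2 h3
    cases κ; cases κ'
    simp only at h1 h2 h3
    subst h1 h2 h3
    rfl
  refine Prod.ext (hext _ _ ?_ i2 i3) i1
  funext r'
  show (aplay u σ ω' t).1.mem r' = Function.update (aplay u σ ω t).1.mem _ _ r'
  by_cases hrr : r' = .C ((aplay u σ ω t).1.loc p).e (own v) (2 * r + j % 2)
  · rw [hrr, Function.update_self, hval]
  · rw [Function.update_of_ne hrr]
    exact i4 r' (by rw [hq]; exact hrr)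

end Pool.Agent.Lib.MP_2ab09f_lc.SQ
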