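import Mathlib

import Pool.Agent.Lib.MP_2ab09f_lcS.Strat

/-!
Averages over finitely many coins.
-/

namespace Pool.Agent.Lib.MP_2ab09f_lc.SQ

variable {c n : ℕ}

/-- Resampling of one coordinate chosen by `x`. Proof: `(ω, y) ↦ (update ω (x ω) y, ω (x ω))` (or the
identity if `x ω = none`) is an involution of `(I → V) × V` because
`x (update ω (x ω) y) = x ω`. (If `x ω = none` the summand is `f ω` for every `y`.) -/
theorem resample {I V : Type*} [Fintype I] [DecidableEq I] [Fintype V] [DecidableEq V]
    (f : (I → V) → ℝ) (x : (I → V) → Option I)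
    (hx : ∀ ω i y, x ω = some i → x (Function.update ω i y) = some i) :
    ∑ ω, ∑ y : V, f (match x ω with | none => ω | some i => Function.update ω i y) =
      (Fintype.card V : ℝ) * ∑ ω, f ω := by
  classical
  set e : (I → V) × V → (I → V) × V := fun a =>
    match x a.1 with
    | none => a
    | some i => (Function.update a.1 i a.2, a.1 i) with he
  have e_none : ∀ a : (I → V) × V, x a.1 = none → e a = a := by
    intro a ha
    simp only [he, ha]
  have e_some : ∀ (a : (I → V) × V) (i : I), x a.1 = some i →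
      e a = (Function.update a.1 i a.2, a.1 i) := by
    intro a i ha
    simp only [he, ha]
  have hinv : Function.Involutive e := by
    intro a
    cases ha : x a.1 with
    | none => rw [e_none a ha, e_none a ha]
    | some i =>
      rw [e_some a i ha]
      have h1 := hx a.1 i a.2 ha
      rw [e_some (Function.update a.1 i a.2, a.1 i) i h1]
      dsimp only
      rw [Function.update_idem, Function.update_eq_self, Function.update_self]
  have hfst : ∀ (ω : I → V) (y : V),
      (match x ω with | none => ω | some i => Function.update ω i y) = (e (ω, y)).1 := by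
    intro ω y
    cases ha : x ω with
    | none => rw [e_none (ω, y) ha]
    | some i => rw [e_some (ω, y) i ha]
  calc ∑ ω, ∑ y : V, f (match x ω with | none => ω | some i => Function.update ω i y)
      = ∑ ω, ∑ y : V, f (e (ω, y)).1 := by
        refine Finset.sum_congr rfl fun ω _ => Finset.sum_congr rfl fun y _ => ?_
        rw [hfst]
    _ = ∑ a : (I → V) × V, f (e a).1 := by
        rw [Fintype.sum_prod_type]
    _ = ∑ a : (I → V) × V, f a.1 :=
        Equiv.sum_comp (Function.Involutive.toPerm e hinv) (fun a => f a.1)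
    _ = ∑ ω, ∑ _y : V, f ω := by
        rw [Fintype.sum_prod_type]
    _ = (Fintype.card V : ℝ) * ∑ ω, f ω := by
        rw [Finset.mul_sum]
        refine Finset.sum_congr rfl fun ω _ => ?_
        rw [Finset.sum_const, Finset.card_univ, nsmul_eq_mul]

/-- Coins given by finitely many values, the others being `0`. -/
def ext (c n N : ℕ) (w : (Fin n × Fin N × Fin N) → Cn c) : Coins c n := fun p k =>
  if h : k.1 < N ∧ k.2 < N then w (p, ⟨k.1, h.1⟩, ⟨k.2, h.2⟩)
  else (⟨0, Nat.two_pow_pos _⟩, ⟨0, Nat.two_pow_pos _⟩)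

theorem ext_update (N : ℕ) (w : (Fin n × Fin N × Fin N) → Cn c) (p : Fin n) (i j : Fin N)
    (y : Cn c) : ext c n N (Function.update w (p, i, j) y) = upd (ext c n N w) (p, (i.1, j.1)) y := by
  funext q k
  by_cases hk : (q, k) = (p, (i.1, j.1))
  · rw [Prod.mk.injEq] at hk
    obtain ⟨rfl, rfl⟩ := hk
    rw [show upd (ext c n N w) (q, (i.1, j.1)) y q (i.1, j.1) = y from
      upd_self (ext c n N w) (q, (i.1, j.1)) y]
    unfold ext
    rw [dif_pos ⟨i.2, j.2⟩]
    exact Function.update_self (q, i, j) y w
  · rw [upd_ne (ext c n N w) (p, (i.1, j.1)) y hk]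
    unfold ext
    by_cases h : k.1 < N ∧ k.2 < N
    · rw [dif_pos h, dif_pos h]
      apply Function.update_of_ne
      intro hh
      apply hk
      rw [Prod.mk.injEq, Prod.mk.injEq] at hh
      obtain ⟨h1, h2, h3⟩ := hh
      rw [← h1, ← h2, ← h3]
    · rw [dif_neg h, dif_neg h]

/-- The names of coins used at time `t` are small: the epoch is at most `t`, and in the phase `wr a`
the level `a` is at most `t` (each step increases them by at most one). -/
theorem Run.name_le (R : Run c n) (t : ℕ) (p : Fin n) :
    (R.loc t p).e ≤ t ∧ ∀ a, ((R.loc t p).ph = .wr a ∨ ∃ f, (R.loc t p).ph = .rd a f) → a ≤ t := by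
  refine R.inv_ind (fun t _ s => s.e ≤ t ∧ ∀ a, (s.ph = .wr a ∨ ∃ f, s.ph = .rd a f) → a ≤ t)
    ?_ ?_ ?_ t p
  · intro p
    refine ⟨le_refl _, ?_⟩
    rintro a (h | ⟨f, h⟩) <;> simp [init] at h
  · intro t p h
    exact ⟨h.1.trans (Nat.le_succ t), fun a ha => (h.2 a ha).trans (Nat.le_succ t)⟩
  · intro t h
    refine ⟨?_, ?_⟩
    · have h1 := h.1
      rcases nxt_e (c := c) (y := R.y t) (s := R.st t) (a := R.rs t) with h2 | h2 <;>
        rw [h2.1] <;> omega
    · rintro a (ha | ⟨f, ha⟩)
      · exact (h.2 a (Or.inr ⟨false, (pre_wr ha).1⟩)).trans (Nat.le_succ t)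
      · rcases pre_rd ha with h1 | ⟨l', rfl, h2, -⟩ | h1
        · omega
        · exact Nat.succ_le_succ (h.2 l' (Or.inl h2))
        · exact (h.2 a (Or.inr ⟨true, h1.2.1⟩)).trans (Nat.le_succ t)

/-- The coin that is averaged in the step of `p`, when the state is `s` and the ghost `g`. -/
noncomputable def avgX (N : ℕ) (u : Fin n → ℕ) (p : Fin n) (s : LS) (g : Gh) :
    Option (Fin n × Fin N × Fin N) := by
  classical
  exact match s.ph with
  | .wr a => if h : s.e < N ∧ 2 * a + 1 < N then some (p, ⟨s.e, h.1⟩, ⟨2 * a + 1, h.2⟩) else none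
  | .pC j _ r _ v =>
      if g.rv s.e (own v) (2 * r + j % 2) = false then
        (if h : (∃ q, u q = own v) ∧ s.e < N ∧ 2 * (2 * r + j % 2) < N then
          some (h.1.choose, ⟨s.e, h.2.1⟩, ⟨2 * (2 * r + j % 2), h.2.2⟩) else none)
      else none
  | _ => none

/-- The coin is not used in a step of the phase `pC`. -/
theorem stepY_indep (u : Fin n → ℕ) (κ : CF n) (p : Fin n) (y y' : Cn c)
    (h1 : ∀ k, (κ.loc p).ph ≠ .coin k) (h2 : ∀ a, (κ.loc p).ph ≠ .wr a) :
    stepY c u κ p y = stepY c u κ p y' := by
  unfold stepY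
  simp only
  rw [act_indep (y := y) (y' := y') h1 h2, nxt_indep (y := y) (y' := y') h2,
    ghOf_indep (y := y) (y' := y') h2]

/-- The potential does not grow on average. For each `w` let `p` be the processor scheduled at time
`t` in `aplay u σ (ext c n N w) t`. If it is in the phase `wr a`: `x w` is its location coin, `inv_wr`,
`Vp_wr`, `Run.level`. If it is in the phase `pC` and the register is not marked: `x w` is the
corresponding coin of the owner `q` (`u q = own v`, `Run.pC_coin`), `inv_coin`, `Vp_coin`. Otherwise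
`x w = none`, `Run.Vp_det`. `resample`, `ext_update`, `Run.name_le`, `Run.rnd_lt` (the indices of
the coins are `< N`), `Run.GOK_run`. In all cases
`∑ y, Vp c (aplay u σ (ext c n N w_y) (t + 1)).1 ≤ card * Vp c (aplay u σ (ext c n N w) t).1`. -/
theorem avg_succ (hn : n ≤ 2 ^ (c * c)) (u : Fin n → ℕ) (hu : Function.Injective u)
    (σ : AStr n) {t N : ℕ} (hN : 2 * t + 4 * S0 c + 4 ≤ N) :
    ∑ w, Vp c (aplay u σ (ext c n N w) (t + 1)).1 ≤ ∑ w, Vp c (aplay u σ (ext c n N w) t).1 := by
  classical
  set P : ((Fin n × Fin N × Fin N) → Cn c) → Fin n :=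
    fun w => σ (aplay u σ (ext c n N w) t).2 with hP
  set X : ((Fin n × Fin N × Fin N) → Cn c) → Option (Fin n × Fin N × Fin N) :=
    fun w => avgX N u (P w) ((aplay u σ (ext c n N w) t).1.loc (P w))
      (aplay u σ (ext c n N w) t).1.gh with hX
  have hcard : (0 : ℝ) < (Fintype.card (Cn c) : ℝ) := by
    have : 0 < Fintype.card (Cn c) := Fintype.card_pos
    exact_mod_cast this
  have hstep : ∀ ω : Coins c n, (aplay u σ ω (t + 1)).1 =
      stepC c u ω (aplay u σ ω t).1 (σ (aplay u σ ω t).2) := fun ω => rfl
  -- the two kinds of coins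
  have hA : ∀ (w : (Fin n × Fin N × Fin N) → Cn c) (a : ℕ),
      ((aplay u σ (ext c n N w) t).1.loc (P w)).ph = .wr a →
      ∃ (h1 : ((aplay u σ (ext c n N w) t).1.loc (P w)).e < N) (h2 : 2 * a + 1 < N),
        X w = some (P w, ⟨((aplay u σ (ext c n N w) t).1.loc (P w)).e, h1⟩, ⟨2 * a + 1, h2⟩) ∧
        ∀ y, aplay u σ (ext c n N (Function.update w (P w,
          ⟨((aplay u σ (ext c n N w) t).1.loc (P w)).e, h1⟩, ⟨2 * a + 1, h2⟩) y)) t =
          aplay u σ (ext c n N w) t := by
    intro w a ha
    have hle := (runOf u hu σ (ext c n N w)).name_le t (P w)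
    unfold Run.loc at hle
    rw [runOf_cf] at hle
    have h3 := hle.2 a (Or.inl ha)
    have h1 : ((aplay u σ (ext c n N w) t).1.loc (P w)).e < N := by
      have := hle.1
      omega
    have h2 : 2 * a + 1 < N := by omega
    refine ⟨h1, h2, ?_, fun y => ?_⟩
    · simp only [hX, avgX]
      rw [ha]
      simp only
      rw [dif_pos ⟨h1, h2⟩]
    · rw [ext_update]
      exact inv_wr u hu σ (ext c n N w) t rfl ha y
  have hB : ∀ (w : (Fin n × Fin N × Fin N) → Cn c) (j i r v : ℕ) (b : Bool),
      ((aplay u σ (ext c n N w) t).1.loc (P w)).ph = .pC j i r b v →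
      (aplay u σ (ext c n N w) t).1.gh.rv ((aplay u σ (ext c n N w) t).1.loc (P w)).e (own v)
        (2 * r + j % 2) = false →
      ∃ (q : Fin n) (h1 : ((aplay u σ (ext c n N w) t).1.loc (P w)).e < N)
        (h2 : 2 * (2 * r + j % 2) < N), u q = own v ∧
        X w = some (q, ⟨((aplay u σ (ext c n N w) t).1.loc (P w)).e, h1⟩,
          ⟨2 * (2 * r + j % 2), h2⟩) ∧
        ∀ y, aplay u σ (ext c n N (Function.update w (q,
          ⟨((aplay u σ (ext c n N w) t).1.loc (P w)).e, h1⟩, ⟨2 * (2 * r + j % 2), h2⟩) y)) t =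
          (setM (aplay u σ (ext c n N w) t).1
            (.C ((aplay u σ (ext c n N w) t).1.loc (P w)).e (own v) (2 * r + j % 2))
            (bit c y + 1), (aplay u σ (ext c n N w) t).2) := by
    intro w j i r v b ha hr
    have hle := (runOf u hu σ (ext c n N w)).name_le t (P w)
    have hrnd := (runOf u hu σ (ext c n N w)).rnd_lt (t := t) (p := P w) (j := j) (r := r) (b := b)
    have hcoin := (runOf u hu σ (ext c n N w)).pC_coin (t := t) (p := P w) (j := j) (i := i)
      (r := r) (b := b) (v := v)
    unfold Run.loc at hle hrnd hcoin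
    rw [runOf_cf] at hle hrnd hcoin
    obtain ⟨q0, hq0, -⟩ := hcoin ha
    have hrl := hrnd (by
      rw [ha]
      exact ⟨i, v, Or.inr (Or.inr (Or.inr (Or.inr (Or.inr rfl))))⟩)
    have h1 : ((aplay u σ (ext c n N w) t).1.loc (P w)).e < N := by
      have := hle.1
      omega
    have h2 : 2 * (2 * r + j % 2) < N := by
      have := hrl.1
      have := hrl.2
      omega
    have hex : (∃ q, u q = own v) ∧ ((aplay u σ (ext c n N w) t).1.loc (P w)).e < N ∧
        2 * (2 * r + j % 2) < N := ⟨⟨q0, hq0⟩, h1, h2⟩
    refine ⟨hex.1.choose, h1, h2, hex.1.choose_spec, ?_, fun y => ?_⟩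
    · simp only [hX, avgX]
      rw [ha]
      simp only
      rw [if_pos hr, dif_pos hex]
    · rw [ext_update]
      exact inv_coin u hu σ (ext c n N w) t rfl ha hex.1.choose_spec hr y
  have hx : ∀ w i y, X w = some i → X (Function.update w i y) = some i := by
    intro w i y hi
    rcases hph : ((aplay u σ (ext c n N w) t).1.loc (P w)).ph with _ | _ | a | _ | _ | _ | _ | _ | _ |
      _ | _ | _ | _ | _ | ⟨j, i', r, b, v⟩ | _ | _ | _ | _ | _
    case wr =>
      obtain ⟨h1, h2, h3, h4⟩ := hA w _ hph
      rw [h3, Option.some.injEq] at hi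
      subst hi
      rw [← h3]
      simp only [hX, hP]
      rw [h4 y]
    case pC =>
      by_cases hr : (aplay u σ (ext c n N w) t).1.gh.rv
          ((aplay u σ (ext c n N w) t).1.loc (P w)).e (own v) (2 * r + j % 2) = false
      · obtain ⟨q, h1, h2, -, h3, h4⟩ := hB w _ _ _ _ _ hph hr
        rw [h3, Option.some.injEq] at hi
        subst hi
        rw [← h3]
        simp only [hX, hP]
        rw [h4 y]
        rfl
      · simp only [hX, avgX] at hi
        rw [hph] at hi
        simp only at hi
        rw [if_neg hr] at hi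
        exact absurd hi (by simp)
    all_goals
      simp only [hX, avgX] at hi
      rw [hph] at hi
      simp at hi
  have hmain : ∀ w : (Fin n × Fin N × Fin N) → Cn c,
      ∑ y : Cn c, Vp c (aplay u σ (ext c n N (match X w with
        | none => w
        | some i => Function.update w i y)) (t + 1)).1 ≤
      (Fintype.card (Cn c) : ℝ) * Vp c (aplay u σ (ext c n N w) t).1 := by
    intro w
    have hGOK : GOK c (aplay u σ (ext c n N w) t).1 := by
      rw [← runOf_cf u hu σ (ext c n N w) t]
      exact Run.GOK_run _ t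
    by_cases hw : ∃ a, ((aplay u σ (ext c n N w) t).1.loc (P w)).ph = .wr a
    · obtain ⟨a, ha⟩ := hw
      obtain ⟨h1, h2, h3, h4⟩ := hA w a ha
      have hlev := (runOf u hu σ (ext c n N w)).level (t := t) (a := a) (p := P w)
      unfold Run.loc at hlev
      rw [runOf_cf] at hlev
      have hac : a ≤ c := hlev.2.2 ha
      refine le_trans (le_of_eq (Finset.sum_congr rfl fun y _ => ?_))
        (Vp_wr u (aplay u σ (ext c n N w) t).1 hGOK (P w) a ha hac)
      rw [h3]
      simp only
      rw [hstep, h4 y, ext_update]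
      unfold stepC
      have hnm : nm ((aplay u σ (ext c n N w) t).1.loc (P w)) =
          (((aplay u σ (ext c n N w) t).1.loc (P w)).e, 2 * a + 1) := by
        unfold nm
        rw [ha]
      have hPP : σ (aplay u σ (ext c n N w) t).2 = P w := rfl
      rw [hPP, hnm]
      congr 2
      exact upd_self (ext c n N w) (P w, (((aplay u σ (ext c n N w) t).1.loc (P w)).e,
        2 * a + 1)) y
    · by_cases hw2 : ∃ j i r b v, ((aplay u σ (ext c n N w) t).1.loc (P w)).ph = .pC j i r b v ∧
          (aplay u σ (ext c n N w) t).1.gh.rv ((aplay u σ (ext c n N w) t).1.loc (P w)).e (own v)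
            (2 * r + j % 2) = false
      · obtain ⟨j, i, r, b, v, ha, hr⟩ := hw2
        obtain ⟨q, h1, h2, hq, h3, h4⟩ := hB w j i r v b ha hr
        refine le_trans (le_of_eq (Finset.sum_congr rfl fun y _ => ?_))
          (Vp_coin u (aplay u σ (ext c n N w) t).1 hGOK (P w) j i r v b ha hr
            (⟨0, Nat.two_pow_pos _⟩, ⟨0, Nat.two_pow_pos _⟩))
        rw [h3]
        simp only
        rw [hstep, h4 y]
        unfold stepC
        congr 1
        apply stepY_indep
        · intro k hk
          have : ((aplay u σ (ext c n N w) t).1.loc (P w)).ph = .coin k := hk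
          rw [ha] at this
          exact absurd this (by simp)
        · intro k hk
          have : ((aplay u σ (ext c n N w) t).1.loc (P w)).ph = .wr k := hk
          rw [ha] at this
          exact absurd this (by simp)
      · have hXn : X w = none := by
          simp only [hX, avgX]
          rcases hph : ((aplay u σ (ext c n N w) t).1.loc (P w)).ph with _ | _ | a | _ | _ | _ | _ |
            _ | _ | _ | _ | _ | _ | _ | ⟨j, i', r, b, v⟩ | _ | _ | _ | _ | _
          case wr => exact absurd ⟨_, hph⟩ hw
          case pC =>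
            simp only
            rw [if_neg]
            intro hr
            exact hw2 ⟨_, _, _, _, _, hph, hr⟩
          all_goals rfl
        rw [hXn]
        simp only
        rw [Finset.sum_const, Finset.card_univ, nsmul_eq_mul]
        refine mul_le_mul_of_nonneg_left ?_ hcard.le
        have h5 := (runOf u hu σ (ext c n N w)).Vp_det hn (t := t) ?_ ?_
        · rw [runOf_cf, runOf_cf] at h5
          exact h5
        · intro a ha
          apply hw
          refine ⟨a, ?_⟩
          unfold Run.st Run.loc at ha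
          rw [runOf_cf] at ha
          exact ha
        · rintro e j r ⟨he, i, b, v, ha, hr⟩
          apply hw2
          unfold Run.st Run.loc at ha he
          unfold Run.gh at hr
          rw [runOf_cf] at ha he hr
          refine ⟨j, i, r, b, v, ha, ?_⟩
          have he' : ((aplay u σ (ext c n N w) t).1.loc (P w)).e = e := he
          rw [he']
          exact hr
  have hres := resample (fun w => Vp c (aplay u σ (ext c n N w) (t + 1)).1) X hx
  have hsum : (Fintype.card (Cn c) : ℝ) * ∑ w, Vp c (aplay u σ (ext c n N w) (t + 1)).1 ≤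
      (Fintype.card (Cn c) : ℝ) * ∑ w, Vp c (aplay u σ (ext c n N w) t).1 := by
    rw [← hres, Finset.mul_sum]
    refine Finset.sum_le_sum fun w _ => ?_
    have h := hmain w
    cases hXw : X w with
    | none =>
      rw [hXw] at h
      exact h
    | some i =>
      rw [hXw] at h
      exact h
  exact le_of_mul_le_mul_left hsum hcard

/-- Induction on `t`, `Run.Vp_zero`. -/
theorem avg_Vp (hn : n ≤ 2 ^ (c * c)) (u : Fin n → ℕ) (hu : Function.Injective u)
    (σ : AStr n) {t N : ℕ} (hN : 2 * t + 4 * S0 c + 4 ≤ N) :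
    ∑ w, Vp c (aplay u σ (ext c n N w) t).1 ≤
      (Fintype.card ((Fin n × Fin N × Fin N) → Cn c) : ℝ) * (1 / 3) := by
  induction t with
  | zero =>
    rw [← nsmul_eq_mul, ← Finset.card_univ, ← Finset.sum_const]
    refine Finset.sum_le_sum fun w _ => ?_
    have := (runOf u hu σ (ext c n N w)).Vp_zero hn
    rw [runOf_cf] at this
    exact this
  | succ t ih => exact (avg_succ hn u hu σ (by omega)).trans (ih (by omega))

/-- `ep_le_Vp`. -/
theorem avg_ep (hn : n ≤ 2 ^ (c * c)) (u : Fin n → ℕ) (hu : Function.Injective u)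
    (σ : AStr n) {t N : ℕ} (hN : 2 * t + 4 * S0 c + 4 ≤ N) :
    ∑ w, (ep (aplay u σ (ext c n N w) t).1 : ℝ) ≤
      (Fintype.card ((Fin n × Fin N × Fin N) → Cn c) : ℝ) * (1 / 3) := by
  refine le_trans (Finset.sum_le_sum fun w _ => ?_) (avg_Vp hn u hu σ hN)
  apply ep_le_Vp
  rw [← runOf_cf u hu σ (ext c n N w) t]
  exact Run.GOK_run _ t

/-- Number of steps (before the output) of `p` until time `t`. -/
def Run.steps (R : Run c n) (t : ℕ) (p : Fin n) : ℕ :=
  match t with
  | 0 => 0
  | t + 1 => R.steps t p + (match (R.loc t p).ph with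
      | .done _ => 0
      | _ => if R.s t = p then 1 else 0)

/-- The number of steps taken in the current epoch. -/
def LS.w (c : ℕ) (s : LS) : ℕ :=
  match s.ph with
  | .coin k => k
  | .fr _ => 2 * S0 c + s.k + 1
  | .od => 2 * S0 c + s.k + 1
  | .done _ => 2 * S0 c + s.k + 2
  | _ => 2 * S0 c + s.k

/-- The counters of a local state are within the budget. -/
private def LS.fine (c : ℕ) (s : LS) : Prop :=
  (∀ k, s.ph = .coin k → k < 2 * S0 c ∧ s.k = 0) ∧ (s.ph.main = true → s.k < S0 c) ∧ s.k ≤ S0 c

private theorem S0_pos (c : ℕ) : 0 < S0 c := by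
  unfold S0
  omega

private theorem fine_init (o : ℕ) : LS.fine c (init o) := by
  have h := S0_pos c
  refine ⟨?_, ?_, ?_⟩
  · intro k hk
    simp only [init, Ph.coin.injEq] at hk
    exact ⟨by omega, rfl⟩
  · intro hk
    simp [init, Ph.main] at hk
  · exact Nat.zero_le _

private theorem fine_cap {s : LS} (q : ℕ) {φ : Ph} (hφ : ∀ k, φ ≠ .coin k) (hs : s.k < S0 c) :
    LS.fine c (cap c s q φ) := by
  unfold cap
  split_ifs with h
  · refine ⟨?_, ?_, ?_⟩
    · intro k hk
      simp at hk
    · intro hk
      simp [Ph.main] at hk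
    · show s.k + 1 ≤ S0 c
      omega
  · refine ⟨?_, ?_, ?_⟩
    · intro k hk
      exact absurd hk (hφ k)
    · intro _
      show s.k + 1 < S0 c
      omega
    · show s.k + 1 ≤ S0 c
      omega

private theorem fine_newE (s : LS) (x : ℕ) : LS.fine c (newE s x) := by
  have h := S0_pos c
  refine ⟨?_, ?_, ?_⟩
  · intro k hk
    simp only [newE, Ph.coin.injEq] at hk
    exact ⟨by omega, rfl⟩
  · intro hk
    simp [newE, Ph.main] at hk
  · exact Nat.zero_le _

private theorem fine_other {s : LS} {φ : Ph} (hφ : ∀ k, φ ≠ .coin k) (hm : φ.main = false)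
    (hs : s.k ≤ S0 c) : LS.fine c { s with ph := φ } := by
  refine ⟨?_, ?_, hs⟩
  · intro k hk
    exact absurd hk (hφ k)
  · intro hk
    rw [show ({ s with ph := φ } : LS).ph = φ from rfl, hm] at hk
    exact absurd hk (by simp)

private theorem fine_nxt {y : Cn c} {s : LS} {a : ℕ} (h : LS.fine c s) :
    LS.fine c (nxt c y s a) := by
  obtain ⟨h1, h2, h3⟩ := h
  unfold nxt
  cases hp : s.ph <;> rw [hp] at h1 h2 <;> dsimp only
  case coin k =>
    have h4 := h1 k rfl
    split_ifs with hk
    · refine ⟨?_, ?_, h3⟩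
      · intro k' hk'
        simp only [Ph.coin.injEq] at hk'
        exact ⟨by omega, h4.2⟩
      · intro hk'
        simp [Ph.main] at hk'
    · refine ⟨?_, ?_, h3⟩
      · intro k' hk'
        simp at hk'
      · intro _
        have := S0_pos c
        show s.k < S0 c
        omega
  case fd v => exact fine_other (by intro k hk; simp at hk) rfl h3
  case fr v =>
    split_ifs
    · exact fine_other (by intro k hk; simp at hk) rfl h3
    · exact fine_newE _ _
  case ow => exact fine_other (by intro k hk; simp at hk) rfl h3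
  case od => split_ifs <;> exact fine_newE _ _
  case done u =>
    refine ⟨?_, ?_, h3⟩
    · intro k hk
      rw [hp] at hk
      simp at hk
    · intro hk
      rw [hp] at hk
      simp [Ph.main] at hk
  all_goals
    have h4 := h2 rfl
    repeat' split_ifs
    all_goals
      refine fine_cap _ ?_ h4
      intro k
      simp

private theorem w_le {s : LS} (h : LS.fine c s) : LS.w c s ≤ 3 * S0 c + 2 := by
  obtain ⟨h1, h2, h3⟩ := h
  unfold LS.w
  cases hp : s.ph <;> rw [hp] at h1 h2 <;> dsimp only
  case coin k =>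
    have := (h1 k rfl).1
    omega
  all_goals omega

private theorem w_cap {s : LS} (q : ℕ) {φ : Ph} (hφ : ∀ k, φ ≠ .coin k) :
    2 * S0 c + s.k + 1 ≤ LS.w c (cap c s q φ) := by
  unfold cap LS.w
  split_ifs with h
  · dsimp only
    omega
  · cases φ <;> dsimp only
    case neg.coin k => exact absurd rfl (hφ k)
    all_goals omega

private theorem w_nxt {y : Cn c} {s : LS} {a : ℕ} (h : LS.fine c s) (hd : ∀ u, s.ph ≠ .done u) :
    (3 * S0 c + 3) * s.e + LS.w c s + 1 ≤
      (3 * S0 c + 3) * (nxt c y s a).e + LS.w c (nxt c y s a) := by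
  have hfn : ∀ x, (3 * S0 c + 3) * s.e + LS.w c s + 1 ≤
      (3 * S0 c + 3) * (newE s x).e + LS.w c (newE s x) := by
    intro x
    have h1 := w_le h
    have h2 : (newE s x).e = s.e + 1 := rfl
    have h3 : LS.w c (newE s x) = 0 := rfl
    rw [h2, h3, Nat.mul_succ]
    omega
  have hw : ∀ φ, s.ph = φ → LS.w c s = LS.w c ⟨s.e, s.x, s.k, s.q, φ⟩ := by
    rintro φ rfl
    rfl
  obtain ⟨h1, h2, h3⟩ := h
  unfold nxt
  cases hp : s.ph <;> rw [hp] at h1 h2 <;> dsimp only
  case coin k =>
    have h4 := h1 k rfl
    rw [hw _ hp]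
    split_ifs with hk
    · show (3 * S0 c + 3) * s.e + k + 1 ≤ (3 * S0 c + 3) * s.e + (k + 1)
      omega
    · show (3 * S0 c + 3) * s.e + k + 1 ≤ (3 * S0 c + 3) * s.e + (2 * S0 c + s.k)
      omega
  case fd v =>
    rw [hw _ hp]
    show (3 * S0 c + 3) * s.e + (2 * S0 c + s.k) + 1 ≤
      (3 * S0 c + 3) * s.e + (2 * S0 c + s.k + 1)
    omega
  case fr v =>
    split_ifs
    · rw [hw _ hp]
      show (3 * S0 c + 3) * s.e + (2 * S0 c + s.k + 1) + 1 ≤
        (3 * S0 c + 3) * s.e + (2 * S0 c + s.k + 2)
      omega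
    · exact hfn _
  case ow =>
    rw [hw _ hp]
    show (3 * S0 c + 3) * s.e + (2 * S0 c + s.k) + 1 ≤
      (3 * S0 c + 3) * s.e + (2 * S0 c + s.k + 1)
    omega
  case od => split_ifs <;> exact hfn _
  case done u => exact absurd hp (hd u)
  all_goals
    rw [hw _ hp]
    repeat' split_ifs
    all_goals
      rw [cap_e]
      refine le_trans (le_of_eq ?_) (Nat.add_le_add_left (w_cap _ ?_) _)
      · show (3 * S0 c + 3) * s.e + (2 * S0 c + s.k) + 1 =
          (3 * S0 c + 3) * s.e + (2 * S0 c + s.k + 1)
        omega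
      · intro k
        simp

private theorem steps_w (R : Run c n) (p : Fin n) (t : ℕ) :
    LS.fine c (R.loc t p) ∧
      R.steps t p ≤ (3 * S0 c + 3) * (R.loc t p).e + LS.w c (R.loc t p) := by
  induction t with
  | zero => exact ⟨fine_init _, Nat.zero_le _⟩
  | succ t ih =>
    by_cases hp : p = R.s t
    · subst hp
      rw [R.loc_succ_self]
      refine ⟨fine_nxt ih.1, ?_⟩
      have hl : R.loc t (R.s t) = R.st t := rfl
      rw [hl] at ih
      by_cases hd : ∃ u, (R.st t).ph = .done u
      · obtain ⟨u, hu⟩ := hd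
        have hn : nxt c (R.y t) (R.st t) (R.rs t) = R.st t := by
          unfold nxt
          rw [hu]
        have hs : R.steps (t + 1) (R.s t) = R.steps t (R.s t) := by
          show R.steps t (R.s t) + _ = _
          rw [hl, hu]
          rfl
        rw [hn, hs]
        exact ih.2
      · have hd' : ∀ u, (R.st t).ph ≠ .done u := fun u hu => hd ⟨u, hu⟩
        have h1 := w_nxt (y := R.y t) (a := R.rs t) ih.1 hd'
        have h2 : R.steps (t + 1) (R.s t) ≤ R.steps t (R.s t) + 1 := by
          show R.steps t (R.s t) + _ ≤ _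
          apply Nat.add_le_add_left
          split
          · exact Nat.zero_le _
          · split_ifs
            · exact le_refl _
            · exact Nat.zero_le _
        have h3 := ih.2
        omega
    · rw [R.loc_succ_ne t hp]
      refine ⟨ih.1, ?_⟩
      have hs : R.steps (t + 1) p = R.steps t p := by
        show R.steps t p + _ = _
        split
        · rfl
        · rw [if_neg (fun hh => hp hh.symm)]
          rfl
      rw [hs]
      exact ih.2

/-- Induction on `t`: `steps ≤ (3 * S0 + 3) * e + w`, and `k ≤ S0 c`, in the phase `coin k` also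
`k < 2 * S0 c`. -/
theorem Run.steps_le (R : Run c n) (t : ℕ) (p : Fin n) :
    R.steps t p ≤ (3 * S0 c + 3) * ((R.loc t p).e + 1) := by
  obtain ⟨h1, h2⟩ := steps_w R p t
  have h3 := w_le h1
  rw [Nat.mul_succ]
  omega

end Pool.Agent.Lib.MP_2ab09f_lc.SQ
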