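import Mathlib

import Pool.Agent.Lib.MP_2ab09f_lcS.Adv

import Pool.Agent.Lib.MP_2ab09f_lcS.Avg

/-!
The algorithm in the model, and the simulation of its plays by the abstract runs.
-/

open MeasureTheory

open scoped ENNReal

namespace Pool.Agent.Lib.MP_2ab09f_lc.SQ

variable {c n : ℕ}

/-- Numbers of the registers. -/
def Reg.code : Reg → ℕ
  | .F e i => 8 * Nat.pair e i
  | .Z e j => 8 * Nat.pair e j + 1
  | .X e j r b => 8 * Nat.pair e (Nat.pair j (2 * r + b.toNat)) + 2
  | .W e j r => 8 * Nat.pair e (Nat.pair j r) + 3
  | .C e o k => 8 * Nat.pair e (Nat.pair o k) + 4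
  | .D e => 8 * e + 5
  | .V e => 8 * e + 6
  | .T => 7

/-- Residues mod `8`, `Nat.pair_eq_pair`. -/
theorem code_inj : Function.Injective Reg.code := by
  intro x y h
  cases x with
  | F e i =>
    cases y <;> simp only [Reg.code] at h <;> try omega
    have h1 := Nat.pair_eq_pair.1 (Nat.eq_of_mul_eq_mul_left (by norm_num) h)
    rw [h1.1, h1.2]
  | Z e j =>
    cases y <;> simp only [Reg.code] at h <;> try omega
    have h1 := Nat.pair_eq_pair.1 (Nat.eq_of_mul_eq_mul_left (by norm_num) (Nat.add_right_cancel h))
    rw [h1.1, h1.2]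
  | X e j r b =>
    cases y <;> simp only [Reg.code] at h <;> try omega
    rename_i e' j' r' b'
    have h1 := Nat.pair_eq_pair.1 (Nat.eq_of_mul_eq_mul_left (by norm_num) (Nat.add_right_cancel h))
    have h2 := Nat.pair_eq_pair.1 h1.2
    have h3 : r = r' ∧ b.toNat = b'.toNat := by
      have h4 := Bool.toNat_lt b
      have h5 := Bool.toNat_lt b'
      have h6 := h2.2
      omega
    have h4 : b = b' := by
      cases b <;> cases b' <;> first | rfl | exact absurd h3.2 (by decide)
    rw [h1.1, h2.1, h3.1, h4]
  | W e j r =>
    cases y <;> simp only [Reg.code] at h <;> try omega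
    have h1 := Nat.pair_eq_pair.1 (Nat.eq_of_mul_eq_mul_left (by norm_num) (Nat.add_right_cancel h))
    have h2 := Nat.pair_eq_pair.1 h1.2
    rw [h1.1, h2.1, h2.2]
  | C e o k =>
    cases y <;> simp only [Reg.code] at h <;> try omega
    have h1 := Nat.pair_eq_pair.1 (Nat.eq_of_mul_eq_mul_left (by norm_num) (Nat.add_right_cancel h))
    have h2 := Nat.pair_eq_pair.1 h1.2
    rw [h1.1, h2.1, h2.2]
  | D e =>
    cases y <;> simp only [Reg.code] at h <;> try omega
    rename_i e'
    have h1 : e = e' := by omega
    rw [h1]
  | V e =>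
    cases y <;> simp only [Reg.code] at h <;> try omega
    rename_i e'
    have h1 : e = e' := by omega
    rw [h1]
  | T => cases y <;> simp only [Reg.code] at h <;> first | rfl | omega

def toAct : AAct → Act
  | .read r => .read r.code
  | .write r v => .write r.code v
  | .out u => .out u

/-- The local state of the processor with id `i` and coins `w` after the responses `h`. -/
def stOf (c i : ℕ) (w : ℕ × ℕ → Cn c) (h : List ℕ) : LS :=
  h.foldl (fun s a => nxt c (w (nm s)) s a) (init i)

/-- The program. -/
def prog (c i : ℕ) (w : ℕ × ℕ → Cn c) : Prog := fun h =>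
  toAct (act c i (w (nm (stOf c i w h))) (stOf c i w h))

/-- The visible events in the model. -/
def toEv : AEv n → Ev n
  | .read p r v => .read p r.code v
  | .write p r => .write p r.code
  | .out p u => .out p u

theorem Sim_st (i : ℕ) (w : ℕ × ℕ → Cn c) (h : List ℕ) (a : ℕ) :
    stOf c i w (h ++ [a]) = nxt c (w (nm (stOf c i w h))) (stOf c i w h) a := by
  unfold stOf
  rw [List.foldl_append]
  rfl

theorem Sim_out {o a : ℕ} {y : Cn c} {s : LS} (h : act c o y s = .out a) : s.ph = .done a := by
  unfold act at h
  cases hp : s.ph <;> rw [hp] at h <;> simp at h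
  · split_ifs at h
  · rw [h]

theorem Sim_done {a o : ℕ} {y : Cn c} {s : LS} (h : s.ph = .done a) : act c o y s = .out a := by
  unfold act
  rw [h]

theorem Sim_nxt {a b : ℕ} {y : Cn c} {s : LS} (h : s.ph = .done a) : nxt c y s b = s := by
  unfold nxt
  rw [h]

/-- The configuration of the model corresponds to the abstract configuration. -/
def SimRel (u : Fin n → ℕ) (ω : Coins c n) (κ : Conf (Fin n)) (κ' : CF n) : Prop :=
  (∀ r : Reg, κ.mem r.code = κ'.mem r) ∧ ∀ p, stOf c (u p) (ω p) (κ.hist p) = κ'.loc p

theorem Sim_prog {u : Fin n → ℕ} {ω : Coins c n} {κ : Conf (Fin n)} {κ' : CF n}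
    (h : SimRel u ω κ κ') (p : Fin n) : prog c (u p) (ω p) (κ.hist p) =
      toAct (act c (u p) (ω p (nm (κ'.loc p))) (κ'.loc p)) := by
  unfold prog
  rw [h.2 p]

theorem Sim_upd {h : Fin n → List ℕ} {κ' : Fin n → LS} {u : Fin n → ℕ} {ω : Coins c n}
    (h2 : ∀ p, stOf c (u p) (ω p) (h p) = κ' p) (p : Fin n) (a : ℕ) (q : Fin n) :
    stOf c (u q) (ω q) (Function.update h p (h p ++ [a]) q) =
      Function.update κ' p (nxt c (ω p (nm (κ' p))) (κ' p) a) q := by
  by_cases hq : q = p
  · subst hq
    rw [Function.update_self, Function.update_self, Sim_st, h2]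
  · rw [Function.update_of_ne hq, Function.update_of_ne hq, h2]

theorem Sim_step {u : Fin n → ℕ} {ω : Coins c n} {κ : Conf (Fin n)} {κ' : CF n}
    (h : SimRel u ω κ κ') (p : Fin n) :
    SimRel u ω (step (fun p => prog c (u p) (ω p)) κ p) (stepC c u ω κ' p) := by
  have hp := Sim_prog h p
  have e1 : (stepC c u ω κ' p).mem =
      memOf κ'.mem (act c (u p) (ω p (nm (κ'.loc p))) (κ'.loc p)) := rfl
  have e2 : (stepC c u ω κ' p).loc = Function.update κ'.loc p (nxt c (ω p (nm (κ'.loc p)))
      (κ'.loc p) (respOf κ'.mem (act c (u p) (ω p (nm (κ'.loc p))) (κ'.loc p)))) := rfl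
  unfold SimRel
  rw [e1, e2]
  unfold step
  simp only [hp]
  cases hA : act c (u p) (ω p (nm (κ'.loc p))) (κ'.loc p) with
  | read r =>
    simp only [toAct, respOf, memOf]
    refine ⟨h.1, fun q => ?_⟩
    rw [h.1 r]
    exact Sim_upd h.2 p _ q
  | write r v =>
    simp only [toAct, respOf, memOf]
    refine ⟨fun r' => ?_, fun q => Sim_upd h.2 p _ q⟩
    by_cases hr : r' = r
    · subst hr
      simp
    · have hr' : r'.code ≠ r.code := fun hh => hr (code_inj hh)
      simp only [Function.update_of_ne hr, Function.update_of_ne hr']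
      exact h.1 r'
  | out a =>
    simp only [toAct, respOf, memOf]
    refine ⟨h.1, fun q => ?_⟩
    simp only [Sim_nxt (Sim_out hA), Function.update_eq_self]
    exact h.2 q

theorem Sim_ev {u : Fin n → ℕ} {ω : Coins c n} {κ : Conf (Fin n)} {κ' : CF n}
    (h : SimRel u ω κ κ') (p : Fin n) :
    event (fun p => prog c (u p) (ω p)) κ p = toEv (evS u ω κ' p) := by
  have hp := Sim_prog h p
  unfold event
  simp only [hp]
  unfold evS
  cases hA : act c (u p) (ω p (nm (κ'.loc p))) (κ'.loc p) with
  | read r =>
    simp only [toAct, evA, toEv]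
    rw [h.1 r]
  | write r v => simp only [toAct, evA, toEv]
  | out a => simp only [toAct, evA, toEv]

theorem Sim_init (u : Fin n → ℕ) (ω : Coins c n) :
    SimRel u ω ⟨fun _ => 0, fun _ => []⟩ (initC u) := ⟨fun _ => rfl, fun _ => rfl⟩

/-- Simulation. With `P p = prog c (u p) (ω p)` and the abstract strategy
`fun h => σ (h.map toEv)`. Induction on `t`: memory (`code_inj`), states, events. In the phase
`done` the model does not record a response and `nxt` does not change the state. -/
theorem sim_play (u : Fin n → ℕ) (σ : Adv n) (ω : Coins c n) (t : ℕ) :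
    (∀ r : Reg, (play (fun p => prog c (u p) (ω p)) σ t).1.mem r.code =
      (aplay u (fun h => σ (h.map toEv)) ω t).1.mem r) ∧
    (∀ p, stOf c (u p) (ω p) ((play (fun p => prog c (u p) (ω p)) σ t).1.hist p) =
      (aplay u (fun h => σ (h.map toEv)) ω t).1.loc p) ∧
    (play (fun p => prog c (u p) (ω p)) σ t).2 =
      (aplay u (fun h => σ (h.map toEv)) ω t).2.map toEv := by
  have key : SimRel u ω (play (fun p => prog c (u p) (ω p)) σ t).1
      (aplay u (fun h => σ (h.map toEv)) ω t).1 ∧
      (play (fun p => prog c (u p) (ω p)) σ t).2 =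
        (aplay u (fun h => σ (h.map toEv)) ω t).2.map toEv := by
    induction t with
    | zero => exact ⟨Sim_init u ω, rfl⟩
    | succ t ih =>
      obtain ⟨h1, h2⟩ := ih
      have h3 : σ (play (fun p => prog c (u p) (ω p)) σ t).2 =
          σ ((aplay u (fun h => σ (h.map toEv)) ω t).2.map toEv) := by rw [h2]
      constructor
      · show SimRel u ω (step _ (play (fun p => prog c (u p) (ω p)) σ t).1
          (σ (play (fun p => prog c (u p) (ω p)) σ t).2))
          (stepC c u ω (aplay u (fun h => σ (h.map toEv)) ω t).1
            (σ ((aplay u (fun h => σ (h.map toEv)) ω t).2.map toEv)))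
        rw [h3]
        exact Sim_step h1 _
      · show (play (fun p => prog c (u p) (ω p)) σ t).2 ++ [event _ _
          (σ (play (fun p => prog c (u p) (ω p)) σ t).2)] =
          ((aplay u (fun h => σ (h.map toEv)) ω t).2 ++ [evS u ω
            (aplay u (fun h => σ (h.map toEv)) ω t).1
            (σ ((aplay u (fun h => σ (h.map toEv)) ω t).2.map toEv))]).map toEv
        rw [List.map_append, h3, h2, Sim_ev h1]
        rfl
  exact ⟨key.1.1, key.1.2, key.2⟩

/-- The number of steps in the model is the number of steps of the run. Induction, `sim_play`. -/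
theorem sim_steps (u : Fin n → ℕ) (hu : Function.Injective u) (σ : Adv n) (ω : Coins c n)
    (t : ℕ) (p : Fin n) :
    ((play (fun p => prog c (u p) (ω p)) σ t).1.hist p).length =
      (runOf u hu (fun h => σ (h.map toEv)) ω).steps t p := by
  induction t with
  | zero => rfl
  | succ t ih =>
    obtain ⟨h1, h2, h3⟩ := sim_play u σ ω t
    have h4 : σ (play (fun p => prog c (u p) (ω p)) σ t).2 =
        (runOf u hu (fun h => σ (h.map toEv)) ω).s t := by
      rw [h3]
      rfl
    have h5 : ∀ q, (aplay u (fun h => σ (h.map toEv)) ω t).1.loc q =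
        (runOf u hu (fun h => σ (h.map toEv)) ω).loc t q := by
      intro q
      rw [← runOf_cf u hu]
      rfl
    have hrel : SimRel u ω (play (fun p => prog c (u p) (ω p)) σ t).1
      (aplay u (fun h => σ (h.map toEv)) ω t).1 := ⟨h1, h2⟩
    have h6 := Sim_prog hrel p
    rw [h5 p] at h6
    show ((step (fun p => prog c (u p) (ω p)) (play (fun p => prog c (u p) (ω p)) σ t).1
      (σ (play (fun p => prog c (u p) (ω p)) σ t).2)).hist p).length =
      (runOf u hu (fun h => σ (h.map toEv)) ω).steps t p +
        (match ((runOf u hu (fun h => σ (h.map toEv)) ω).loc t p).ph with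
          | .done _ => 0
          | _ => if (runOf u hu (fun h => σ (h.map toEv)) ω).s t = p then 1 else 0)
    rw [h4, ← ih]
    by_cases hp : (runOf u hu (fun h => σ (h.map toEv)) ω).s t = p
    · rw [hp]
      unfold step
      simp only [h6]
      cases hA : act c (u p) (ω p (nm ((runOf u hu (fun h => σ (h.map toEv)) ω).loc t p)))
          ((runOf u hu (fun h => σ (h.map toEv)) ω).loc t p) with
      | read r =>
        simp only [toAct, Function.update_self, List.length_append, List.length_singleton]
        cases hq : ((runOf u hu (fun h => σ (h.map toEv)) ω).loc t p).ph with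
        | done a =>
          rw [Sim_done hq] at hA
          exact absurd hA (by simp)
        | _ => simp
      | write r v =>
        simp only [toAct, Function.update_self, List.length_append, List.length_singleton]
        cases hq : ((runOf u hu (fun h => σ (h.map toEv)) ω).loc t p).ph with
        | done a =>
          rw [Sim_done hq] at hA
          exact absurd hA (by simp)
        | _ => simp
      | out a =>
        simp only [toAct, Sim_out hA, Nat.add_zero]
    · have h7 : ∀ q, q ≠ p → ((step (fun p => prog c (u p) (ω p))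
          (play (fun p => prog c (u p) (ω p)) σ t).1 q).hist p) =
          (play (fun p => prog c (u p) (ω p)) σ t).1.hist p := by
        intro q hq
        unfold step
        split
        · simp only [Function.update_of_ne (Ne.symm hq)]
        · simp only [Function.update_of_ne (Ne.symm hq)]
        · rfl
      rw [h7 _ hp]
      cases hq : ((runOf u hu (fun h => σ (h.map toEv)) ω).loc t p).ph <;> simp [hp]

/-- For a fixed finite schedule: the configuration of the model after the schedule `L` corresponds to
the abstract run with the schedule `fun t => L.getD t p0` at the time `L.length`. (Induction on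
prefixes: `List.foldl_append`, or a lemma for `L.take t`.) -/
theorem sim_run (u : Fin n → ℕ) (hu : Function.Injective u) (ω : Coins c n) (L : List (Fin n))
    (p0 : Fin n) (p : Fin n) :
    stOf c (u p) (ω p) ((run (fun p => prog c (u p) (ω p)) L).hist p) =
      (Run.loc (⟨u, hu, ω, fun t => L.getD t p0⟩ : Run c n) L.length p) := by
  have h1 : ∀ t ≤ L.length, SimRel u ω (run (fun p => prog c (u p) (ω p)) (L.take t))
      ((⟨u, hu, ω, fun t => L.getD t p0⟩ : Run c n).cf t) := by
    intro t
    induction t with
    | zero =>
      intro _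
      rw [List.take_zero]
      exact Sim_init u ω
    | succ t ih =>
      intro ht
      have h2 := ih (by omega)
      have h3 : L.take (t + 1) = L.take t ++ [L.getD t p0] := by
        rw [List.take_succ_eq_append_getElem (by omega), List.getD_eq_getElem _ _ (by omega)]
      rw [h3]
      unfold run
      rw [List.foldl_append]
      exact Sim_step h2 (L.getD t p0)
  have h2 := (h1 L.length le_rfl).2 p
  rw [List.take_length] at h2
  exact h2

/-- Outputs. `sim_run`; `act` is `out u` only in the phase `done u`. -/
theorem sim_out (u : Fin n → ℕ) (hu : Function.Injective u) (ω : Coins c n) (L : List (Fin n))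
    (p0 : Fin n) (p : Fin n) (a : ℕ)
    (h : Outputs (fun p => prog c (u p) (ω p)) (run (fun p => prog c (u p) (ω p)) L) p a) :
    (Run.loc (⟨u, hu, ω, fun t => L.getD t p0⟩ : Run c n) L.length p).ph = .done a := by
  have h1 : prog c (u p) (ω p) ((run (fun p => prog c (u p) (ω p)) L).hist p) = .out a := h
  have h2 : ∀ X, prog c (u p) (ω p) X = toAct (act c (u p)
      (ω p (nm (stOf c (u p) (ω p) X))) (stOf c (u p) (ω p) X)) := fun _ => rfl
  rw [h2, sim_run u hu ω L p0 p] at h1
  cases hA : act c (u p)
      (ω p (nm (Run.loc (⟨u, hu, ω, fun t => L.getD t p0⟩ : Run c n) L.length p)))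
      (Run.loc (⟨u, hu, ω, fun t => L.getD t p0⟩ : Run c n) L.length p) with
  | read r =>
    rw [hA] at h1
    exact absurd h1 (by simp [toAct])
  | write r v =>
    rw [hA] at h1
    exact absurd h1 (by simp [toAct])
  | out b =>
    rw [hA] at h1
    have h3 : b = a := by simpa [toAct] using h1
    rw [Sim_out hA, h3]

/-- Agreement and validity for all coins and all finite schedules (`Run.agreement`,
`Run.validity`). -/
theorem correct_all (u : Fin n → ℕ) (hu : Function.Injective u) (ω : Coins c n)
    (L : List (Fin n)) :
    (∀ p a, Outputs (fun p => prog c (u p) (ω p)) (run (fun p => prog c (u p) (ω p)) L) p a →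
      ∃ q, a = u q) ∧
    ∀ p p' a a', Outputs (fun p => prog c (u p) (ω p)) (run (fun p => prog c (u p) (ω p)) L) p a →
      Outputs (fun p => prog c (u p) (ω p)) (run (fun p => prog c (u p) (ω p)) L) p' a' →
      a = a' := by
  constructor
  · intro p a h
    exact Run.validity _ (sim_out u hu ω L p p a h)
  · intro p p' a a' h h'
    exact Run.agreement _ (sim_out u hu ω L p p a h) (sim_out u hu ω L p p' a' h')

end Pool.Agent.Lib.MP_2ab09f_lc.SQ
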