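import Mathlib

import Pool.Agent.Lib.MP_2ab09f_lcS.Sim

/-!
The probability space of the coins, and the expectation.
-/

open MeasureTheory

open scoped ENNReal

namespace Pool.Agent.Lib.MP_2ab09f_lc.SQ

variable {c n : ℕ}

instance (c : ℕ) : Nonempty (Cn c) := ⟨(⟨0, Nat.two_pow_pos _⟩, ⟨0, Nat.two_pow_pos _⟩)⟩

noncomputable section

/-- One coin: the uniform distribution. -/
def nu (c : ℕ) : Measure (Cn c) := (PMF.uniformOfFintype (Cn c)).toMeasure

instance (c : ℕ) : IsProbabilityMeasure (nu c) := by unfold nu; infer_instance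

/-- The coins of one processor: independent uniform coins. -/
def mu1 (c : ℕ) : Measure (ℕ × ℕ → Cn c) := Measure.infinitePi fun _ => nu c

instance (c : ℕ) : IsProbabilityMeasure (mu1 c) := by unfold mu1; infer_instance

/-- The coins of all processors. -/
def mu (c n : ℕ) : Measure (Coins c n) := Measure.pi fun _ : Fin n => mu1 c

instance (c n : ℕ) : IsProbabilityMeasure (mu c n) := by unfold mu; infer_instance

/-- The function depends only on the coins with names `(a, b)`, `a, b < N`. -/
def Dep (N : ℕ) {α : Type*} (f : Coins c n → α) : Prop :=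
  ∀ ω ω' : Coins c n, (∀ p a b, a < N → b < N → ω p (a, b) = ω' p (a, b)) → f ω = f ω'

/-- Restriction to the finitely many coins with names below `N`. -/
def res (c n N : ℕ) (ω : Coins c n) : (Fin n × Fin N × Fin N) → Cn c :=
  fun x => ω x.1 (x.2.1.1, x.2.2.1)

/-- `f ω = f (ext (res ω))`. -/
theorem Dep.eq {N : ℕ} {α : Type*} {f : Coins c n → α} (h : Dep N f) (ω : Coins c n) :
    f ω = f (ext c n N (res c n N ω)) := by
  refine h _ _ fun p a b ha hb => ?_
  unfold ext res
  rw [dif_pos (show (a, b).1 < N ∧ (a, b).2 < N from ⟨ha, hb⟩)]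

/-- The restriction is measurable and a function with `Dep N` is measurable (it factors through the
finite discrete space of restrictions). -/
theorem measurable_res (N : ℕ) : Measurable (res c n N) := by
  rw [measurable_pi_iff]
  intro x
  exact (measurable_pi_apply (x.2.1.1, x.2.2.1)).comp (measurable_pi_apply x.1)

theorem Dep.measurable {N : ℕ} {α : Type*} [MeasurableSpace α] {f : Coins c n → α}
    (h : Dep N f) : Measurable f := by
  have h1 : f = (fun w => f (ext c n N w)) ∘ res c n N := funext fun ω => h.eq ω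
  rw [h1]
  exact (measurable_of_countable _).comp (measurable_res N)

theorem Meas_nu (y : Cn c) : nu c {y} = ((Fintype.card (Cn c) : ℝ≥0∞))⁻¹ := by
  unfold nu
  rw [PMF.toMeasure_apply_singleton _ _ (measurableSet_singleton y),
    PMF.uniformOfFintype_apply]

theorem Meas_box (N : ℕ) (w : (Fin n × Fin N × Fin N) → Cn c) :
    {ω : Coins c n | res c n N ω = w} = Set.pi Set.univ (fun p : Fin n =>
      Set.pi (↑(Finset.range N ×ˢ Finset.range N) : Set (ℕ × ℕ))
        (fun x => ({ext c n N w p x} : Set (Cn c)))) := by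
  ext ω
  rw [Set.mem_ofPred_eq, Set.mem_univ_pi]
  constructor
  · rintro rfl p x hx
    rw [Finset.mem_coe, Finset.mem_product, Finset.mem_range, Finset.mem_range] at hx
    rw [Set.mem_singleton_iff]
    unfold ext res
    rw [dif_pos hx]
  · intro h
    funext x
    have h1 := h x.1 (x.2.1.1, x.2.2.1) (by
      rw [Finset.mem_coe, Finset.mem_product, Finset.mem_range, Finset.mem_range]
      exact ⟨x.2.1.2, x.2.2.2⟩)
    rw [Set.mem_singleton_iff] at h1
    unfold res
    rw [h1]
    unfold ext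
    exact dif_pos (⟨x.2.1.2, x.2.2.2⟩ : x.2.1.1 < N ∧ x.2.2.1 < N)

/-- The image of the measure under the restriction is uniform: for `w`, the set of `ω` with
`res ω = w` is the box `∏ p, {v | ∀ a b < N, v (a, b) = w (p, a, b)}`: `Measure.pi_pi` and
`Measure.infinitePi_pi` (finite sets of indices), `nu {y} = 1 / card`. -/
theorem mu_res (N : ℕ) (w : (Fin n × Fin N × Fin N) → Cn c) :
    mu c n {ω | res c n N ω = w} =
      ((Fintype.card ((Fin n × Fin N × Fin N) → Cn c) : ℝ≥0∞))⁻¹ := by
  rw [Meas_box]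
  unfold mu
  rw [Measure.pi_pi]
  have h1 : ∀ p : Fin n, mu1 c (Set.pi (↑(Finset.range N ×ˢ Finset.range N) : Set (ℕ × ℕ))
      (fun x => ({ext c n N w p x} : Set (Cn c)))) =
        ((Fintype.card (Cn c) : ℝ≥0∞))⁻¹ ^ (N * N) := by
    intro p
    unfold mu1
    rw [Measure.infinitePi_pi _ (fun x _ => measurableSet_singleton _)]
    simp only [Meas_nu]
    rw [Finset.prod_const, Finset.card_product, Finset.card_range]
  simp only [h1]
  have h2 : Fintype.card (Fin n × Fin N × Fin N) = N * N * n := by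
    rw [Fintype.card_prod, Fintype.card_prod, Fintype.card_fin, Fintype.card_fin, mul_comm]
  rw [Finset.prod_const, Finset.card_univ, Fintype.card_fin, ← pow_mul, Fintype.card_fun, h2,
    Nat.cast_pow, ENNReal.inv_pow]

/-- The expectation of a function of finitely many coins is the average. -/
theorem lintegral_dep {N : ℕ} {f : Coins c n → ℝ≥0∞} (h : Dep N f) :
    ∫⁻ ω, f ω ∂(mu c n) = (∑ w, f (ext c n N w)) *
      ((Fintype.card ((Fin n × Fin N × Fin N) → Cn c) : ℝ≥0∞))⁻¹ := by
  have h1 : ∫⁻ ω, f ω ∂(mu c n) =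
      ∫⁻ ω, (fun w => f (ext c n N w)) (res c n N ω) ∂(mu c n) := by
    refine lintegral_congr fun ω => ?_
    exact h.eq ω
  rw [h1, ← lintegral_map (f := fun w => f (ext c n N w)) (measurable_of_countable _)
    (measurable_res N), lintegral_fintype, Finset.sum_mul]
  refine Finset.sum_congr rfl fun w _ => ?_
  rw [Measure.map_apply (measurable_res N) (measurableSet_singleton w)]
  exact congrArg (f (ext c n N w) * ·) (mu_res N w)

/-- The names of the coins of a state at time `t` are small. -/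
def SmallNm (c t : ℕ) (s : LS) : Prop :=
  s.e ≤ t ∧ (∀ a, (s.ph = .wr a ∨ ∃ f, s.ph = .rd a f) → a ≤ t) ∧
    ∀ k, s.ph = .coin k → k < 2 * S0 c

theorem S0_pos (c : ℕ) : 0 < S0 c := by
  unfold S0
  omega

theorem SmallNm.cap {t : ℕ} {s : LS} (h : SmallNm c t s) {q : ℕ} {ph : Ph}
    (h1 : ∀ a, (ph = .wr a ∨ ∃ f, ph = .rd a f) → a ≤ t + 1) (h2 : ∀ k, ph ≠ .coin k) :
    SmallNm c (t + 1) (cap c s q ph) := by
  unfold SQ.cap
  split_ifs with hh
  · refine ⟨h.1.trans (Nat.le_succ t), ?_, ?_⟩
    · rintro a (ha | ⟨f, ha⟩) <;> simp at ha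
    · intro k hk
      simp at hk
  · exact ⟨h.1.trans (Nat.le_succ t), h1, fun k hk => absurd hk (h2 k)⟩

theorem SmallNm.nxt {t : ℕ} {s : LS} (h : SmallNm c t s) (y : Cn c) (a : ℕ) :
    SmallNm c (t + 1) (nxt c y s a) := by
  have hS := S0_pos c
  have hnew : ∀ x, SmallNm c (t + 1) (newE s x) := by
    intro x
    refine ⟨Nat.succ_le_succ h.1, ?_, ?_⟩
    · rintro b (hb | ⟨f, hb⟩) <;> simp [newE] at hb
    · intro k hk
      simp only [newE, Ph.coin.injEq] at hk
      omega
  have hph : ∀ ph : Ph, (∀ b, (ph = .wr b ∨ ∃ f, ph = .rd b f) → b ≤ t + 1) →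
      (∀ k, ph = .coin k → k < 2 * S0 c) → SmallNm c (t + 1) { s with ph := ph } :=
    fun ph h1 h2 => ⟨h.1.trans (Nat.le_succ t), h1, h2⟩
  unfold SQ.nxt
  cases hp : s.ph <;> dsimp only
  case coin k =>
    split_ifs with hk
    · refine hph _ ?_ ?_
      · rintro b (hb | ⟨f, hb⟩) <;> simp at hb
      · intro k' hk'
        simp only [Ph.coin.injEq] at hk'
        omega
    · refine hph _ ?_ ?_
      · rintro b (hb | ⟨f, hb⟩) <;> simp at hb
        omega
      · intro k' hk'
        simp at hk'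
  case rd l f =>
    have hl : l ≤ t := h.2.1 l (Or.inr ⟨f, hp⟩)
    refine h.cap ?_ ?_
    · intro b hb
      split_ifs at hb <;> simp at hb <;> omega
    · intro k
      split_ifs <;> simp
  case wr l =>
    have hl : l ≤ t := h.2.1 l (Or.inl hp)
    refine h.cap ?_ ?_
    · intro b hb
      simp at hb
      omega
    · intro k
      simp
  case fr v => split_ifs with hh
               · refine hph _ ?_ ?_
                 · rintro b (hb | ⟨f, hb⟩) <;> simp at hb
                 · intro k' hk'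
                   simp at hk'
               · exact hnew _
  case od => split_ifs <;> exact hnew _
  case fd v =>
    refine hph _ ?_ ?_
    · rintro b (hb | ⟨f, hb⟩) <;> simp at hb
    · intro k' hk'
      simp at hk'
  case ow =>
    refine hph _ ?_ ?_
    · rintro b (hb | ⟨f, hb⟩) <;> simp at hb
    · intro k' hk'
      simp at hk'
  case done v =>
    refine ⟨h.1.trans (Nat.le_succ t), ?_, ?_⟩
    · rintro b (hb | ⟨f, hb⟩) <;> rw [hp] at hb <;> simp at hb
    · intro k' hk'
      rw [hp] at hk'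
      simp at hk'
  all_goals
    first
    | (refine h.cap ?_ ?_
       · intro b hb
         first
         | (simp at hb; done)
         | (split_ifs at hb <;> simp at hb)
       · intro k
         first
         | (simp; done)
         | (split_ifs <;> simp))
    | (split_ifs <;>
       (refine h.cap ?_ ?_
        · intro b hb
          simp at hb
        · intro k
          simp))

theorem smallNm_aplay (u : Fin n → ℕ) (σ : AStr n) (ω : Coins c n) (t : ℕ) (p : Fin n) :
    SmallNm c t ((aplay u σ ω t).1.loc p) := by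
  induction t generalizing p with
  | zero =>
    refine ⟨le_rfl, ?_, ?_⟩
    · rintro b (hb | ⟨f, hb⟩) <;> simp [aplay, initC, init] at hb
    · intro k hk
      simp only [aplay, initC, init, Ph.coin.injEq] at hk
      have := S0_pos c
      omega
  | succ t ih =>
    show SmallNm c (t + 1) ((stepC c u ω (aplay u σ ω t).1 (σ (aplay u σ ω t).2)).loc p)
    unfold stepC stepY
    dsimp only
    by_cases hp : p = σ (aplay u σ ω t).2
    · subst hp
      rw [Function.update_self]
      exact (ih _).nxt _ _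
    · rw [Function.update_of_ne hp]
      obtain ⟨h1, h2, h3⟩ := ih p
      exact ⟨h1.trans (Nat.le_succ t), fun a ha => (h2 a ha).trans (Nat.le_succ t), h3⟩

theorem SmallNm.nm_lt {t N : ℕ} {s : LS} (h : SmallNm c t s) (hN : 2 * t + 4 * S0 c + 4 ≤ N) :
    (nm s).1 < N ∧ (nm s).2 < N := by
  obtain ⟨h1, h2, h3⟩ := h
  unfold nm
  cases hp : s.ph <;> dsimp only
  case coin k =>
    have := h3 k hp
    omega
  case wr a =>
    have := h2 a (Or.inl hp)
    omega
  all_goals omega

/-- The play up to time `t` depends only on coins with names below `2 * t + 4 * S0 c + 4` (any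
`N` at least this). Induction on `t`; names: in the phase `coin k`: `k < 2 * S0 c`; `Run.name_le`. -/
theorem dep_play (u : Fin n → ℕ) (σ : AStr n) {t N : ℕ} (hN : 2 * t + 4 * S0 c + 4 ≤ N) :
    Dep N (fun ω : Coins c n => aplay u σ ω t) := by
  intro ω ω' h
  induction t with
  | zero => rfl
  | succ t ih =>
    have h1 := ih (by omega)
    dsimp only at h1 ⊢
    have h2 : ω (σ (aplay u σ ω t).2) (nm ((aplay u σ ω t).1.loc (σ (aplay u σ ω t).2))) =
        ω' (σ (aplay u σ ω t).2) (nm ((aplay u σ ω t).1.loc (σ (aplay u σ ω t).2))) := by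
      have h3 := (smallNm_aplay u σ ω t (σ (aplay u σ ω t).2)).nm_lt
        (N := N) (by omega)
      exact h _ _ _ h3.1 h3.2
    show (stepC c u ω (aplay u σ ω t).1 (σ (aplay u σ ω t).2),
      (aplay u σ ω t).2 ++ [evS u ω (aplay u σ ω t).1 (σ (aplay u σ ω t).2)]) =
      (stepC c u ω' (aplay u σ ω' t).1 (σ (aplay u σ ω' t).2),
      (aplay u σ ω' t).2 ++ [evS u ω' (aplay u σ ω' t).1 (σ (aplay u σ ω' t).2)])
    rw [← h1]
    unfold stepC evS
    rw [h2]

/-- The number of steps of `p` until time `t` depends only on finitely many coins; it is at most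
`(3 * S0 c + 3) * (ep + 1)` (`Run.steps_le`, `le_ep`), and the average of `ep` is at most `1/3`
(`avg_ep`). So its expectation is at most `(4 * (S0 c + 1))`. -/
theorem exp_steps (hn : n ≤ 2 ^ (c * c)) (u : Fin n → ℕ) (hu : Function.Injective u)
    (σ : AStr n) (t : ℕ) (p : Fin n) :
    ∫⁻ ω, (((runOf u hu σ ω).steps t p : ℕ) : ℝ≥0∞) ∂(mu c n) ≤ 4 * (S0 c + 1 : ℕ) := by
  classical
  set N := 2 * t + 4 * S0 c + 4 with hN
  have hdep : ∀ τ ≤ t, Dep N (fun ω : Coins c n => (runOf u hu σ ω).steps τ p) := by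
    intro τ hτ ω ω' h
    induction τ with
    | zero => rfl
    | succ τ ih =>
      have h1 := ih (by omega)
      have h2 := dep_play (c := c) u σ (t := τ) (N := N) (by omega) ω ω' h
      dsimp only at h1 h2 ⊢
      have h3 : (runOf u hu σ ω).loc τ p = (runOf u hu σ ω').loc τ p := by
        unfold Run.loc
        rw [runOf_cf, runOf_cf, h2]
      have h4 : (runOf u hu σ ω).s τ = (runOf u hu σ ω').s τ := by
        show σ (aplay u σ ω τ).2 = σ (aplay u σ ω' τ).2
        rw [h2]
      unfold Run.steps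
      rw [h1, h3, h4]
  have hdep2 : Dep N (fun ω : Coins c n => (((runOf u hu σ ω).steps t p : ℕ) : ℝ≥0∞)) := by
    intro ω ω' h
    have := hdep t le_rfl ω ω' h
    dsimp only at this ⊢
    rw [this]
  rw [lintegral_dep hdep2]
  set K := Fintype.card ((Fin n × Fin N × Fin N) → Cn c) with hK
  have hKpos : 0 < K := Fintype.card_pos
  have h1 : ∀ w : (Fin n × Fin N × Fin N) → Cn c, (runOf u hu σ (ext c n N w)).steps t p ≤
      (3 * S0 c + 3) * (ep (aplay u σ (ext c n N w) t).1 + 1) := by
    intro w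
    refine (Run.steps_le _ t p).trans ?_
    refine Nat.mul_le_mul_left _ (Nat.succ_le_succ ?_)
    have := le_ep ((runOf u hu σ (ext c n N w)).cf t) p
    rw [runOf_cf] at this
    unfold Run.loc
    rw [runOf_cf]
    exact this
  have h2 := avg_ep (c := c) hn u hu σ (t := t) (N := N) le_rfl
  have h3 : (∑ w : (Fin n × Fin N × Fin N) → Cn c, (runOf u hu σ (ext c n N w)).steps t p) ≤
      4 * (S0 c + 1) * K := by
    have h4 : ((∑ w : (Fin n × Fin N × Fin N) → Cn c,
        (runOf u hu σ (ext c n N w)).steps t p : ℕ) : ℝ) ≤ ((4 * (S0 c + 1) * K : ℕ) : ℝ) := by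
      have h5 : ((∑ w : (Fin n × Fin N × Fin N) → Cn c,
          (runOf u hu σ (ext c n N w)).steps t p : ℕ) : ℝ) ≤
          ∑ w : (Fin n × Fin N × Fin N) → Cn c,
            (3 * (S0 c : ℝ) + 3) * ((ep (aplay u σ (ext c n N w) t).1 : ℝ) + 1) := by
        rw [Nat.cast_sum]
        refine Finset.sum_le_sum fun w _ => ?_
        have := h1 w
        have h6 : (((runOf u hu σ (ext c n N w)).steps t p : ℕ) : ℝ) ≤
            (((3 * S0 c + 3) * (ep (aplay u σ (ext c n N w) t).1 + 1) : ℕ) : ℝ) := by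
          exact_mod_cast this
        refine h6.trans (le_of_eq ?_)
        push_cast
        ring
      refine h5.trans ?_
      rw [← Finset.mul_sum, Finset.sum_add_distrib, Finset.sum_const, Finset.card_univ, ← hK,
        nsmul_eq_mul, mul_one]
      have h7 : (0 : ℝ) ≤ 3 * (S0 c : ℝ) + 3 := by
        have h77 : (0 : ℝ) ≤ (S0 c : ℝ) := Nat.cast_nonneg (S0 c)
        linarith
      calc (3 * (S0 c : ℝ) + 3) * (∑ w : (Fin n × Fin N × Fin N) → Cn c,
              (ep (aplay u σ (ext c n N w) t).1 : ℝ) + K)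
          ≤ (3 * (S0 c : ℝ) + 3) * ((K : ℝ) * (1 / 3) + K) :=
            mul_le_mul_of_nonneg_left (by linarith [h2]) h7
        _ = ((4 * (S0 c + 1) * K : ℕ) : ℝ) := by push_cast; ring
    exact_mod_cast h4
  have h8 : (∑ w : (Fin n × Fin N × Fin N) → Cn c,
      (((runOf u hu σ (ext c n N w)).steps t p : ℕ) : ℝ≥0∞)) ≤
      4 * ((S0 c + 1 : ℕ) : ℝ≥0∞) * (K : ℝ≥0∞) := by
    rw [← Nat.cast_sum]
    have : ((∑ w : (Fin n × Fin N × Fin N) → Cn c,
        (runOf u hu σ (ext c n N w)).steps t p : ℕ) : ℝ≥0∞) ≤ ((4 * (S0 c + 1) * K : ℕ) : ℝ≥0∞) :=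
      Nat.cast_le.2 h3
    refine this.trans (le_of_eq ?_)
    push_cast
    ring
  have hK0 : (K : ℝ≥0∞) ≠ 0 := by
    rw [Ne, Nat.cast_eq_zero]
    omega
  calc (∑ w : (Fin n × Fin N × Fin N) → Cn c,
        (((runOf u hu σ (ext c n N w)).steps t p : ℕ) : ℝ≥0∞)) * (K : ℝ≥0∞)⁻¹
      ≤ 4 * ((S0 c + 1 : ℕ) : ℝ≥0∞) * (K : ℝ≥0∞) * (K : ℝ≥0∞)⁻¹ := by
        gcongr
    _ = 4 * ((S0 c + 1 : ℕ) : ℝ≥0∞) := by
        rw [mul_assoc, ENNReal.mul_inv_cancel hK0 (ENNReal.natCast_ne_top K), mul_one]

end

end Pool.Agent.Lib.MP_2ab09f_lc.SQ
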