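import Mathlib

import Pool.Agent.Lib.MP_2ab09f_lcS.Meas

/-!
The main theorem.
-/

open MeasureTheory

open scoped ENNReal

namespace Pool.Agent.Lib.MP_2ab09f_lc.SQ

variable {c n : ℕ}

theorem stOf_append (c i : ℕ) (w : ℕ × ℕ → Cn c) (h : List ℕ) (a : ℕ) :
    stOf c i w (h ++ [a]) = nxt c (w (nm (stOf c i w h))) (stOf c i w h) a := by
  simp [stOf, List.foldl_append]

theorem stOf_finite (c i : ℕ) (h : List ℕ) :
    {s | ∃ w : ℕ × ℕ → Cn c, stOf c i w h = s}.Finite := by
  induction h using List.reverseRecOn with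
  | nil =>
    refine (Set.finite_singleton (init i)).subset ?_
    rintro s ⟨w, hw⟩
    exact hw.symm
  | append_singleton h a ih =>
    refine ((ih.prod (Set.finite_univ (α := Cn c))).image
      (fun x : LS × Cn c => nxt c x.2 x.1 a)).subset ?_
    rintro s ⟨w, hw⟩
    refine ⟨(stOf c i w h, w (nm (stOf c i w h))), ⟨⟨w, rfl⟩, Set.mem_univ _⟩, ?_⟩
    rw [← hw, stOf_append]

theorem meas_gen (c i : ℕ) (h : List ℕ)
    (ih : ∀ s, MeasurableSet {w : ℕ × ℕ → Cn c | stOf c i w h = s}) (g : Cn c → LS → Prop) :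
    MeasurableSet {w : ℕ × ℕ → Cn c | g (w (nm (stOf c i w h))) (stOf c i w h)} := by
  have : {w : ℕ × ℕ → Cn c | g (w (nm (stOf c i w h))) (stOf c i w h)} =
      ⋃ s ∈ {s | ∃ w : ℕ × ℕ → Cn c, stOf c i w h = s},
        ({w : ℕ × ℕ → Cn c | stOf c i w h = s} ∩ {w | g (w (nm s)) s}) := by
    ext w
    simp only [Set.mem_ofPred_eq, Set.mem_iUnion, Set.mem_inter_iff]
    constructor
    · intro hw
      exact ⟨_, ⟨w, rfl⟩, rfl, hw⟩
    · rintro ⟨s, -, h1, h2⟩
      rw [h1]
      exact h2
  rw [this]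
  refine MeasurableSet.biUnion (stOf_finite c i h).countable fun s _ => (ih s).inter ?_
  have h1 : MeasurableSet {y : Cn c | g y s} := (Set.toFinite _).measurableSet
  have h2 : Measurable fun w : ℕ × ℕ → Cn c => w (nm s) := measurable_pi_apply (nm s)
  exact h2 h1

theorem meas_stOf (c i : ℕ) (h : List ℕ) :
    ∀ s, MeasurableSet {w : ℕ × ℕ → Cn c | stOf c i w h = s} := by
  induction h using List.reverseRecOn with
  | nil =>
    intro s
    exact MeasurableSet.const (init i = s)
  | append_singleton h a ih =>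
    intro s
    have := meas_gen c i h ih (fun y s' => nxt c y s' a = s)
    simp only [stOf_append]
    exact this

/-- The set of coins with a given action is measurable: it depends on one processor's coins with
names in a finite set. (`stOf c i w h` depends on finitely many coordinates of `w`; induction on the
list, `measurable_pi_apply`, countability of `LS` and `Act`; or: the set is a finite union of
cylinders.) -/
theorem meas_prog (c i : ℕ) (h : List ℕ) (a : Act) :
    MeasurableSet {w : ℕ × ℕ → Cn c | prog c i w h = a} :=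
  meas_gen c i h (meas_stOf c i h) (fun y s => toAct (act c i y s) = a)

/-- The algorithm. -/
noncomputable def alg (c n : ℕ) : Alg n (Coins c n) := Alg.ofLocal n (prog c) (meas_prog c)

theorem alg_at (u : Fin n → ℕ) (ω : Coins c n) :
    (alg c n).at u ω = fun p => prog c (u p) (ω p) := rfl

theorem alg_correct (c n : ℕ) : (alg c n).Correct (mu c n) := by
  intro u hu L
  exact Filter.Eventually.of_forall fun ω => correct_all u hu ω L

theorem dep_steps (u : Fin n → ℕ) (hu : Function.Injective u) (σ : AStr n) (p : Fin n) (t : ℕ)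
    {N : ℕ} (hN : 2 * t + 4 * S0 c + 4 ≤ N) :
    Dep N (fun ω : Coins c n => (runOf u hu σ ω).steps t p) := by
  intro ω ω' h
  induction t with
  | zero => rfl
  | succ τ ih =>
    have h1 := ih (by omega)
    have h2 := dep_play (c := c) u σ (t := τ) (N := N) (by omega) ω ω' h
    dsimp only at h1 h2 ⊢
    have h3 : (runOf u hu σ ω).loc τ p = (runOf u hu σ ω').loc τ p := by
      unfold Run.loc
      rw [runOf_cf, runOf_cf, h2]
    have h4 : (runOf u hu σ ω).s τ = (runOf u hu σ ω').s τ := by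
      show σ (aplay u σ ω τ).2 = σ (aplay u σ ω' τ).2
      rw [h2]
    unfold Run.steps
    rw [h1, h3, h4]

theorem meas_steps (u : Fin n → ℕ) (hu : Function.Injective u) (σ : Adv n) (p : Fin n) (t : ℕ) :
    Measurable fun ω : Coins c n =>
      (((play ((alg c n).at u ω) σ t).1.hist p).length : ℝ≥0∞) := by
  have h1 : Dep (2 * t + 4 * S0 c + 4) (fun ω : Coins c n =>
      (((play ((alg c n).at u ω) σ t).1.hist p).length : ℝ≥0∞)) := by
    intro ω ω' h
    have h2 := dep_steps u hu (fun h => σ (h.map toEv)) p t le_rfl ω ω' h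
    dsimp only at h2 ⊢
    rw [alg_at, alg_at, sim_steps u hu σ ω t p, sim_steps u hu σ ω' t p, h2]
  exact h1.measurable

theorem step_hist_length {ι : Type*} [DecidableEq ι] (P : ι → Prog) (κ : Conf ι) (q p : ι) :
    (κ.hist p).length ≤ ((step P κ q).hist p).length := by
  unfold step
  cases P q (κ.hist q) with
  | read r =>
    dsimp only
    by_cases hp : p = q
    · subst hp
      rw [Function.update_self, List.length_append]
      omega
    · rw [Function.update_of_ne hp]
  | write r v =>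
    dsimp only
    by_cases hp : p = q
    · subst hp
      rw [Function.update_self, List.length_append]
      omega
    · rw [Function.update_of_ne hp]
  | out v => exact le_rfl

theorem step_hist_length_self {ι : Type*} [DecidableEq ι] (P : ι → Prog) (κ : Conf ι) (p : ι)
    (h : ∀ a, ¬ Outputs P κ p a) :
    ((step P κ p).hist p).length = (κ.hist p).length + 1 := by
  unfold step
  cases hP : P p (κ.hist p) with
  | read r =>
    dsimp only
    rw [Function.update_self, List.length_append]
    rfl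
  | write r v =>
    dsimp only
    rw [Function.update_self, List.length_append]
    rfl
  | out v => exact absurd hP (h v)

theorem play_mono (P : Fin n → Prog) (σ : Adv n) (p : Fin n) :
    Monotone fun t => ((play P σ t).1.hist p).length := by
  refine monotone_nat_of_le_succ fun t => ?_
  exact step_hist_length P (play P σ t).1 (σ (play P σ t).2) p

/-- Monotone convergence (`lintegral_iSup`: the lengths grow with `t`; measurability from
`dep_play`, `sim_steps`), `exp_steps`. -/
theorem alg_steps (hn : n ≤ 2 ^ (c * c)) (u : Fin n → ℕ) (hu : Function.Injective u)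
    (σ : Adv n) (p : Fin n) : (alg c n).expStepsAdv (mu c n) u σ p ≤ 4 * (S0 c + 1 : ℕ) := by
  unfold Alg.expStepsAdv
  rw [lintegral_iSup (fun t => meas_steps u hu σ p t)]
  · refine iSup_le fun t => ?_
    refine le_trans (le_of_eq ?_) (exp_steps hn u hu (fun h => σ (h.map toEv)) t p)
    refine lintegral_congr fun ω => ?_
    rw [alg_at, sim_steps u hu σ ω t p]
  · intro s t hst ω
    exact Nat.cast_le.2 (play_mono ((alg c n).at u ω) σ p hst)

/-- A general fact: finite expectations imply wait-freedom. Almost surely `⨆ t, length < ∞`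
(`ae_lt_top`); if `p` is scheduled infinitely often and never outputs, then its history grows at each
of these times. -/
theorem waitFree {Ω : Type*} [MeasurableSpace Ω] (A : Alg n Ω) (μ : Measure Ω) (u : Fin n → ℕ)
    (σ : Adv n) (hm : ∀ p, Measurable fun ω =>
      ⨆ t, (((play (A.at u ω) σ t).1.hist p).length : ℝ≥0∞))
    (h : ∀ p, A.expStepsAdv μ u σ p ≠ ∞) : A.WaitFreeAdv μ u σ := by
  have h1 : ∀ᵐ ω ∂μ, ∀ p, (⨆ t, (((play (A.at u ω) σ t).1.hist p).length : ℝ≥0∞)) < ∞ :=
    ae_all_iff.2 fun p => ae_lt_top (hm p) (h p)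
  unfold Alg.WaitFreeAdv
  filter_upwards [h1] with ω hω p hp
  by_contra hne
  push Not at hne
  have h2 : ∀ m : ℕ, ∃ t, m ≤ ((play (A.at u ω) σ t).1.hist p).length := by
    intro m
    induction m with
    | zero => exact ⟨0, Nat.zero_le _⟩
    | succ m ih =>
      obtain ⟨t, ht⟩ := ih
      obtain ⟨t', ht', hs⟩ := hp t
      refine ⟨t' + 1, ?_⟩
      have h3 : ((play (A.at u ω) σ (t' + 1)).1.hist p).length =
          ((play (A.at u ω) σ t').1.hist p).length + 1 := by
        show ((step (A.at u ω) (play (A.at u ω) σ t').1 (σ (play (A.at u ω) σ t').2)).hist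
          p).length = _
        rw [hs]
        exact step_hist_length_self _ _ _ fun a => hne t' a
      have h4 := play_mono (A.at u ω) σ p ht'
      dsimp only at h4
      omega
  have h5 : (⨆ t, (((play (A.at u ω) σ t).1.hist p).length : ℝ≥0∞)) = ∞ := by
    refine ENNReal.eq_top_of_forall_nnreal_le fun r => ?_
    obtain ⟨m, hm'⟩ := exists_nat_ge r
    obtain ⟨t, ht⟩ := h2 m
    calc (r : ℝ≥0∞) ≤ ((m : NNReal) : ℝ≥0∞) := ENNReal.coe_le_coe.2 hm'
      _ = (m : ℝ≥0∞) := ENNReal.coe_natCast m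
      _ ≤ (((play (A.at u ω) σ t).1.hist p).length : ℝ≥0∞) := Nat.cast_le.2 ht
      _ ≤ _ := le_iSup (fun t => (((play (A.at u ω) σ t).1.hist p).length : ℝ≥0∞)) t
  exact absurd h5 (hω p).ne

theorem alg_waitFree (hn : n ≤ 2 ^ (c * c)) (u : Fin n → ℕ) (hu : Function.Injective u)
    (σ : Adv n) : (alg c n).WaitFreeAdv (mu c n) u σ := by
  refine waitFree (alg c n) (mu c n) u σ (fun p => ?_) fun p => ?_
  · exact Measurable.iSup fun t => meas_steps u hu σ p t
  · refine ne_top_of_le_ne_top ?_ (alg_steps hn u hu σ p)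
    exact ENNReal.mul_ne_top (by simp) (ENNReal.natCast_ne_top _)

/-- `c = ⌈sqrt (clog 2 n)⌉`: `n ≤ 2 ^ (c * c)` and `4 * (S0 c + 1) ≤ 250000 * sqrt (log n)`.
(`S0 c = 2577 * c + 42754`; `c ≤ sqrt (clog 2 n) + 1`, `clog 2 n ≤ log n / log 2 + 1`, and
`log n ≥ log 2` for `n ≥ 2`.) -/
theorem exists_c (n : ℕ) (hn : 2 ≤ n) : ∃ c : ℕ, n ≤ 2 ^ (c * c) ∧
    ((4 * (S0 c + 1) : ℕ) : ℝ) ≤ 300000 * Real.sqrt (Real.log n) := by
  have hlog2 : (0.6931471803 : ℝ) < Real.log 2 := Real.log_two_gt_d9
  have hn0 : (0 : ℝ) < n := by positivity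
  have hL : Real.log 2 ≤ Real.log n :=
    Real.log_le_log (by norm_num) (by exact_mod_cast hn)
  set L := Real.log n with hLdef
  set m := Nat.clog 2 n with hm
  have hm1 : (m : ℝ) ≤ L / Real.log 2 + 1 := by
    have h1 : 2 ^ m.pred < n := Nat.pow_pred_clog_lt_self (by norm_num) (by omega)
    have h2 : ((m.pred : ℕ) : ℝ) * Real.log 2 ≤ L := by
      have h3 : Real.log ((2 : ℝ) ^ m.pred) ≤ Real.log n :=
        Real.log_le_log (by positivity) (by exact_mod_cast h1.le)
      rwa [Real.log_pow] at h3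
    have h4 : (m : ℝ) ≤ (m.pred : ℕ) + 1 := by
      have : m ≤ m.pred + 1 := by
        rw [Nat.pred_eq_sub_one]; omega
      exact_mod_cast this
    have h5 : ((m.pred : ℕ) : ℝ) ≤ L / Real.log 2 := by
      rw [le_div_iff₀ (by linarith)]; exact h2
    linarith
  refine ⟨⌈Real.sqrt m⌉₊, ?_, ?_⟩
  · have h1 : m ≤ ⌈Real.sqrt m⌉₊ * ⌈Real.sqrt m⌉₊ := by
      have h2 : (m : ℝ) ≤ (⌈Real.sqrt m⌉₊ : ℝ) * ⌈Real.sqrt m⌉₊ := by
        have h3 := Nat.le_ceil (Real.sqrt m)
        calc (m : ℝ) = Real.sqrt m * Real.sqrt m := (Real.mul_self_sqrt (by positivity)).symm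
          _ ≤ _ := mul_self_le_mul_self (Real.sqrt_nonneg _) h3
      exact_mod_cast h2
    exact (Nat.le_pow_clog (by norm_num) n).trans (Nat.pow_le_pow_right (by norm_num) h1)
  · set c := ⌈Real.sqrt m⌉₊ with hc
    have hc1 : (c : ℝ) ≤ Real.sqrt m + 1 := (Nat.ceil_lt_add_one (Real.sqrt_nonneg _)).le
    set s := Real.sqrt (L / Real.log 2) with hs
    have hLs : 1 ≤ L / Real.log 2 := by
      rw [le_div_iff₀ (by linarith)]; linarith
    have hs1 : 1 ≤ s := by
      rw [hs]; exact Real.one_le_sqrt.2 hLs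
    have hsm : Real.sqrt m ≤ 2 * s := by
      rw [Real.sqrt_le_left (by positivity), mul_pow, hs, Real.sq_sqrt (by linarith)]
      linarith
    have hc2 : (c : ℝ) ≤ 3 * s := by linarith
    have hS : ((4 * (S0 c + 1) : ℕ) : ℝ) = 10308 * c + 171020 := by
      have : 4 * (S0 c + 1) = 10308 * c + 171020 := by
        simp only [S0, X4, JJ, X3]; ring
      rw [this]; push_cast; ring
    have hsL : s ≤ 1.3 * Real.sqrt L := by
      rw [hs, Real.sqrt_le_left (by positivity), mul_pow, Real.sq_sqrt (by linarith),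
        div_le_iff₀ (by linarith)]
      nlinarith
    rw [hS]
    nlinarith [Real.sqrt_nonneg L]

/-- Randomized id consensus in `O(sqrt (log n))` expected steps per processor. -/
theorem main (n : ℕ) (hn : 2 ≤ n) :
    ∃ (Ω : Type) (_ : MeasurableSpace Ω) (μ : Measure Ω) (_ : IsProbabilityMeasure μ)
      (prog : ℕ → Ω → Prog) (hm : ∀ i h a, MeasurableSet {ω | prog i ω h = a}),
      (Alg.ofLocal n prog hm).Correct (Measure.pi fun _ => μ) ∧
      ∀ u : Fin n → ℕ, Function.Injective u → ∀ σ : Adv n,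
        (Alg.ofLocal n prog hm).WaitFreeAdv (Measure.pi fun _ => μ) u σ ∧
        ∀ p, (Alg.ofLocal n prog hm).expStepsAdv (Measure.pi fun _ => μ) u σ p ≤
          ENNReal.ofReal (300000 * Real.sqrt (Real.log n)) := by
  obtain ⟨c, h1, h2⟩ := exists_c n hn
  refine ⟨ℕ × ℕ → Cn c, inferInstance, mu1 c, inferInstance, SQ.prog c, meas_prog c,
    alg_correct c n, ?_⟩
  intro u hu σ
  refine ⟨alg_waitFree h1 u hu σ, ?_⟩
  intro p
  refine (alg_steps h1 u hu σ p).trans ?_
  have h3 : (4 * (S0 c + 1 : ℕ) : ℝ≥0∞) = ENNReal.ofReal ((4 * (S0 c + 1) : ℕ) : ℝ) := by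
    rw [ENNReal.ofReal_natCast]; push_cast; ring
  rw [h3]
  exact ENNReal.ofReal_le_ofReal h2

end Pool.Agent.Lib.MP_2ab09f_lc.SQ
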